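import Pool.Agent.Lib_helper18.AQ.K.DefsW

/-!
# PENK (MP_892e4c_nt), block PA1 (helper87): the number of forms modulo `p`
-/

set_option autoImplicit false

namespace Pool.Agent.AQ.PENK

open Finset Pool.Agent.PENT Pool.Agent.PENK

variable [FD]

/-- the count in terms of `ZMod p` -/
theorem pa1_card (p : ℕ) [NeZero p] :
    (VV p).card = (univ.filter (fun z : ZMod p × ZMod p × ZMod p =>
      z.1 * z.2.2 = z.2.1 ^ 2 + (FD.D : ZMod p))).card := by
  refine Finset.card_bij' (fun r _ => ((r.1 : ZMod p), (r.2.1 : ZMod p), (r.2.2 : ZMod p)))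
    (fun z _ => ((z.1.val : ℤ), (z.2.1.val : ℤ), (z.2.2.val : ℤ))) ?_ ?_ ?_ ?_
  · rintro ⟨a, b, c⟩ h
    simp only [VV, mem_filter, mem_product, mem_Ico] at h
    have h1 : ((a * c - b ^ 2 - FD.D : ℤ) : ZMod p) = 0 :=
      (ZMod.intCast_zmod_eq_zero_iff_dvd _ _).2 h.2
    push_cast at h1
    simp only [mem_filter, mem_univ, true_and]
    linear_combination h1
  · rintro ⟨a, b, c⟩ h
    simp only [mem_filter, mem_univ, true_and] at h
    simp only [VV, mem_filter, mem_product, mem_Ico]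
    refine ⟨⟨⟨by positivity, by exact_mod_cast ZMod.val_lt a⟩,
      ⟨by positivity, by exact_mod_cast ZMod.val_lt b⟩,
      ⟨by positivity, by exact_mod_cast ZMod.val_lt c⟩⟩, ?_⟩
    rw [← ZMod.intCast_zmod_eq_zero_iff_dvd]
    push_cast
    simp only [ZMod.natCast_val, ZMod.cast_id', id_eq]
    linear_combination h
  · rintro ⟨a, b, c⟩ h
    simp only [VV, mem_filter, mem_product, mem_Ico] at h
    obtain ⟨⟨⟨a0, a1⟩, ⟨b0, b1⟩, ⟨c0, c1⟩⟩, -⟩ := h
    have key : ∀ x : ℤ, 0 ≤ x → x < p → (((x : ZMod p).val : ℕ) : ℤ) = x := by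
      intro x h0 h1
      rw [ZMod.val_intCast, Int.emod_eq_of_lt h0 h1]
    simp only [key a a0 a1, key b b0 b1, key c c0 c1]
  · rintro ⟨a, b, c⟩ _
    simp

theorem pa1_lin {p : ℕ} [Fact p.Prime] (a m : ZMod p) (ha : a ≠ 0) :
    (univ.filter (fun c : ZMod p => a * c = m)).card = 1 := by
  rw [Finset.card_eq_one]
  refine ⟨a⁻¹ * m, ?_⟩
  ext c
  simp only [mem_filter, mem_univ, true_and, mem_singleton]
  constructor
  · intro h
    rw [← h, ← mul_assoc, inv_mul_cancel₀ ha, one_mul]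
  · intro h
    rw [h, ← mul_assoc, mul_inv_cancel₀ ha, one_mul]

theorem pa1_sq {p : ℕ} [Fact p.Prime] (h2 : FD.N0 < p) :
    (((univ.filter (fun b : ZMod p => b ^ 2 = -(FD.D : ZMod p))).card : ℕ) : ℤ) =
      1 + if Sp p then 1 else -1 := by
  have hN := FD.two
  have hp2 : p ≠ 2 := by omega
  have h := legendreSym.card_sqrts p hp2 (-FD.D)
  have h1 : (univ.filter (fun b : ZMod p => b ^ 2 = -(FD.D : ZMod p))) =
      {x : ZMod p | x ^ 2 = ((-FD.D : ℤ) : ZMod p)}.toFinset := by
    ext b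
    simp
  have h0 : ((-FD.D : ℤ) : ZMod p) ≠ 0 := by
    intro h0
    rw [ZMod.intCast_zmod_eq_zero_iff_dvd] at h0
    exact FD.bad p Fact.out h2 ((dvd_neg).1 h0)
  rw [h1]
  have h2' : ((({x : ZMod p | x ^ 2 = ((-FD.D : ℤ) : ZMod p)}.toFinset).card : ℕ) : ℤ) =
      legendreSym p (-FD.D) + 1 := by
    rw [← h]
  rw [h2']
  by_cases hs : Sp p
  · rw [if_pos hs, (legendreSym.eq_one_iff p h0).2 hs]
  · rw [if_neg hs, (legendreSym.eq_neg_one_iff p).2 hs]
    ring

theorem card_VV_pr {p : ℕ} (hp : p.Prime) (h2 : FD.N0 < p) :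
    ((VV p).card : ℤ) = p * (p + if Sp p then 1 else -1) := by
  have : Fact p.Prime := ⟨hp⟩
  rw [pa1_card p, Finset.card_filter, Fintype.sum_prod_type]
  have h3 : ∀ a : ZMod p, (∑ y : ZMod p × ZMod p, if a * y.2 = y.1 ^ 2 + (FD.D : ZMod p) then (1 : ℕ) else 0) =
      if a = 0 then p * (univ.filter (fun b : ZMod p => b ^ 2 = -(FD.D : ZMod p))).card else p := by
    intro a
    rw [Fintype.sum_prod_type]
    by_cases ha : a = 0
    · rw [if_pos ha]
      have h4 : ∀ b : ZMod p, (∑ c : ZMod p, if a * c = b ^ 2 + (FD.D : ZMod p) then (1 : ℕ) else 0) =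
          if b ^ 2 = -(FD.D : ZMod p) then p else 0 := by
        intro b
        rw [ha]
        by_cases hb : b ^ 2 = -(FD.D : ZMod p)
        · rw [if_pos hb]
          simp [hb, ZMod.card]
        · rw [if_neg hb]
          apply Finset.sum_eq_zero
          intro c _
          rw [if_neg]
          intro h
          apply hb
          linear_combination -h
      simp only [h4]
      rw [← Finset.sum_filter, Finset.sum_const, smul_eq_mul, mul_comm]
    · rw [if_neg ha]
      have h4 : ∀ b : ZMod p, (∑ c : ZMod p, if a * c = b ^ 2 + (FD.D : ZMod p) then (1 : ℕ) else 0) = 1 := by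
        intro b
        rw [← Finset.card_filter]
        exact pa1_lin a _ ha
      simp only [h4]
      simp [ZMod.card]
  simp only [h3]
  rw [Finset.sum_ite]
  have h5 : (univ.filter (fun a : ZMod p => a = 0)).card = 1 := by
    rw [Finset.card_eq_one]
    exact ⟨0, by ext; simp⟩
  have h6 : (univ.filter (fun a : ZMod p => ¬ a = 0)).card = p - 1 := by
    have h7 := Finset.card_filter_add_card_filter_not (s := (univ : Finset (ZMod p)))
      (fun a : ZMod p => a = 0)
    rw [h5, Finset.card_univ, ZMod.card] at h7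
    omega
  rw [Finset.sum_const, Finset.sum_const, h5, h6]
  have h8 := pa1_sq (p := p) h2
  simp only [smul_eq_mul, one_mul]
  push_cast
  rw [h8, Nat.cast_sub hp.one_le]
  push_cast
  ring

end Pool.Agent.AQ.PENK

namespace Pool.Agent.AQ.PENK

theorem card_VV : type_of% @card_VV_pr := @card_VV_pr

end Pool.Agent.AQ.PENK
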