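import Pool.Agent.Lib_helper18.AQ.K.DefsW
import Pool.Agent.Lib_helper18.AQ.KF.PA1

/-! Block PA2 (project PENT, part PENK) -/

set_option autoImplicit false

namespace Pool.Agent.AQ.PENK

open Finset Pool.Agent.PENT Pool.Agent.PENK

variable [FD]

/-- the number of roots of `t ^ 2 = -D` -/
theorem pa2_roots {p : ℕ} [Fact p.Prime] (h2 : FD.N0 < p) :
    ((univ : Finset (ZMod p)).filter (fun t => t ^ 2 = -(FD.D : ZMod p))).card =
      if Sp p then 2 else 0 := by
  have h := pa1_sq (p := p) h2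
  have h' : (((univ : Finset (ZMod p)).filter (fun t => t ^ 2 = -(FD.D : ZMod p))).card : ℤ) =
      ((if Sp p then 2 else 0 : ℕ) : ℤ) := by
    by_cases hs : Sp p
    · rw [if_pos hs]
      rw [if_pos hs] at h
      rw [h]
      norm_num
    · rw [if_neg hs]
      rw [if_neg hs] at h
      rw [h]
      norm_num
  exact_mod_cast h'

/-- the forms as points over `ZMod p` -/
theorem pa2_card {p : ℕ} [Fact p.Prime] (P : Bas → Prop) (P' : ZMod p × ZMod p × ZMod p → Prop)
    [DecidablePred P] [DecidablePred P'] (h : ∀ r : Bas, P r ↔ P' (r.1, r.2.1, r.2.2)) :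
    ((VV p).filter P).card = ((univ : Finset (ZMod p × ZMod p × ZMod p)).filter
      (fun q => q.1 * q.2.2 - q.2.1 ^ 2 - (FD.D : ZMod p) = 0 ∧ P' q)).card := by
  have hp0 : p ≠ 0 := (Fact.out : p.Prime).ne_zero
  have hcast : ∀ x : ℤ, (p : ℤ) ∣ x ↔ (x : ZMod p) = 0 := fun x =>
    (ZMod.intCast_zmod_eq_zero_iff_dvd x p).symm
  have hval : ∀ s : ZMod p, ((s.val : ℤ) : ZMod p) = s := fun s => by
    rw [Int.cast_natCast, ZMod.natCast_zmod_val]
  have hmem : ∀ s : ZMod p, (s.val : ℤ) ∈ Ico (0 : ℤ) p := fun s => by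
    rw [mem_Ico]
    exact ⟨by positivity, by exact_mod_cast ZMod.val_lt s⟩
  have hinv : ∀ x ∈ Ico (0 : ℤ) p, (((x : ZMod p)).val : ℤ) = x := fun x hx => by
    rw [mem_Ico] at hx
    rw [ZMod.val_intCast, Int.emod_eq_of_lt hx.1 hx.2]
  have hV : ∀ r : Bas, r ∈ (VV p).filter P ↔ (r.1 ∈ Ico (0 : ℤ) p ∧ r.2.1 ∈ Ico (0 : ℤ) p ∧
      r.2.2 ∈ Ico (0 : ℤ) p) ∧ ((r.1 : ZMod p) * r.2.2 - (r.2.1 : ZMod p) ^ 2 - (FD.D : ZMod p) = 0 ∧
        P' (r.1, r.2.1, r.2.2)) := by
    intro r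
    rw [mem_filter, h r]
    unfold VV
    rw [mem_filter, mem_product, mem_product, hcast]
    push_cast
    tauto
  refine Finset.card_nbij' (fun r => ((r.1 : ZMod p), (r.2.1 : ZMod p), (r.2.2 : ZMod p)))
    (fun q => ((q.1.val : ℤ), (q.2.1.val : ℤ), (q.2.2.val : ℤ))) ?_ ?_ ?_ ?_
  · intro r hr
    have hr' := (hV r).1 (mem_coe.1 hr)
    rw [mem_coe, mem_filter]
    exact ⟨mem_univ _, hr'.2⟩
  · intro q hq
    rw [mem_coe, mem_filter] at hq
    rw [mem_coe, hV]
    simp only [hval]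
    exact ⟨⟨hmem _, hmem _, hmem _⟩, hq.2⟩
  · intro r hr
    have hr' := ((hV r).1 (mem_coe.1 hr)).1
    simp only [hinv _ hr'.1, hinv _ hr'.2.1, hinv _ hr'.2.2]
  · intro q _
    simp only [hval]

theorem card_VV_one_pr {p : ℕ} (hp : p.Prime) (h2 : FD.N0 < p) (c : ℤ × ℤ)
    (hc : ¬ ((p : ℤ) ∣ c.1 ∧ (p : ℤ) ∣ c.2)) :
    ((VV p).filter (fun r => (p : ℤ) ∣ Rf r c)).card = if Sp p then 2 * p else 0 := by
  classical
  have : Fact p.Prime := ⟨hp⟩
  have : NeZero p := ⟨hp.ne_zero⟩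
  have hcast : ∀ x : ℤ, (p : ℤ) ∣ x ↔ (x : ZMod p) = 0 := fun x =>
    (ZMod.intCast_zmod_eq_zero_iff_dvd x p).symm
  obtain ⟨a, ha⟩ : ∃ a : ZMod p, a = (c.1 : ZMod p) := ⟨_, rfl⟩
  obtain ⟨b, hb⟩ : ∃ b : ZMod p, b = (c.2 : ZMod p) := ⟨_, rfl⟩
  have hab : ¬ (a = 0 ∧ b = 0) := by
    rw [ha, hb, ← hcast, ← hcast]; exact hc
  rw [pa2_card (fun r => (p : ℤ) ∣ Rf r c)
    (fun q => q.1 * a ^ 2 + 2 * q.2.1 * a * b + q.2.2 * b ^ 2 = 0) (by
      intro r
      rw [hcast]
      unfold Rf qf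
      push_cast
      rw [ha, hb])]
  have hR : (if Sp p then 2 * p else 0) = ((univ : Finset (ZMod p)) ×ˢ
      ((univ : Finset (ZMod p)).filter (fun t => t ^ 2 = -(FD.D : ZMod p)))).card := by
    rw [card_product, pa2_roots h2, card_univ, ZMod.card]
    split_ifs
    · ring
    · ring
  rw [hR]
  by_cases h0 : a = 0
  · have hb0 : b ≠ 0 := fun h => hab ⟨h0, h⟩
    refine Finset.card_nbij' (fun q => (q.1, q.2.1)) (fun s => (s.1, s.2, 0)) ?_ ?_ ?_ ?_
    · rintro ⟨g, n, g'⟩ hq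
      rw [mem_coe, mem_filter] at hq
      obtain ⟨_, h1, h3⟩ := hq
      simp only [h0] at h1 h3
      have hg' : g' = 0 := by
        have : g' * b ^ 2 = 0 := by linear_combination h3
        rcases mul_eq_zero.1 this with h | h
        · exact h
        · exact absurd (pow_eq_zero_iff (by norm_num) |>.1 h) hb0
      rw [mem_coe, mem_product, mem_filter]
      refine ⟨mem_univ _, mem_univ _, ?_⟩
      simp only
      rw [hg'] at h1
      linear_combination -h1
    · rintro ⟨s, m⟩ hs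
      rw [mem_coe, mem_product, mem_filter] at hs
      rw [mem_coe, mem_filter]
      have hm : m ^ 2 = -(FD.D : ZMod p) := hs.2.2
      refine ⟨mem_univ _, ?_, ?_⟩
      · simp only
        linear_combination -hm
      · simp only [h0]
        ring
    · rintro ⟨g, n, g'⟩ hq
      rw [mem_coe, mem_filter] at hq
      obtain ⟨_, h1, h3⟩ := hq
      simp only [h0] at h1 h3
      have hg' : g' = 0 := by
        have : g' * b ^ 2 = 0 := by linear_combination h3
        rcases mul_eq_zero.1 this with h | h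
        · exact h
        · exact absurd (pow_eq_zero_iff (by norm_num) |>.1 h) hb0
      simp only [hg']
    · rintro ⟨s, m⟩ _
      rfl
  · obtain ⟨t, ht⟩ : ∃ t : ZMod p, b = a * t := ⟨b / a, by field_simp⟩
    have hkey : ∀ g n g' : ZMod p, g * a ^ 2 + 2 * n * a * b + g' * b ^ 2 = 0 ↔
        g = -(2 * n * t + g' * t ^ 2) := by
      intro g n g'
      rw [ht]
      have he : g * a ^ 2 + 2 * n * a * (a * t) + g' * (a * t) ^ 2 =
        a ^ 2 * (g + (2 * n * t + g' * t ^ 2)) := by ring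
      rw [he, mul_eq_zero, or_iff_right (pow_ne_zero 2 h0)]
      constructor
      · intro h; linear_combination h
      · intro h; rw [h]; ring
    refine Finset.card_nbij' (fun q => (q.2.2, q.2.1 + q.2.2 * t))
      (fun s => (-(2 * (s.2 - s.1 * t) * t + s.1 * t ^ 2), s.2 - s.1 * t, s.1)) ?_ ?_ ?_ ?_
    · rintro ⟨g, n, g'⟩ hq
      rw [mem_coe, mem_filter] at hq
      obtain ⟨_, h1, h3⟩ := hq
      simp only [hkey] at h1 h3
      rw [mem_coe, mem_product, mem_filter]
      refine ⟨mem_univ _, mem_univ _, ?_⟩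
      simp only
      rw [h3] at h1
      linear_combination -h1
    · rintro ⟨s, m⟩ hs
      rw [mem_coe, mem_product, mem_filter] at hs
      rw [mem_coe, mem_filter]
      have hm : m ^ 2 = -(FD.D : ZMod p) := hs.2.2
      refine ⟨mem_univ _, ?_, ?_⟩
      · simp only
        linear_combination -hm
      · simp only [hkey]
    · rintro ⟨g, n, g'⟩ hq
      rw [mem_coe, mem_filter] at hq
      obtain ⟨_, h1, h3⟩ := hq
      simp only [hkey] at h3
      simp only [add_sub_cancel_right, ← h3]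
    · rintro ⟨s, m⟩ _
      simp only [sub_add_cancel]

end Pool.Agent.AQ.PENK

namespace Pool.Agent.AQ.PENK

theorem card_VV_one : type_of% @card_VV_one_pr := @card_VV_one_pr

end Pool.Agent.AQ.PENK
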