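import Pool.Agent.Lib_helper18.AQ.K.DefsW
import Pool.Agent.Lib_helper18.PENKF.PA5

/-! PENK (MP_892e4c_nt), block PG1 (helper53) -/

set_option autoImplicit false

namespace Pool.Agent.AQ.PENK

open Finset Pool.Agent.PENT Pool.Agent.PENK

variable [FD]

variable {K : ℕ} [NeZero K] {m : Fin K}

theorem pg1_dt {p : ℤ} {a b a' b' : ℤ × ℤ} (h1 : p ∣ a.1 - a'.1 ∧ p ∣ a.2 - a'.2)
    (h2 : p ∣ b.1 - b'.1 ∧ p ∣ b.2 - b'.2) : p ∣ dt a b - dt a' b' := by
  have e : dt a b - dt a' b' = (a.1 - a'.1) * b.2 + a'.1 * (b.2 - b'.2) -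
      ((a.2 - a'.2) * b.1 + a'.2 * (b.1 - b'.1)) := by
    simp only [dt]; ring
  rw [e]
  exact dvd_sub (dvd_add (h1.1.mul_right _) (h2.2.mul_left _))
    (dvd_add (h1.2.mul_right _) (h2.1.mul_left _))

theorem pg1_iff {p a b : ℤ} (h : p ∣ a - b) : p ∣ a ↔ p ∣ b := by
  constructor
  · intro h1
    have : b = a - (a - b) := by ring
    rw [this]; exact dvd_sub h1 h
  · intro h1
    have : a = b + (a - b) := by ring
    rw [this]; exact dvd_add h1 h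

theorem pg1_prod {ι : Type*} [DecidableEq ι] {p : ℤ} (s : Finset ι) (f g : ι → ℤ)
    (h : ∀ i ∈ s, p ∣ f i - g i) : p ∣ ∏ i ∈ s, f i - ∏ i ∈ s, g i := by
  induction s using Finset.induction_on with
  | empty => simp
  | @insert a s ha ih =>
    rw [prod_insert ha, prod_insert ha]
    have e : f a * ∏ i ∈ s, f i - g a * ∏ i ∈ s, g i =
        (f a - g a) * ∏ i ∈ s, f i + g a * (∏ i ∈ s, f i - ∏ i ∈ s, g i) := by ring
    rw [e]
    exact dvd_add ((h a (mem_insert_self _ _)).mul_right _)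
      ((ih fun i hi => h i (mem_insert_of_mem hi)).mul_left _)

theorem pg1_dl {p : ℕ} {u v : PolyK K}
    (h : ∀ j, (p : ℤ) ∣ (u j).1 - (v j).1 ∧ (p : ℤ) ∣ (u j).2 - (v j).2) (j : Fin K) :
    (p : ℤ) ∣ dl u j - dl v j := pg1_dt (h j) (h (j + 1))

theorem pg1_dn {p : ℕ} {u v : PolyK K}
    (h : ∀ j, (p : ℤ) ∣ (u j).1 - (v j).1 ∧ (p : ℤ) ∣ (u j).2 - (v j).2) (j : Fin K) :
    p ∣ dn m u j ↔ p ∣ dn m v j := by
  by_cases hj : j = m
  · rw [hj, dn_m, dn_m]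
  · rw [dvd_dn_iff hj, dvd_dn_iff hj]
    exact pg1_iff (pg1_dl h j)

theorem pg1_bad {p : ℕ} {u v : PolyK K}
    (h : ∀ j, (p : ℤ) ∣ (u j).1 - (v j).1 ∧ (p : ℤ) ∣ (u j).2 - (v j).2) (b : ℕ) :
    p ∣ bad m u * b ↔ p ∣ bad m v * b := by
  have e : ∀ w : PolyK K, bad m w * b =
      ((∏ j ∈ inr K, if j = m then 1 else dl w j) * (b : ℤ)).natAbs := by
    intro w
    rw [Int.natAbs_mul, Int.natAbs_natCast, bad]
    congr 1
    have := map_prod Int.natAbsHom (fun j => if j = m then 1 else dl w j) (inr K)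
    rw [show (∏ j ∈ inr K, if j = m then 1 else dl w j).natAbs =
      ∏ j ∈ inr K, Int.natAbsHom (if j = m then 1 else dl w j) from this]
    refine prod_congr rfl fun j _ => ?_
    by_cases hj : j = m
    · rw [hj, dn_m, if_pos rfl]
      rfl
    · rw [dn_ne w hj, if_neg hj]
      rfl
  rw [e, e, ← Int.natCast_dvd, ← Int.natCast_dvd]
  refine pg1_iff ?_
  rw [← sub_mul]
  refine (pg1_prod _ _ _ fun j _ => ?_).mul_right _
  by_cases hj : j = m
  · rw [if_pos hj, if_pos hj, sub_self]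
    exact dvd_zero _
  · rw [if_neg hj, if_neg hj]
    exact pg1_dl h j

theorem pg1_Rf {p : ℤ} (R : Bas) {c d : ℤ × ℤ} (h : p ∣ c.1 - d.1 ∧ p ∣ c.2 - d.2) :
    p ∣ Rf R c - Rf R d := by
  have e : Rf R c - Rf R d = (c.1 - d.1) * (R.1 * (c.1 + d.1) + 2 * R.2.1 * c.2) +
      (c.2 - d.2) * (2 * R.2.1 * d.1 + R.2.2 * (c.2 + d.2)) := by
    simp only [Rf, qf]; ring
  rw [e]
  exact dvd_add (h.1.mul_right _) (h.2.mul_right _)

theorem pg1_ind {p : ℕ} {u v : PolyK K}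
    (h : ∀ j, (p : ℤ) ∣ (u j).1 - (v j).1 ∧ (p : ℤ) ∣ (u j).2 - (v j).2) (R : Bas) (k : Fin K)
    (α : ℝ) : ind p (Rf R (cv u k)) α = ind p (Rf R (cv v k)) α := by
  have e : (p : ℤ) ∣ Rf R (cv u k) ↔ (p : ℤ) ∣ Rf R (cv v k) := by
    refine pg1_iff (pg1_Rf R ⟨?_, ?_⟩)
    · exact pg1_dt (h k) (h 1)
    · exact pg1_dt (h 0) (h k)
  rw [ind, ind]
  simp only [e]

theorem pg1_vv {p : ℕ} {u v u' v' : PolyK K}
    (h : ∀ j, (p : ℤ) ∣ (u j).1 - (v j).1 ∧ (p : ℤ) ∣ (u j).2 - (v j).2)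
    (h' : ∀ j, (p : ℤ) ∣ (u' j).1 - (v' j).1 ∧ (p : ℤ) ∣ (u' j).2 - (v' j).2)
    (W : Wts K) (P0 : ℕ) : vv W P0 u u' p = vv W P0 v v' p := by
  rw [vv, vv]
  congr 1
  funext R
  rw [phi, phi]
  simp only [pg1_ind h, pg1_ind h']

theorem pg1_Phi {p : ℕ} {u v u' v' : PolyK K}
    (h : ∀ j, (p : ℤ) ∣ (u j).1 - (v j).1 ∧ (p : ℤ) ∣ (u j).2 - (v j).2)
    (h' : ∀ j, (p : ℤ) ∣ (u' j).1 - (v' j).1 ∧ (p : ℤ) ∣ (u' j).2 - (v' j).2)
    (W : Wts K) (P0 : ℕ) : Phi m W P0 u u' p = Phi m W P0 v v' p := by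
  have e : p ∣ bad m u * bad m u' ↔ p ∣ bad m v * bad m v' := by
    rw [pg1_bad h, mul_comm, pg1_bad h', mul_comm]
  rw [Phi, Phi, pg1_vv h h']
  simp only [e, pg1_dn h, pg1_dn h']

/-- BLOCK PG1. `Phi` is a function of `u` and of `u'` modulo `p`, with values in `[0,1]`. -/
theorem Phi_per_pr (W : Wts K) (P0 : ℕ) (u' : PolyK K) (p : ℕ) :
    PerP p (fun u => Phi m W P0 u u' p) := by
  intro u v h
  exact pg1_Phi h (fun j => by simp) W P0

theorem Phi_per'_pr (W : Wts K) (P0 : ℕ) (u : PolyK K) (p : ℕ) :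
    PerP p (fun u' => Phi m W P0 u u' p) := by
  intro u' v' h
  exact pg1_Phi (fun j => by simp) h W P0

theorem pg1_prod_mem (W : Wts K) (hW : W.Ok) (q : Fin K → Prop) [DecidablePred q] :
    0 ≤ (∏ j ∈ inr K, if q j then 2 * W.al j else 1) ∧
      (∏ j ∈ inr K, if q j then 2 * W.al j else 1) ≤ 1 := by
  have h : ∀ j, 0 ≤ (if q j then 2 * W.al j else 1) ∧ (if q j then 2 * W.al j else 1) ≤ 1 := by
    intro j
    have := hW.al0 j
    have := hW.al1 j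
    split_ifs
    · constructor <;> linarith
    · constructor <;> norm_num
  exact ⟨prod_nonneg fun j _ => (h j).1, prod_le_one (fun j _ => (h j).1) (fun j _ => (h j).2)⟩

theorem Phi_mem_pr (W : Wts K) (hW : W.Ok) (P0 : ℕ) {p : ℕ} (u u' : PolyK K) : 0 ≤ Phi m W P0 u u' p ∧ Phi m W P0 u u' p ≤ 1 := by
  rw [Phi]
  split_ifs
  · exact ⟨le_rfl, zero_le_one⟩
  · have h1 := pg1_prod_mem W hW (fun j => p ∣ dn m u j)
    have h2 := pg1_prod_mem W hW (fun j => p ∣ dn m u' j)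
    exact ⟨mul_nonneg h1.1 h2.1, mul_le_one₀ h1.2 h2.1 h2.2⟩
  · have h3 : ∀ R, 0 ≤ 1 - phi W P0 u u' p R ∧ 1 - phi W P0 u u' p R ≤ 1 := by
      intro R
      have := phi_mem W hW P0 u u' p R
      constructor <;> linarith [this.1, this.2]
    have h4 : 0 ≤ vv W P0 u u' p ∧ vv W P0 u u' p ≤ 1 := by
      rw [vv, mV]
      constructor
      · exact div_nonneg (sum_nonneg fun R _ => (h3 R).1) (Nat.cast_nonneg _)
      · refine div_le_one_of_le₀ ?_ (Nat.cast_nonneg _)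
        calc ∑ R ∈ VV p, (1 - phi W P0 u u' p R) ≤ ∑ _R ∈ VV p, (1 : ℝ) :=
              sum_le_sum fun R _ => (h3 R).2
          _ = ((VV p).card : ℝ) := by simp
    constructor <;> linarith [h4.1, h4.2]

/-- elementary properties of the mean over a law -/
theorem mL_mono_pr {L : Finset (PolyK K)} {h h' : PolyK K → ℝ} (hh : ∀ r ∈ L, h r ≤ h' r) :
    mL L h ≤ mL L h' := by
  rw [mL, mL]
  exact div_le_div_of_nonneg_right (sum_le_sum hh) (Nat.cast_nonneg _)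

theorem mL_const_pr {L : Finset (PolyK K)} (hL : L.Nonempty) (c : ℝ) :
    mL L (fun _ => c) = c := by
  have h : (L.card : ℝ) ≠ 0 := by exact_mod_cast hL.card_pos.ne'
  rw [mL, sum_const, nsmul_eq_mul]
  field_simp

theorem mL_add_pr {L : Finset (PolyK K)} (h h' : PolyK K → ℝ) :
    mL L (fun r => h r + h' r) = mL L h + mL L h' := by
  rw [mL, mL, mL, sum_add_distrib, add_div]

theorem mL_smul_pr {L : Finset (PolyK K)} (c : ℝ) (h : PolyK K → ℝ) :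
    mL L (fun r => c * h r) = c * mL L h := by
  rw [mL, mL, ← mul_sum, mul_div_assoc]

end Pool.Agent.AQ.PENK

namespace Pool.Agent.AQ.PENK

theorem Phi_per : type_of% @Phi_per_pr := @Phi_per_pr

theorem Phi_per' : type_of% @Phi_per'_pr := @Phi_per'_pr

theorem Phi_mem : type_of% @Phi_mem_pr := @Phi_mem_pr

theorem mL_mono : type_of% @mL_mono_pr := @mL_mono_pr

theorem mL_const : type_of% @mL_const_pr := @mL_const_pr

theorem mL_add : type_of% @mL_add_pr := @mL_add_pr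

theorem mL_smul : type_of% @mL_smul_pr := @mL_smul_pr

end Pool.Agent.AQ.PENK
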