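import Pool.Agent.Lib_helper18.AQ.K.DefsW
import Pool.Agent.Lib_helper18.AQ.KF.PA4
import Pool.Agent.Lib_helper18.PENKF.PA5

/-! Block PA6 (project PENT, part PENK) -/

set_option autoImplicit false

namespace Pool.Agent.AQ.PENK

open Finset Pool.Agent.PENT Pool.Agent.PENK

variable [FD]

theorem pa6_dl {K : ℕ} [NeZero K] {m : Fin K} {p : ℕ} (u : PolyK K) (h : ¬ p ∣ DD m u)
    (ho : ¬ (p : ℤ) ∣ dl u m) (j : Fin K) : ¬ (p : ℤ) ∣ dl u j := by
  intro hd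
  by_cases hj : j = m
  · rw [hj] at hd
    exact ho hd
  apply h
  have h1 : p ∣ dn m u j := by
    unfold dn
    rw [if_neg hj]
    exact Int.natCast_dvd.1 hd
  exact h1.trans (Finset.dvd_prod_of_mem (fun j => dn m u j) (mem_univ j))

/-- BLOCK PA6 (first part) -/
theorem cv_ne_pr {K : ℕ} [NeZero K] {m : Fin K} {p : ℕ} (hp : p.Prime) (u : PolyK K) (h : ¬ p ∣ DD m u)
    (ho : ¬ (p : ℤ) ∣ dl u m) (k : Fin K) (hk : k ∈ ivr K) : ¬ ((p : ℤ) ∣ (cv u k).1 ∧ (p : ℤ) ∣ (cv u k).2) := by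
  rintro ⟨h1, h2⟩
  have h0 : ¬ (p : ℤ) ∣ dt (u 0) (u 1) := by
    have := pa6_dl u h ho 0
    unfold dl at this
    rwa [zero_add] at this
  have hpp : Prime (p : ℤ) := Nat.prime_iff_prime_int.1 hp
  have e1 : (u k).1 * dt (u 0) (u 1) = (cv u k).1 * (u 0).1 + (cv u k).2 * (u 1).1 := by
    unfold cv dt
    ring
  have e2 : (u k).2 * dt (u 0) (u 1) = (cv u k).1 * (u 0).2 + (cv u k).2 * (u 1).2 := by
    unfold cv dt
    ring
  have f1 : (p : ℤ) ∣ (u k).1 := by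
    have : (p : ℤ) ∣ (u k).1 * dt (u 0) (u 1) := by
      rw [e1]
      exact dvd_add (Dvd.dvd.mul_right h1 _) (Dvd.dvd.mul_right h2 _)
    exact (hpp.dvd_or_dvd this).resolve_right h0
  have f2 : (p : ℤ) ∣ (u k).2 := by
    have : (p : ℤ) ∣ (u k).2 * dt (u 0) (u 1) := by
      rw [e2]
      exact dvd_add (Dvd.dvd.mul_right h1 _) (Dvd.dvd.mul_right h2 _)
    exact (hpp.dvd_or_dvd this).resolve_right h0
  apply pa6_dl u h ho k
  unfold dl dt
  exact dvd_sub (Dvd.dvd.mul_right f1 _) (Dvd.dvd.mul_right f2 _)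

theorem pa6_sum {ι : Type*} (p : ℕ) (s : Finset ι) (h : ι → Bas → ℝ) :
    mV p (fun r => ∑ k ∈ s, h k r) = ∑ k ∈ s, mV p (h k) := by
  unfold mV
  rw [Finset.sum_comm, Finset.sum_div]

theorem pa6_ivr {K : ℕ} [NeZero K] (hK : 5 ≤ K) : (ivr K).card + 2 = K := by
  have h : ivr K = (univ.erase (0 : Fin K)).erase 1 := by
    ext k
    unfold ivr
    simp only [mem_filter, mem_univ, true_and, mem_erase]
    tauto
  have h01 : (1 : Fin K) ≠ 0 := by
    intro h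
    have h1 := congrArg Fin.val h
    rw [Fin.val_one', Fin.val_zero, Nat.mod_eq_of_lt (by omega)] at h1
    omega
  rw [h, card_erase_of_mem (mem_erase.2 ⟨h01, mem_univ _⟩), card_erase_of_mem (mem_univ _),
    card_univ, Fintype.card_fin]
  omega

theorem pa6_ich_nn (a : Prop) : 0 ≤ ich a := by
  unfold ich
  split_ifs
  · exact zero_le_one
  · exact le_rfl

theorem pa6_ich_one {a : Prop} (h : a) : ich a = 1 := by
  unfold ich
  rw [if_pos h]

theorem pa6_mean {p : ℕ} (hp : p.Prime) (h2 : FD.N0 < p) (c : ℤ × ℤ)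
    (hc : ¬ ((p : ℤ) ∣ c.1 ∧ (p : ℤ) ∣ c.2)) :
    mV p (fun R => ich ((p : ℤ) ∣ Rf R c)) ≤ 2 / ((p : ℝ) + 1) := by
  rw [mV_one hp h2 c hc]
  split_ifs
  · exact le_rfl
  · positivity

/-- BLOCK PA6 (second part) -/
theorem vv_bounds_pr {K : ℕ} [NeZero K] {m : Fin K} (hK : 5 ≤ K) (W : Wts K) (hW : W.Ok) (P0 : ℕ)
    (u u' : PolyK K) {p : ℕ} (hp : p.Prime) (h2 : FD.N0 < p) (h : ¬ p ∣ DD m u * DD m u')
    (ho : ¬ (p : ℤ) ∣ dl u m) (ho' : ¬ (p : ℤ) ∣ dl u' m) :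
    0 ≤ vv W P0 u u' p ∧ vv W P0 u u' p ≤ (4 * K - 4) / ((p : ℝ) + 1) := by
  have hu : ¬ p ∣ DD m u := fun h1 => h (Dvd.dvd.mul_right h1 _)
  have hu' : ¬ p ∣ DD m u' := fun h1 => h (Dvd.dvd.mul_left h1 _)
  have hp1 : ¬ (p : ℤ) ∣ 1 := by
    intro h1
    have := Int.natCast_dvd.1 h1
    simp only [Int.natAbs_one, Nat.dvd_one] at this
    exact hp.one_lt.ne' this
  constructor
  · unfold vv
    have h1 := mV_mono (p := p) (h := fun _ => 0) (h' := fun R => 1 - phi W P0 u u' p R)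
      (fun r => by have := (phi_mem W hW P0 u u' p r).2; linarith)
    rwa [mV_const hp h2] at h1
  · have hpt : ∀ R : Bas, 1 - phi W P0 u u' p R ≤
        (ich ((p : ℤ) ∣ Rf R (1, 0)) + ich ((p : ℤ) ∣ Rf R (0, 1))) +
        ((∑ k ∈ ivr K, ich ((p : ℤ) ∣ Rf R (cv u k))) +
          ∑ k ∈ ivr K, ich ((p : ℤ) ∣ Rf R (cv u' k))) := by
      intro R
      have n1 := pa6_ich_nn ((p : ℤ) ∣ Rf R (1, 0))
      have n2 := pa6_ich_nn ((p : ℤ) ∣ Rf R (0, 1))
      have n3 : 0 ≤ ∑ k ∈ ivr K, ich ((p : ℤ) ∣ Rf R (cv u k)) :=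
        Finset.sum_nonneg (fun k _ => pa6_ich_nn _)
      have n4 : 0 ≤ ∑ k ∈ ivr K, ich ((p : ℤ) ∣ Rf R (cv u' k)) :=
        Finset.sum_nonneg (fun k _ => pa6_ich_nn _)
      have hphi := (phi_mem W hW P0 u u' p R).1
      have r1 : Rf R (1, 0) = R.1 := by unfold Rf qf; ring
      have r2 : Rf R (0, 1) = R.2.2 := by unfold Rf qf; ring
      by_cases c1 : (p : ℤ) ∣ Rf R (1, 0)
      · have := pa6_ich_one c1
        linarith
      by_cases c2 : (p : ℤ) ∣ Rf R (0, 1)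
      · have := pa6_ich_one c2
        linarith
      by_cases c3 : ∃ k ∈ ivr K, (p : ℤ) ∣ Rf R (cv u k)
      · obtain ⟨k, hk, hd⟩ := c3
        have h3 : ich ((p : ℤ) ∣ Rf R (cv u k)) ≤ ∑ k ∈ ivr K, ich ((p : ℤ) ∣ Rf R (cv u k)) :=
          Finset.single_le_sum (f := fun k => ich ((p : ℤ) ∣ Rf R (cv u k)))
            (fun k _ => pa6_ich_nn _) hk
        have := pa6_ich_one hd
        linarith
      by_cases c4 : ∃ k ∈ ivr K, (p : ℤ) ∣ Rf R (cv u' k)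
      · obtain ⟨k, hk, hd⟩ := c4
        have h3 : ich ((p : ℤ) ∣ Rf R (cv u' k)) ≤ ∑ k ∈ ivr K, ich ((p : ℤ) ∣ Rf R (cv u' k)) :=
          Finset.single_le_sum (f := fun k => ich ((p : ℤ) ∣ Rf R (cv u' k)))
            (fun k _ => pa6_ich_nn _) hk
        have := pa6_ich_one hd
        linarith
      push Not at c3 c4
      rw [r1] at c1
      rw [r2] at c2
      have hone : phi W P0 u u' p R = 1 := by
        unfold phi ind
        rw [if_neg c1, if_neg c2, Finset.prod_congr rfl (fun k hk => if_neg (c3 k hk)),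
          Finset.prod_congr rfl (fun k hk => if_neg (c4 k hk))]
        simp
      rw [hone]
      linarith
    have hm := mV_mono (p := p) hpt
    rw [mV_add, mV_add, mV_add, pa6_sum, pa6_sum] at hm
    have m1 := pa6_mean hp h2 (1, 0) (fun hh => hp1 hh.1)
    have m2 := pa6_mean hp h2 (0, 1) (fun hh => hp1 hh.2)
    have m3 : ∑ k ∈ ivr K, mV p (fun R => ich ((p : ℤ) ∣ Rf R (cv u k))) ≤
        (ivr K).card • (2 / ((p : ℝ) + 1)) :=
      Finset.sum_le_card_nsmul _ _ _ (fun k hk => pa6_mean hp h2 _ (cv_ne_pr hp u hu ho k hk))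
    have m4 : ∑ k ∈ ivr K, mV p (fun R => ich ((p : ℤ) ∣ Rf R (cv u' k))) ≤
        (ivr K).card • (2 / ((p : ℝ) + 1)) :=
      Finset.sum_le_card_nsmul _ _ _ (fun k hk => pa6_mean hp h2 _ (cv_ne_pr hp u' hu' ho' k hk))
    have hcard : ((ivr K).card : ℝ) = (K : ℝ) - 2 := by
      have : (((ivr K).card + 2 : ℕ) : ℝ) = (K : ℝ) := by rw [pa6_ivr hK]
      push_cast at this
      linarith
    rw [nsmul_eq_mul, hcard] at m3 m4
    have hfin : 2 / ((p : ℝ) + 1) + 2 / ((p : ℝ) + 1) + (((K : ℝ) - 2) * (2 / ((p : ℝ) + 1)) +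
      ((K : ℝ) - 2) * (2 / ((p : ℝ) + 1))) = (4 * K - 4) / ((p : ℝ) + 1) := by ring
    unfold vv
    rw [← hfin]
    exact hm.trans (add_le_add (add_le_add m1 m2) (add_le_add m3 m4))

end Pool.Agent.AQ.PENK

namespace Pool.Agent.AQ.PENK

theorem cv_ne : type_of% @cv_ne_pr := @cv_ne_pr

theorem vv_bounds : type_of% @vv_bounds_pr := @vv_bounds_pr

end Pool.Agent.AQ.PENK
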