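import Pool.Agent.Lib_helper18.AQ.K.DefsW
import Pool.Agent.Lib_helper18.AQ.KF.PB2

set_option autoImplicit false

namespace Pool.Agent.AQ.PENK

open Finset Pool.Agent.PENT Pool.Agent.PENK

variable [FD]

variable {K : ℕ} [NeZero K] {m : Fin K}

theorem pb5_dvd {u : PolyK K} {p : ℕ} (hp : p.Prime) (hpu : p ∣ DD m u) :
    p ∣ dn m u 1 ∨ p ∣ dn m u (-1) ∨ p ∣ bad m u := by
  unfold DD at hpu
  obtain ⟨j, _, hj⟩ := (Prime.dvd_finsetProd_iff hp.prime _).1 hpu
  by_cases h1 : j = 1
  · subst h1; exact Or.inl hj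
  by_cases h2 : j = -1
  · subst h2; exact Or.inr (Or.inl hj)
  · right; right
    unfold bad
    exact hj.trans (Finset.dvd_prod_of_mem _ (by
      unfold inr
      exact Finset.mem_filter.2 ⟨Finset.mem_univ _, h1, h2⟩))

theorem pb5_one (p : ℕ) (hp : p.Prime) (h : (p : ℤ) ∣ 1) : False := by
  have h1 := Int.natCast_dvd_natCast.1 (by simpa using h : (p : ℤ) ∣ ((1 : ℕ) : ℤ))
  have h2 := Nat.le_of_dvd one_pos h1
  have h3 := hp.two_le
  omega

theorem pb5_L1 (u : PolyK K) (p : ℕ) (h : p ∣ dn m u 1) : Lv m u p = (0, 1) := by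
  unfold Lv
  rw [if_pos h]

theorem pb5_Lm (u : PolyK K) (p : ℕ) (h1 : ¬ p ∣ dn m u 1) (h : p ∣ dn m u (-1)) :
    Lv m u p = (1, 0) := by
  unfold Lv
  rw [if_neg h1, if_pos h]

/-- BLOCK PB5. The coincidences of lines. -/
theorem sameL_cases_pr (hK : 5 ≤ K) {q : Par K} {x : ℝ} {P0 : ℕ} {u u' : PolyK K}
    (h : IsPoly m q x P0 u) (h' : IsPoly m q x P0 u') {p : ℕ} (hp : p.Prime) (hpu : p ∣ DD m u)
    (hpu' : p ∣ DD m u') (hs : SameL m u u' p) :
    (p ∣ dn m u 1 ∧ p ∣ dn m u' 1) ∨ (p ∣ dn m u (-1) ∧ p ∣ dn m u' (-1)) ∨ (p ∣ bad m u ∧ p ∣ bad m u') := by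
  unfold SameL dt at hs
  by_cases a1 : p ∣ dn m u 1
  · rw [pb5_L1 u p a1] at hs
    by_cases b1 : p ∣ dn m u' 1
    · exact Or.inl ⟨a1, b1⟩
    · exfalso
      by_cases b2 : p ∣ dn m u' (-1)
      · rw [pb5_Lm u' p b1 b2] at hs
        apply pb5_one p hp
        have : (0 : ℤ) * 0 - 1 * 1 = -1 := by norm_num
        simpa using hs
      · have b3 : p ∣ bad m u' := by
          rcases pb5_dvd hp hpu' with h1 | h1 | h1
          · exact absurd h1 b1
          · exact absurd h1 b2
          · exact h1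
        have h2 := (Lv_bad hK h' hp b3).1
        apply h2
        simpa using hs
  · by_cases a2 : p ∣ dn m u (-1)
    · rw [pb5_Lm u p a1 a2] at hs
      by_cases b1 : p ∣ dn m u' 1
      · exfalso
        rw [pb5_L1 u' p b1] at hs
        apply pb5_one p hp
        simpa using hs
      · by_cases b2 : p ∣ dn m u' (-1)
        · exact Or.inr (Or.inl ⟨a2, b2⟩)
        · exfalso
          have b3 : p ∣ bad m u' := by
            rcases pb5_dvd hp hpu' with h1 | h1 | h1
            · exact absurd h1 b1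
            · exact absurd h1 b2
            · exact h1
          have h2 := (Lv_bad hK h' hp b3).2
          apply h2
          simpa using hs
    · have a3 : p ∣ bad m u := by
        rcases pb5_dvd hp hpu with h1 | h1 | h1
        · exact absurd h1 a1
        · exact absurd h1 a2
        · exact h1
      by_cases b1 : p ∣ dn m u' 1
      · exfalso
        rw [pb5_L1 u' p b1] at hs
        apply (Lv_bad hK h hp a3).1
        simpa using hs
      · by_cases b2 : p ∣ dn m u' (-1)
        · exfalso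
          rw [pb5_Lm u' p b1 b2] at hs
          apply (Lv_bad hK h hp a3).2
          simpa using hs
        · right; right
          refine ⟨a3, ?_⟩
          rcases pb5_dvd hp hpu' with h1 | h1 | h1
          · exact absurd h1 b1
          · exact absurd h1 b2
          · exact h1

theorem pb5_aux {x g C a b a' b' : ℝ} (hx : 0 < x) (hg : 0 < g) (hC : 0 ≤ C)
    (ha' : 0 ≤ a') (hb : 0 ≤ b) (hb' : 0 ≤ b')
    (h1 : x * a ≤ C * g * b) (h2 : g * b' ≤ C * x * a') : a * b' ≤ C ^ 2 * (b * a') := by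
  have h3 : (x * a) * (g * b') ≤ (C * g * b) * (C * x * a') :=
    mul_le_mul h1 h2 (by positivity) (by positivity)
  have h4 : (x * g) * (a * b') ≤ (x * g) * (C ^ 2 * (b * a')) := by nlinarith
  exact le_of_mul_le_mul_left h4 (mul_pos hx hg)

/-- compatibility of the scales: there is a common base -/
theorem compat_of_over_pr {q : Par K} (hq : q.Ok) {x : ℝ} (hx : 0 < x) {u u' : PolyK K} {R : Bas}
    (hR : Over m q x R u) (hR' : Over m q x R u') : Compat q u u' := by
  have hg : (0 : ℝ) < (R.1 : ℝ) := by exact_mod_cast hR.pos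
  have hC : 0 ≤ q.C4 := by linarith [hq.C41]
  exact ⟨pb5_aux hx hg hC (by positivity) (by positivity) (by positivity) hR.g1 hR'.g2,
    pb5_aux hx hg hC (by positivity) (by positivity) (by positivity) hR'.g1 hR.g2⟩

end Pool.Agent.AQ.PENK

namespace Pool.Agent.AQ.PENK

theorem sameL_cases : type_of% @sameL_cases_pr := @sameL_cases_pr

theorem compat_of_over : type_of% @compat_of_over_pr := @compat_of_over_pr

end Pool.Agent.AQ.PENK
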