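import Pool.Agent.Lib_helper18.AQ.K.DefsW
import Pool.Agent.Lib_helper18.AQ.KF.PB2
import Pool.Agent.Lib_helper18.AQ.KF.PB5

set_option autoImplicit false

namespace Pool.Agent.AQ.PENK

open Finset Pool.Agent.PENT Pool.Agent.PENK

variable [FD]

variable {K : ℕ} [NeZero K] {m : Fin K}

theorem pb6_one_ne (hK : 5 ≤ K) : (1 : Fin K) ≠ -1 := by
  obtain ⟨k, rfl⟩ : ∃ k, K = k + 5 := ⟨K - 5, by omega⟩
  intro h
  have h2 := congrArg Fin.val h
  rw [Fin.val_one', Fin.val_neg] at h2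
  have h3 : (1 : Fin (k + 5)) ≠ 0 := by
    intro h4
    have := congrArg Fin.val h4
    simp at this
  rw [if_neg h3, Fin.val_one', Nat.mod_eq_of_lt (by omega)] at h2
  omega

theorem pb6_prod (S : Finset ℕ) {n : ℕ} (hn : n ≠ 0) (hS : n.primeFactors ⊆ S)
    (hS' : ∀ p ∈ S, p.Prime) (F : ℕ → ℝ) :
    ∏ p ∈ n.primeFactors, F p = ∏ p ∈ S, if p ∣ n then F p else 1 := by
  rw [← Finset.prod_filter]
  congr 1
  ext p
  simp only [mem_filter]
  constructor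
  · intro hp
    exact ⟨hS hp, (Nat.mem_primeFactors.1 hp).2.1⟩
  · rintro ⟨hp, hd⟩
    exact Nat.mem_primeFactors.2 ⟨hS' p hp, hd, hn⟩

theorem pb6_dn_ne {q : Par K} {x : ℝ} {P0 : ℕ} {u : PolyK K} (h : IsPoly m q x P0 u) (j : Fin K) :
    dn m u j ≠ 0 := (h.sq j).ne_zero

theorem pb6_uniq {q : Par K} {x : ℝ} {P0 : ℕ} {u : PolyK K} (h : IsPoly m q x P0 u) {p : ℕ}
    (hp : p.Prime) {i j : Fin K} (hi : p ∣ dn m u i) (hj : p ∣ dn m u j) : i = j := by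
  by_contra hne
  exact hp.one_lt.ne' (Nat.dvd_one.1 ((h.co i j hne) ▸ Nat.dvd_gcd hi hj))

theorem pb6_bad {u : PolyK K} {p : ℕ} (hp : p.Prime) :
    p ∣ bad m u ↔ ∃ j ∈ inr K, p ∣ dn m u j := by
  unfold bad
  rw [Prime.dvd_finsetProd_iff hp.prime]

theorem pb6_DD {u : PolyK K} {p : ℕ} (hp : p.Prime) :
    p ∣ DD m u ↔ (p ∣ bad m u ∨ p ∣ dn m u 1 ∨ p ∣ dn m u (-1)) := by
  rw [pb6_bad hp]
  unfold DD
  rw [Prime.dvd_finsetProd_iff hp.prime]
  constructor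
  · rintro ⟨j, -, hj⟩
    by_cases h1 : j = 1
    · subst h1; exact Or.inr (Or.inl hj)
    by_cases h2 : j = -1
    · subst h2; exact Or.inr (Or.inr hj)
    · exact Or.inl ⟨j, by simp [inr, h1, h2], hj⟩
  · rintro (⟨j, -, hj⟩ | h | h)
    · exact ⟨j, mem_univ _, hj⟩
    · exact ⟨1, mem_univ _, h⟩
    · exact ⟨-1, mem_univ _, h⟩

theorem pb6_thi {q : Par K} {x : ℝ} {P0 : ℕ} {u : PolyK K} (W : Wts K) (P : ℕ)
    (h : IsPoly m q x P0 u) {p : ℕ} (hp : p.Prime) :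
    (∏ j ∈ inr K, if p ∣ dn m u j then 2 * lw P p (W.al j) / (p : ℝ) else 1) =
      thi m W P u p * (if p ∣ bad m u then 2 / (p : ℝ) else 1) := by
  by_cases hb : p ∣ bad m u
  · rw [if_pos hb]
    obtain ⟨j, hj, hpj⟩ := (pb6_bad hp).1 hb
    unfold thi
    rw [Finset.prod_eq_single_of_mem j hj, Finset.prod_eq_single_of_mem j hj, if_pos hpj,
      if_pos hpj]
    · ring
    · intro i _ hij
      rw [if_neg]
      intro hpi
      exact hij (pb6_uniq h hp hpi hpj)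
    · intro i _ hij
      rw [if_neg]
      intro hpi
      exact hij (pb6_uniq h hp hpi hpj)
  · rw [if_neg hb, mul_one]
    unfold thi
    apply Finset.prod_congr rfl
    intro j hj
    have : ¬ p ∣ dn m u j := fun hpj => hb ((pb6_bad hp).2 ⟨j, hj, hpj⟩)
    rw [if_neg this, if_neg this]

theorem pb6_ths (P : ℕ) (both one : ℝ) {p : ℕ} (hp : p.Prime) (d d' : ℕ) :
    (if p ∣ d * d' then 2 * (if p ∣ d ∧ p ∣ d' then lw P p both else lw P p one) / (p : ℝ) else 1) =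
      ths P p both one (p ∣ d) (p ∣ d') * (if p ∣ d * d' then 2 / (p : ℝ) else 1) := by
  unfold ths
  by_cases h1 : p ∣ d <;> by_cases h2 : p ∣ d' <;>
    simp only [hp.dvd_mul, h1, h2, and_self, or_self, if_true, if_false, and_true, and_false,
      or_true, or_false, mul_one] <;> ring

theorem pb6_lw_nonneg (P p : ℕ) {a : ℝ} (ha : 0 ≤ a) : 0 ≤ lw P p a := by
  unfold lw; split_ifs
  · exact ha
  · norm_num

theorem pb6_ths_nonneg (P p : ℕ) {both one : ℝ} (h1 : 0 ≤ both) (h2 : 0 ≤ one) (a b : Prop)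
    [Decidable a] [Decidable b] : 0 ≤ ths P p both one a b := by
  unfold ths; split_ifs
  · exact pb6_lw_nonneg _ _ h1
  · exact pb6_lw_nonneg _ _ h2
  · norm_num

theorem pb6_thi_nonneg (W : Wts K) (hW : W.Ok) (P : ℕ) (u : PolyK K) (p : ℕ) :
    0 ≤ thi m W P u p := by
  unfold thi
  apply Finset.prod_nonneg
  intro j _
  split_ifs
  · exact pb6_lw_nonneg _ _ (hW.al0 j)
  · norm_num

theorem pb6_th_nonneg (W : Wts K) (hW : W.Ok) (P : ℕ) (u u' : PolyK K) (p : ℕ) :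
    0 ≤ th m W P u u' p := by
  unfold th
  have hs1 : 0 ≤ W.s1 := by
    unfold Wts.s1; have := hW.be0 1; have := hW.al0 1; linarith
  have hs0 : 0 ≤ W.s0 := by
    unfold Wts.s0; have := hW.be0 0; have := hW.al0 (-1); linarith
  refine mul_nonneg (mul_nonneg (pb6_thi_nonneg W hW P u p) (pb6_thi_nonneg W hW P u' p))
    (mul_nonneg (pb6_ths_nonneg _ _ ?_ ?_ _ _) (pb6_ths_nonneg _ _ ?_ ?_ _ _))
  · exact div_nonneg (sq_nonneg _) hs1
  · exact div_nonneg (mul_nonneg (hW.al0 _) (hW.be0 _).le) hs1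
  · exact div_nonneg (sq_nonneg _) hs0
  · exact div_nonneg (mul_nonneg (hW.al0 _) (hW.be0 _).le) hs0

theorem pb6_Gc_dvd {u u' : PolyK K} (hu : bad m u ≠ 0) {p : ℕ} (hp : p.Prime) :
    p ∣ Gc m u u' ↔ (p ∣ bad m u ∧ p ∣ bad m u' ∧ SameL m u u' p) := by
  classical
  unfold Gc
  rw [Prime.dvd_finsetProd_iff hp.prime]
  constructor
  · rintro ⟨r, hr, hpr⟩
    rw [mem_filter, Nat.mem_primeFactors] at hr
    have : p = r := (Nat.prime_dvd_prime_iff_eq hp hr.1.1).1 hpr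
    subst this
    exact ⟨hr.1.2.1.trans (Nat.gcd_dvd_left _ _), hr.1.2.1.trans (Nat.gcd_dvd_right _ _), hr.2⟩
  · rintro ⟨h1, h2, h3⟩
    refine ⟨p, ?_, dvd_rfl⟩
    rw [mem_filter, Nat.mem_primeFactors]
    exact ⟨⟨hp, Nat.dvd_gcd h1 h2, fun h => hu (Nat.eq_zero_of_gcd_eq_zero_left h)⟩, h3⟩

theorem pb6_Gc_ne (u u' : PolyK K) : Gc m u u' ≠ 0 := by
  classical
  unfold Gc
  rw [Finset.prod_ne_zero_iff]
  intro p hp
  rw [mem_filter, Nat.mem_primeFactors] at hp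
  exact hp.1.1.ne_zero

theorem pb6_bad_ne {q : Par K} {x : ℝ} {P0 : ℕ} {u : PolyK K} (h : IsPoly m q x P0 u) :
    bad m u ≠ 0 := by
  unfold bad
  rw [Finset.prod_ne_zero_iff]
  exact fun j _ => pb6_dn_ne h j

theorem pb6_DD_ne {q : Par K} {x : ℝ} {P0 : ℕ} {u : PolyK K} (h : IsPoly m q x P0 u) :
    DD m u ≠ 0 := by
  unfold DD
  rw [Finset.prod_ne_zero_iff]
  exact fun j _ => pb6_dn_ne h j

theorem pb6_excl (hK : 5 ≤ K) {q : Par K} {x : ℝ} {P0 : ℕ} {u : PolyK K} (h : IsPoly m q x P0 u)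
    {p : ℕ} (hp : p.Prime) :
    ¬ (p ∣ bad m u ∧ p ∣ dn m u 1) ∧ ¬ (p ∣ bad m u ∧ p ∣ dn m u (-1)) ∧
      ¬ (p ∣ dn m u 1 ∧ p ∣ dn m u (-1)) := by
  refine ⟨?_, ?_, ?_⟩
  · rintro ⟨h1, h2⟩
    obtain ⟨j, hj, hpj⟩ := (pb6_bad hp).1 h1
    have := pb6_uniq h hp hpj h2
    subst this
    simp [inr] at hj
  · rintro ⟨h1, h2⟩
    obtain ⟨j, hj, hpj⟩ := (pb6_bad hp).1 h1
    have := pb6_uniq h hp hpj h2
    subst this
    simp [inr] at hj
  · rintro ⟨h1, h2⟩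
    exact pb6_one_ne hK (pb6_uniq h hp h1 h2)

theorem pb6_pip (hK : 5 ≤ K) {q : Par K} {x : ℝ} {P0 : ℕ} {u u' : PolyK K}
    (h : IsPoly m q x P0 u) (h' : IsPoly m q x P0 u') {p : ℕ} (hp : p.Prime)
    (hpS : p ∣ DD m u * DD m u') :
    pip m u u' p ≤ (if p ∣ Gc m u u' then (p : ℝ) / 2 else 1) *
      ((if p ∣ bad m u then 2 / (p : ℝ) else 1) * (if p ∣ bad m u' then 2 / (p : ℝ) else 1)) *
      ((if p ∣ dn m u 1 * dn m u' 1 then 2 / (p : ℝ) else 1) *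
        (if p ∣ dn m u (-1) * dn m u' (-1) then 2 / (p : ℝ) else 1)) := by
  have hp0 : (0 : ℝ) < p := by exact_mod_cast hp.pos
  have hp2 : (2 : ℝ) ≤ p := by exact_mod_cast hp.two_le
  have e1 : 2 / ((p : ℝ) + 1) ≤ 2 / (p : ℝ) := by
    apply div_le_div_of_nonneg_left (by norm_num) hp0 (by linarith)
  have e0 : (0 : ℝ) < 2 / (p : ℝ) := by positivity
  have ex1 : 2 / (p : ℝ) ≤ 1 := by rw [div_le_one hp0]; exact hp2
  have e2 : 2 / ((p : ℝ) * (p + 1)) ≤ 2 / (p : ℝ) * (2 / (p : ℝ)) := by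
    rw [div_mul_div_comm, div_le_div_iff₀ (by positivity) (by positivity)]
    nlinarith
  have e3 : 2 / ((p : ℝ) * (p + 1)) ≤ 2 / (p : ℝ) := by
    refine e2.trans ?_
    nlinarith
  have e4 : (p : ℝ) / 2 * (2 / (p : ℝ) * (2 / (p : ℝ))) = 2 / (p : ℝ) := by
    field_simp
  obtain ⟨x1, x2, x3⟩ := pb6_excl hK h hp
  obtain ⟨y1, y2, y3⟩ := pb6_excl hK h' hp
  have hG := pb6_Gc_dvd (u := u) (u' := u') (pb6_bad_ne h) hp
  have hS : p ∣ DD m u ∨ p ∣ DD m u' := (hp.dvd_mul).1 hpS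
  have hD := pb6_DD (m := m) (u := u) hp
  have hD' := pb6_DD (m := m) (u := u') hp
  have hsame : p ∣ DD m u → p ∣ DD m u' → SameL m u u' p →
      (p ∣ dn m u 1 ∧ p ∣ dn m u' 1) ∨ (p ∣ dn m u (-1) ∧ p ∣ dn m u' (-1)) ∨ (p ∣ bad m u ∧ p ∣ bad m u') :=
    fun a b c => sameL_cases hK h h' hp a b c
  unfold pip
  simp only [hp.dvd_mul]
  by_cases c1 : p ∣ bad m u <;> by_cases c2 : p ∣ dn m u 1 <;> by_cases c3 : p ∣ dn m u (-1) <;>
    by_cases d1 : p ∣ bad m u' <;> by_cases d2 : p ∣ dn m u' 1 <;> by_cases d3 : p ∣ dn m u' (-1) <;>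
    by_cases s : SameL m u u' p <;>
    simp only [hG, c1, c2, c3, d1, d2, d3, s, hD, hD', and_true, and_false, or_true, or_false,
      not_true, not_false_iff, if_true, if_false, or_self, and_self, mul_one, one_mul,
      implies_true, imp_false] at x1 x2 x3 y1 y2 y3 hS hsame ⊢ <;>
    first
    | exact e1
    | exact e2
    | exact e3
    | (rw [e4]; exact e1)

theorem TH_le_ThB_pr (hK : 5 ≤ K) {q : Par K} {x : ℝ} {P0 : ℕ} {u u' : PolyK K} (W : Wts K)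
    (hW : W.Ok) (P : ℕ) (h : IsPoly m q x P0 u) (h' : IsPoly m q x P0 u') :
    TH m W P u u' ≤ ThB m W P u u' := by
  classical
  set S := (DD m u * DD m u').primeFactors with hSdef
  have hD0 : DD m u * DD m u' ≠ 0 := mul_ne_zero (pb6_DD_ne h) (pb6_DD_ne h')
  have hSp : ∀ p ∈ S, p.Prime := fun p hp => (Nat.mem_primeFactors.1 hp).1
  have hSd : ∀ p ∈ S, p ∣ DD m u * DD m u' := fun p hp => (Nat.mem_primeFactors.1 hp).2.1
  have hdn : ∀ j, dn m u j ∣ DD m u := fun j => Finset.dvd_prod_of_mem _ (mem_univ j)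
  have hdn' : ∀ j, dn m u' j ∣ DD m u' := fun j => Finset.dvd_prod_of_mem _ (mem_univ j)
  have hbad : bad m u ∣ DD m u := Finset.prod_dvd_prod_of_subset _ _ _ (subset_univ _)
  have sub1 : ∀ j, (dn m u j).primeFactors ⊆ S := fun j =>
    Nat.primeFactors_mono ((hdn j).trans (dvd_mul_right _ _)) hD0
  have sub2 : ∀ j, (dn m u' j).primeFactors ⊆ S := fun j =>
    Nat.primeFactors_mono ((hdn' j).trans (dvd_mul_left _ _)) hD0
  have sub3 : ∀ j, (dn m u j * dn m u' j).primeFactors ⊆ S := fun j =>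
    Nat.primeFactors_mono (mul_dvd_mul (hdn j) (hdn' j)) hD0
  have subG : (Gc m u u').primeFactors ⊆ S := by
    intro p hp
    rw [Nat.mem_primeFactors] at hp
    have h1 := ((pb6_Gc_dvd (pb6_bad_ne h) hp.1).1 hp.2.1).1
    exact Nat.mem_primeFactors.2 ⟨hp.1, (h1.trans hbad).trans (dvd_mul_right _ _), hD0⟩
  have E1 : ThB m W P u u' = ∏ p ∈ S, ((if p ∣ Gc m u u' then (p : ℝ) / 2 else 1) *
      ((∏ j ∈ inr K, if p ∣ dn m u j then 2 * lw P p (W.al j) / (p : ℝ) else 1) *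
        (∏ j ∈ inr K, if p ∣ dn m u' j then 2 * lw P p (W.al j) / (p : ℝ) else 1)) *
      ((if p ∣ dn m u 1 * dn m u' 1 then 2 * (if p ∣ dn m u 1 ∧ p ∣ dn m u' 1 then
          lw P p (W.al 1 ^ 2 / W.s1) else lw P p (W.al 1 * W.be 1 / W.s1)) / (p : ℝ) else 1) *
        (if p ∣ dn m u (-1) * dn m u' (-1) then 2 * (if p ∣ dn m u (-1) ∧ p ∣ dn m u' (-1) then
          lw P p (W.al (-1) ^ 2 / W.s0) else lw P p (W.al (-1) * W.be 0 / W.s0)) / (p : ℝ)
            else 1))) := by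
    rw [Finset.prod_mul_distrib, Finset.prod_mul_distrib, Finset.prod_mul_distrib,
      Finset.prod_mul_distrib]
    unfold ThB wi wsp
    rw [pb6_prod S (pb6_Gc_ne u u') subG hSp (fun p => (p : ℝ) / 2),
      pb6_prod S (mul_ne_zero (pb6_dn_ne h 1) (pb6_dn_ne h' 1)) (sub3 1) hSp,
      pb6_prod S (mul_ne_zero (pb6_dn_ne h (-1)) (pb6_dn_ne h' (-1))) (sub3 (-1)) hSp,
      Finset.prod_comm (s := S) (t := inr K), Finset.prod_comm (s := S) (t := inr K),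
      Finset.prod_congr rfl (fun j _ => pb6_prod S (pb6_dn_ne h j) (sub1 j) hSp
        (fun p => 2 * lw P p (W.al j) / (p : ℝ))),
      Finset.prod_congr rfl (fun j _ => pb6_prod S (pb6_dn_ne h' j) (sub2 j) hSp
        (fun p => 2 * lw P p (W.al j) / (p : ℝ)))]
  rw [E1]
  unfold TH
  apply Finset.prod_le_prod
  · intro p hp
    refine mul_nonneg ?_ (pb6_th_nonneg (m := m) W hW P u u' p)
    unfold pip
    split_ifs <;> positivity
  · intro p hp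
    have hpp := hSp p hp
    rw [pb6_thi W P h hpp, pb6_thi W P h' hpp, pb6_ths P _ _ hpp, pb6_ths P _ _ hpp]
    have hb := pb6_pip hK h h' hpp (hSd p hp)
    have h3 := mul_le_mul_of_nonneg_right hb (pb6_th_nonneg (m := m) W hW P u u' p)
    refine h3.trans (le_of_eq ?_)
    unfold th
    ring

end Pool.Agent.AQ.PENK

namespace Pool.Agent.AQ.PENK

theorem TH_le_ThB : type_of% @TH_le_ThB_pr := @TH_le_ThB_pr

end Pool.Agent.AQ.PENK
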