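import Pool.Agent.Lib_helper18.AQ.K.Defs

/-! # AQ: (EQ-Q) for smaller `δ` (helper18) -/

set_option autoImplicit false

namespace Pool.Agent.AQ.PENK

open Finset Pool.Agent.PENT Pool.Agent.PENK

theorem EQQ_mono [FD] {δ δ' : ℝ} (h : EQQ δ) (hd : δ' ≤ δ) : EQQ δ' := by
  intro C4 hC4
  obtain ⟨C, x₀, hC, hx₀, H⟩ := h C4 hC4
  refine ⟨C, x₀, hC, hx₀, fun x hx G h1 h2 => ?_⟩
  have hx1 : (1 : ℝ) ≤ x := by linarith
  obtain ⟨O, f, a1, a2, a3⟩ := H x hx G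
    ((Real.rpow_le_rpow_of_exponent_le hx1 (by linarith)).trans h1)
    (h2.trans (Real.rpow_le_rpow_of_exponent_le hx1 (by linarith)))
  refine ⟨O, f, a1, a2, fun T h b1 b2 b3 b4 => ?_⟩
  exact (a3 T h b1 (b2.trans (Real.rpow_le_rpow_of_exponent_le hx1 hd)) b3 b4).trans
    (Real.rpow_le_rpow_of_exponent_le hx1 (by linarith))

end Pool.Agent.AQ.PENK
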