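import Pool.Agent.Lib_helper18.AQ.K.DefsW
import Pool.Agent.Lib_helper18.AQ.KF.PA4
import Pool.Agent.Lib_helper18.PENKF.PA5
import Pool.Agent.Lib_helper18.AQ.KF.PA6
import Pool.Agent.Lib_helper18.AQ.KF.PG1

/-! Block PG2: the lower bound for `vv`. -/

set_option autoImplicit false

namespace Pool.Agent.AQ.PENK

open Finset Pool.Agent.PENT Pool.Agent.PENK

variable [FD]

variable {K : ℕ} [NeZero K] {m : Fin K}

/-- the sum of `x_i x_j` over the ordered pairs of different indices -/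
noncomputable def pg2P {ι : Type} [DecidableEq ι] (s : Finset ι) (y : ι → ι → ℝ) : ℝ :=
  ∑ i ∈ s, ∑ j ∈ s, if i = j then 0 else y i j

theorem pg2P_insert {ι : Type} [DecidableEq ι] {s : Finset ι} {a : ι} (ha : a ∉ s)
    (y : ι → ι → ℝ) : pg2P (insert a s) y =
      pg2P s y + ∑ j ∈ s, y a j + ∑ i ∈ s, y i a := by
  unfold pg2P
  rw [Finset.sum_insert ha, Finset.sum_insert ha, if_pos rfl, zero_add]
  have e1 : ∑ j ∈ s, (if a = j then 0 else y a j) = ∑ j ∈ s, y a j :=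
    Finset.sum_congr rfl fun j hj => if_neg (fun h => ha (by rw [h]; exact hj))
  have e2 : ∑ i ∈ s, ∑ j ∈ insert a s, (if i = j then 0 else y i j) =
      ∑ i ∈ s, (y i a + ∑ j ∈ s, if i = j then 0 else y i j) := by
    refine Finset.sum_congr rfl fun i hi => ?_
    rw [Finset.sum_insert ha, if_neg (fun h => ha (by rw [← h]; exact hi))]
  rw [e1, e2, Finset.sum_add_distrib]
  ring

/-- a weighted Bonferroni inequality -/
theorem pg2_bonf {ι : Type} [DecidableEq ι] (s : Finset ι) (x : ι → ℝ)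
    (h0 : ∀ i ∈ s, 0 ≤ x i) (h1 : ∀ i ∈ s, x i ≤ 1) :
    (∑ i ∈ s, x i - pg2P s (fun i j => x i * x j) ≤ 1 - ∏ i ∈ s, (1 - x i)) ∧
      1 - ∑ i ∈ s, x i ≤ ∏ i ∈ s, (1 - x i) ∧ ∏ i ∈ s, (1 - x i) ≤ 1 := by
  induction s using Finset.induction_on with
  | empty => simp [pg2P]
  | insert a s ha ih =>
    obtain ⟨i1, i2, i3⟩ := ih (fun i hi => h0 i (Finset.mem_insert_of_mem hi))
      (fun i hi => h1 i (Finset.mem_insert_of_mem hi))
    have a0 := h0 a (Finset.mem_insert_self a s)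
    have a1 := h1 a (Finset.mem_insert_self a s)
    have hs0 : 0 ≤ ∑ i ∈ s, x i :=
      Finset.sum_nonneg fun i hi => h0 i (Finset.mem_insert_of_mem hi)
    rw [pg2P_insert ha, Finset.sum_insert ha, Finset.prod_insert ha, ← Finset.mul_sum,
      ← Finset.sum_mul]
    set Q := ∏ i ∈ s, (1 - x i) with hQ
    set X := ∑ i ∈ s, x i with hX
    have hXa : 0 ≤ x a * X := mul_nonneg a0 hs0
    have k1 : x a * (1 - X) ≤ x a * Q := mul_le_mul_of_nonneg_left i2 a0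
    have k2 : x a * Q ≤ x a * 1 := mul_le_mul_of_nonneg_left i3 a0
    have hQ0 : 0 ≤ Q := Finset.prod_nonneg fun i hi => by
      have := h1 i (Finset.mem_insert_of_mem hi); linarith
    have k3 : 0 ≤ x a * Q := mul_nonneg a0 hQ0
    refine ⟨?_, ?_, ?_⟩ <;> nlinarith

theorem pg2_mV_sum {ι : Type} {p : ℕ} (s : Finset ι) (f : ι → Bas → ℝ) :
    mV p (fun r => ∑ i ∈ s, f i r) = ∑ i ∈ s, mV p (f i) := by
  unfold mV
  rw [Finset.sum_comm, Finset.sum_div]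

theorem pg2_mV_sub {p : ℕ} (h h' : Bas → ℝ) : mV p (fun r => h r - h' r) = mV p h - mV p h' := by
  unfold mV
  rw [Finset.sum_sub_distrib, sub_div]

theorem pg2_ich_nonneg (a : Prop) : 0 ≤ ich a := by
  unfold ich; split_ifs <;> norm_num

theorem pg2_ich_le (a : Prop) : ich a ≤ 1 := by
  unfold ich; split_ifs <;> norm_num

theorem pg2_ich_and (a b : Prop) : ich a * ich b = ich (a ∧ b) := by
  classical
  unfold ich
  by_cases ha : a <;> by_cases hb : b <;> simp [ha, hb]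

theorem pg2_ich_congr {a b : Prop} (h : a ↔ b) : ich a = ich b := by
  rw [propext h]

/-- the mean of the simultaneous vanishing of two forms -/
theorem pg2_pair {p : ℕ} (hp : p.Prime) (h2 : FD.N0 < p) (h4 : Sp p) (c c' : ℤ × ℤ)
    (hc : ¬ ((p : ℤ) ∣ c.1 ∧ (p : ℤ) ∣ c.2)) :
    mV p (fun R => ich ((p : ℤ) ∣ Rf R c ∧ (p : ℤ) ∣ Rf R c')) ≤
      2 / (p : ℝ) * ich ((p : ℤ) ∣ dt c c') + 2 / (p : ℝ) ^ 2 := by
  have hp0 : (0 : ℝ) < p := by exact_mod_cast hp.pos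
  by_cases hd : (p : ℤ) ∣ dt c c'
  · have e1 : mV p (fun R => ich ((p : ℤ) ∣ Rf R c ∧ (p : ℤ) ∣ Rf R c')) ≤
        mV p (fun R => ich ((p : ℤ) ∣ Rf R c)) := by
      refine mV_mono fun r => ?_
      rw [← pg2_ich_and]
      calc ich ((p : ℤ) ∣ Rf r c) * ich ((p : ℤ) ∣ Rf r c') ≤ ich ((p : ℤ) ∣ Rf r c) * 1 :=
            mul_le_mul_of_nonneg_left (pg2_ich_le _) (pg2_ich_nonneg _)
        _ = _ := mul_one _
    rw [mV_one hp h2 c hc, if_pos h4] at e1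
    have e2 : ich ((p : ℤ) ∣ dt c c') = 1 := by unfold ich; rw [if_pos hd]
    have e3 : 2 / ((p : ℝ) + 1) ≤ 2 / (p : ℝ) :=
      div_le_div_of_nonneg_left (by norm_num) hp0 (by linarith)
    have e4 : 0 ≤ 2 / (p : ℝ) ^ 2 := by positivity
    rw [e2]
    linarith
  · rw [mV_two hp h2 c c' hd, if_pos h4]
    have e2 : ich ((p : ℤ) ∣ dt c c') = 0 := by unfold ich; rw [if_neg hd]
    rw [e2, mul_zero, zero_add]
    exact div_le_div_of_nonneg_left (by norm_num) (by positivity) (by nlinarith)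

/-- the general lower bound -/
theorem pg2_gen {ι : Type} [DecidableEq ι] {p : ℕ} (hp : p.Prime) (h2 : FD.N0 < p)
    (h4 : Sp p) (s : Finset ι) (v : ι → ℤ × ℤ) (α : ι → ℝ)
    (hα0 : ∀ i ∈ s, 0 ≤ α i) (hα1 : ∀ i ∈ s, α i ≤ 1)
    (hv : ∀ i ∈ s, ¬ ((p : ℤ) ∣ (v i).1 ∧ (p : ℤ) ∣ (v i).2)) :
    ∑ i ∈ s, (1 - α i) * (2 / ((p : ℝ) + 1)) -
        pg2P s (fun i j => 2 / (p : ℝ) * ich ((p : ℤ) ∣ dt (v i) (v j)) + 2 / (p : ℝ) ^ 2) ≤
      mV p (fun R => 1 - ∏ i ∈ s, ind p (Rf R (v i)) (α i)) := by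
  have hpt : ∀ R : Bas, ∑ i ∈ s, (1 - α i) * ich ((p : ℤ) ∣ Rf R (v i)) -
      pg2P s (fun i j => ich ((p : ℤ) ∣ Rf R (v i) ∧ (p : ℤ) ∣ Rf R (v j))) ≤
      1 - ∏ i ∈ s, ind p (Rf R (v i)) (α i) := by
    intro R
    have hx0 : ∀ i ∈ s, 0 ≤ (1 - α i) * ich ((p : ℤ) ∣ Rf R (v i)) := fun i hi =>
      mul_nonneg (by have := hα1 i hi; linarith) (pg2_ich_nonneg _)
    have hx1 : ∀ i ∈ s, (1 - α i) * ich ((p : ℤ) ∣ Rf R (v i)) ≤ 1 := by
      intro i hi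
      have a := hα0 i hi
      have b := hα1 i hi
      calc (1 - α i) * ich ((p : ℤ) ∣ Rf R (v i)) ≤ 1 * 1 :=
            mul_le_mul (by linarith) (pg2_ich_le _) (pg2_ich_nonneg _) zero_le_one
        _ = 1 := one_mul _
    have hb := (pg2_bonf s _ hx0 hx1).1
    have hprod : ∏ i ∈ s, (1 - (1 - α i) * ich ((p : ℤ) ∣ Rf R (v i))) =
        ∏ i ∈ s, ind p (Rf R (v i)) (α i) := by
      refine Finset.prod_congr rfl fun i _ => ?_
      unfold ind ich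
      split_ifs <;> ring
    rw [hprod] at hb
    have hP : pg2P s (fun i j => (1 - α i) * ich ((p : ℤ) ∣ Rf R (v i)) *
        ((1 - α j) * ich ((p : ℤ) ∣ Rf R (v j)))) ≤
        pg2P s (fun i j => ich ((p : ℤ) ∣ Rf R (v i) ∧ (p : ℤ) ∣ Rf R (v j))) := by
      unfold pg2P
      refine Finset.sum_le_sum fun i hi => Finset.sum_le_sum fun j hj => ?_
      split_ifs
      · exact le_rfl
      · show (1 - α i) * ich ((p : ℤ) ∣ Rf R (v i)) * ((1 - α j) * ich ((p : ℤ) ∣ Rf R (v j))) ≤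
          ich ((p : ℤ) ∣ Rf R (v i) ∧ (p : ℤ) ∣ Rf R (v j))
        rw [← pg2_ich_and]
        have a := hα0 i hi
        have b := hα1 i hi
        have c := hα0 j hj
        have d := hα1 j hj
        refine mul_le_mul ?_ ?_ (hx0 j hj) (pg2_ich_nonneg _)
        · calc (1 - α i) * ich ((p : ℤ) ∣ Rf R (v i)) ≤ 1 * ich ((p : ℤ) ∣ Rf R (v i)) :=
                mul_le_mul_of_nonneg_right (by linarith) (pg2_ich_nonneg _)
            _ = _ := one_mul _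
        · calc (1 - α j) * ich ((p : ℤ) ∣ Rf R (v j)) ≤ 1 * ich ((p : ℤ) ∣ Rf R (v j)) :=
                mul_le_mul_of_nonneg_right (by linarith) (pg2_ich_nonneg _)
            _ = _ := one_mul _
    linarith
  refine le_trans ?_ (mV_mono hpt)
  rw [pg2_mV_sub, pg2_mV_sum]
  have e1 : ∑ i ∈ s, mV p (fun R => (1 - α i) * ich ((p : ℤ) ∣ Rf R (v i))) =
      ∑ i ∈ s, (1 - α i) * (2 / ((p : ℝ) + 1)) := by
    refine Finset.sum_congr rfl fun i hi => ?_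
    rw [mV_smul, mV_one hp h2 (v i) (hv i hi), if_pos h4]
  have e2 : mV p (fun R => pg2P s (fun i j =>
      ich ((p : ℤ) ∣ Rf R (v i) ∧ (p : ℤ) ∣ Rf R (v j)))) ≤
      pg2P s (fun i j => 2 / (p : ℝ) * ich ((p : ℤ) ∣ dt (v i) (v j)) + 2 / (p : ℝ) ^ 2) := by
    unfold pg2P
    rw [pg2_mV_sum]
    refine Finset.sum_le_sum fun i hi => ?_
    rw [pg2_mV_sum]
    refine Finset.sum_le_sum fun j hj => ?_
    by_cases hij : i = j
    · have : (fun R : Bas => if i = j then (0 : ℝ) else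
          ich ((p : ℤ) ∣ Rf R (v i) ∧ (p : ℤ) ∣ Rf R (v j))) = fun _ => 0 := by
        funext R; rw [if_pos hij]
      rw [this, if_pos hij]
      unfold mV
      simp
    · have : (fun R : Bas => if i = j then (0 : ℝ) else
          ich ((p : ℤ) ∣ Rf R (v i) ∧ (p : ℤ) ∣ Rf R (v j))) =
          fun R => ich ((p : ℤ) ∣ Rf R (v i) ∧ (p : ℤ) ∣ Rf R (v j)) := by
        funext R; rw [if_neg hij]
      rw [this, if_neg hij]
      exact pg2_pair hp h2 h4 (v i) (v j) (hv i hi)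
  linarith

/-- the vectors of the forms `g, g'` -/
def pg2e (b : Fin 2) : ℤ × ℤ := if b = 0 then (1, 0) else (0, 1)

theorem pg2P_disjSum {ι κ : Type} [DecidableEq ι] [DecidableEq κ] (s : Finset ι) (t : Finset κ)
    (y : ι ⊕ κ → ι ⊕ κ → ℝ) : pg2P (s.disjSum t) y =
      pg2P s (fun i j => y (Sum.inl i) (Sum.inl j)) +
        ∑ i ∈ s, ∑ j ∈ t, (y (Sum.inl i) (Sum.inr j) + y (Sum.inr j) (Sum.inl i)) +
        pg2P t (fun i j => y (Sum.inr i) (Sum.inr j)) := by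
  unfold pg2P
  rw [Finset.sum_disjSum]
  have e1 : ∀ i ∈ s, ∑ j ∈ s.disjSum t, (if Sum.inl i = j then 0 else y (Sum.inl i) j) =
      ∑ j ∈ s, (if i = j then 0 else y (Sum.inl i) (Sum.inl j)) +
        ∑ j ∈ t, y (Sum.inl i) (Sum.inr j) := by
    intro i _
    rw [Finset.sum_disjSum]
    refine congrArg₂ (· + ·) (Finset.sum_congr rfl fun j _ => ?_)
      (Finset.sum_congr rfl fun j _ => ?_)
    · simp
    · simp
  have e2 : ∀ i ∈ t, ∑ j ∈ s.disjSum t, (if Sum.inr i = j then 0 else y (Sum.inr i) j) =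
      ∑ j ∈ s, y (Sum.inr i) (Sum.inl j) +
        ∑ j ∈ t, (if i = j then 0 else y (Sum.inr i) (Sum.inr j)) := by
    intro i _
    rw [Finset.sum_disjSum]
    refine congrArg₂ (· + ·) (Finset.sum_congr rfl fun j _ => ?_)
      (Finset.sum_congr rfl fun j _ => ?_)
    · simp
    · simp
  rw [Finset.sum_congr rfl e1, Finset.sum_congr rfl e2, Finset.sum_add_distrib,
    Finset.sum_add_distrib]
  have e3 : ∑ i ∈ s, ∑ j ∈ t, (y (Sum.inl i) (Sum.inr j) + y (Sum.inr j) (Sum.inl i)) =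
      ∑ i ∈ s, ∑ j ∈ t, y (Sum.inl i) (Sum.inr j) +
        ∑ i ∈ t, ∑ j ∈ s, y (Sum.inr i) (Sum.inl j) := by
    rw [Finset.sum_comm (s := t) (t := s), ← Finset.sum_add_distrib]
    refine Finset.sum_congr rfl fun i _ => ?_
    rw [Finset.sum_add_distrib]
  rw [e3]
  ring

theorem pg2_dt_swap {p : ℕ} (a b : ℤ × ℤ) : ich ((p : ℤ) ∣ dt a b) = ich ((p : ℤ) ∣ dt b a) := by
  refine pg2_ich_congr ?_
  have : dt a b = -dt b a := by unfold dt; ring
  rw [this, dvd_neg]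

theorem vv_lower_pr (hK : 5 ≤ K) (W : Wts K) (hW : W.Ok) : ∃ C1 : ℝ, 0 ≤ C1 ∧ ∀ (P0 p : ℕ),
    p.Prime → FD.N0 < p → ∀ u u' : PolyK K, ¬ p ∣ DD m u → ¬ p ∣ DD m u' →
    ¬ (p : ℤ) ∣ dl u m → ¬ (p : ℤ) ∣ dl u' m →
    (if ¬ Sp p then 0 else
      (2 * (1 - W.g0 P0 p) + 2 * (1 - W.g1 P0 p) + 4 * ∑ k ∈ ivr K, (1 - W.gi P0 p k)) / p -
        C1 / (p : ℝ) ^ 2 -
        C1 / p * (∑ k ∈ ivr K, (ich ((p : ℤ) ∣ (cv u k).1) + ich ((p : ℤ) ∣ (cv u k).2) +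
            ich ((p : ℤ) ∣ (cv u' k).1) + ich ((p : ℤ) ∣ (cv u' k).2)) +
          ∑ i ∈ ivr K, ∑ j ∈ ivr K, (ich ((p : ℤ) ∣ dt (cv u i) (cv u' j)) +
            (if i = j then 0 else ich ((p : ℤ) ∣ dt (cv u i) (cv u j)) +
              ich ((p : ℤ) ∣ dt (cv u' i) (cv u' j))))) : ℝ) ≤ vv W P0 u u' p := by
  classical
  -- the index set
  set s : Finset (Fin 2 ⊕ (Fin K ⊕ Fin K)) :=
    (Finset.univ : Finset (Fin 2)).disjSum ((ivr K).disjSum (ivr K)) with hs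
  set N : ℝ := (s.card : ℝ) with hN
  have hN0 : 0 ≤ N := by rw [hN]; positivity
  refine ⟨2 * N + 2 * (N * N) + 4, by positivity, ?_⟩
  intro P0 p hp h2 u u' hu hu' ho ho'
  have hp0 : (0 : ℝ) < p := by exact_mod_cast hp.pos
  by_cases h3 : ¬ Sp p
  · rw [if_pos h3]
    refine (vv_bounds hK W hW P0 u u' hp h2 ?_ ho ho').1
    intro h
    rcases hp.dvd_mul.1 h with h | h
    · exact hu h
    · exact hu' h
  rw [if_neg h3]
  have h4 : Sp p := not_not.1 h3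
  -- the weights
  have hs0 : 0 < W.s0 := by
    have := hW.be0 0; have := hW.al0 (-1); unfold Wts.s0; linarith
  have hs1 : 0 < W.s1 := by
    have := hW.be0 1; have := hW.al0 1; unfold Wts.s1; linarith
  have hg0 : 0 ≤ W.g0 P0 p ∧ W.g0 P0 p ≤ 1 := by
    unfold Wts.g0
    split_ifs
    · exact ⟨hW.bo0 0, hW.bo1 0⟩
    · have a := hW.be0 0
      have b := hW.be1 0
      have c := hW.al0 (-1)
      refine ⟨by positivity, ?_⟩
      rw [div_le_one hs0]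
      unfold Wts.s0
      nlinarith
  have hg1 : 0 ≤ W.g1 P0 p ∧ W.g1 P0 p ≤ 1 := by
    unfold Wts.g1
    split_ifs
    · exact ⟨hW.bo0 1, hW.bo1 1⟩
    · have a := hW.be0 1
      have b := hW.be1 1
      have c := hW.al0 1
      refine ⟨by positivity, ?_⟩
      rw [div_le_one hs1]
      unfold Wts.s1
      nlinarith
  have hgi : ∀ k, 0 ≤ W.gi P0 p k ∧ W.gi P0 p k ≤ 1 := by
    intro k
    unfold Wts.gi
    split_ifs
    · exact ⟨hW.bo0 k, hW.bo1 k⟩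
    · exact ⟨(hW.be0 k).le, hW.be1 k⟩
  set v : Fin 2 ⊕ (Fin K ⊕ Fin K) → ℤ × ℤ := Sum.elim pg2e (Sum.elim (cv u) (cv u')) with hv
  set α : Fin 2 ⊕ (Fin K ⊕ Fin K) → ℝ :=
    Sum.elim (fun b => if b = 0 then W.g0 P0 p else W.g1 P0 p)
      (Sum.elim (W.gi P0 p) (W.gi P0 p)) with hα
  have hα01 : ∀ i, 0 ≤ α i ∧ α i ≤ 1 := by
    rintro (b | k | k)
    · show 0 ≤ (if b = 0 then W.g0 P0 p else W.g1 P0 p) ∧
        (if b = 0 then W.g0 P0 p else W.g1 P0 p) ≤ 1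
      split_ifs
      · exact hg0
      · exact hg1
    · exact hgi k
    · exact hgi k
  have h1p : ¬ (p : ℤ) ∣ 1 := by
    intro h
    have : (p : ℤ) ≤ 1 := Int.le_of_dvd one_pos h
    have : (2 : ℤ) < p := by exact_mod_cast lt_of_le_of_lt FD.two h2
    linarith
  have hvs : ∀ i ∈ s, ¬ ((p : ℤ) ∣ (v i).1 ∧ (p : ℤ) ∣ (v i).2) := by
    intro i hi
    rcases i with b | k | k
    · show ¬ ((p : ℤ) ∣ (pg2e b).1 ∧ (p : ℤ) ∣ (pg2e b).2)
      unfold pg2e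
      split_ifs
      · exact fun h => h1p h.1
      · exact fun h => h1p h.2
    · rw [hs, Finset.inr_mem_disjSum, Finset.inl_mem_disjSum] at hi
      exact cv_ne hp u hu ho k hi
    · rw [hs, Finset.inr_mem_disjSum, Finset.inr_mem_disjSum] at hi
      exact cv_ne hp u' hu' ho' k hi
  have hgen := pg2_gen hp h2 h4 s v α (fun i _ => (hα01 i).1) (fun i _ => (hα01 i).2) hvs
  -- the product is `phi`
  have hphi : (fun R : Bas => 1 - ∏ i ∈ s, ind p (Rf R (v i)) (α i)) =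
      fun R => 1 - phi W P0 u u' p R := by
    funext R
    congr 1
    rw [hs, Finset.prod_disjSum, Finset.prod_disjSum, Fin.prod_univ_two]
    have e0 : Rf R (v (Sum.inl 0)) = R.1 := by
      show Rf R (pg2e 0) = R.1
      unfold pg2e Rf qf
      simp
    have e1 : Rf R (v (Sum.inl 1)) = R.2.2 := by
      show Rf R (pg2e 1) = R.2.2
      unfold pg2e Rf qf
      simp
    rw [e0, e1]
    unfold phi
    rfl
  rw [hphi] at hgen
  have hvv : vv W P0 u u' p = mV p (fun R => 1 - phi W P0 u u' p R) := rfl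
  rw [hvv]
  refine le_trans ?_ hgen
  -- the first sum
  have hsum : ∑ i ∈ s, (1 - α i) = (1 - W.g0 P0 p) + (1 - W.g1 P0 p) +
      2 * ∑ k ∈ ivr K, (1 - W.gi P0 p k) := by
    rw [hs, Finset.sum_disjSum, Finset.sum_disjSum, Fin.sum_univ_two]
    show (1 - W.g0 P0 p) + (1 - W.g1 P0 p) + (∑ k ∈ ivr K, (1 - W.gi P0 p k) +
      ∑ k ∈ ivr K, (1 - W.gi P0 p k)) = _
    ring
  have hsumN : ∑ i ∈ s, (1 - α i) ≤ N := by
    calc ∑ i ∈ s, (1 - α i) ≤ ∑ _i ∈ s, (1 : ℝ) :=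
          Finset.sum_le_sum fun i _ => by have := (hα01 i).1; linarith
      _ = N := by rw [Finset.sum_const, nsmul_eq_mul, mul_one]
  have hsum0 : 0 ≤ ∑ i ∈ s, (1 - α i) :=
    Finset.sum_nonneg fun i _ => by have := (hα01 i).2; linarith
  have h2p : 2 / (p : ℝ) - 2 / (p : ℝ) ^ 2 ≤ 2 / ((p : ℝ) + 1) := by
    rw [div_sub_div _ _ hp0.ne' (by positivity), div_le_div_iff₀ (by positivity) (by positivity)]
    nlinarith [hp0, mul_pos hp0 hp0]
  have hfirst : (∑ i ∈ s, (1 - α i)) * (2 / (p : ℝ)) - 2 * N / (p : ℝ) ^ 2 ≤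
      ∑ i ∈ s, (1 - α i) * (2 / ((p : ℝ) + 1)) := by
    rw [← Finset.sum_mul]
    have k1 : (∑ i ∈ s, (1 - α i)) * (2 / (p : ℝ) - 2 / (p : ℝ) ^ 2) ≤
        (∑ i ∈ s, (1 - α i)) * (2 / ((p : ℝ) + 1)) := mul_le_mul_of_nonneg_left h2p hsum0
    have k2 : (∑ i ∈ s, (1 - α i)) * (2 / (p : ℝ) ^ 2) ≤ N * (2 / (p : ℝ) ^ 2) :=
      mul_le_mul_of_nonneg_right hsumN (by positivity)
    have k3 : N * (2 / (p : ℝ) ^ 2) = 2 * N / (p : ℝ) ^ 2 := by ring
    rw [mul_sub] at k1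
    linarith
  -- the second sum
  set E : ℝ := ∑ k ∈ ivr K, (ich ((p : ℤ) ∣ (cv u k).1) + ich ((p : ℤ) ∣ (cv u k).2) +
            ich ((p : ℤ) ∣ (cv u' k).1) + ich ((p : ℤ) ∣ (cv u' k).2)) +
          ∑ i ∈ ivr K, ∑ j ∈ ivr K, (ich ((p : ℤ) ∣ dt (cv u i) (cv u' j)) +
            (if i = j then 0 else ich ((p : ℤ) ∣ dt (cv u i) (cv u j)) +
              ich ((p : ℤ) ∣ dt (cv u' i) (cv u' j)))) with hE
  have hE0 : 0 ≤ E := by
    rw [hE]
    refine add_nonneg (Finset.sum_nonneg fun k _ => ?_)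
      (Finset.sum_nonneg fun i _ => Finset.sum_nonneg fun j _ => add_nonneg (pg2_ich_nonneg _) ?_)
    · have a := pg2_ich_nonneg ((p : ℤ) ∣ (cv u k).1)
      have b := pg2_ich_nonneg ((p : ℤ) ∣ (cv u k).2)
      have c := pg2_ich_nonneg ((p : ℤ) ∣ (cv u' k).1)
      have d := pg2_ich_nonneg ((p : ℤ) ∣ (cv u' k).2)
      linarith
    · split_ifs
      · exact le_rfl
      · exact add_nonneg (pg2_ich_nonneg _) (pg2_ich_nonneg _)
  have hPI : pg2P s (fun i j => ich ((p : ℤ) ∣ dt (v i) (v j))) ≤ 2 * E := by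
    rw [hs, pg2P_disjSum, pg2P_disjSum]
    have t1 : pg2P (Finset.univ : Finset (Fin 2)) (fun i j => ich ((p : ℤ) ∣
        dt (v (Sum.inl i)) (v (Sum.inl j)))) = 0 := by
      unfold pg2P
      have q1 : ich ((p : ℤ) ∣ dt (v (Sum.inl 0)) (v (Sum.inl 1))) = 0 := by
        have : dt (v (Sum.inl 0)) (v (Sum.inl 1)) = 1 := by
          show dt (pg2e 0) (pg2e 1) = 1
          unfold pg2e dt; simp
        rw [this]; unfold ich; rw [if_neg h1p]
      have q2 : ich ((p : ℤ) ∣ dt (v (Sum.inl 1)) (v (Sum.inl 0))) = 0 := by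
        rw [pg2_dt_swap]; exact q1
      refine Finset.sum_eq_zero fun i _ => Finset.sum_eq_zero fun j _ => ?_
      have hi : i = 0 ∨ i = 1 := by omega
      have hj : j = 0 ∨ j = 1 := by omega
      rcases hi with rfl | rfl <;> rcases hj with rfl | rfl
      · rw [if_pos rfl]
      · rw [if_neg (by decide)]; exact q1
      · rw [if_neg (by decide)]; exact q2
      · rw [if_pos rfl]
    have t2 : ∑ i : Fin 2, ∑ j ∈ (ivr K).disjSum (ivr K),
        (ich ((p : ℤ) ∣ dt (v (Sum.inl i)) (v (Sum.inr j))) +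
          ich ((p : ℤ) ∣ dt (v (Sum.inr j)) (v (Sum.inl i)))) =
        2 * ∑ k ∈ ivr K, (ich ((p : ℤ) ∣ (cv u k).1) + ich ((p : ℤ) ∣ (cv u k).2) +
            ich ((p : ℤ) ∣ (cv u' k).1) + ich ((p : ℤ) ∣ (cv u' k).2)) := by
      have q0 : ∀ c : ℤ × ℤ, ich ((p : ℤ) ∣ dt (pg2e 0) c) = ich ((p : ℤ) ∣ c.2) := by
        intro c
        have : dt (pg2e 0) c = c.2 := by unfold pg2e dt; simp
        rw [this]
      have q1 : ∀ c : ℤ × ℤ, ich ((p : ℤ) ∣ dt (pg2e 1) c) = ich ((p : ℤ) ∣ c.1) := by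
        intro c
        refine pg2_ich_congr ?_
        have : dt (pg2e 1) c = -c.1 := by unfold pg2e dt; simp
        rw [this, dvd_neg]
      have r0 : ∀ c : ℤ × ℤ, ich ((p : ℤ) ∣ dt (pg2e 0) c) +
          ich ((p : ℤ) ∣ dt c (pg2e 0)) = 2 * ich ((p : ℤ) ∣ c.2) := by
        intro c
        rw [pg2_dt_swap c, q0]; ring
      have r1 : ∀ c : ℤ × ℤ, ich ((p : ℤ) ∣ dt (pg2e 1) c) +
          ich ((p : ℤ) ∣ dt c (pg2e 1)) = 2 * ich ((p : ℤ) ∣ c.1) := by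
        intro c
        rw [pg2_dt_swap c, q1]; ring
      rw [Fin.sum_univ_two, Finset.sum_disjSum, Finset.sum_disjSum]
      show (∑ k ∈ ivr K, (ich ((p : ℤ) ∣ dt (pg2e 0) (cv u k)) +
          ich ((p : ℤ) ∣ dt (cv u k) (pg2e 0))) +
        ∑ k ∈ ivr K, (ich ((p : ℤ) ∣ dt (pg2e 0) (cv u' k)) +
          ich ((p : ℤ) ∣ dt (cv u' k) (pg2e 0)))) +
        (∑ k ∈ ivr K, (ich ((p : ℤ) ∣ dt (pg2e 1) (cv u k)) +
          ich ((p : ℤ) ∣ dt (cv u k) (pg2e 1))) +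
        ∑ k ∈ ivr K, (ich ((p : ℤ) ∣ dt (pg2e 1) (cv u' k)) +
          ich ((p : ℤ) ∣ dt (cv u' k) (pg2e 1)))) = _
      simp only [r0, r1, ← Finset.mul_sum, Finset.sum_add_distrib]
      ring
    have t3 : ∑ i ∈ ivr K, ∑ j ∈ ivr K,
        (ich ((p : ℤ) ∣ dt (v (Sum.inr (Sum.inl i))) (v (Sum.inr (Sum.inr j)))) +
          ich ((p : ℤ) ∣ dt (v (Sum.inr (Sum.inr j))) (v (Sum.inr (Sum.inl i))))) =
        2 * ∑ i ∈ ivr K, ∑ j ∈ ivr K, ich ((p : ℤ) ∣ dt (cv u i) (cv u' j)) := by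
      rw [Finset.mul_sum]
      refine Finset.sum_congr rfl fun i _ => ?_
      rw [Finset.mul_sum]
      refine Finset.sum_congr rfl fun j _ => ?_
      show ich ((p : ℤ) ∣ dt (cv u i) (cv u' j)) + ich ((p : ℤ) ∣ dt (cv u' j) (cv u i)) = _
      rw [pg2_dt_swap (cv u' j)]; ring
    have t4 : pg2P (ivr K) (fun i j => ich ((p : ℤ) ∣
        dt (v (Sum.inr (Sum.inl i))) (v (Sum.inr (Sum.inl j))))) =
        ∑ i ∈ ivr K, ∑ j ∈ ivr K, (if i = j then 0 else ich ((p : ℤ) ∣ dt (cv u i) (cv u j))) :=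
      rfl
    have t5 : pg2P (ivr K) (fun i j => ich ((p : ℤ) ∣
        dt (v (Sum.inr (Sum.inr i))) (v (Sum.inr (Sum.inr j))))) =
        ∑ i ∈ ivr K, ∑ j ∈ ivr K, (if i = j then 0 else ich ((p : ℤ) ∣ dt (cv u' i) (cv u' j))) :=
      rfl
    have t6 : ∑ i ∈ ivr K, ∑ j ∈ ivr K, (ich ((p : ℤ) ∣ dt (cv u i) (cv u' j)) +
            (if i = j then 0 else ich ((p : ℤ) ∣ dt (cv u i) (cv u j)) +
              ich ((p : ℤ) ∣ dt (cv u' i) (cv u' j)))) =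
        ∑ i ∈ ivr K, ∑ j ∈ ivr K, ich ((p : ℤ) ∣ dt (cv u i) (cv u' j)) +
        (∑ i ∈ ivr K, ∑ j ∈ ivr K, (if i = j then 0 else ich ((p : ℤ) ∣ dt (cv u i) (cv u j))) +
        ∑ i ∈ ivr K, ∑ j ∈ ivr K,
          (if i = j then 0 else ich ((p : ℤ) ∣ dt (cv u' i) (cv u' j)))) := by
      rw [← Finset.sum_add_distrib, ← Finset.sum_add_distrib]
      refine Finset.sum_congr rfl fun i _ => ?_
      rw [← Finset.sum_add_distrib, ← Finset.sum_add_distrib]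
      refine Finset.sum_congr rfl fun j _ => ?_
      split_ifs <;> ring
    have n1 : 0 ≤ ∑ i ∈ ivr K, ∑ j ∈ ivr K,
        (if i = j then 0 else ich ((p : ℤ) ∣ dt (cv u i) (cv u j))) :=
      Finset.sum_nonneg fun i _ => Finset.sum_nonneg fun j _ => by
        split_ifs
        · exact le_rfl
        · exact pg2_ich_nonneg _
    have n2 : 0 ≤ ∑ i ∈ ivr K, ∑ j ∈ ivr K,
        (if i = j then 0 else ich ((p : ℤ) ∣ dt (cv u' i) (cv u' j))) :=
      Finset.sum_nonneg fun i _ => Finset.sum_nonneg fun j _ => by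
        split_ifs
        · exact le_rfl
        · exact pg2_ich_nonneg _
    rw [t1, t2, t3, t4, t5, hE, t6]
    linarith
  have hsecond : pg2P s (fun i j => 2 / (p : ℝ) * ich ((p : ℤ) ∣ dt (v i) (v j)) +
      2 / (p : ℝ) ^ 2) ≤ 2 * (N * N) / (p : ℝ) ^ 2 + 4 / p * E := by
    have k1 : pg2P s (fun i j => 2 / (p : ℝ) * ich ((p : ℤ) ∣ dt (v i) (v j)) +
        2 / (p : ℝ) ^ 2) ≤ 2 / (p : ℝ) * pg2P s (fun i j => ich ((p : ℤ) ∣ dt (v i) (v j))) +
        ∑ _i ∈ s, ∑ _j ∈ s, 2 / (p : ℝ) ^ 2 := by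
      unfold pg2P
      rw [Finset.mul_sum, ← Finset.sum_add_distrib]
      refine Finset.sum_le_sum fun i _ => ?_
      rw [Finset.mul_sum, ← Finset.sum_add_distrib]
      refine Finset.sum_le_sum fun j _ => ?_
      split_ifs
      · have : 0 ≤ 2 / (p : ℝ) ^ 2 := by positivity
        linarith
      · exact le_rfl
    have k2 : ∑ _i ∈ s, ∑ _j ∈ s, 2 / (p : ℝ) ^ 2 = 2 * (N * N) / (p : ℝ) ^ 2 := by
      rw [Finset.sum_const, Finset.sum_const, nsmul_eq_mul, nsmul_eq_mul]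
      rw [← hN]; ring
    have k3 : 2 / (p : ℝ) * pg2P s (fun i j => ich ((p : ℤ) ∣ dt (v i) (v j))) ≤
        2 / (p : ℝ) * (2 * E) := mul_le_mul_of_nonneg_left hPI (by positivity)
    have k4 : 2 / (p : ℝ) * (2 * E) = 4 / p * E := by ring
    linarith
  -- the end
  have hmain : (2 * (1 - W.g0 P0 p) + 2 * (1 - W.g1 P0 p) +
      4 * ∑ k ∈ ivr K, (1 - W.gi P0 p k)) / p = (∑ i ∈ s, (1 - α i)) * (2 / (p : ℝ)) := by
    rw [hsum]; ring
  rw [hmain]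
  have c1 : (2 * N + 2 * (N * N) + 4) / (p : ℝ) ^ 2 =
      2 * N / (p : ℝ) ^ 2 + 2 * (N * N) / (p : ℝ) ^ 2 + 4 / (p : ℝ) ^ 2 := by ring
  have c2 : (2 * N + 2 * (N * N) + 4) / (p : ℝ) * E =
      (2 * N + 2 * (N * N)) / (p : ℝ) * E + 4 / p * E := by ring
  have c3 : 0 ≤ (2 * N + 2 * (N * N)) / (p : ℝ) * E := by positivity
  have c4 : 0 ≤ 4 / (p : ℝ) ^ 2 := by positivity
  rw [c1, c2]
  linarith

end Pool.Agent.AQ.PENK

namespace Pool.Agent.AQ.PENK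

theorem vv_lower : type_of% @vv_lower_pr := @vv_lower_pr

end Pool.Agent.AQ.PENK
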