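import Pool.Agent.Lib_helper18.AQ.K.DefsW
import Pool.Agent.Lib_helper18.AQ.KF.PG1
import Pool.Agent.Lib_helper18.AQ.KF.PG2
import Pool.Agent.Lib_helper18.AQ.KF.PA6

set_option autoImplicit false

namespace Pool.Agent.AQ.PENK

open Finset Pool.Agent.PENT Pool.Agent.PENK

variable [FD]

variable {K : ℕ} [NeZero K] {m : Fin K}

/-- the off-diagonal double sum -/
noncomputable def pg3_off {ι : Type} [DecidableEq ι] (J : Finset ι) (F : ι → ι → ℝ) : ℝ :=
  ∑ i ∈ J, ∑ j ∈ J, if i = j then 0 else F i j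

theorem pg3_off_insert {ι : Type} [DecidableEq ι] (J : Finset ι) (x : ι → ℝ) (i : ι)
    (hi : i ∉ J) : pg3_off (insert i J) (fun a b => x a * x b) =
      pg3_off J (fun a b => x a * x b) + 2 * (x i * ∑ j ∈ J, x j) := by
  unfold pg3_off
  have h1 : ∀ k ∈ J, (∑ j ∈ insert i J, if k = j then 0 else x k * x j) =
      x k * x i + ∑ j ∈ J, if k = j then 0 else x k * x j := by
    intro k hk
    rw [Finset.sum_insert hi, if_neg (by rintro rfl; exact hi hk)]
  rw [Finset.sum_insert hi, Finset.sum_congr rfl h1, Finset.sum_insert hi, if_pos rfl,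
    Finset.sum_add_distrib]
  have h2 : (∑ j ∈ J, if i = j then 0 else x i * x j) = x i * ∑ j ∈ J, x j := by
    rw [Finset.mul_sum]
    apply Finset.sum_congr rfl
    intro j hj
    rw [if_neg (by rintro rfl; exact hi hj)]
  have h3 : ∑ k ∈ J, x k * x i = x i * ∑ j ∈ J, x j := by
    rw [Finset.mul_sum]
    apply Finset.sum_congr rfl
    intro j _
    ring
  rw [h2, h3]
  ring

theorem pg3_bonf {ι : Type} [DecidableEq ι] (J : Finset ι) (x : ι → ℝ)
    (h : ∀ j ∈ J, 0 ≤ x j ∧ x j ≤ 1) :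
    0 ≤ ∏ j ∈ J, (1 - x j) ∧ ∏ j ∈ J, (1 - x j) ≤ 1 ∧ 1 - ∑ j ∈ J, x j ≤ ∏ j ∈ J, (1 - x j) ∧
      ∏ j ∈ J, (1 - x j) ≤ 1 - ∑ j ∈ J, x j + pg3_off J (fun i j => x i * x j) := by
  induction J using Finset.induction_on with
  | empty => simp [pg3_off]
  | insert i J hi ih =>
    obtain ⟨h1, h2, h3, h4⟩ := ih (fun j hj => h j (Finset.mem_insert_of_mem hj))
    have hx := h i (Finset.mem_insert_self i J)
    have hs : 0 ≤ ∑ j ∈ J, x j :=
      Finset.sum_nonneg (fun j hj => (h j (Finset.mem_insert_of_mem hj)).1)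
    rw [Finset.prod_insert hi, Finset.sum_insert hi, pg3_off_insert J x i hi]
    refine ⟨mul_nonneg (by linarith [hx.2]) h1, ?_, ?_, ?_⟩
    · nlinarith [hx.1, hx.2]
    · nlinarith [hx.1, hx.2, mul_nonneg hx.1 hs]
    · nlinarith [hx.1, hx.2, mul_nonneg hx.1 hs, mul_nonneg hx.1 h1]

/-- the indicator of a vanishing edge -/
noncomputable def pg3_A (p : ℕ) (j : Fin K) (u : PolyK K) : ℝ := ich ((p : ℤ) ∣ dl u j)

theorem pg3_A_mem (p : ℕ) (j : Fin K) (u : PolyK K) : 0 ≤ pg3_A p j u ∧ pg3_A p j u ≤ 1 := by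
  unfold pg3_A ich
  split_ifs <;> norm_num

theorem pg3_ich_nonneg (a : Prop) : 0 ≤ ich a := by
  unfold ich
  split_ifs <;> norm_num

theorem pg3_ich_mono {a b : Prop} (h : a → b) : ich a ≤ ich b := by
  unfold ich
  split_ifs with h1 h2
  · exact le_rfl
  · exact absurd (h h1) h2
  · norm_num
  · exact le_rfl

theorem pg3_ich_and (a b : Prop) : ich (a ∧ b) = ich a * ich b := by
  unfold ich
  by_cases h1 : a <;> by_cases h2 : b <;> simp [h1, h2]

theorem pg3_bad_iff {p : ℕ} (hp : p.Prime) (u : PolyK K) :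
    p ∣ bad m u ↔ ∃ j ∈ inr K \ {m}, (p : ℤ) ∣ dl u j := by
  unfold bad
  rw [Prime.dvd_finsetProd_iff hp.prime]
  constructor
  · rintro ⟨j, hj, hd⟩
    exact ⟨j, Finset.mem_sdiff.2 ⟨hj, fun h => ne_m_of hp hd (Finset.mem_singleton.1 h)⟩,
      dvd_dl_of hd⟩
  · rintro ⟨j, hj, hd⟩
    obtain ⟨hj1, hj2⟩ := Finset.mem_sdiff.1 hj
    exact ⟨j, hj1, (dvd_dn_iff (fun h => hj2 (Finset.mem_singleton.2 h))).2 hd⟩

theorem pg3_DD {p : ℕ} (hp : p.Prime) (u : PolyK K) (h1 : ¬ (p : ℤ) ∣ dl u 1)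
    (h2 : ¬ (p : ℤ) ∣ dl u (-1)) (hb : ¬ p ∣ bad m u) : ¬ p ∣ DD m u := by
  intro h
  unfold DD at h
  obtain ⟨j, _, hj⟩ := (Prime.dvd_finsetProd_iff hp.prime _).1 h
  have hjm := ne_m_of hp hj
  replace hj := dvd_dl_of hj
  by_cases e1 : j = 1
  · subst e1; exact h1 hj
  · by_cases e2 : j = -1
    · subst e2; exact h2 hj
    · apply hb
      rw [pg3_bad_iff hp]
      refine ⟨j, ?_, hj⟩
      unfold inr
      simp [e1, e2, hjm]

/-- the weights of the events -/
noncomputable def pg3_a (W : Wts K) (P0 p : ℕ) (j : Fin K) : ℝ :=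
  if p ≤ P0 ∨ ¬ Sp p then 1 else 1 - 2 * W.al j

theorem pg3_a_mem (W : Wts K) (hW : W.Ok) (P0 p : ℕ) (j : Fin K) :
    0 ≤ pg3_a W P0 p j ∧ pg3_a W P0 p j ≤ 1 := by
  unfold pg3_a
  have h1 := hW.al0 j
  have h2 := hW.al1 j
  split_ifs
  · norm_num
  · constructor <;> linarith

theorem pg3_prod (W : Wts K) (P0 : ℕ) {p : ℕ} (hp : p.Prime) (hc : ¬ (p ≤ P0 ∨ ¬ Sp p))
    (u : PolyK K) :
    ∏ j ∈ inr K, (if p ∣ dn m u j then 2 * W.al j else 1) =
      ∏ j ∈ inr K \ {m}, (1 - pg3_a W P0 p j * pg3_A p j u) := by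
  rw [← Finset.prod_subset (Finset.sdiff_subset : inr K \ {m} ⊆ inr K)]
  · apply Finset.prod_congr rfl
    intro j hj
    have hjm : j ≠ m := fun h => (Finset.mem_sdiff.1 hj).2 (Finset.mem_singleton.2 h)
    unfold pg3_a pg3_A ich
    rw [if_neg hc]
    by_cases h : p ∣ dn m u j
    · rw [if_pos h, if_pos ((dvd_dn_iff hjm).1 h)]
      ring
    · rw [if_neg h, if_neg (fun h' => h ((dvd_dn_iff hjm).2 h'))]
      ring
  · intro j hj hj'
    rw [Finset.mem_sdiff, not_and_not_right] at hj'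
    rw [if_neg]
    intro h
    exact ne_m_of hp h (Finset.mem_singleton.1 (hj' hj))

/-- the pointwise lower bound, without the middle term -/
theorem pg3_point (W : Wts K) (hW : W.Ok) (P0 : ℕ) {p : ℕ} (hp : p.Prime) (u u' : PolyK K) :
    (∑ j ∈ inr K \ {m}, pg3_a W P0 p j * pg3_A p j u -
        pg3_off (inr K \ {m}) (fun i j => pg3_A p i u * pg3_A p j u)) +
      (∑ j ∈ inr K \ {m}, pg3_a W P0 p j * pg3_A p j u' -
        pg3_off (inr K \ {m}) (fun i j => pg3_A p i u' * pg3_A p j u')) -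
      (∑ j ∈ inr K \ {m}, pg3_A p j u) * (∑ j ∈ inr K \ {m}, pg3_A p j u') +
      (if p ∣ bad m u * bad m u' then 0 else vv W P0 u u' p) ≤ 1 - Phi m W P0 u u' p := by
  classical
  set J := inr K \ {m} with hJ
  by_cases hb : p ∣ bad m u * bad m u'
  · rw [if_pos hb, add_zero]
    have hx : ∀ w : PolyK K, ∀ j ∈ J, 0 ≤ pg3_a W P0 p j * pg3_A p j w ∧
        pg3_a W P0 p j * pg3_A p j w ≤ 1 := by
      intro w j _
      have h1 := pg3_a_mem W hW P0 p j
      have h2 := pg3_A_mem p j w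
      exact ⟨mul_nonneg h1.1 h2.1, mul_le_one₀ h1.2 h2.1 h2.2⟩
    have hxA : ∀ w : PolyK K, ∀ j, pg3_a W P0 p j * pg3_A p j w ≤ pg3_A p j w := by
      intro w j
      have h1 := pg3_a_mem W hW P0 p j
      have h2 := pg3_A_mem p j w
      nlinarith [h1.1, h1.2, h2.1]
    have hoff : ∀ w : PolyK K, pg3_off J (fun i j => (pg3_a W P0 p i * pg3_A p i w) *
        (pg3_a W P0 p j * pg3_A p j w)) ≤ pg3_off J (fun i j => pg3_A p i w * pg3_A p j w) := by
      intro w
      unfold pg3_off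
      apply Finset.sum_le_sum
      intro i hi
      apply Finset.sum_le_sum
      intro j hj
      split_ifs
      · exact le_rfl
      · exact mul_le_mul (hxA w i) (hxA w j) (hx w j hj).1 (pg3_A_mem p i w).1
    obtain ⟨b1, b2, b3, b4⟩ := pg3_bonf J (fun j => pg3_a W P0 p j * pg3_A p j u) (hx u)
    obtain ⟨c1, c2, c3, c4⟩ := pg3_bonf J (fun j => pg3_a W P0 p j * pg3_A p j u') (hx u')
    have hs : ∑ j ∈ J, pg3_a W P0 p j * pg3_A p j u ≤ ∑ j ∈ J, pg3_A p j u :=
      Finset.sum_le_sum (fun j _ => hxA u j)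
    have hs' : ∑ j ∈ J, pg3_a W P0 p j * pg3_A p j u' ≤ ∑ j ∈ J, pg3_A p j u' :=
      Finset.sum_le_sum (fun j _ => hxA u' j)
    have hs0 : 0 ≤ ∑ j ∈ J, pg3_a W P0 p j * pg3_A p j u :=
      Finset.sum_nonneg (fun j hj => (hx u j hj).1)
    have hs0' : 0 ≤ ∑ j ∈ J, pg3_a W P0 p j * pg3_A p j u' :=
      Finset.sum_nonneg (fun j hj => (hx u' j hj).1)
    have hph : Phi m W P0 u u' p ≤ (∏ j ∈ J, (1 - pg3_a W P0 p j * pg3_A p j u)) *
        ∏ j ∈ J, (1 - pg3_a W P0 p j * pg3_A p j u') := by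
      unfold Phi
      rw [if_pos hb]
      by_cases hc : p ≤ P0 ∨ ¬ Sp p
      · rw [if_pos hc]
        exact mul_nonneg b1 c1
      · rw [if_neg hc, pg3_prod W P0 hp hc u, pg3_prod W P0 hp hc u']
    set π := ∏ j ∈ J, (1 - pg3_a W P0 p j * pg3_A p j u)
    set π' := ∏ j ∈ J, (1 - pg3_a W P0 p j * pg3_A p j u')
    set s := ∑ j ∈ J, pg3_a W P0 p j * pg3_A p j u
    set s' := ∑ j ∈ J, pg3_a W P0 p j * pg3_A p j u'
    set n := ∑ j ∈ J, pg3_A p j u
    set n' := ∑ j ∈ J, pg3_A p j u'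
    have k1 := hoff u
    have k2 := hoff u'
    have k3 : (1 - π) * (1 - π') ≤ n * n' :=
      mul_le_mul (by linarith) (by linarith) (by linarith) (by linarith)
    nlinarith
  · rw [if_neg hb]
    have hz : ∀ w : PolyK K, ¬ p ∣ bad m w → ∀ j ∈ J, pg3_A p j w = 0 := by
      intro w hw j hj
      unfold pg3_A ich
      rw [if_neg]
      intro h
      apply hw
      rw [pg3_bad_iff hp]
      exact ⟨j, hj, h⟩
    have h1 := hz u (fun h => hb (dvd_mul_of_dvd_left h _))
    have h2 := hz u' (fun h => hb (dvd_mul_of_dvd_right h _))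
    have e1 : ∑ j ∈ J, pg3_a W P0 p j * pg3_A p j u = 0 :=
      Finset.sum_eq_zero (fun j hj => by rw [h1 j hj, mul_zero])
    have e2 : ∑ j ∈ J, pg3_a W P0 p j * pg3_A p j u' = 0 :=
      Finset.sum_eq_zero (fun j hj => by rw [h2 j hj, mul_zero])
    have e3 : ∑ j ∈ J, pg3_A p j u = 0 := Finset.sum_eq_zero h1
    have hoff0 : ∀ w : PolyK K, 0 ≤ pg3_off J (fun i j => pg3_A p i w * pg3_A p j w) := by
      intro w
      unfold pg3_off
      apply Finset.sum_nonneg
      intro i _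
      apply Finset.sum_nonneg
      intro j _
      split_ifs
      · exact le_rfl
      · exact mul_nonneg (pg3_A_mem p i w).1 (pg3_A_mem p j w).1
    have hph : 1 - Phi m W P0 u u' p = vv W P0 u u' p := by
      unfold Phi
      rw [if_neg hb]
      ring
    rw [hph, e1, e2, e3]
    have := hoff0 u
    have := hoff0 u'
    linarith

omit [NeZero K] in
theorem pg3_mL_sum {ι : Type} (s : Finset ι) (L : Finset (PolyK K)) (F : ι → PolyK K → ℝ) :
    mL L (fun u => ∑ i ∈ s, F i u) = ∑ i ∈ s, mL L (F i) := by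
  unfold mL
  rw [Finset.sum_comm, Finset.sum_div]

omit [NeZero K] in
theorem pg3_mL_sub {L : Finset (PolyK K)} (h h' : PolyK K → ℝ) :
    mL L (fun r => h r - h' r) = mL L h - mL L h' := by
  unfold mL
  rw [Finset.sum_sub_distrib, sub_div]

/-- the one-polygon part of the correction -/
noncomputable def pg3_S (m : Fin K) (p : ℕ) (u : PolyK K) : ℝ :=
  ∑ k ∈ ivr K, (ich (¬ (p : ℤ) ∣ bad m u ∧ (p : ℤ) ∣ dt (cv u k) (0, 1)) +
      ich (¬ (p : ℤ) ∣ bad m u ∧ (p : ℤ) ∣ dt (cv u k) (1, 0))) +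
    pg3_off (ivr K) (fun i j => ich (¬ (p : ℤ) ∣ bad m u ∧ (p : ℤ) ∣ dt (cv u i) (cv u j)))

omit [NeZero K] in
theorem pg3_card (s : Finset (Fin K)) : ((s.card : ℕ) : ℝ) ≤ K := by
  have := Finset.card_le_univ s
  rw [Fintype.card_fin] at this
  exact_mod_cast this

theorem pg3_mL_N {p : ℕ} {L : Finset (PolyK K)} {C0 : ℝ} (hC0 : 0 ≤ C0)
    (hL : LocF m p L C0) :
    0 ≤ mL L (fun u => ∑ j ∈ inr K \ {m}, pg3_A p j u) ∧
      mL L (fun u => ∑ j ∈ inr K \ {m}, pg3_A p j u) ≤ K * (C0 / p) := by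
  constructor
  · unfold mL
    apply div_nonneg _ (Nat.cast_nonneg _)
    exact Finset.sum_nonneg (fun u _ => Finset.sum_nonneg (fun j _ => (pg3_A_mem p j u).1))
  · rw [pg3_mL_sum]
    calc ∑ j ∈ inr K \ {m}, mL L (pg3_A p j) ≤ ∑ j ∈ inr K \ {m}, C0 / (p : ℝ) :=
          Finset.sum_le_sum (fun j hj => hL.a' j hj)
      _ = ((inr K \ {m}).card : ℝ) * (C0 / p) := by rw [Finset.sum_const, nsmul_eq_mul]
      _ ≤ K * (C0 / p) := mul_le_mul_of_nonneg_right (pg3_card _) (by positivity)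

theorem pg3_mL_off {p : ℕ} {L : Finset (PolyK K)} {C0 : ℝ} (hC0 : 0 ≤ C0)
    (hL : LocF m p L C0) :
    mL L (fun u => pg3_off (inr K \ {m}) (fun i j => pg3_A p i u * pg3_A p j u)) ≤
      K * (K * (C0 / (p : ℝ) ^ 2)) := by
  unfold pg3_off
  rw [pg3_mL_sum]
  have h1 : ∀ i ∈ inr K \ {m}, mL L (fun u => ∑ j ∈ inr K \ {m}, if i = j then 0 else
      pg3_A p i u * pg3_A p j u) ≤ K * (C0 / (p : ℝ) ^ 2) := by
    intro i hi
    rw [pg3_mL_sum]
    calc ∑ j ∈ inr K \ {m}, mL L (fun u => if i = j then 0 else pg3_A p i u * pg3_A p j u) ≤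
          ∑ j ∈ inr K \ {m}, C0 / (p : ℝ) ^ 2 := by
          apply Finset.sum_le_sum
          intro j hj
          by_cases hij : i = j
          · simp only [hij, if_true]
            rw [mL_const hL.ne]
            positivity
          · simp only [if_neg hij]
            have h2 := hL.b i hi j hj hij
            refine le_trans (le_of_eq ?_) h2
            refine congrArg (mL L) ?_
            funext u
            rw [pg3_ich_and]
            rfl
      _ = ((inr K \ {m}).card : ℝ) * (C0 / (p : ℝ) ^ 2) := by rw [Finset.sum_const, nsmul_eq_mul]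
      _ ≤ K * (C0 / (p : ℝ) ^ 2) := mul_le_mul_of_nonneg_right (pg3_card _) (by positivity)
  calc _ ≤ ∑ i ∈ inr K \ {m}, (K : ℝ) * (C0 / (p : ℝ) ^ 2) := Finset.sum_le_sum h1
    _ = ((inr K \ {m}).card : ℝ) * (K * (C0 / (p : ℝ) ^ 2)) := by
        rw [Finset.sum_const, nsmul_eq_mul]
    _ ≤ K * (K * (C0 / (p : ℝ) ^ 2)) := mul_le_mul_of_nonneg_right (pg3_card _) (by positivity)

theorem pg3_mL_S {p : ℕ} (hp : p.Prime) {L : Finset (PolyK K)} {C0 : ℝ}
    (hC0 : 0 ≤ C0) (hL : LocF m p L C0) :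
    mL L (pg3_S m p) ≤ (2 * K + K * K) * (C0 / p) := by
  have hp1 : ¬ (p : ℤ) ∣ 1 := by
    intro h
    have := Int.natCast_dvd_natCast.1 (by exact_mod_cast h : ((p : ℕ) : ℤ) ∣ ((1 : ℕ) : ℤ))
    exact hp.one_lt.ne' (Nat.dvd_one.1 this)
  have hpos : 0 ≤ C0 / (p : ℝ) := by positivity
  have e1 : mL L (pg3_S m p) = mL L (fun u => ∑ k ∈ ivr K,
      (ich (¬ (p : ℤ) ∣ bad m u ∧ (p : ℤ) ∣ dt (cv u k) (0, 1)) +
      ich (¬ (p : ℤ) ∣ bad m u ∧ (p : ℤ) ∣ dt (cv u k) (1, 0)))) +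
    mL L (fun u => pg3_off (ivr K)
      (fun i j => ich (¬ (p : ℤ) ∣ bad m u ∧ (p : ℤ) ∣ dt (cv u i) (cv u j)))) := by
    rw [← mL_add]
    rfl
  have e2 : mL L (fun u => ∑ k ∈ ivr K,
      (ich (¬ (p : ℤ) ∣ bad m u ∧ (p : ℤ) ∣ dt (cv u k) (0, 1)) +
      ich (¬ (p : ℤ) ∣ bad m u ∧ (p : ℤ) ∣ dt (cv u k) (1, 0)))) ≤ 2 * K * (C0 / p) := by
    rw [pg3_mL_sum]
    calc _ ≤ ∑ k ∈ ivr K, 2 * (C0 / (p : ℝ)) := by
          apply Finset.sum_le_sum
          intro k hk
          rw [mL_add]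
          have h1 := hL.c k hk (0, 1) (fun h => hp1 h.2)
          have h2 := hL.c k hk (1, 0) (fun h => hp1 h.1)
          linarith
      _ = ((ivr K).card : ℝ) * (2 * (C0 / p)) := by rw [Finset.sum_const, nsmul_eq_mul]
      _ ≤ K * (2 * (C0 / p)) := mul_le_mul_of_nonneg_right (pg3_card _) (by positivity)
      _ = _ := by ring
  have e3 : mL L (fun u => pg3_off (ivr K)
      (fun i j => ich (¬ (p : ℤ) ∣ bad m u ∧ (p : ℤ) ∣ dt (cv u i) (cv u j)))) ≤
      K * (K * (C0 / p)) := by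
    unfold pg3_off
    rw [pg3_mL_sum]
    have h1 : ∀ i ∈ ivr K, mL L (fun u => ∑ j ∈ ivr K, if i = j then 0 else
        ich (¬ (p : ℤ) ∣ bad m u ∧ (p : ℤ) ∣ dt (cv u i) (cv u j))) ≤ K * (C0 / p) := by
      intro i hi
      rw [pg3_mL_sum]
      calc ∑ j ∈ ivr K, mL L (fun u => if i = j then 0 else
            ich (¬ (p : ℤ) ∣ bad m u ∧ (p : ℤ) ∣ dt (cv u i) (cv u j))) ≤
            ∑ j ∈ ivr K, C0 / (p : ℝ) := by
            apply Finset.sum_le_sum
            intro j hj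
            by_cases hij : i = j
            · simp only [hij, if_true]
              rw [mL_const hL.ne]
              exact hpos
            · simp only [if_neg hij]
              exact hL.d i hi j hj hij
        _ = ((ivr K).card : ℝ) * (C0 / p) := by rw [Finset.sum_const, nsmul_eq_mul]
        _ ≤ K * (C0 / p) := mul_le_mul_of_nonneg_right (pg3_card _) hpos
    calc _ ≤ ∑ i ∈ ivr K, (K : ℝ) * (C0 / p) := Finset.sum_le_sum h1
      _ = ((ivr K).card : ℝ) * (K * (C0 / p)) := by rw [Finset.sum_const, nsmul_eq_mul]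
      _ ≤ K * (K * (C0 / p)) := mul_le_mul_of_nonneg_right (pg3_card _) (by positivity)
  rw [e1]
  nlinarith

/-- the mean of the cross term, for fixed `u` -/
theorem pg3_mL_X {p : ℕ} (hp : p.Prime) {L' : Finset (PolyK K)} {C0 : ℝ}
    (hC0 : 0 ≤ C0) (hL' : LocF m p L' C0) (u : PolyK K) (h1 : ¬ (p : ℤ) ∣ dl u 1)
    (h2 : ¬ (p : ℤ) ∣ dl u (-1)) (ho : ¬ (p : ℤ) ∣ dl u m) :
    mL L' (fun u' => ∑ i ∈ ivr K, ∑ j ∈ ivr K,
      ich (¬ p ∣ bad m u * bad m u' ∧ (p : ℤ) ∣ dt (cv u i) (cv u' j))) ≤ K * (K * (C0 / p)) := by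
  have hpos : 0 ≤ C0 / (p : ℝ) := by positivity
  rw [pg3_mL_sum]
  have h3 : ∀ i ∈ ivr K, mL L' (fun u' => ∑ j ∈ ivr K,
      ich (¬ p ∣ bad m u * bad m u' ∧ (p : ℤ) ∣ dt (cv u i) (cv u' j))) ≤ K * (C0 / p) := by
    intro i hi
    rw [pg3_mL_sum]
    calc _ ≤ ∑ j ∈ ivr K, C0 / (p : ℝ) := by
          apply Finset.sum_le_sum
          intro j hj
          by_cases hb : p ∣ bad m u
          · refine le_trans (mL_mono (h' := fun _ => 0) ?_) (by rw [mL_const hL'.ne]; exact hpos)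
            intro u' _
            unfold ich
            rw [if_neg]
            exact fun h => h.1 (dvd_mul_of_dvd_left hb _)
          · refine le_trans (mL_mono ?_) (hL'.c j hj (cv u i)
              (cv_ne hp u (pg3_DD hp u h1 h2 hb) ho i hi))
            intro u' _
            apply pg3_ich_mono
            rintro ⟨h4, h5⟩
            refine ⟨?_, ?_⟩
            · intro h6
              exact h4 (dvd_mul_of_dvd_right (Int.natCast_dvd_natCast.1 h6) _)
            · have h7 : dt (cv u' j) (cv u i) = - dt (cv u i) (cv u' j) := by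
                unfold dt
                ring
              rw [h7]
              exact (dvd_neg).2 h5
      _ = ((ivr K).card : ℝ) * (C0 / p) := by rw [Finset.sum_const, nsmul_eq_mul]
      _ ≤ K * (C0 / p) := mul_le_mul_of_nonneg_right (pg3_card _) hpos
  calc _ ≤ ∑ i ∈ ivr K, (K : ℝ) * (C0 / p) := Finset.sum_le_sum h3
    _ = ((ivr K).card : ℝ) * (K * (C0 / p)) := by rw [Finset.sum_const, nsmul_eq_mul]
    _ ≤ K * (K * (C0 / p)) := mul_le_mul_of_nonneg_right (pg3_card _) (by positivity)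

/-- the density of the forms -/
noncomputable def pg3_M (W : Wts K) (P0 p : ℕ) : ℝ :=
  if ¬ Sp p then 0 else
    2 * (1 - W.g0 P0 p) + 2 * (1 - W.g1 P0 p) + 4 * ∑ k ∈ ivr K, (1 - W.gi P0 p k)

theorem pg3_g_mem (W : Wts K) (hW : W.Ok) (P0 p : ℕ) :
    (0 ≤ W.g0 P0 p ∧ W.g0 P0 p ≤ 1) ∧ (0 ≤ W.g1 P0 p ∧ W.g1 P0 p ≤ 1) ∧
      ∀ k, 0 ≤ W.gi P0 p k ∧ W.gi P0 p k ≤ 1 := by
  have hq : ∀ a b : ℝ, 0 < b → b ≤ 1 → 0 ≤ a → 0 ≤ b ^ 2 / (b + a) ∧ b ^ 2 / (b + a) ≤ 1 := by
    intro a b hb hb1 ha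
    refine ⟨by positivity, ?_⟩
    rw [div_le_one (by positivity)]
    nlinarith
  refine ⟨?_, ?_, ?_⟩
  · unfold Wts.g0 Wts.s0
    split_ifs
    · exact ⟨hW.bo0 0, hW.bo1 0⟩
    · exact hq _ _ (hW.be0 0) (hW.be1 0) (hW.al0 (-1))
  · unfold Wts.g1 Wts.s1
    split_ifs
    · exact ⟨hW.bo0 1, hW.bo1 1⟩
    · exact hq _ _ (hW.be0 1) (hW.be1 1) (hW.al0 1)
  · intro k
    unfold Wts.gi
    split_ifs
    · exact ⟨hW.bo0 k, hW.bo1 k⟩
    · exact ⟨(hW.be0 k).le, hW.be1 k⟩

theorem pg3_M_mem (W : Wts K) (hW : W.Ok) (P0 p : ℕ) :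
    0 ≤ pg3_M W P0 p ∧ pg3_M W P0 p ≤ 4 + 4 * K := by
  obtain ⟨h0, h1, hi⟩ := pg3_g_mem W hW P0 p
  unfold pg3_M
  have hs0 : 0 ≤ ∑ k ∈ ivr K, (1 - W.gi P0 p k) :=
    Finset.sum_nonneg (fun k _ => by linarith [(hi k).2])
  have hs1 : ∑ k ∈ ivr K, (1 - W.gi P0 p k) ≤ K := by
    calc ∑ k ∈ ivr K, (1 - W.gi P0 p k) ≤ ∑ k ∈ ivr K, (1 : ℝ) :=
          Finset.sum_le_sum (fun k _ => by linarith [(hi k).1])
      _ = ((ivr K).card : ℝ) := by simp
      _ ≤ K := pg3_card _
  by_cases h3 : ¬ Sp p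
  · rw [if_pos h3]
    constructor
    · norm_num
    · positivity
  · rw [if_neg h3]
    constructor
    · linarith [h0.2, h1.2]
    · linarith [h0.1, h1.1]

theorem pg3_bden (W : Wts K) (P0 p : ℕ) :
    bden m W P0 p = 2 * ∑ j ∈ inr K \ {m}, pg3_a W P0 p j + pg3_M W P0 p := by
  unfold bden pg3_M pg3_a
  by_cases h3 : ¬ Sp p
  · rw [if_pos h3, if_pos h3]
    simp only [show (p ≤ P0 ∨ ¬ Sp p) = True from by simp [h3], if_true, Finset.sum_const,
      nsmul_eq_mul, mul_one, add_zero]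
  · rw [if_neg h3, if_neg h3]
    by_cases hP : p ≤ P0
    · unfold Wts.g0 Wts.g1 Wts.gi
      simp only [hP, true_or, if_true, Finset.sum_const, nsmul_eq_mul, mul_one]
      ring
    · unfold Wts.g0 Wts.g1 Wts.gi
      have e : ∀ j : Fin K, (if p ≤ P0 ∨ ¬ Sp p then (1 : ℝ) else 1 - 2 * W.al j) =
          1 - 2 * W.al j := fun j => if_neg (by
        rintro (h | h)
        · exact hP h
        · exact h3 h)
      simp only [e]
      simp only [hP, if_false]
      ring

theorem c3_local_pr (hK : 5 ≤ K) (W : Wts K) (hW : W.Ok) (C0 : ℝ)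
    (hC0 : 0 ≤ C0) : ∃ C1 : ℝ,
    0 ≤ C1 ∧ ∀ (P0 p : ℕ), p.Prime → FD.N0 < p → ∀ L L' : Finset (PolyK K), LocF m p L C0 →
    LocF m p L' C0 →
    bden m W P0 p / p - C1 / (p : ℝ) ^ 2 ≤ mL L (fun u => mL L' (fun u' => 1 - Phi m W P0 u u' p)) ∧
      mL L (fun u => mL L' (fun u' => 1 - Phi m W P0 u u' p)) ≤ C1 / p := by
  classical
  obtain ⟨C1, hC1, hvl⟩ := vv_lower hK W hW
  have hK0 : (5 : ℝ) ≤ K := by exact_mod_cast hK
  set cA : ℝ := 2 * (K * C0) + 2 * (K * (K * C0)) + (K * C0) * (K * C0) with hcA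
  set cB : ℝ := (4 + 4 * K) * (2 * (K * C0)) + C1 + C1 * (2 * ((2 * K + K * K) * C0)) +
    C1 * (K * (K * C0)) with hcB
  have hcA0 : 0 ≤ cA := by positivity
  have hcB0 : 0 ≤ cB := by positivity
  refine ⟨cA + cB + (2 * (K * C0) + 4 * K), by positivity, ?_⟩
  intro P0 p hp h2 L L' hL hL'
  have hp0 : (0 : ℝ) < p := by exact_mod_cast hp.pos
  set J := inr K \ {m} with hJ
  set M := pg3_M W P0 p with hM
  have hMm := pg3_M_mem W hW P0 p
  constructor
  · -- lower bound
    set f : PolyK K → ℝ := fun u => ((∑ j ∈ J, pg3_a W P0 p j * pg3_A p j u -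
      pg3_off J (fun i j => pg3_A p i u * pg3_A p j u)) - M / p * ∑ j ∈ J, pg3_A p j u) -
        C1 / p * pg3_S m p u with hf
    set X : PolyK K → PolyK K → ℝ := fun u u' => ∑ i ∈ ivr K, ∑ j ∈ ivr K,
      ich (¬ p ∣ bad m u * bad m u' ∧ (p : ℤ) ∣ dt (cv u i) (cv u' j)) with hX
    have hS0 : ∀ u : PolyK K, 0 ≤ pg3_S m p u := by
      intro u
      unfold pg3_S pg3_off
      apply add_nonneg
      · exact Finset.sum_nonneg (fun k _ => add_nonneg (pg3_ich_nonneg _) (pg3_ich_nonneg _))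
      · apply Finset.sum_nonneg
        intro i _
        apply Finset.sum_nonneg
        intro j _
        split_ifs
        · exact le_rfl
        · exact pg3_ich_nonneg _
    have hX0 : ∀ u u' : PolyK K, 0 ≤ X u u' := fun u u' =>
      Finset.sum_nonneg (fun i _ => Finset.sum_nonneg (fun j _ => pg3_ich_nonneg _))
    have hN0 : ∀ u : PolyK K, 0 ≤ ∑ j ∈ J, pg3_A p j u := fun u =>
      Finset.sum_nonneg (fun j _ => (pg3_A_mem p j u).1)
    have hpt : ∀ u ∈ L, ∀ u' ∈ L', f u + f u' - (∑ j ∈ J, pg3_A p j u) * (∑ j ∈ J, pg3_A p j u') +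
        (M / p - C1 / (p : ℝ) ^ 2) - C1 / p * X u u' ≤ 1 - Phi m W P0 u u' p := by
      intro u hu u' hu'
      have h1 := pg3_point (m := m) W hW P0 hp u u'
      have hv : M / p - C1 / (p : ℝ) ^ 2 - M / p * ∑ j ∈ J, pg3_A p j u -
          M / p * ∑ j ∈ J, pg3_A p j u' - C1 / p * pg3_S m p u - C1 / p * pg3_S m p u' -
          C1 / p * X u u' ≤ (if p ∣ bad m u * bad m u' then 0 else vv W P0 u u' p) := by
        have hMp : 0 ≤ M / p := div_nonneg hMm.1 hp0.le
        have hCp : 0 ≤ C1 / (p : ℝ) := div_nonneg hC1 hp0.le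
        have hCp2 : 0 ≤ C1 / (p : ℝ) ^ 2 := by positivity
        have t1 := mul_nonneg hCp (hS0 u)
        have t2 := mul_nonneg hCp (hS0 u')
        have t3 := mul_nonneg hCp (hX0 u u')
        by_cases hb : p ∣ bad m u * bad m u'
        · rw [if_pos hb]
          have hge : 1 ≤ ∑ j ∈ J, pg3_A p j u + ∑ j ∈ J, pg3_A p j u' := by
            have hone : ∀ w : PolyK K, p ∣ bad m w → 1 ≤ ∑ j ∈ J, pg3_A p j w := by
              intro w hbw
              obtain ⟨j, hjJ, hj1⟩ := (pg3_bad_iff hp w).1 hbw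
              have h3 := Finset.single_le_sum (f := fun j => pg3_A p j w)
                (fun j _ => (pg3_A_mem p j w).1) hjJ
              have h4 : pg3_A p j w = 1 := by
                unfold pg3_A ich
                rw [if_pos hj1]
              simp only [h4] at h3
              exact h3
            rcases hp.dvd_mul.1 hb with h3 | h3
            · have := hone u h3
              linarith [hN0 u']
            · have := hone u' h3
              linarith [hN0 u]
          nlinarith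
        · rw [if_neg hb]
          have hbu : ¬ p ∣ bad m u := fun h => hb (dvd_mul_of_dvd_left h _)
          have hbu' : ¬ p ∣ bad m u' := fun h => hb (dvd_mul_of_dvd_right h _)
          have h3 := hvl P0 p hp h2 u u' (pg3_DD hp u (hL.s1 u hu) (hL.sm u hu) hbu)
            (pg3_DD hp u' (hL'.s1 u' hu') (hL'.sm u' hu') hbu') (hL.so u hu) (hL'.so u' hu')
          have t4 := mul_nonneg hMp (hN0 u)
          have t5 := mul_nonneg hMp (hN0 u')
          by_cases hp3 : ¬ Sp p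
          · rw [if_pos hp3] at h3
            have hM0 : M = 0 := by
              rw [hM]
              unfold pg3_M
              rw [if_pos hp3]
            rw [hM0] at *
            simp only [zero_div, zero_mul, sub_zero, zero_sub] at *
            linarith
          · rw [if_neg hp3] at h3
            have hMe : M = 2 * (1 - W.g0 P0 p) + 2 * (1 - W.g1 P0 p) +
                4 * ∑ k ∈ ivr K, (1 - W.gi P0 p k) := by
              rw [hM]
              unfold pg3_M
              rw [if_neg hp3]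
            rw [← hMe] at h3
            have hst : (∑ k ∈ ivr K, (ich ((p : ℤ) ∣ (cv u k).1) + ich ((p : ℤ) ∣ (cv u k).2) +
                ich ((p : ℤ) ∣ (cv u' k).1) + ich ((p : ℤ) ∣ (cv u' k).2)) +
              ∑ i ∈ ivr K, ∑ j ∈ ivr K, (ich ((p : ℤ) ∣ dt (cv u i) (cv u' j)) +
                (if i = j then 0 else ich ((p : ℤ) ∣ dt (cv u i) (cv u j)) +
                  ich ((p : ℤ) ∣ dt (cv u' i) (cv u' j))))) ≤
                pg3_S m p u + pg3_S m p u' + X u u' := by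
              have hzu : ¬ (p : ℤ) ∣ (bad m u : ℤ) := fun h => hbu (Int.natCast_dvd_natCast.1 h)
              have hzu' : ¬ (p : ℤ) ∣ (bad m u' : ℤ) := fun h => hbu' (Int.natCast_dvd_natCast.1 h)
              have d1 : ∀ c : ℤ × ℤ, dt c (0, 1) = c.1 := by
                intro c; unfold dt; ring
              have d2 : ∀ c : ℤ × ℤ, dt c (1, 0) = - c.2 := by
                intro c; unfold dt; ring
              rw [hX]
              unfold pg3_S pg3_off
              simp only [hzu, hzu', hb, not_false_eq_true, true_and, d1, d2, dvd_neg]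
              have hite : ∀ (i j : Fin K) (a b : ℝ), (if i = j then (0 : ℝ) else a + b) =
                  (if i = j then 0 else a) + (if i = j then 0 else b) := by
                intro i j a b
                by_cases hij : i = j
                · simp only [hij, if_true, add_zero]
                · simp only [if_neg hij]
              simp only [hite, Finset.sum_add_distrib]
              apply le_of_eq
              ring
            have h5 := mul_le_mul_of_nonneg_left hst hCp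
            linarith
      have h6 : f u = ∑ j ∈ J, pg3_a W P0 p j * pg3_A p j u -
        pg3_off J (fun i j => pg3_A p i u * pg3_A p j u) - M / p * ∑ j ∈ J, pg3_A p j u -
        C1 / p * pg3_S m p u := rfl
      have h7 : f u' = ∑ j ∈ J, pg3_a W P0 p j * pg3_A p j u' -
        pg3_off J (fun i j => pg3_A p i u' * pg3_A p j u') - M / p * ∑ j ∈ J, pg3_A p j u' -
        C1 / p * pg3_S m p u' := rfl
      rw [h6, h7]
      linarith
    -- the mean of f
    have hmf : ∀ L : Finset (PolyK K), LocF m p L C0 →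
        (∑ j ∈ J, pg3_a W P0 p j) / p - (K * C0 + K * (K * C0) + (4 + 4 * K) * (K * C0) +
          C1 * ((2 * K + K * K) * C0)) / (p : ℝ) ^ 2 ≤ mL L f := by
      intro L hL
      have e1 : mL L f = ((∑ j ∈ J, pg3_a W P0 p j * mL L (pg3_A p j) -
          mL L (fun u => pg3_off J (fun i j => pg3_A p i u * pg3_A p j u))) -
          M / p * mL L (fun u => ∑ j ∈ J, pg3_A p j u)) - C1 / p * mL L (pg3_S m p) := by
        rw [hf, pg3_mL_sub, pg3_mL_sub, pg3_mL_sub, pg3_mL_sum, mL_smul, mL_smul]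
        simp only [mL_smul]
      have e2 : (∑ j ∈ J, pg3_a W P0 p j) / p - K * C0 / (p : ℝ) ^ 2 ≤
          ∑ j ∈ J, pg3_a W P0 p j * mL L (pg3_A p j) := by
        have h1 : ∑ j ∈ J, pg3_a W P0 p j * (1 / (p : ℝ) - C0 / (p : ℝ) ^ 2) ≤
            ∑ j ∈ J, pg3_a W P0 p j * mL L (pg3_A p j) :=
          Finset.sum_le_sum (fun j hj => mul_le_mul_of_nonneg_left (hL.a j hj)
            (pg3_a_mem W hW P0 p j).1)
        rw [← Finset.sum_mul] at h1
        have h2 : ∑ j ∈ J, pg3_a W P0 p j ≤ K := by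
          calc ∑ j ∈ J, pg3_a W P0 p j ≤ ∑ j ∈ J, (1 : ℝ) :=
                Finset.sum_le_sum (fun j _ => (pg3_a_mem W hW P0 p j).2)
            _ = (J.card : ℝ) := by simp
            _ ≤ K := pg3_card _
        have h3 : (∑ j ∈ J, pg3_a W P0 p j) * (C0 / (p : ℝ) ^ 2) ≤ K * (C0 / (p : ℝ) ^ 2) :=
          mul_le_mul_of_nonneg_right h2 (by positivity)
        have h4 : (∑ j ∈ J, pg3_a W P0 p j) / p = (∑ j ∈ J, pg3_a W P0 p j) * (1 / p) := by ring
        have h5 : (K : ℝ) * C0 / (p : ℝ) ^ 2 = K * (C0 / (p : ℝ) ^ 2) := by ring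
        rw [h4, h5]
        linarith
      have e3 := pg3_mL_off hC0 hL
      have e4 := (pg3_mL_N hC0 hL)
      have e5 := pg3_mL_S hp hC0 hL
      have e6 : M / p * mL L (fun u => ∑ j ∈ J, pg3_A p j u) ≤
          (4 + 4 * K) * (K * C0) / (p : ℝ) ^ 2 := by
        have : M / p * mL L (fun u => ∑ j ∈ J, pg3_A p j u) ≤
            (4 + 4 * K) / p * (K * (C0 / p)) := by
          apply mul_le_mul _ e4.2 e4.1 (by positivity)
          exact div_le_div_of_nonneg_right hMm.2 hp0.le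
        refine this.trans (le_of_eq ?_)
        field_simp
      have e7 : C1 / p * mL L (pg3_S m p) ≤ C1 * ((2 * K + K * K) * C0) / (p : ℝ) ^ 2 := by
        refine (mul_le_mul_of_nonneg_left e5 (by positivity)).trans (le_of_eq ?_)
        field_simp
      rw [e1]
      have e8 : (K * C0 + K * (K * C0) + (4 + 4 * K) * (K * C0) +
          C1 * ((2 * K + K * K) * C0)) / (p : ℝ) ^ 2 = K * C0 / (p : ℝ) ^ 2 +
          K * (K * (C0 / (p : ℝ) ^ 2)) + (4 + 4 * K) * (K * C0) / (p : ℝ) ^ 2 +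
          C1 * ((2 * K + K * K) * C0) / (p : ℝ) ^ 2 := by ring
      rw [e8]
      linarith
    have hnL := pg3_mL_N hC0 hL
    have hnL' := pg3_mL_N hC0 hL'
    set n := mL L (fun u => ∑ j ∈ J, pg3_A p j u) with hn
    set n' := mL L' (fun u => ∑ j ∈ J, pg3_A p j u) with hn'
    -- the inner mean
    have hin : ∀ u ∈ L, f u + mL L' f - (∑ j ∈ J, pg3_A p j u) * n' +
        (M / p - C1 / (p : ℝ) ^ 2) - C1 / p * (K * (K * (C0 / p))) ≤
        mL L' (fun u' => 1 - Phi m W P0 u u' p) := by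
      intro u hu
      have h1 := mL_mono (L := L') (hpt u hu)
      refine le_trans ?_ h1
      have h3 : mL L' (fun u' => f u + f u' - (∑ j ∈ J, pg3_A p j u) *
          (∑ j ∈ J, pg3_A p j u') + (M / p - C1 / (p : ℝ) ^ 2) - C1 / p * X u u') =
          f u + mL L' f - (∑ j ∈ J, pg3_A p j u) * n' + (M / p - C1 / (p : ℝ) ^ 2) -
          C1 / p * mL L' (X u) := by
        rw [pg3_mL_sub, mL_add, pg3_mL_sub, mL_add, mL_smul, mL_smul, mL_const hL'.ne,
          mL_const hL'.ne]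
      rw [h3]
      have h4 := mul_le_mul_of_nonneg_left (pg3_mL_X hp hC0 hL' u (hL.s1 u hu) (hL.sm u hu) (hL.so u hu))
        (by positivity : 0 ≤ C1 / (p : ℝ))
      linarith
    have hout := mL_mono (L := L) hin
    refine le_trans ?_ hout
    have h3 : mL L (fun u => f u + mL L' f - (∑ j ∈ J, pg3_A p j u) * n' +
        (M / p - C1 / (p : ℝ) ^ 2) - C1 / p * (K * (K * (C0 / p)))) =
        mL L f + mL L' f - n' * n + (M / p - C1 / (p : ℝ) ^ 2) -
          C1 / p * (K * (K * (C0 / p))) := by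
      have h4 : (fun u : PolyK K => f u + mL L' f - (∑ j ∈ J, pg3_A p j u) * n' +
        (M / p - C1 / (p : ℝ) ^ 2) - C1 / p * (K * (K * (C0 / p)))) =
        (fun u : PolyK K => f u + mL L' f - n' * (∑ j ∈ J, pg3_A p j u) +
        (M / p - C1 / (p : ℝ) ^ 2) - C1 / p * (K * (K * (C0 / p)))) := by
        funext u
        ring
      rw [h4, pg3_mL_sub, mL_add, pg3_mL_sub, mL_add, mL_smul, mL_const hL.ne, mL_const hL.ne,
        mL_const hL.ne]
    rw [h3, pg3_bden]
    have m1 := hmf L hL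
    have m2 := hmf L' hL'
    have m3 : n' * n ≤ (K * C0) * (K * C0) / (p : ℝ) ^ 2 := by
      refine (mul_le_mul hnL'.2 hnL.2 hnL.1 (by positivity)).trans (le_of_eq ?_)
      field_simp
    have m4 : C1 / p * (K * (K * (C0 / p))) = C1 * (K * (K * C0)) / (p : ℝ) ^ 2 := by
      field_simp
    have m5 : (cA + cB + (2 * (K * C0) + 4 * K)) / (p : ℝ) ^ 2 =
        2 * ((K * C0 + K * (K * C0) + (4 + 4 * K) * (K * C0) +
          C1 * ((2 * K + K * K) * C0)) / (p : ℝ) ^ 2) + (K * C0) * (K * C0) / (p : ℝ) ^ 2 +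
          C1 / (p : ℝ) ^ 2 + C1 * (K * (K * C0)) / (p : ℝ) ^ 2 +
          (2 * (K * C0) + 4 * K) / (p : ℝ) ^ 2 := by
      rw [hcA, hcB]
      ring
    have m6 : 0 ≤ (2 * (K * C0) + 4 * K) / (p : ℝ) ^ 2 := by positivity
    have m7 : (2 * ∑ j ∈ J, pg3_a W P0 p j + M) / p =
        2 * ((∑ j ∈ J, pg3_a W P0 p j) / p) + M / p := by ring
    rw [m5, m4, m7]
    linarith
  · -- upper bound
    have hpt : ∀ u ∈ L, ∀ u' ∈ L', 1 - Phi m W P0 u u' p ≤
        ∑ j ∈ J, pg3_A p j u + (∑ j ∈ J, pg3_A p j u' + 4 * K / p) := by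
      intro u hu u' hu'
      have hN0 : ∀ u : PolyK K, 0 ≤ ∑ j ∈ J, pg3_A p j u := fun u =>
        Finset.sum_nonneg (fun j _ => (pg3_A_mem p j u).1)
      have hKp : 0 ≤ 4 * (K : ℝ) / p := by positivity
      by_cases hb : p ∣ bad m u * bad m u'
      · have hone : ∀ w : PolyK K, p ∣ bad m w → 1 ≤ ∑ j ∈ J, pg3_A p j w := by
          intro w hbw
          obtain ⟨j, hjJ, hj1⟩ := (pg3_bad_iff hp w).1 hbw
          have h3 := Finset.single_le_sum (f := fun j => pg3_A p j w)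
            (fun j _ => (pg3_A_mem p j w).1) hjJ
          have h4 : pg3_A p j w = 1 := by
            unfold pg3_A ich
            rw [if_pos hj1]
          simp only [h4] at h3
          exact h3
        have h5 := (Phi_mem (m := m) (p := p) W hW P0 u u').1
        rcases hp.dvd_mul.1 hb with h3 | h3
        · have := hone u h3
          linarith [hN0 u']
        · have := hone u' h3
          linarith [hN0 u]
      · have hbu : ¬ p ∣ bad m u := fun h => hb (dvd_mul_of_dvd_left h _)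
        have hbu' : ¬ p ∣ bad m u' := fun h => hb (dvd_mul_of_dvd_right h _)
        have h3 := pg3_DD hp u (hL.s1 u hu) (hL.sm u hu) hbu
        have h4 := pg3_DD hp u' (hL'.s1 u' hu') (hL'.sm u' hu') hbu'
        have h5 : ¬ p ∣ DD m u * DD m u' := by
          intro h
          rcases hp.dvd_mul.1 h with h6 | h6
          · exact h3 h6
          · exact h4 h6
        have h6 := (vv_bounds hK W hW P0 u u' hp h2 h5 (hL.so u hu) (hL'.so u' hu')).2
        have h7 : (4 * K - 4 : ℝ) / (p + 1) ≤ 4 * K / p := by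
          rw [div_le_div_iff₀ (by linarith) hp0]
          nlinarith
        have h8 : 1 - Phi m W P0 u u' p = vv W P0 u u' p := by
          unfold Phi
          rw [if_neg hb]
          ring
        rw [h8]
        linarith [hN0 u, hN0 u']
    have hin : ∀ u ∈ L, mL L' (fun u' => 1 - Phi m W P0 u u' p) ≤
        ∑ j ∈ J, pg3_A p j u + (K * (C0 / p) + 4 * K / p) := by
      intro u hu
      refine (mL_mono (hpt u hu)).trans ?_
      rw [mL_add, mL_add, mL_const hL'.ne, mL_const hL'.ne]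
      have := (pg3_mL_N hC0 hL').2
      linarith
    refine (mL_mono hin).trans ?_
    rw [mL_add, mL_const hL.ne]
    have h1 := (pg3_mL_N hC0 hL).2
    have h2 : (cA + cB + (2 * (K * C0) + 4 * K)) / (p : ℝ) = (cA + cB) / p +
        (K * (C0 / p) + (K * (C0 / p) + 4 * K / p)) := by
      ring
    rw [h2]
    have h3 : 0 ≤ (cA + cB) / (p : ℝ) := by positivity
    linarith

end Pool.Agent.AQ.PENK

namespace Pool.Agent.AQ.PENK

theorem c3_local : type_of% @c3_local_pr := @c3_local_pr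

end Pool.Agent.AQ.PENK
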