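import Pool.Agent.Lib_helper18.AQ.K.DefsW
import Pool.Agent.Lib_helper18.AQ.KF.PG1
import Pool.Agent.Lib_helper18.AQ.KF.PG3

set_option autoImplicit false

namespace Pool.Agent.AQ.PENK

open Finset Pool.Agent.PENT Pool.Agent.PENK

variable [FD]

variable {K : ℕ} [NeZero K] {m : Fin K}

theorem pg4_mem {L : Finset (PolyK K)} (hL : L.Nonempty) {h : PolyK K → ℝ}
    (hh : ∀ u, 0 ≤ h u ∧ h u ≤ 1) : 0 ≤ mL L h ∧ mL L h ≤ 1 := by
  constructor
  · have := mL_mono (L := L) (h := fun _ => (0 : ℝ)) (h' := h) (fun r _ => (hh r).1)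
    rwa [mL_const hL] at this
  · have := mL_mono (L := L) (h := h) (h' := fun _ => (1 : ℝ)) (fun r _ => (hh r).2)
    rwa [mL_const hL] at this

/-- BLOCK PG4 (uses PG1, PG3, `brun_primes`): the second sieve. -/
theorem c3_sieve_pr (hK : 5 ≤ K) (W : Wts K) (hW : W.Ok) (C0 : ℝ)
    (hC0 : 0 ≤ C0) :
    ∃ (ps k : ℕ) (C1 : ℝ), nz K ≤ ps ∧ 0 ≤ C1 ∧ ∀ (ι ι' : Type) (O : Finset ι)
      (pol : ι → PolyK K) (O' : Finset ι') (pol' : ι' → PolyK K) (L L' : ℕ → Finset (PolyK K))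
      (S : Finset ℕ) (P0 P : ℕ) (η : ℝ), 1 ≤ P → 0 ≤ η → η ≤ 1 →
      (∀ p ∈ S, p.Prime ∧ ps < p ∧ p ≤ P) →
      (∀ p ∈ S, LocF m p (L p) C0 ∧ LocF m p (L' p) C0) →
      EquiF O pol L S ((P : ℝ) ^ k) η → EquiF O' pol' L' S ((P : ℝ) ^ k) η →
      ∑ o ∈ O, ∑ o' ∈ O', ∏ p ∈ S, Phi m W P0 (pol o) (pol' o') p ≤
        (O.card : ℝ) * O'.card * (2 * ∏ p ∈ S, (1 - bden m W P0 p / p + C1 / (p : ℝ) ^ 2) +
          (P : ℝ) ^ k * (2 * η)) ∧
      ∀ p ∈ S, 1 / 4 ≤ 1 - bden m W P0 p / p + C1 / (p : ℝ) ^ 2 := by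
  obtain ⟨D, hD0, hloc⟩ := c3_local (m := m) hK W hW C0 hC0
  obtain ⟨k, hk⟩ := brun_primes D 2 hD0 (by norm_num)
  refine ⟨nz K + ⌈2 * D⌉₊, k, D, Nat.le_add_right _ _, hD0, ?_⟩
  intro ι ι' O pol O' pol' L L' S P0 P η hP hη hη1 hS hLoc hE hE'
  -- the density
  set g : ℕ → ℝ := fun p => mL (L p) (fun u => mL (L' p) (fun u' => 1 - Phi m W P0 u u' p)) with hg
  have h2p : ∀ p ∈ S, FD.N0 < p := fun p hp => by
    have := (hS p hp).2.1
    exact nz_N (K := K) (by omega)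
  have hx01 : ∀ p ∈ S, ∀ u u' : PolyK K,
      0 ≤ 1 - Phi m W P0 u u' p ∧ 1 - Phi m W P0 u u' p ≤ 1 := by
    intro p hp u u'
    have := Phi_mem (m := m) (p := p) W hW P0 u u'
    exact ⟨by linarith [this.2], by linarith [this.1]⟩
  have hH01 : ∀ p ∈ S, ∀ u : PolyK K,
      0 ≤ mL (L' p) (fun u' => 1 - Phi m W P0 u u' p) ∧
        mL (L' p) (fun u' => 1 - Phi m W P0 u u' p) ≤ 1 := fun p hp u =>
    pg4_mem (hLoc p hp).2.ne (fun u' => hx01 p hp u u')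
  have hg01 : ∀ p ∈ S, 0 ≤ g p ∧ g p ≤ 1 := fun p hp =>
    pg4_mem (hLoc p hp).1.ne (fun u => hH01 p hp u)
  have hgl : ∀ p ∈ S, bden m W P0 p / p - D / (p : ℝ) ^ 2 ≤ g p ∧ g p ≤ D / p := fun p hp =>
    hloc P0 p (hS p hp).1 (h2p p hp) (L p) (L' p) (hLoc p hp).1 (hLoc p hp).2
  have hDp : ∀ p ∈ S, D / (p : ℝ) ≤ 1 / 2 := by
    intro p hp
    have h1 : (nz K + ⌈2 * D⌉₊ : ℕ) < p := (hS p hp).2.1
    have h2 : (2 * D : ℝ) ≤ (⌈2 * D⌉₊ : ℝ) := Nat.le_ceil _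
    have h3 : ((⌈2 * D⌉₊ : ℕ) : ℝ) ≤ (p : ℝ) := by
      have : ⌈2 * D⌉₊ ≤ p := by omega
      exact_mod_cast this
    have hp0 : (0 : ℝ) < p := by exact_mod_cast (hS p hp).1.pos
    rw [div_le_iff₀ hp0]
    linarith
  have hX : (0 : ℝ) ≤ (O.card : ℝ) * O'.card := by positivity
  have hR : (0 : ℝ) ≤ 2 * η * ((O.card : ℝ) * O'.card) := by positivity
  have key := (hk (ι × ι') (O ×ˢ O') (fun _ => 1)
    (fun o p => 1 - Phi m W P0 (pol o.1) (pol' o.2) p) S P g ((O.card : ℝ) * O'.card)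
    (2 * η * ((O.card : ℝ) * O'.card)) hP (fun _ _ => zero_le_one)
    (fun o _ p hp => hx01 p hp (pol o.1) (pol' o.2))
    (fun p hp => ⟨(hS p hp).1, (hS p hp).2.2⟩)
    (fun p hp => ⟨(hg01 p hp).1, by
      have := (hgl p hp).2.trans (hDp p hp)
      norm_num
      linarith, (hgl p hp).2⟩) hX hR ?_).2
  · constructor
    · have e1 : ∑ o ∈ O ×ˢ O', (fun _ : ι × ι' => (1 : ℝ)) o *
          ∏ p ∈ S, (1 - (1 - Phi m W P0 (pol o.1) (pol' o.2) p)) =
          ∑ o ∈ O, ∑ o' ∈ O', ∏ p ∈ S, Phi m W P0 (pol o) (pol' o') p := by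
        rw [Finset.sum_product]
        refine Finset.sum_congr rfl fun o _ => Finset.sum_congr rfl fun o' _ => ?_
        simp only [one_mul, sub_sub_cancel]
      have key2 : ∑ o ∈ O, ∑ o' ∈ O', ∏ p ∈ S, Phi m W P0 (pol o) (pol' o') p ≤
          2 * ((O.card : ℝ) * O'.card * ∏ p ∈ S, (1 - g p)) +
            (P : ℝ) ^ k * (2 * η * ((O.card : ℝ) * O'.card)) := by
        rw [← e1]; exact key
      refine key2.trans ?_
      have h3 : ∏ p ∈ S, (1 - g p) ≤ ∏ p ∈ S, (1 - bden m W P0 p / p + D / (p : ℝ) ^ 2) := by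
        refine Finset.prod_le_prod (fun p hp => by linarith [(hg01 p hp).2]) fun p hp => ?_
        linarith [(hgl p hp).1]
      have h4 := mul_le_mul_of_nonneg_left h3 hX
      calc 2 * ((O.card : ℝ) * O'.card * ∏ p ∈ S, (1 - g p)) +
            (P : ℝ) ^ k * (2 * η * ((O.card : ℝ) * O'.card))
          ≤ 2 * ((O.card : ℝ) * O'.card *
              ∏ p ∈ S, (1 - bden m W P0 p / p + D / (p : ℝ) ^ 2)) +
            (P : ℝ) ^ k * (2 * η * ((O.card : ℝ) * O'.card)) := by linarith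
        _ = _ := by ring
    · intro p hp
      have h1 := (hgl p hp).1.trans ((hgl p hp).2.trans (hDp p hp))
      linarith
  · -- the hypothesis of the sieve
    intro T hT hTP
    have hTP' : ((∏ p ∈ T, p : ℕ) : ℝ) ≤ (P : ℝ) ^ k := by exact_mod_cast hTP
    have a1 : ∀ o : ι, |∑ o' ∈ O', ∏ p ∈ T, (1 - Phi m W P0 (pol o) (pol' o') p) -
        O'.card * ∏ p ∈ T, mL (L' p) (fun u' => 1 - Phi m W P0 (pol o) u' p)| ≤ η * O'.card := by
      intro o
      refine hE' T hT hTP' (fun p u' => 1 - Phi m W P0 (pol o) u' p) ?_ ?_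
      · intro p hp u u' huu
        have := Phi_per' (m := m) W P0 (pol o) p u u' huu
        simp only at this ⊢
        rw [this]
      · intro p hp u'
        exact hx01 p (hT hp) (pol o) u'
    have a2 : |∑ o ∈ O, ∏ p ∈ T, mL (L' p) (fun u' => 1 - Phi m W P0 (pol o) u' p) -
        O.card * ∏ p ∈ T, g p| ≤ η * O.card := by
      refine hE T hT hTP' (fun p u => mL (L' p) (fun u' => 1 - Phi m W P0 u u' p)) ?_ ?_
      · intro p hp u1 u2 huu
        have : (fun u' => 1 - Phi m W P0 u1 u' p) = fun u' => 1 - Phi m W P0 u2 u' p := by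
          funext u'
          have := Phi_per (m := m) W P0 u' p u1 u2 huu
          simp only at this
          rw [this]
        simp only
        rw [this]
      · intro p hp u
        exact hH01 p (hT hp) u
    have e2 : ∑ o ∈ O ×ˢ O', (fun _ : ι × ι' => (1 : ℝ)) o *
        ∏ p ∈ T, (fun (o : ι × ι') p => 1 - Phi m W P0 (pol o.1) (pol' o.2) p) o p =
        ∑ o ∈ O, ∑ o' ∈ O', ∏ p ∈ T, (1 - Phi m W P0 (pol o) (pol' o') p) := by
      rw [Finset.sum_product]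
      refine Finset.sum_congr rfl fun o _ => Finset.sum_congr rfl fun o' _ => ?_
      simp only [one_mul]
    rw [e2]
    have e3 : ∑ o ∈ O, ∑ o' ∈ O', ∏ p ∈ T, (1 - Phi m W P0 (pol o) (pol' o') p) -
        (O.card : ℝ) * O'.card * ∏ p ∈ T, g p =
        (∑ o ∈ O, (∑ o' ∈ O', ∏ p ∈ T, (1 - Phi m W P0 (pol o) (pol' o') p) -
          O'.card * ∏ p ∈ T, mL (L' p) (fun u' => 1 - Phi m W P0 (pol o) u' p))) +
        O'.card * (∑ o ∈ O, ∏ p ∈ T, mL (L' p) (fun u' => 1 - Phi m W P0 (pol o) u' p) -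
          O.card * ∏ p ∈ T, g p) := by
      rw [Finset.sum_sub_distrib, ← Finset.mul_sum]
      ring
    rw [e3]
    refine (abs_add_le _ _).trans ?_
    have b1 : |∑ o ∈ O, (∑ o' ∈ O', ∏ p ∈ T, (1 - Phi m W P0 (pol o) (pol' o') p) -
          O'.card * ∏ p ∈ T, mL (L' p) (fun u' => 1 - Phi m W P0 (pol o) u' p))| ≤
        O.card * (η * O'.card) := by
      refine (Finset.abs_sum_le_sum_abs _ _).trans ?_
      refine (Finset.sum_le_sum fun o _ => a1 o).trans ?_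
      rw [Finset.sum_const, nsmul_eq_mul]
    have b2 : |(O'.card : ℝ) * (∑ o ∈ O, ∏ p ∈ T, mL (L' p) (fun u' => 1 - Phi m W P0 (pol o) u' p) -
          O.card * ∏ p ∈ T, g p)| ≤ O'.card * (η * O.card) := by
      rw [abs_mul, abs_of_nonneg (Nat.cast_nonneg _)]
      exact mul_le_mul_of_nonneg_left a2 (Nat.cast_nonneg _)
    calc _ ≤ (O.card : ℝ) * (η * O'.card) + O'.card * (η * O.card) := add_le_add b1 b2
      _ = _ := by ring

end Pool.Agent.AQ.PENK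

namespace Pool.Agent.AQ.PENK

theorem c3_sieve : type_of% @c3_sieve_pr := @c3_sieve_pr

end Pool.Agent.AQ.PENK
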