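import Pool.Agent.Lib_helper18.AQ.K.DefsW
import Pool.Agent.Lib_helper18.AQ.KF.PA6

/-! Block PG5: the passage from `ThB · VP` to `Phi`. -/

set_option autoImplicit false

namespace Pool.Agent.AQ.PENK

open Finset Pool.Agent.PENT Pool.Agent.PENK

variable [FD]

variable {K : ℕ} [NeZero K] {m : Fin K}

/-- products of numbers of `[0,1]` decrease with the set -/
theorem pg5_prod_sub {ι : Type} [DecidableEq ι] {s t : Finset ι} (h : t ⊆ s) (f : ι → ℝ)
    (h0 : ∀ i ∈ s, 0 ≤ f i) (h1 : ∀ i ∈ s, f i ≤ 1) : ∏ i ∈ s, f i ≤ ∏ i ∈ t, f i := by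
  rw [← Finset.prod_sdiff h]
  have h2 : ∏ i ∈ s \ t, f i ≤ 1 :=
    Finset.prod_le_one (fun i hi => h0 i (Finset.mem_sdiff.1 hi).1)
      (fun i hi => h1 i (Finset.mem_sdiff.1 hi).1)
  have h3 : 0 ≤ ∏ i ∈ t, f i := Finset.prod_nonneg fun i hi => h0 i (h hi)
  calc (∏ i ∈ s \ t, f i) * ∏ i ∈ t, f i ≤ 1 * ∏ i ∈ t, f i :=
        mul_le_mul_of_nonneg_right h2 h3
    _ = ∏ i ∈ t, f i := one_mul _

theorem pg5_dt_le (a b : ℤ × ℤ) : (dt a b).natAbs ≤ nr a * nr b := by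
  have h1 : (dt a b).natAbs ≤ a.1.natAbs * b.2.natAbs + a.2.natAbs * b.1.natAbs := by
    unfold dt
    calc (a.1 * b.2 - a.2 * b.1).natAbs ≤ (a.1 * b.2).natAbs + (a.2 * b.1).natAbs := by omega
      _ = a.1.natAbs * b.2.natAbs + a.2.natAbs * b.1.natAbs := by
          rw [Int.natAbs_mul, Int.natAbs_mul]
  refine h1.trans ?_
  unfold nr
  nlinarith [Nat.zero_le (a.1.natAbs * b.1.natAbs), Nat.zero_le (a.2.natAbs * b.2.natAbs)]

/-- the size of `bad m u` -/
theorem pg5_bad_le {q : Par K} (hq : q.Ok) {x : ℝ} (hx : 1 ≤ x) {P0 : ℕ} {u : PolyK K}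
    (hu : IsPoly m q x P0 u) : (bad m u : ℝ) ≤ x ^ (1 : ℝ) := by
  have hx0 : 0 < x := by linarith
  have hn1 : ∀ j, 1 ≤ nr (u j) := by
    intro j
    have h1 : (1 : ℝ) ≤ nr (u j) :=
      (Real.one_le_rpow hx (hq.he j)).trans (hu.lo j)
    exact_mod_cast h1
  have h1 : bad m u ≤ ∏ j, (nr (u j) * nr (u (j + 1))) := by
    unfold bad
    calc ∏ j ∈ inr K, dn m u j ≤ ∏ j ∈ inr K, (nr (u j) * nr (u (j + 1))) := by
          refine Finset.prod_le_prod' fun j _ => ?_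
          by_cases hj : j = m
          · rw [hj, dn_m]
            exact Nat.mul_pos (hn1 _) (hn1 _)
          · rw [dn_ne u hj]
            exact pg5_dt_le _ _
      _ ≤ ∏ j, (nr (u j) * nr (u (j + 1))) :=
          Finset.prod_le_prod_of_subset_of_one_le' (Finset.subset_univ _)
            (fun j _ _ => Nat.mul_pos (hn1 j) (hn1 (j + 1)))
  have h2 : ∏ j, (nr (u j) * nr (u (j + 1))) = (∏ j, nr (u j)) ^ 2 := by
    rw [Finset.prod_mul_distrib, pow_two]
    congr 1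
    exact Equiv.prod_comp (Equiv.addRight (1 : Fin K)) (fun j => nr (u j))
  have h3 : ((∏ j, nr (u j) : ℕ) : ℝ) ≤ x ^ (q.δ / 50) := by
    push_cast
    calc ∏ j, (nr (u j) : ℝ) ≤ ∏ j, x ^ (q.e j + q.ε) :=
          Finset.prod_le_prod (fun j _ => by positivity) fun j _ => (hu.hi j).trans
            (Real.rpow_le_rpow_of_exponent_le hx (by have := hq.ε0; linarith))
      _ = x ^ (∑ j, (q.e j + q.ε)) := (Real.rpow_sum_of_pos hx0 _ _).symm
      _ ≤ x ^ (q.δ / 50) := Real.rpow_le_rpow_of_exponent_le hx hq.hs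
  calc (bad m u : ℝ) ≤ ((∏ j, (nr (u j) * nr (u (j + 1))) : ℕ) : ℝ) := by exact_mod_cast h1
    _ = ((∏ j, nr (u j) : ℕ) : ℝ) ^ 2 := by rw [h2]; push_cast; ring
    _ ≤ (x ^ (q.δ / 50)) ^ 2 := pow_le_pow_left₀ (by positivity) h3 2
    _ = x ^ (q.δ / 50 * 2) := by
        rw [Real.rpow_mul hx0.le]; norm_num
    _ ≤ x ^ (1 : ℝ) :=
        Real.rpow_le_rpow_of_exponent_le hx (by have := hq.δ0; have := hq.δ1; linarith)

/-- `F_p(u)`: the product of `2 al_j` over the interior edges divisible by `p` -/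
noncomputable def pg5F (m : Fin K) (W : Wts K) (u : PolyK K) (p : ℕ) : ℝ :=
  ∏ j ∈ inr K, if p ∣ dn m u j then 2 * W.al j else 1

theorem pg5_dn_pos {q : Par K} {x : ℝ} {P0 : ℕ} {u : PolyK K} (hu : IsPoly m q x P0 u)
    (j : Fin K) : 0 < dn m u j := Nat.pos_of_ne_zero (hu.sq j).ne_zero

theorem pg5_bad_pos {q : Par K} {x : ℝ} {P0 : ℕ} {u : PolyK K} (hu : IsPoly m q x P0 u) :
    0 < bad m u := Finset.prod_pos fun j _ => pg5_dn_pos hu j

/-- one polygon: `wi` is at most `2 ^ n / bad` times the product of the `F_p` -/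
theorem pg5_wi {q : Par K} (hq : q.Ok) {W : Wts K} (hW : W.Ok) {x : ℝ} (hx : 2 ≤ x)
    {P0 P : ℕ} {τ : ℝ} (hτ : 0 < τ) (hP : x ^ τ ≤ P) {u : PolyK K} (hu : IsPoly m q x P0 u)
    (S : Finset ℕ) (hS : ∀ p ∈ S, p.Prime ∧ p ≤ P) :
    wi m W P u ≤ 2 ^ ⌈1 / τ⌉₊ / bad m u * ∏ p ∈ S, pg5F m W u p := by
  classical
  have hx0 : 0 < x := by linarith
  have hx1 : 1 < x := by linarith
  have hal0 : ∀ j, 0 ≤ 2 * W.al j := fun j => by have := hW.al0 j; linarith
  have hal1 : ∀ j, 2 * W.al j ≤ 1 := fun j => by have := hW.al1 j; linarith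
  -- the big primes
  set B : Fin K → Finset ℕ := fun j => (dn m u j).primeFactors.filter (fun p => P < p) with hB
  have hcard : ∑ j ∈ inr K, (B j).card ≤ ⌈1 / τ⌉₊ := by
    set k := ∑ j ∈ inr K, (B j).card with hk
    have h1 : P ^ k ≤ bad m u := by
      rw [hk, ← Finset.prod_pow_eq_pow_sum]
      unfold bad
      refine Finset.prod_le_prod' fun j _ => ?_
      calc P ^ (B j).card = ∏ _p ∈ B j, P := by rw [Finset.prod_const]
        _ ≤ ∏ p ∈ B j, p := Finset.prod_le_prod' fun p hp => (Finset.mem_filter.1 hp).2.le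
        _ ≤ dn m u j := by
            refine Nat.le_of_dvd (pg5_dn_pos hu j) ?_
            exact (Finset.prod_dvd_prod_of_subset _ _ (fun p => p)
              (Finset.filter_subset _ _)).trans (Nat.prod_primeFactors_dvd _)
    have h2 : (x ^ τ) ^ k ≤ x ^ (1 : ℝ) := by
      calc (x ^ τ) ^ k ≤ (P : ℝ) ^ k := pow_le_pow_left₀ (by positivity) hP k
        _ ≤ bad m u := by exact_mod_cast h1
        _ ≤ x ^ (1 : ℝ) := pg5_bad_le hq hx1.le hu
    have h3 : τ * k ≤ 1 := by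
      rw [← Real.rpow_natCast, ← Real.rpow_mul hx0.le] at h2
      exact (Real.rpow_le_rpow_left_iff hx1).1 h2
    have h4 : (k : ℝ) ≤ 1 / τ := by
      rw [le_div_iff₀ hτ]; linarith
    exact_mod_cast h4.trans (Nat.le_ceil _)
  -- `wi` in terms of `bad`
  have hwi : wi m W P u = (∏ j ∈ inr K, ∏ p ∈ (dn m u j).primeFactors, 2 * lw P p (W.al j)) /
      bad m u := by
    unfold wi bad
    push_cast
    rw [← Finset.prod_div_distrib]
    refine Finset.prod_congr rfl fun j _ => ?_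
    rw [Finset.prod_div_distrib]
    congr 1
    rw [← Nat.cast_prod]
    congr 1
    exact Nat.prod_primeFactors_of_squarefree (hu.sq j)
  have hsplit : ∀ j ∈ inr K, ∏ p ∈ (dn m u j).primeFactors, 2 * lw P p (W.al j) ≤
      2 ^ (B j).card * ∏ p ∈ S, (if p ∣ dn m u j then 2 * W.al j else 1) := by
    intro j _
    rw [← Finset.prod_filter_mul_prod_filter_not (dn m u j).primeFactors (fun p => P < p)]
    have e1 : ∏ p ∈ (dn m u j).primeFactors.filter (fun p => P < p), 2 * lw P p (W.al j) =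
        2 ^ (B j).card := by
      rw [← Finset.prod_const]
      refine Finset.prod_congr rfl fun p hp => ?_
      have := (Finset.mem_filter.1 hp).2
      unfold lw
      rw [if_neg (not_le.2 this)]; norm_num
    rw [e1]
    refine mul_le_mul_of_nonneg_left ?_ (by positivity)
    rw [← Finset.prod_filter]
    have e2 : ∏ p ∈ (dn m u j).primeFactors.filter (fun p => ¬ P < p), 2 * lw P p (W.al j) =
        ∏ p ∈ (dn m u j).primeFactors.filter (fun p => ¬ P < p), 2 * W.al j := by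
      refine Finset.prod_congr rfl fun p hp => ?_
      have := (Finset.mem_filter.1 hp).2
      unfold lw
      rw [if_pos (not_lt.1 this)]
    rw [e2]
    refine pg5_prod_sub ?_ _ (fun p _ => hal0 j) (fun p _ => hal1 j)
    intro p hp
    obtain ⟨hp1, hp2⟩ := Finset.mem_filter.1 hp
    obtain ⟨hpp, hpP⟩ := hS p hp1
    rw [Finset.mem_filter, Nat.mem_primeFactors]
    exact ⟨⟨hpp, hp2, (pg5_dn_pos hu j).ne'⟩, not_lt.2 hpP⟩
  have hbad : (0 : ℝ) < bad m u := by exact_mod_cast pg5_bad_pos hu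
  have hF0 : 0 ≤ ∏ p ∈ S, pg5F m W u p := by
    refine Finset.prod_nonneg fun p _ => Finset.prod_nonneg fun j _ => ?_
    split_ifs
    · exact hal0 j
    · exact zero_le_one
  have hmain : (∏ j ∈ inr K, ∏ p ∈ (dn m u j).primeFactors, 2 * lw P p (W.al j)) ≤
      2 ^ ⌈1 / τ⌉₊ * ∏ p ∈ S, pg5F m W u p := by
    calc (∏ j ∈ inr K, ∏ p ∈ (dn m u j).primeFactors, 2 * lw P p (W.al j)) ≤
        ∏ j ∈ inr K, (2 ^ (B j).card * ∏ p ∈ S, (if p ∣ dn m u j then 2 * W.al j else 1)) := by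
          refine Finset.prod_le_prod (fun j _ => Finset.prod_nonneg fun p _ => ?_) hsplit
          unfold lw
          split_ifs
          · exact hal0 j
          · norm_num
      _ = 2 ^ (∑ j ∈ inr K, (B j).card) * ∏ p ∈ S, pg5F m W u p := by
          rw [Finset.prod_mul_distrib, Finset.prod_pow_eq_pow_sum]
          congr 1
          unfold pg5F
          exact Finset.prod_comm
      _ ≤ 2 ^ ⌈1 / τ⌉₊ * ∏ p ∈ S, pg5F m W u p :=
          mul_le_mul_of_nonneg_right (pow_le_pow_right₀ (by norm_num) hcard) hF0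
  rw [hwi]
  calc (∏ j ∈ inr K, ∏ p ∈ (dn m u j).primeFactors, 2 * lw P p (W.al j)) / bad m u ≤
      (2 ^ ⌈1 / τ⌉₊ * ∏ p ∈ S, pg5F m W u p) / bad m u := by gcongr
    _ = 2 ^ ⌈1 / τ⌉₊ / bad m u * ∏ p ∈ S, pg5F m W u p := by ring

theorem pg5_dvd_DD {p : ℕ} (hp : p.Prime) {u : PolyK K} (h1 : ¬ p ∣ dn m u 1)
    (h2 : ¬ p ∣ dn m u (-1)) (h3 : ¬ p ∣ bad m u) : ¬ p ∣ DD m u := by
  intro h
  obtain ⟨j, _, hj⟩ := (hp.prime.dvd_finsetProd_iff _).1 h
  by_cases hj1 : j = 1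
  · exact h1 (hj1 ▸ hj)
  by_cases hj2 : j = -1
  · exact h2 (hj2 ▸ hj)
  exact h3 (hj.trans (Finset.dvd_prod_of_mem _ (by
    unfold inr
    rw [Finset.mem_filter]
    exact ⟨Finset.mem_univ j, hj1, hj2⟩)))

theorem pg5_F_one {W : Wts K} {u : PolyK K} {p : ℕ} (h : ¬ p ∣ bad m u) : pg5F m W u p = 1 := by
  unfold pg5F
  refine Finset.prod_eq_one fun j hj => ?_
  rw [if_neg (fun h' => h (h'.trans (Finset.dvd_prod_of_mem _ hj)))]

theorem wi_VP_le_pr (hK : 5 ≤ K) (q : Par K) (hq : q.Ok) (W : Wts K) (hW : W.Ok) {τ : ℝ}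
    (hτ : 0 < τ) : ∃ C x₀ : ℝ, 0 ≤ C ∧ 1 ≤ x₀ ∧ ∀ x ≥ x₀, ∀ P0 P : ℕ, 2 ≤ P0 → x ^ τ ≤ P →
    ∀ u u' : PolyK K, IsPoly m q x P0 u → IsPoly m q x P0 u' → One4 m u → One4 m u' → ∀ S : Finset ℕ,
    (∀ p ∈ S, p.Prime ∧ nz K < p ∧ p ≤ P ∧ ¬ p ∣ dn m u 1 * dn m u (-1) * dn m u' 1 * dn m u' (-1)) →
    wi m W P u * wi m W P u' * VP m W P0 P u u' ≤
      C / ((bad m u : ℝ) * bad m u') * ∏ p ∈ S, Phi m W P0 u u' p := by
  classical
  refine ⟨2 ^ ⌈1 / τ⌉₊ * 2 ^ ⌈1 / τ⌉₊, 2, by positivity, by norm_num, ?_⟩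
  intro x hx P0 P hP0 hP u u' hu hu' h4 h4' S hS
  have hSP : ∀ p ∈ S, p.Prime ∧ p ≤ P := fun p hp => ⟨(hS p hp).1, (hS p hp).2.2.1⟩
  have hw := pg5_wi hq hW hx hτ hP hu S hSP
  have hw' := pg5_wi hq hW hx hτ hP hu' S hSP
  -- bounds for `vv`
  have hvv : ∀ p : ℕ, p.Prime → nz K < p → ¬ p ∣ DD m u * DD m u' →
      0 ≤ 1 - vv W P0 u u' p ∧ 1 - vv W P0 u u' p ≤ 1 := by
    intro p hp hpK hpD
    have h1 := vv_bounds hK W hW P0 u u' hp (nz_N hpK) hpD (hu.op p hp (nz_N hpK))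
      (hu'.op p hp (nz_N hpK))
    have h2 : (4 * (K : ℝ) - 4) / ((p : ℝ) + 1) ≤ 1 := by
      rw [div_le_one (by positivity)]
      have : (100 * (K : ℝ)) < p := by exact_mod_cast nz_K hpK
      have hK0 : (0 : ℝ) ≤ K := by positivity
      linarith
    constructor <;> linarith [h1.1, h1.2]
  have hnd : ∀ p ∈ S, ¬ p ∣ bad m u * bad m u' → ¬ p ∣ DD m u * DD m u' := by
    intro p hp hb h
    obtain ⟨hpp, _, _, hs⟩ := hS p hp
    have a1 : ¬ p ∣ dn m u 1 := fun h => hs (((h.mul_right _).mul_right _).mul_right _)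
    have a2 : ¬ p ∣ dn m u (-1) := fun h => hs (((h.mul_left _).mul_right _).mul_right _)
    have a3 : ¬ p ∣ dn m u' 1 := fun h => hs ((h.mul_left _).mul_right _)
    have a4 : ¬ p ∣ dn m u' (-1) := fun h => hs (h.mul_left _)
    rcases hpp.dvd_mul.1 h with h | h
    · exact pg5_dvd_DD hpp a1 a2 (fun h' => hb (h'.mul_right _)) h
    · exact pg5_dvd_DD hpp a3 a4 (fun h' => hb (h'.mul_left _)) h
  -- the product `VP`
  have hVP : VP m W P0 P u u' ≤ ∏ p ∈ S.filter (fun p => ¬ p ∣ bad m u * bad m u'),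
      (1 - vv W P0 u u' p) := by
    unfold VP
    refine pg5_prod_sub ?_ _ (fun p hp => ?_) (fun p hp => ?_)
    · intro p hp
      obtain ⟨hp1, hp2⟩ := Finset.mem_filter.1 hp
      obtain ⟨hpp, hpK, hpP, _⟩ := hS p hp1
      unfold prs
      rw [Finset.mem_filter, Finset.mem_filter, Finset.mem_Ioc]
      exact ⟨⟨⟨hpK, hpP⟩, hpp⟩, hnd p hp1 hp2⟩
    · unfold prs at hp
      rw [Finset.mem_filter, Finset.mem_filter, Finset.mem_Ioc] at hp
      exact (hvv p hp.1.2 hp.1.1.1 hp.2).1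
    · unfold prs at hp
      rw [Finset.mem_filter, Finset.mem_filter, Finset.mem_Ioc] at hp
      exact (hvv p hp.1.2 hp.1.1.1 hp.2).2
  have hVP0 : 0 ≤ VP m W P0 P u u' := by
    unfold VP
    refine Finset.prod_nonneg fun p hp => ?_
    unfold prs at hp
    rw [Finset.mem_filter, Finset.mem_filter, Finset.mem_Ioc] at hp
    exact (hvv p hp.1.2 hp.1.1.1 hp.2).1
  -- `Phi`
  have hPhi : ∏ p ∈ S, Phi m W P0 u u' p = (∏ p ∈ S, pg5F m W u p) * (∏ p ∈ S, pg5F m W u' p) *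
      ∏ p ∈ S.filter (fun p => ¬ p ∣ bad m u * bad m u'), (1 - vv W P0 u u' p) := by
    rw [Finset.prod_filter, ← Finset.prod_mul_distrib, ← Finset.prod_mul_distrib]
    refine Finset.prod_congr rfl fun p hp => ?_
    obtain ⟨hpp, _, _, _⟩ := hS p hp
    unfold Phi
    by_cases hb : p ∣ bad m u * bad m u'
    · rw [if_pos hb, if_neg (not_not.2 hb), mul_one]
      have hcase : P0 < p ∧ Sp p := by
        rcases hpp.dvd_mul.1 hb with h | h
        · obtain ⟨j, _, hj⟩ := (hpp.prime.dvd_finsetProd_iff _).1 h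
          exact ⟨hu.ro j p hpp hj, h4 p hpp (hj.trans (Finset.dvd_prod_of_mem _
            (Finset.mem_univ j)))⟩
        · obtain ⟨j, _, hj⟩ := (hpp.prime.dvd_finsetProd_iff _).1 h
          exact ⟨hu'.ro j p hpp hj, h4' p hpp (hj.trans (Finset.dvd_prod_of_mem _
            (Finset.mem_univ j)))⟩
      rw [if_neg (by
        rintro (h | h)
        · exact absurd hcase.1 (not_lt.2 h)
        · exact h hcase.2)]
      rfl
    · rw [if_neg hb, if_pos hb, pg5_F_one (fun h => hb (h.mul_right _)),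
        pg5_F_one (fun h => hb (h.mul_left _))]
      ring
  have hF0 : ∀ v : PolyK K, 0 ≤ ∏ p ∈ S, pg5F m W v p := by
    intro v
    refine Finset.prod_nonneg fun p _ => Finset.prod_nonneg fun j _ => ?_
    split_ifs
    · have := hW.al0 j; linarith
    · exact zero_le_one
  have hwi0 : 0 ≤ wi m W P u' := by
    unfold wi
    refine Finset.prod_nonneg fun j _ => Finset.prod_nonneg fun p _ => ?_
    unfold lw
    have := hW.al0 j
    split_ifs <;> positivity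
  have hb0 : (0 : ℝ) < bad m u := by exact_mod_cast pg5_bad_pos hu
  have hb0' : (0 : ℝ) < bad m u' := by exact_mod_cast pg5_bad_pos hu'
  calc wi m W P u * wi m W P u' * VP m W P0 P u u' ≤
      ((2 ^ ⌈1 / τ⌉₊ / bad m u * ∏ p ∈ S, pg5F m W u p) *
        (2 ^ ⌈1 / τ⌉₊ / bad m u' * ∏ p ∈ S, pg5F m W u' p)) *
        ∏ p ∈ S.filter (fun p => ¬ p ∣ bad m u * bad m u'), (1 - vv W P0 u u' p) := by
        refine mul_le_mul (mul_le_mul hw hw' hwi0 ?_) hVP hVP0 ?_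
        · exact mul_nonneg (by positivity) (hF0 u)
        · exact mul_nonneg (mul_nonneg (by positivity) (hF0 u))
            (mul_nonneg (by positivity) (hF0 u'))
    _ = (2 ^ ⌈1 / τ⌉₊ * 2 ^ ⌈1 / τ⌉₊) / ((bad m u : ℝ) * bad m u') * ∏ p ∈ S, Phi m W P0 u u' p := by
        rw [hPhi]
        field_simp

end Pool.Agent.AQ.PENK

namespace Pool.Agent.AQ.PENK

theorem wi_VP_le : type_of% @wi_VP_le_pr := @wi_VP_le_pr

end Pool.Agent.AQ.PENK
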