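import Pool.Agent.Lib_helper18.AQ.K.DefsW
import Pool.Agent.Lib_helper18.PENKF.PF2
import Pool.Agent.Lib_helper18.PENKF.PF3
import Pool.Agent.Lib_helper18.PENKF.PF4
import Pool.Agent.Lib_helper18.PENKF.PF5

/-! PENK block QF1 (helper53) -/

set_option autoImplicit false

namespace Pool.Agent.AQ.PENK

open Finset Pool.Agent.PENT Pool.Agent.PENK

variable [FD]

/-- the estimate of the pairs -/
theorem qf1_pair {κ : ℝ} (hκ : 0 < κ) : ∃ x₀ : ℝ, 1 ≤ x₀ ∧ ∀ x ≥ x₀, ∀ (m n : ℕ),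
    x ^ (4 * κ) ≤ (2 : ℝ) ^ (m + 1) → x ^ (4 * κ) ≤ (2 : ℝ) ^ (n + 1) →
    ∀ (δ : ℤ) (S : Finset ℕ), (∀ p ∈ S, p.Prime ∧ ¬ (p : ℤ) ∣ δ) →
    EquiG (OP (2 ^ (m + 1)) (4 * 2 ^ n)) (pP δ) cg2 (L2 δ) S
      (x ^ κ) (x ^ (-(3 / 2 * κ))) := by
  obtain ⟨C, hC, hpair⟩ := pair_equi
  obtain ⟨A₀, hA₀, hcard, _⟩ := pr_card
  set M : ℝ := 2176 * C + A₀ + 2 with hM
  have hM1 : 1 ≤ M := by
    rw [hM]
    have : (0 : ℝ) ≤ A₀ := Nat.cast_nonneg _
    nlinarith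
  refine ⟨M ^ (4 / κ), Real.one_le_rpow hM1 (by positivity), ?_⟩
  intro x hx m n hm hn δ S hS
  have hx1 : 1 ≤ x := (Real.one_le_rpow hM1 (by positivity)).trans hx
  have hx0 : 0 < x := by linarith
  have hxM : M ≤ x ^ (κ / 4) := by
    have h1 : (M ^ (4 / κ)) ^ (κ / 4) ≤ x ^ (κ / 4) :=
      Real.rpow_le_rpow (by positivity) hx (by positivity)
    rw [← Real.rpow_mul (by linarith), show 4 / κ * (κ / 4) = 1 by field_simp,
      Real.rpow_one] at h1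
    exact h1
  set A : ℕ := 2 ^ (m + 1) with hA
  set k : ℕ := 4 * 2 ^ n with hk
  have hA1 : 1 ≤ A := Nat.one_le_two_pow
  have hAx : x ^ (4 * κ) ≤ (A : ℝ) := by
    rw [hA]
    push_cast
    exact hm
  have hkx : 2 * x ^ (4 * κ) ≤ (k : ℝ) := by
    rw [hk]
    push_cast
    rw [pow_succ] at hn
    linarith
  have x1 : 1 ≤ x ^ (κ / 4) := Real.one_le_rpow hx1 (by positivity)
  have hA0 : (0 : ℝ) < A := by exact_mod_cast hA1
  have hAA : (A₀ : ℝ) ≤ A := by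
    have h1 : x ^ (κ / 4) ≤ x ^ (4 * κ) :=
      Real.rpow_le_rpow_of_exponent_le hx1 (by linarith)
    have h2 : (A₀ : ℝ) ≤ M := by
      rw [hM]
      nlinarith
    linarith
  have hpr := hcard A (by exact_mod_cast hAA)
  have hlog : 1 + Real.log A ≤ 17 * (A : ℝ) ^ (1 / 16 : ℝ) := by
    have h1 := Real.log_le_rpow_div hA0.le (show (0 : ℝ) < 1 / 16 by norm_num)
    have h2 : 1 ≤ (A : ℝ) ^ (1 / 16 : ℝ) :=
      Real.one_le_rpow (by exact_mod_cast hA1) (by norm_num)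
    have h3 : (A : ℝ) ^ (1 / 16 : ℝ) / (1 / 16) = 16 * (A : ℝ) ^ (1 / 16 : ℝ) := by ring
    rw [h3] at h1
    linarith
  have hmain : 128 * C * x ^ (7 / 2 * κ) * (1 + Real.log A) ≤ A := by
    have h1 : (A : ℝ) = A ^ (15 / 16 : ℝ) * A ^ (1 / 16 : ℝ) := by
      rw [← Real.rpow_add hA0]
      norm_num
    have h2 : x ^ (7 / 2 * κ) * x ^ (κ / 4) ≤ (A : ℝ) ^ (15 / 16 : ℝ) := by
      rw [← Real.rpow_add hx0]
      calc x ^ (7 / 2 * κ + κ / 4) = (x ^ (4 * κ)) ^ (15 / 16 : ℝ) := by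
            rw [← Real.rpow_mul hx0.le]
            congr 1
            ring
        _ ≤ (A : ℝ) ^ (15 / 16 : ℝ) := Real.rpow_le_rpow (by positivity) hAx (by norm_num)
    have h3 : 2176 * C ≤ x ^ (κ / 4) := by
      refine le_trans ?_ hxM
      rw [hM]
      have : (0 : ℝ) ≤ A₀ := Nat.cast_nonneg _
      linarith
    have h0 : (0 : ℝ) ≤ x ^ (7 / 2 * κ) := by positivity
    have h8 : (0 : ℝ) ≤ (A : ℝ) ^ (1 / 16 : ℝ) := by positivity
    calc 128 * C * x ^ (7 / 2 * κ) * (1 + Real.log A)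
        ≤ 128 * C * x ^ (7 / 2 * κ) * (17 * (A : ℝ) ^ (1 / 16 : ℝ)) :=
          mul_le_mul_of_nonneg_left hlog (by positivity)
      _ = (x ^ (7 / 2 * κ) * (2176 * C)) * (A : ℝ) ^ (1 / 16 : ℝ) := by ring
      _ ≤ (x ^ (7 / 2 * κ) * x ^ (κ / 4)) * (A : ℝ) ^ (1 / 16 : ℝ) :=
          mul_le_mul_of_nonneg_right (mul_le_mul_of_nonneg_left h3 h0) h8
      _ ≤ (A : ℝ) ^ (15 / 16 : ℝ) * A ^ (1 / 16 : ℝ) := mul_le_mul_of_nonneg_right h2 h8
      _ = A := h1.symm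
  intro T hTS hTQ h hper h01
  have hT : ∀ p ∈ T, p.Prime ∧ ¬ (p : ℤ) ∣ δ := fun p hp => hS p (hTS hp)
  refine (hpair A k δ T h hA1 hT hper h01).trans ?_
  set Q : ℝ := ((∏ p ∈ T, p : ℕ) : ℝ) with hQ
  have hQ0 : 0 ≤ Q := Nat.cast_nonneg _
  have hoc : ((OP A k).card : ℝ) = (pr A).card * (2 * (k : ℝ) + 1) := by
    unfold OP
    rw [Finset.card_product, Int.card_Icc]
    have : ((k : ℤ) + 1 - -(k : ℤ)).toNat = 2 * k + 1 := by omega
    rw [this]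
    push_cast
    ring
  rw [hoc]
  have hN0 : (0 : ℝ) ≤ ((pr A).card : ℝ) := Nat.cast_nonneg _
  have hk1 : (0 : ℝ) < 2 * (k : ℝ) + 1 := by positivity
  have hQ2 : Q ^ 2 ≤ x ^ (2 * κ) := by
    calc Q ^ 2 ≤ (x ^ κ) ^ 2 := pow_le_pow_left₀ hQ0 hTQ 2
      _ = x ^ (2 * κ) := by
          rw [← Real.rpow_natCast, ← Real.rpow_mul hx0.le]
          congr 1
          push_cast
          ring
  have hxe : x ^ (-(3 / 2 * κ)) * x ^ (7 / 2 * κ) = x ^ (2 * κ) := by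
    rw [← Real.rpow_add hx0]
    congr 1
    ring
  have hlog0 : 0 ≤ 1 + Real.log A := by
    have := Real.log_nonneg (show (1 : ℝ) ≤ A by exact_mod_cast hA1)
    linarith
  have t1 : C * Q ^ 2 * A * (1 + Real.log A) * (2 * k + 1) ≤
      x ^ (-(3 / 2 * κ)) / 2 * (((pr A).card : ℝ) * (2 * (k : ℝ) + 1)) := by
    have h0 : (0 : ℝ) ≤ x ^ (-(3 / 2 * κ)) := by positivity
    calc C * Q ^ 2 * A * (1 + Real.log A) * (2 * k + 1)
        ≤ C * x ^ (2 * κ) * A * (1 + Real.log A) * (2 * k + 1) := by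
          apply mul_le_mul_of_nonneg_right _ hk1.le
          apply mul_le_mul_of_nonneg_right _ hlog0
          apply mul_le_mul_of_nonneg_right _ hA0.le
          exact mul_le_mul_of_nonneg_left hQ2 hC
      _ = x ^ (-(3 / 2 * κ)) / 2 * ((A * (128 * C * x ^ (7 / 2 * κ) * (1 + Real.log A)) / 64) *
            (2 * (k : ℝ) + 1)) := by
          rw [← hxe]
          ring
      _ ≤ x ^ (-(3 / 2 * κ)) / 2 * ((A * A / 64) * (2 * (k : ℝ) + 1)) := by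
          apply mul_le_mul_of_nonneg_left _ (by positivity)
          apply mul_le_mul_of_nonneg_right _ hk1.le
          apply div_le_div_of_nonneg_right _ (by norm_num)
          exact mul_le_mul_of_nonneg_left hmain hA0.le
      _ ≤ x ^ (-(3 / 2 * κ)) / 2 * (((pr A).card : ℝ) * (2 * (k : ℝ) + 1)) := by
          apply mul_le_mul_of_nonneg_left _ (by positivity)
          apply mul_le_mul_of_nonneg_right _ hk1.le
          refine le_trans (le_of_eq ?_) hpr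
          ring
  have t2 : Q * (pr A).card ≤
      x ^ (-(3 / 2 * κ)) / 2 * (((pr A).card : ℝ) * (2 * (k : ℝ) + 1)) := by
    have h8 : Q ≤ x ^ (-(3 / 2 * κ)) / 2 * (2 * (k : ℝ) + 1) := by
      have h9 : x ^ (-(3 / 2 * κ)) * x ^ (4 * κ) = x ^ (5 / 2 * κ) := by
        rw [← Real.rpow_add hx0]
        congr 1
        ring
      have h10 : x ^ κ ≤ x ^ (5 / 2 * κ) := Real.rpow_le_rpow_of_exponent_le hx1 (by linarith)
      have h0 : (0 : ℝ) ≤ x ^ (-(3 / 2 * κ)) := by positivity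
      have h11 : x ^ (-(3 / 2 * κ)) * (2 * x ^ (4 * κ)) ≤ x ^ (-(3 / 2 * κ)) * k :=
        mul_le_mul_of_nonneg_left hkx h0
      have h12 : (0 : ℝ) ≤ x ^ (5 / 2 * κ) := by positivity
      calc Q ≤ x ^ κ := hTQ
        _ ≤ x ^ (5 / 2 * κ) := h10
        _ ≤ x ^ (-(3 / 2 * κ)) * k := by
            have : x ^ (-(3 / 2 * κ)) * (2 * x ^ (4 * κ)) = 2 * x ^ (5 / 2 * κ) := by
              rw [← h9]; ring
            linarith
        _ ≤ x ^ (-(3 / 2 * κ)) / 2 * (2 * (k : ℝ) + 1) := by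
            have : x ^ (-(3 / 2 * κ)) / 2 * (2 * (k : ℝ) + 1) =
              x ^ (-(3 / 2 * κ)) * k + x ^ (-(3 / 2 * κ)) / 2 := by ring
            rw [this]
            linarith
    calc Q * (pr A).card ≤ (x ^ (-(3 / 2 * κ)) / 2 * (2 * (k : ℝ) + 1)) * (pr A).card :=
          mul_le_mul_of_nonneg_right h8 hN0
      _ = _ := by ring
  calc _ ≤ x ^ (-(3 / 2 * κ)) / 2 * (((pr A).card : ℝ) * (2 * (k : ℝ) + 1)) +
        x ^ (-(3 / 2 * κ)) / 2 * (((pr A).card : ℝ) * (2 * (k : ℝ) + 1)) := add_le_add t1 t2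
    _ = _ := by ring

/-- the swapped law -/
theorem qf1_swap (δ : ℤ) (p : ℕ) (h : (ℤ × ℤ) × (ℤ × ℤ) → ℝ) :
    mG (L2 (-δ) p) (fun v => h (v.2, v.1)) = mG (L2 δ p) h := by
  have key : ∀ g : (ℤ × ℤ) × (ℤ × ℤ) → ℝ,
      ∑ v ∈ L2 (-δ) p, g (v.2, v.1) = ∑ v ∈ L2 δ p, g v := by
    intro g
    have hm : ∀ (a b : ℤ × ℤ) (δ : ℤ), (a, b) ∈ L2 (-δ) p → (b, a) ∈ L2 δ p := by
      intro a b δ h
      unfold L2 at h ⊢
      rw [Finset.mem_filter, Finset.mem_product] at h ⊢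
      refine ⟨⟨h.1.2, h.1.1⟩, ?_⟩
      have e : dt b a - δ = -(dt a b - -δ) := by unfold dt; ring
      show (p : ℤ) ∣ dt b a - δ
      rw [e, dvd_neg]
      exact h.2
    apply Finset.sum_nbij' (fun v => (v.2, v.1)) (fun v => (v.2, v.1))
    · rintro ⟨a, b⟩ hv
      exact hm a b δ hv
    · rintro ⟨a, b⟩ hv
      exact hm a b (-δ) (by rw [neg_neg]; exact hv)
    · intro v _; rfl
    · intro v _; rfl
    · intro v _; rfl
  unfold mG
  rw [key h]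
  congr 1
  have := key (fun _ => 1)
  rw [Finset.sum_const, Finset.sum_const, nsmul_eq_mul, nsmul_eq_mul, mul_one, mul_one] at this
  exact this

/-- an affine family of one parameter -/
theorem qf1_one {κ : ℝ} (hκ : 0 < κ) {x : ℝ} (hx : 1 ≤ x) (n : ℕ)
    (hn : x ^ (4 * κ) ≤ (n : ℝ)) (pol : ((ℤ × ℤ) × ℤ) → (ℤ × ℤ) × (ℤ × ℤ))
    (f : ℤ → (ℤ × ℤ) × (ℤ × ℤ)) (hf : ∀ o, pol o = f o.2)
    (hc : ∀ (p : ℕ) (s t : ℤ), (p : ℤ) ∣ s - t → cg2 p (f s) (f t))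
    (L : ℕ → Finset ((ℤ × ℤ) × (ℤ × ℤ))) (S : Finset ℕ) (hS : ∀ p ∈ S, p.Prime)
    (hL : ∀ p ∈ S, ∀ h : (ℤ × ℤ) × (ℤ × ℤ) → ℝ, (∀ v w, cg2 p v w → h v = h w) →
      mG (L p) h = (∑ t ∈ range p, h (f (t : ℤ))) / p) :
    EquiG ({((0 : ℤ), (0 : ℤ))} ×ˢ Icc (-(n : ℤ)) (n : ℤ)) pol cg2 L S
      (x ^ κ) (x ^ (-(3 / 2 * κ))) := by
  have hx0 : 0 < x := by linarith
  intro T hTS hTQ h hper h01
  have h1 := one_equi n T (fun p hp => hS p (hTS hp)) (fun p t => h p (f t))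
    (fun p hp s t hst => hper p hp _ _ (hc p s t hst)) (fun p hp t => h01 p hp _)
  have e1 : ∑ o ∈ ({((0 : ℤ), (0 : ℤ))} ×ˢ Icc (-(n : ℤ)) (n : ℤ)), ∏ p ∈ T, h p (pol o) =
      ∑ t ∈ Icc (-(n : ℤ)) (n : ℤ), ∏ p ∈ T, h p (f t) := by
    rw [Finset.sum_product, Finset.sum_singleton]
    apply Finset.sum_congr rfl
    intro t _
    apply Finset.prod_congr rfl
    intro p _
    rw [hf]
  have e2 : ((({((0 : ℤ), (0 : ℤ))} ×ˢ Icc (-(n : ℤ)) (n : ℤ)) :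
        Finset ((ℤ × ℤ) × ℤ)).card : ℝ) = 2 * (n : ℝ) + 1 := by
    rw [Finset.card_product, Finset.card_singleton, Int.card_Icc]
    have : ((n : ℤ) + 1 - -(n : ℤ)).toNat = 2 * n + 1 := by
      omega
    rw [this]
    push_cast
    ring
  rw [e1, e2, Finset.prod_congr rfl (fun p hp => hL p (hTS hp) (h p) (hper p hp))]
  refine h1.trans ?_
  refine hTQ.trans ?_
  have h9 : x ^ (-(3 / 2 * κ)) * x ^ (4 * κ) = x ^ (5 / 2 * κ) := by
    rw [← Real.rpow_add hx0]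
    congr 1
    ring
  have h10 : x ^ κ ≤ x ^ (5 / 2 * κ) := Real.rpow_le_rpow_of_exponent_le hx (by linarith)
  refine h10.trans ?_
  rw [← h9]
  apply mul_le_mul_of_nonneg_left _ (by positivity)
  have : (0 : ℝ) ≤ n := Nat.cast_nonneg _
  linarith

theorem qf1_cast_Ico (p : ℕ) (F : ℤ → ℝ) :
    ∑ s ∈ Ico (0 : ℤ) p, F s = ∑ a ∈ range p, F (a : ℤ) := by
  symm
  apply Finset.sum_nbij' (fun a : ℕ => (a : ℤ)) (fun s : ℤ => s.toNat)
  · intro a ha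
    rw [Finset.mem_range] at ha
    rw [Finset.mem_Ico]
    omega
  · intro s hs
    rw [Finset.mem_Ico] at hs
    rw [Finset.mem_range]
    omega
  · intro a _
    simp
  · intro s hs
    rw [Finset.mem_Ico] at hs
    exact Int.toNat_of_nonneg hs.1
  · intro a _
    rfl

theorem qf1_cg (p : ℕ) (v : ℤ × ℤ) : cg1 p v v := by
  unfold cg1
  simp

theorem qf1_emod {p : ℕ} (a : ℤ) : (p : ℤ) ∣ a % (p : ℤ) - a :=
  Int.dvd_sub_self_of_emod_eq (a := a) (b := (p : ℤ)) rfl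

/-- the law of the vectors `b` with `det (c, b) = δ`, `c` fixed and primitive -/
theorem qf1_bez {p : ℕ} (hp : p.Prime) {c : ℤ × ℤ} (hc : Int.gcd c.1 c.2 = 1) (δ : ℤ)
    (h : ℤ × ℤ → ℝ) (hper : ∀ v w, cg1 p v w → h v = h w) (L : Finset (ℤ × ℤ))
    (hL : ∀ v, v ∈ L ↔ v ∈ L1 p ∧ (p : ℤ) ∣ dt c v - δ) :
    (∀ F : ℤ × ℤ → ℝ, (∀ v w, cg1 p v w → F v = F w) → ∑ v ∈ L, F v =
      ∑ t ∈ range p, F ((bz c δ).1 + (t : ℤ) * c.1, (bz c δ).2 + (t : ℤ) * c.2)) ∧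
    mG L h = (∑ t ∈ range p, h ((bz c δ).1 + (t : ℤ) * c.1, (bz c δ).2 + (t : ℤ) * c.2)) / p := by
  have hp0 : (p : ℤ) ≠ 0 := by exact_mod_cast hp.ne_zero
  have hpp : (0 : ℤ) < p := by exact_mod_cast hp.pos
  obtain ⟨r, s, hrs⟩ : ∃ r s : ℤ, r * c.1 + s * c.2 = 1 := by
    have := Int.isCoprime_iff_gcd_eq_one.2 hc
    exact this
  obtain ⟨hb1, -, -⟩ := bz_spec hc δ
  set b := bz c δ with hb
  have hdt : c.1 * b.2 - c.2 * b.1 = δ := hb1
  set g : ℤ → ℤ × ℤ := fun t => ((b.1 + t * c.1) % (p : ℤ), (b.2 + t * c.2) % (p : ℤ)) with hg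
  set g' : ℤ × ℤ → ℤ := fun v => (r * (v.1 - b.1) + s * (v.2 - b.2)) % (p : ℤ) with hg'
  have hgc : ∀ t : ℤ, cg1 p (g t) (b.1 + t * c.1, b.2 + t * c.2) := fun t =>
    ⟨qf1_emod _, qf1_emod _⟩
  have h1 : ∀ t ∈ Ico (0 : ℤ) p, g t ∈ L := by
    intro t _
    rw [hL]
    refine ⟨?_, ?_⟩
    · unfold L1
      rw [Finset.mem_product, Finset.mem_Ico, Finset.mem_Ico]
      exact ⟨⟨Int.emod_nonneg _ hp0, Int.emod_lt_of_pos _ hpp⟩,
        ⟨Int.emod_nonneg _ hp0, Int.emod_lt_of_pos _ hpp⟩⟩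
    · obtain ⟨a1, a2⟩ := hgc t
      have e : dt c (g t) - δ = c.1 * ((g t).2 - (b.2 + t * c.2)) -
          c.2 * ((g t).1 - (b.1 + t * c.1)) := by
        unfold dt
        rw [← hdt]
        ring
      rw [e]
      exact dvd_sub (Dvd.dvd.mul_left a2 _) (Dvd.dvd.mul_left a1 _)
  have h2 : ∀ v ∈ L, g' v ∈ Ico (0 : ℤ) p := fun v _ => by
    rw [Finset.mem_Ico]
    exact ⟨Int.emod_nonneg _ hp0, Int.emod_lt_of_pos _ hpp⟩
  have h3 : ∀ t ∈ Ico (0 : ℤ) p, g' (g t) = t := by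
    intro t ht
    rw [Finset.mem_Ico] at ht
    obtain ⟨a1, a2⟩ := hgc t
    have e : (p : ℤ) ∣ (r * ((g t).1 - b.1) + s * ((g t).2 - b.2)) - t := by
      have e1 : (r * ((g t).1 - b.1) + s * ((g t).2 - b.2)) - t =
          r * ((g t).1 - (b.1 + t * c.1)) + s * ((g t).2 - (b.2 + t * c.2)) := by
        linear_combination t * hrs
      rw [e1]
      exact dvd_add (Dvd.dvd.mul_left a1 _) (Dvd.dvd.mul_left a2 _)
    show (r * ((g t).1 - b.1) + s * ((g t).2 - b.2)) % (p : ℤ) = t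
    rw [(Int.emod_emod_of_dvd _ dvd_rfl).symm, Int.emod_emod_of_dvd _ dvd_rfl,
      (Int.emod_emod_of_dvd (r * ((g t).1 - b.1) + s * ((g t).2 - b.2)) dvd_rfl).symm,
      Int.emod_emod_of_dvd _ dvd_rfl,
      Int.emod_eq_emod_iff_emod_sub_eq_zero.2 (Int.emod_eq_zero_of_dvd e)]
    exact Int.emod_eq_of_lt ht.1 ht.2
  have h4 : ∀ v ∈ L, g (g' v) = v := by
    intro v hv
    obtain ⟨hv1, hv2⟩ := (hL v).1 hv
    unfold L1 at hv1
    rw [Finset.mem_product, Finset.mem_Ico, Finset.mem_Ico] at hv1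
    have hw : (p : ℤ) ∣ c.1 * (v.2 - b.2) - c.2 * (v.1 - b.1) := by
      have e : c.1 * (v.2 - b.2) - c.2 * (v.1 - b.1) = dt c v - δ := by
        unfold dt
        linear_combination -hdt
      rw [e]
      exact hv2
    have ht : (p : ℤ) ∣ g' v - (r * (v.1 - b.1) + s * (v.2 - b.2)) := qf1_emod _
    have k1 : (p : ℤ) ∣ (b.1 + g' v * c.1) - v.1 := by
      have e : (b.1 + g' v * c.1) - v.1 =
          (g' v - (r * (v.1 - b.1) + s * (v.2 - b.2))) * c.1 +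
            s * (c.1 * (v.2 - b.2) - c.2 * (v.1 - b.1)) := by
        linear_combination (v.1 - b.1) * hrs
      rw [e]
      exact dvd_add (Dvd.dvd.mul_right ht _) (Dvd.dvd.mul_left hw _)
    have k2 : (p : ℤ) ∣ (b.2 + g' v * c.2) - v.2 := by
      have e : (b.2 + g' v * c.2) - v.2 =
          (g' v - (r * (v.1 - b.1) + s * (v.2 - b.2))) * c.2 -
            r * (c.1 * (v.2 - b.2) - c.2 * (v.1 - b.1)) := by
        linear_combination (v.2 - b.2) * hrs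
      rw [e]
      exact dvd_sub (Dvd.dvd.mul_right ht _) (Dvd.dvd.mul_left hw _)
    refine Prod.ext ?_ ?_
    · show (b.1 + g' v * c.1) % (p : ℤ) = v.1
      rw [Int.emod_eq_emod_iff_emod_sub_eq_zero.2 (Int.emod_eq_zero_of_dvd k1)]
      exact Int.emod_eq_of_lt hv1.1.1 hv1.1.2
    · show (b.2 + g' v * c.2) % (p : ℤ) = v.2
      rw [Int.emod_eq_emod_iff_emod_sub_eq_zero.2 (Int.emod_eq_zero_of_dvd k2)]
      exact Int.emod_eq_of_lt hv1.2.1 hv1.2.2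
  have key : ∀ F : ℤ × ℤ → ℝ, ∑ v ∈ L, F v = ∑ t ∈ range p, F (g (t : ℤ)) := by
    intro F
    rw [← qf1_cast_Ico p (fun t => F (g t))]
    symm
    apply Finset.sum_nbij' g g' h1 h2
    · intro t ht; exact h3 t ht
    · exact h4
    · intro t _; rfl
  constructor
  · intro F hF
    rw [key F]
    exact Finset.sum_congr rfl fun t _ => hF _ _ (hgc _)
  · unfold mG
    rw [key h]
    have := key (fun _ => 1)
    rw [Finset.sum_const, Finset.sum_const, nsmul_eq_mul, nsmul_eq_mul, mul_one, mul_one,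
      Finset.card_range] at this
    rw [this]
    congr 1
    exact Finset.sum_congr rfl fun t _ => hper _ _ (hgc _)

/-- the residue vector -/
def qf1_red (p : ℕ) (c : ℤ × ℤ) : ℤ × ℤ := (c.1 % (p : ℤ), c.2 % (p : ℤ))

theorem qf1_red_cg (p : ℕ) (c : ℤ × ℤ) : cg1 p (qf1_red p c) c := ⟨qf1_emod _, qf1_emod _⟩

theorem qf1_red_mem {p : ℕ} (hp : p.Prime) (c : ℤ × ℤ) : qf1_red p c ∈ L1 p := by
  have hp0 : (p : ℤ) ≠ 0 := by exact_mod_cast hp.ne_zero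
  have hpp : (0 : ℤ) < p := by exact_mod_cast hp.pos
  unfold L1 qf1_red
  rw [Finset.mem_product, Finset.mem_Ico, Finset.mem_Ico]
  exact ⟨⟨Int.emod_nonneg _ hp0, Int.emod_lt_of_pos _ hpp⟩,
    ⟨Int.emod_nonneg _ hp0, Int.emod_lt_of_pos _ hpp⟩⟩

theorem qf1_red_eq {p : ℕ} {c v : ℤ × ℤ} (hv : v ∈ L1 p) (h : cg1 p v c) : v = qf1_red p c := by
  unfold L1 at hv
  rw [Finset.mem_product, Finset.mem_Ico, Finset.mem_Ico] at hv
  unfold qf1_red
  refine Prod.ext ?_ ?_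
  · show v.1 = c.1 % (p : ℤ)
    rw [← Int.emod_eq_emod_iff_emod_sub_eq_zero.2 (Int.emod_eq_zero_of_dvd h.1)]
    exact (Int.emod_eq_of_lt hv.1.1 hv.1.2).symm
  · show v.2 = c.2 % (p : ℤ)
    rw [← Int.emod_eq_emod_iff_emod_sub_eq_zero.2 (Int.emod_eq_zero_of_dvd h.2)]
    exact (Int.emod_eq_of_lt hv.2.1 hv.2.2).symm

theorem qf1_dt_cg {p : ℕ} {a b a' b' : ℤ × ℤ} (h1 : cg1 p a a') (h2 : cg1 p b b') :
    (p : ℤ) ∣ dt a b - dt a' b' := by
  have e : dt a b - dt a' b' = (a.1 - a'.1) * b.2 + a'.1 * (b.2 - b'.2) -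
      ((a.2 - a'.2) * b.1 + a'.2 * (b.1 - b'.1)) := by
    simp only [dt]; ring
  rw [e]
  exact dvd_sub (dvd_add (h1.1.mul_right _) (h2.2.mul_left _))
    (dvd_add (h1.2.mul_right _) (h2.1.mul_left _))

theorem qf1_iff {p : ℕ} {a b : ℤ} (h : (p : ℤ) ∣ a - b) (δ : ℤ) :
    (p : ℤ) ∣ a - δ ↔ (p : ℤ) ∣ b - δ := by
  constructor
  · intro h1
    have : b - δ = (a - δ) - (a - b) := by ring
    rw [this]; exact dvd_sub h1 h
  · intro h1
    have : a - δ = (b - δ) + (a - b) := by ring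
    rw [this]; exact dvd_add h1 h

/-- the law of the slot, first vector fixed -/
theorem LS_sn_mem {p : ℕ} {c : ℤ × ℤ} {δ : ℤ} {v : (ℤ × ℤ) × (ℤ × ℤ)} :
    v ∈ LS (some c) none δ p ↔ (v.1 ∈ L1 p ∧ cg1 p v.1 c) ∧
      (v.2 ∈ L1 p ∧ (p : ℤ) ∣ dt c v.2 - δ) := by
  classical
  unfold LS L2
  rw [Finset.mem_filter, Finset.mem_filter, Finset.mem_product]
  constructor
  · rintro ⟨⟨⟨h1, h2⟩, h3⟩, h4, _⟩
    have h5 := h4 c rfl
    exact ⟨⟨h1, h5⟩, h2, (qf1_iff (qf1_dt_cg h5 (qf1_cg p v.2)) δ).1 h3⟩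
  · rintro ⟨⟨h1, h5⟩, h2, h3⟩
    refine ⟨⟨⟨h1, h2⟩, (qf1_iff (qf1_dt_cg h5 (qf1_cg p v.2)) δ).2 h3⟩, ?_, ?_⟩
    · intro c' hc'
      rw [← Option.some.inj hc']
      exact h5
    · intro c' hc'
      simp at hc'

/-- the law of the slot, second vector fixed -/
theorem LS_ns_mem {p : ℕ} {c : ℤ × ℤ} {δ : ℤ} {v : (ℤ × ℤ) × (ℤ × ℤ)} :
    v ∈ LS none (some c) δ p ↔ (v.2 ∈ L1 p ∧ cg1 p v.2 c) ∧
      (v.1 ∈ L1 p ∧ (p : ℤ) ∣ dt c v.1 - (-δ)) := by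
  have hsw : ∀ a b : ℤ × ℤ, dt a b = -dt b a := by
    intro a b; unfold dt; ring
  classical
  unfold LS L2
  rw [Finset.mem_filter, Finset.mem_filter, Finset.mem_product]
  have e : ∀ a : ℤ, (p : ℤ) ∣ a - -δ ↔ (p : ℤ) ∣ -a - δ := by
    intro a
    rw [← dvd_neg]
    ring_nf
  constructor
  · rintro ⟨⟨⟨h1, h2⟩, h3⟩, _, h4⟩
    have h5 := h4 c rfl
    refine ⟨⟨h2, h5⟩, h1, ?_⟩
    rw [e, ← hsw]
    exact (qf1_iff (qf1_dt_cg (qf1_cg p v.1) h5) δ).1 h3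
  · rintro ⟨⟨h2, h5⟩, h1, h3⟩
    rw [e, ← hsw] at h3
    refine ⟨⟨⟨h1, h2⟩, (qf1_iff (qf1_dt_cg (qf1_cg p v.1) h5) δ).2 h3⟩, ?_, ?_⟩
    · intro c' hc'
      simp at hc'
    · intro c' hc'
      rw [← Option.some.inj hc']
      exact h5

/-- the mean over the law of a slot with the first vector fixed -/
theorem LS_sn_mean {p : ℕ} (hp : p.Prime) {c : ℤ × ℤ} (hc : Int.gcd c.1 c.2 = 1) (δ : ℤ)
    (h : (ℤ × ℤ) × (ℤ × ℤ) → ℝ) (hper : ∀ v w, cg2 p v w → h v = h w) :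
    mG (LS (some c) none δ p) h = (∑ t ∈ range p, h (c, (pP δ (c, (t : ℤ))).2)) / p := by
  classical
  have hset : LS (some c) none δ p = ({qf1_red p c} : Finset (ℤ × ℤ)) ×ˢ
      ((L1 p).filter (fun v => (p : ℤ) ∣ dt c v - δ)) := by
    ext v
    rw [LS_sn_mem, Finset.mem_product, Finset.mem_singleton, Finset.mem_filter]
    constructor
    · rintro ⟨⟨h1, h2⟩, h3⟩
      exact ⟨qf1_red_eq h1 h2, h3⟩
    · rintro ⟨h1, h3⟩
      rw [h1]
      exact ⟨⟨qf1_red_mem hp c, qf1_red_cg p c⟩, h3⟩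
  have h1 := (qf1_bez hp hc δ (fun w => h (qf1_red p c, w))
    (fun v w hvw => hper _ _ ⟨qf1_cg _ _, hvw⟩)
    ((L1 p).filter (fun v => (p : ℤ) ∣ dt c v - δ)) (fun v => Finset.mem_filter)).2
  have e1 : mG (LS (some c) none δ p) h =
      mG ((L1 p).filter (fun v => (p : ℤ) ∣ dt c v - δ)) (fun w => h (qf1_red p c, w)) := by
    rw [hset]
    unfold mG
    rw [Finset.sum_product, Finset.sum_singleton, Finset.card_product, Finset.card_singleton,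
      one_mul]
  rw [e1, h1]
  congr 1
  refine Finset.sum_congr rfl fun t _ => ?_
  exact hper _ _ ⟨qf1_red_cg p c, qf1_cg _ _⟩

/-- the mean over the law of a slot with the second vector fixed -/
theorem LS_ns_mean {p : ℕ} (hp : p.Prime) {c : ℤ × ℤ} (hc : Int.gcd c.1 c.2 = 1) (δ : ℤ)
    (h : (ℤ × ℤ) × (ℤ × ℤ) → ℝ) (hper : ∀ v w, cg2 p v w → h v = h w) :
    mG (LS none (some c) δ p) h = (∑ t ∈ range p, h ((pP (-δ) (c, (t : ℤ))).2, c)) / p := by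
  classical
  have hset : LS none (some c) δ p = ((L1 p).filter (fun v => (p : ℤ) ∣ dt c v - (-δ))) ×ˢ
      ({qf1_red p c} : Finset (ℤ × ℤ)) := by
    ext v
    rw [LS_ns_mem, Finset.mem_product, Finset.mem_singleton, Finset.mem_filter]
    constructor
    · rintro ⟨⟨h1, h2⟩, h3⟩
      exact ⟨h3, qf1_red_eq h1 h2⟩
    · rintro ⟨h3, h1⟩
      rw [h1]
      exact ⟨⟨qf1_red_mem hp c, qf1_red_cg p c⟩, h3⟩
  have h1 := (qf1_bez hp hc (-δ) (fun w => h (w, qf1_red p c))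
    (fun v w hvw => hper _ _ ⟨hvw, qf1_cg _ _⟩)
    ((L1 p).filter (fun v => (p : ℤ) ∣ dt c v - (-δ))) (fun v => Finset.mem_filter)).2
  have e1 : mG (LS none (some c) δ p) h =
      mG ((L1 p).filter (fun v => (p : ℤ) ∣ dt c v - (-δ))) (fun w => h (w, qf1_red p c)) := by
    rw [hset]
    unfold mG
    rw [Finset.sum_product, Finset.card_product, Finset.card_singleton, mul_one]
    congr 1
    refine Finset.sum_congr rfl fun v _ => ?_
    rw [Finset.sum_singleton]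
  rw [e1, h1]
  congr 1
  refine Finset.sum_congr rfl fun t _ => ?_
  exact hper _ _ ⟨qf1_cg _ _, qf1_red_cg p c⟩

/-- BLOCK QF1 (uses PF2, PF4, PF5): one slot. Cases: `(none, none)` as in PF7 (`pair_equi`, sizes
`min ≥ x ^ (4κ) / 2`, `2 ^ |ia - ib| ≥ x ^ (4κ) / 2`); one vector fixed: `one_equi`; both fixed: one
element. -/
theorem slot_equi_pr {κ : ℝ} (hκ : 0 < κ) (hκ1 : κ ≤ 1 / 10) : ∃ x₀ : ℝ, 1 ≤ x₀ ∧ ∀ x ≥ x₀,
    ∀ (fa fb : Option (ℤ × ℤ)) (ia ib : ℕ) (δ : ℤ),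
    (fa = none ∧ fb = none ∧ x ^ (4 * κ) ≤ (2 : ℝ) ^ (ia + 1) ∧ x ^ (4 * κ) ≤ (2 : ℝ) ^ (ib + 1) ∧
        x ^ (4 * κ) ≤ (2 : ℝ) ^ (max ia ib - min ia ib + 1) ∧ (2 : ℝ) ^ ia ≤ x ∧ (2 : ℝ) ^ ib ≤ x) ∨
      (∃ c, Int.gcd c.1 c.2 = 1 ∧ fa = some c ∧ fb = none ∧ x ^ (4 * κ) ≤ (2 : ℝ) ^ (ib + 1)) ∨
      (∃ c, Int.gcd c.1 c.2 = 1 ∧ fa = none ∧ fb = some c ∧ x ^ (4 * κ) ≤ (2 : ℝ) ^ (ia + 1)) ∨
      (∃ c c', fa = some c ∧ fb = some c' ∧ δ = dt c c') →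
    ∀ S : Finset ℕ, (∀ p ∈ S, p.Prime ∧ FD.N0 < p ∧ ¬ (p : ℤ) ∣ δ) →
    EquiG (OS fa fb ia ib) (pS fa fb ia ib δ) cg2 (LS fa fb δ) S (x ^ κ) (x ^ (-(3 / 2 * κ))) := by
  classical
  obtain ⟨x₁, hx₁, h₁⟩ := qf1_pair hκ
  refine ⟨x₁, hx₁, ?_⟩
  intro x hx fa fb ia ib δ hcase S hS
  have hx1 : 1 ≤ x := hx₁.trans hx
  have hx0 : 0 < x := by linarith
  rcases hcase with ⟨rfl, rfl, h1, h2, h3, h4, h5⟩ | ⟨c, hc, rfl, rfl, h1⟩ |
    ⟨c, hc, rfl, rfl, h1⟩ | ⟨c, c', rfl, rfl, rfl⟩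
  · -- free pair
    have hLS : ∀ p, LS none none δ p = L2 δ p := by
      intro p
      unfold LS
      apply Finset.filter_true_of_mem
      intro v _
      exact ⟨fun c hc => by simp at hc, fun c hc => by simp at hc⟩
    have hmin : x ^ (4 * κ) ≤ (2 : ℝ) ^ (min ia ib + 1) := by
      rcases min_choice ia ib with h | h <;> rw [h]
      · exact h1
      · exact h2
    by_cases hlt : ia < ib
    · intro T hTS hTQ h hper h01
      have := h₁ x hx (min ia ib) (max ia ib - min ia ib) hmin h3 δ S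
        (fun p hp => ⟨(hS p hp).1, (hS p hp).2.2⟩) T hTS hTQ h hper h01
      have e1 : ∀ o, pS none none ia ib δ o = pP δ o := by
        intro o
        simp [pS, hlt]
      simp only [e1, hLS]
      exact this
    · intro T hTS hTQ h hper h01
      have := h₁ x hx (min ia ib) (max ia ib - min ia ib) hmin h3 (-δ) S
        (fun p hp => ⟨(hS p hp).1, by rw [dvd_neg]; exact (hS p hp).2.2⟩) T hTS hTQ
        (fun p v => h p (v.2, v.1)) (fun p hp v w hvw => hper p hp _ _ ⟨hvw.2, hvw.1⟩)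
        (fun p hp v => h01 p hp _)
      have e1 : ∀ o, pS none none ia ib δ o = ((pP (-δ) o).2, (pP (-δ) o).1) := by
        intro o
        simp [pS, hlt]
      simp only [e1, hLS]
      rw [Finset.prod_congr rfl (fun p _ => (qf1_swap δ p (h p)).symm)]
      exact this
  · -- `a = c` fixed
    refine qf1_one hκ hx1 (2 ^ (ib + 2)) ?_ _ (fun t => (c, (pP δ (c, t)).2)) (fun o => rfl) ?_ _ S
      (fun p hp => (hS p hp).1) ?_
    · push_cast
      rw [pow_succ]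
      have : (0 : ℝ) ≤ 2 ^ (ib + 1) := by positivity
      linarith
    · intro p s t hst
      refine ⟨qf1_cg _ _, ?_, ?_⟩
      · show (p : ℤ) ∣ ((bz c δ).1 + s * c.1) - ((bz c δ).1 + t * c.1)
        have e : ((bz c δ).1 + s * c.1) - ((bz c δ).1 + t * c.1) = (s - t) * c.1 := by ring
        rw [e]
        exact hst.mul_right _
      · show (p : ℤ) ∣ ((bz c δ).2 + s * c.2) - ((bz c δ).2 + t * c.2)
        have e : ((bz c δ).2 + s * c.2) - ((bz c δ).2 + t * c.2) = (s - t) * c.2 := by ring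
        rw [e]
        exact hst.mul_right _
    · intro p hp h hper
      exact LS_sn_mean (hS p hp).1 hc δ h hper
  · -- `b = c` fixed
    refine qf1_one hκ hx1 (2 ^ (ia + 2)) ?_ _ (fun t => ((pP (-δ) (c, t)).2, c)) (fun o => rfl) ?_ _ S
      (fun p hp => (hS p hp).1) ?_
    · push_cast
      rw [pow_succ]
      have : (0 : ℝ) ≤ 2 ^ (ia + 1) := by positivity
      linarith
    · intro p s t hst
      refine ⟨⟨?_, ?_⟩, qf1_cg _ _⟩
      · show (p : ℤ) ∣ ((bz c (-δ)).1 + s * c.1) - ((bz c (-δ)).1 + t * c.1)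
        have e : ((bz c (-δ)).1 + s * c.1) - ((bz c (-δ)).1 + t * c.1) = (s - t) * c.1 := by ring
        rw [e]
        exact hst.mul_right _
      · show (p : ℤ) ∣ ((bz c (-δ)).2 + s * c.2) - ((bz c (-δ)).2 + t * c.2)
        have e : ((bz c (-δ)).2 + s * c.2) - ((bz c (-δ)).2 + t * c.2) = (s - t) * c.2 := by ring
        rw [e]
        exact hst.mul_right _
    · intro p hp h hper
      exact LS_ns_mean (hS p hp).1 hc δ h hper
  · -- both fixed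
    intro T hTS hTQ h hper h01
    have hLS : ∀ p ∈ T, LS (some c) (some c') (dt c c') p = {(qf1_red p c, qf1_red p c')} := by
      intro p hp
      have hpr := (hS p (hTS hp)).1
      ext v
      unfold LS L2
      rw [Finset.mem_filter, Finset.mem_filter, Finset.mem_product, Finset.mem_singleton]
      constructor
      · rintro ⟨⟨⟨h1, h2⟩, _⟩, h3, h4⟩
        exact Prod.ext (qf1_red_eq h1 (h3 c rfl)) (qf1_red_eq h2 (h4 c' rfl))
      · rintro rfl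
        refine ⟨⟨⟨qf1_red_mem hpr c, qf1_red_mem hpr c'⟩,
          qf1_dt_cg (qf1_red_cg p c) (qf1_red_cg p c')⟩, ?_, ?_⟩
        · intro d hd
          rw [← Option.some.inj hd]
          exact qf1_red_cg p c
        · intro d hd
          rw [← Option.some.inj hd]
          exact qf1_red_cg p c'
    have e1 : ∑ o ∈ OS (some c) (some c') ia ib,
        ∏ p ∈ T, h p (pS (some c) (some c') ia ib (dt c c') o) = ∏ p ∈ T, h p (c, c') := by
      show ∑ o ∈ ({((0, 0), 0)} : Finset ((ℤ × ℤ) × ℤ)), _ = _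
      rw [Finset.sum_singleton]
      rfl
    have e2 : ((OS (some c) (some c') ia ib).card : ℝ) = 1 := by
      show ((({((0, 0), 0)} : Finset ((ℤ × ℤ) × ℤ)).card : ℕ) : ℝ) = 1
      simp
    have e3 : ∀ p ∈ T, mG (LS (some c) (some c') (dt c c') p) (h p) = h p (c, c') := by
      intro p hp
      rw [hLS p hp]
      unfold mG
      rw [Finset.sum_singleton, Finset.card_singleton, Nat.cast_one, div_one]
      exact hper p hp _ _ ⟨qf1_red_cg p c, qf1_red_cg p c'⟩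
    rw [e1, e2, Finset.prod_congr rfl e3, one_mul, sub_self, abs_zero]
    positivity

end Pool.Agent.AQ.PENK

namespace Pool.Agent.AQ.PENK

theorem slot_equi : type_of% @slot_equi_pr := @slot_equi_pr

end Pool.Agent.AQ.PENK
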