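import Pool.Agent.Lib_helper18.AQ.K.DefsW
import Pool.Agent.Lib_helper18.AQ.KF.QF1
import Pool.Agent.Lib_helper18.PENKF.PF10

/-! PENK (MP_892e4c_nt), block QF7 (helper67): iterated sums over the law of the paths -/

set_option autoImplicit false

namespace Pool.Agent.AQ.PENK

open Finset Pool.Agent.PENT Pool.Agent.PENK

variable [FD]

theorem qf7_all {P : Fin 11 → Prop} (h0 : P 0) (h1 : P 1) (h2 : P 2) (h10 : P 10)
    (hs : ∀ i : Fin 7, P (sv i)) : ∀ j, P j := by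
  intro j
  by_cases e0 : j = 0
  · exact e0 ▸ h0
  by_cases e1 : j = 1
  · exact e1 ▸ h1
  by_cases e2 : j = 2
  · exact e2 ▸ h2
  by_cases e10 : j = 10
  · exact e10 ▸ h10
  have h3 : 3 ≤ j.val ∧ j.val < 10 := by
    have a0 : j.val ≠ 0 := fun h => e0 (Fin.ext h)
    have a1 : j.val ≠ 1 := fun h => e1 (Fin.ext h)
    have a2 : j.val ≠ 2 := fun h => e2 (Fin.ext h)
    have a10 : j.val ≠ 10 := fun h => e10 (Fin.ext h)
    have := j.isLt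
    omega
  have e : j = sv ⟨j.val - 3, by omega⟩ := by
    apply Fin.ext
    show j.val = j.val - 3 + 3
    omega
  rw [e]
  exact hs _

theorem qf7_sv (z : (((ℤ × ℤ) × (ℤ × ℤ)) × ((ℤ × ℤ) × (ℤ × ℤ))) × (Fin 7 → ℤ × ℤ)) (i : Fin 7) :
    asm11 z (sv i) = z.2 i := by
  fin_cases i <;> rfl

/-- the inverse of the assembly -/
def qf7inv (u : PolyK 11) : (((ℤ × ℤ) × (ℤ × ℤ)) × ((ℤ × ℤ) × (ℤ × ℤ))) × (Fin 7 → ℤ × ℤ) :=
  (((u 1, u 2), (u 10, u 0)), fun i => u (sv i))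

theorem qf7_left (z : (((ℤ × ℤ) × (ℤ × ℤ)) × ((ℤ × ℤ) × (ℤ × ℤ))) × (Fin 7 → ℤ × ℤ)) :
    qf7inv (asm11 z) = z := by
  unfold qf7inv
  simp only [qf7_sv]
  rfl

theorem qf7_right (u : PolyK 11) : asm11 (qf7inv u) = u := by
  funext j
  revert j
  apply qf7_all
  · rfl
  · rfl
  · rfl
  · rfl
  · intro i
    rw [qf7_sv]
    rfl

theorem qf7_mem (m : Fin 11) (δ1 δ2 : ℤ) (p : ℕ)
    (z : (((ℤ × ℤ) × (ℤ × ℤ)) × ((ℤ × ℤ) × (ℤ × ℤ))) × (Fin 7 → ℤ × ℤ)) :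
    asm11 z ∈ Law11 m δ1 δ2 p ↔ z ∈ ((LS (fx m 1) (fx m 2) δ1 p) ×ˢ
      (LS (fx m 10) (fx m 0) δ2 p)) ×ˢ Fintype.piFinset (fun j => LL1 (fx m (sv j)) p) := by
  classical
  have h2 : dl (asm11 z) 1 = dt z.1.1.1 z.1.1.2 := rfl
  have h3 : dl (asm11 z) 10 = dt z.1.2.1 z.1.2.2 := rfl
  have v0 : asm11 z 0 = z.1.2.2 := rfl
  have v1 : asm11 z 1 = z.1.1.1 := rfl
  have v2 : asm11 z 2 = z.1.1.2 := rfl
  have v10 : asm11 z 10 = z.1.2.1 := rfl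
  rw [Law11, mem_filter, Fintype.mem_piFinset, mem_product, mem_product, LS, LS, mem_filter,
    mem_filter, L2, L2, mem_filter, mem_filter, mem_product, mem_product, Fintype.mem_piFinset,
    h2, h3]
  simp only [LL1, mem_filter]
  constructor
  · rintro ⟨h, hf, hd1, hd2⟩
    have f0 := hf 0
    have f1 := hf 1
    have f2 := hf 2
    have f10 := hf 10
    have m0 := h 0
    have m1 := h 1
    have m2 := h 2
    have m10 := h 10
    rw [v0] at f0 m0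
    rw [v1] at f1 m1
    rw [v2] at f2 m2
    rw [v10] at f10 m10
    refine ⟨⟨⟨⟨⟨m1, m2⟩, hd1⟩, f1, f2⟩, ⟨⟨m10, m0⟩, hd2⟩, f10, f0⟩, fun i => ⟨?_, ?_⟩⟩
    · have := h (sv i)
      rwa [qf7_sv] at this
    · have := hf (sv i)
      rwa [qf7_sv] at this
  · rintro ⟨⟨⟨⟨⟨m1, m2⟩, hd1⟩, f1, f2⟩, ⟨⟨m10, m0⟩, hd2⟩, f10, f0⟩, hs⟩
    refine ⟨?_, ?_, hd1, hd2⟩
    · apply qf7_all
      · rw [v0]; exact m0
      · rw [v1]; exact m1
      · rw [v2]; exact m2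
      · rw [v10]; exact m10
      · intro i
        rw [qf7_sv]
        exact (hs i).1
    · apply qf7_all (P := fun j => ∀ c, fx m j = some c → cg1 p (asm11 z j) c)
      · rw [v0]; exact f0
      · rw [v1]; exact f1
      · rw [v2]; exact f2
      · rw [v10]; exact f10
      · intro i
        rw [qf7_sv]
        exact (hs i).2

/-- BLOCK QF7 (uses PF10): iterated sums over the law -/
theorem Law11_sum_pr (m : Fin 11) (δ1 δ2 : ℤ) (p : ℕ) (f : PolyK 11 → ℝ) :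
    ∑ u ∈ Law11 m δ1 δ2 p, f u =
      ∑ v ∈ LS (fx m 1) (fx m 2) δ1 p, ∑ w ∈ LS (fx m 10) (fx m 0) δ2 p,
        ∑ s ∈ Fintype.piFinset (fun j => LL1 (fx m (sv j)) p), f (asm11 ((v, w), s)) := by
  have e : ∑ v ∈ LS (fx m 1) (fx m 2) δ1 p, ∑ w ∈ LS (fx m 10) (fx m 0) δ2 p,
      ∑ s ∈ Fintype.piFinset (fun j => LL1 (fx m (sv j)) p), f (asm11 ((v, w), s)) =
      ∑ z ∈ ((LS (fx m 1) (fx m 2) δ1 p) ×ˢ (LS (fx m 10) (fx m 0) δ2 p)) ×ˢ
        Fintype.piFinset (fun j => LL1 (fx m (sv j)) p), f (asm11 z) := by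
    rw [sum_product, sum_product]
  rw [e]
  refine sum_bij' (fun u _ => qf7inv u) (fun z _ => asm11 z) ?_ ?_ ?_ ?_ ?_
  · intro u hu
    rw [← qf7_mem, qf7_right]
    exact hu
  · intro z hz
    exact (qf7_mem m δ1 δ2 p z).mpr hz
  · intro u _
    exact qf7_right u
  · intro z _
    exact qf7_left z
  · intro u _
    rw [qf7_right]

theorem qf7_slot {p : ℕ} (hp : p.Prime) (m j : Fin 11) {δ : ℤ} (hd : m = j → δ = -FD.z.2) :
    (LS (fx m j) (fx m (j + 1)) δ p).Nonempty := by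
  classical
  have hbez : ∀ (c : ℤ × ℤ), Int.gcd c.1 c.2 = 1 → ∀ δ : ℤ,
      qf1_red p (bz c δ) ∈ L1 p ∧ (p : ℤ) ∣ dt c (qf1_red p (bz c δ)) - δ := by
    intro c hc δ
    refine ⟨qf1_red_mem hp _, ?_⟩
    have h1 := qf1_dt_cg (p := p) (qf1_cg p c) (qf1_red_cg p (bz c δ))
    rw [(bz_spec hc δ).1] at h1
    exact h1
  rcases fx_cases m j with ⟨h1, h2, h3⟩ | ⟨h1, h2⟩ | ⟨h1, h2⟩
  · rcases hf : fx m (j + 1) with _ | c
    · rw [h1]
      obtain ⟨a1, a2⟩ := hbez (1, 0) rfl δ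
      refine ⟨(qf1_red p (1, 0), qf1_red p (bz (1, 0) δ)), ?_⟩
      rw [LS, mem_filter, L2, mem_filter, mem_product]
      refine ⟨⟨⟨qf1_red_mem hp _, a1⟩, ?_⟩, fun c hc => by simp at hc, fun c hc => by simp at hc⟩
      exact (qf1_iff (qf1_dt_cg (qf1_red_cg p (1, 0)) (qf1_cg p _)) δ).2 a2
    · rw [h1]
      obtain ⟨a1, a2⟩ := hbez c (fx_gcd hf) (-δ)
      refine ⟨(qf1_red p (bz c (-δ)), qf1_red p c), ?_⟩
      rw [LS_ns_mem]
      exact ⟨⟨qf1_red_mem hp _, qf1_red_cg p c⟩, a1, a2⟩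
  · subst h2
    rw [h1, fx_1, hd rfl]
    refine ⟨(qf1_red p FD.z, qf1_red p (1, 0)), ?_⟩
    rw [LS, mem_filter, L2, mem_filter, mem_product]
    refine ⟨⟨⟨qf1_red_mem hp _, qf1_red_mem hp _⟩, ?_⟩, ?_, ?_⟩
    · have h3 := qf1_dt_cg (p := p) (qf1_red_cg p FD.z) (qf1_red_cg p (1, 0))
      have e : dt FD.z (1, 0) = -FD.z.2 := by unfold dt; ring
      rw [e] at h3
      exact h3
    · intro c hc
      rw [← Option.some.inj hc]
      exact qf1_red_cg p _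
    · intro c hc
      rw [← Option.some.inj hc]
      exact qf1_red_cg p _
  · have h3 : j + 1 ≠ m := by
      rw [h2]
      have : ∀ m : Fin 11, m + 1 + 1 ≠ m := by decide
      exact this m
    have h4 : j + 1 ≠ m + 1 := by
      rw [h2]
      exact succ_ne _
    rw [h1, fx_none h3 h4]
    obtain ⟨a1, a2⟩ := hbez (1, 0) rfl δ
    refine ⟨(qf1_red p (1, 0), qf1_red p (bz (1, 0) δ)), ?_⟩
    rw [LS_sn_mem]
    exact ⟨⟨qf1_red_mem hp _, qf1_red_cg p _⟩, a1, a2⟩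

theorem qf7_single {p : ℕ} (hp : p.Prime) (m j : Fin 11) : (LL1 (fx m j) p).Nonempty := by
  classical
  rcases hf : fx m j with _ | c
  · refine ⟨qf1_red p (0, 0), ?_⟩
    rw [LL1, mem_filter]
    exact ⟨qf1_red_mem hp _, fun c hc => absurd hc (by simp)⟩
  · refine ⟨qf1_red p c, ?_⟩
    rw [LL1, mem_filter]
    refine ⟨qf1_red_mem hp _, fun d hd => ?_⟩
    rw [← Option.some.inj hd]
    exact qf1_red_cg p c

/-- nonempty (`p` odd, `p ∤ δ`) -/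
theorem Law11_ne_pr {p : ℕ} (hp : p.Prime) (h2 : FD.N0 < p) {m : Fin 11} {δ1 δ2 : ℤ}
    (hd : dOk m δ1 δ2) (h1 : ¬ (p : ℤ) ∣ δ1) (h2' : ¬ (p : ℤ) ∣ δ2) :
    (Law11 m δ1 δ2 p).Nonempty := by
  have _ := h2
  have _ := h1
  have _ := h2'
  obtain ⟨v, hv⟩ := qf7_slot hp m 1 hd.1
  obtain ⟨w, hw⟩ := qf7_slot hp m 10 hd.2
  have e2 : (1 : Fin 11) + 1 = 2 := rfl
  have e0 : (10 : Fin 11) + 1 = 0 := rfl
  rw [e2] at hv
  rw [e0] at hw
  refine ⟨asm11 ((v, w), fun i => (qf7_single hp m (sv i)).choose), ?_⟩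
  rw [qf7_mem, mem_product, mem_product, Fintype.mem_piFinset]
  exact ⟨⟨hv, hw⟩, fun i => (qf7_single hp m (sv i)).choose_spec⟩

end Pool.Agent.AQ.PENK

namespace Pool.Agent.AQ.PENK

theorem Law11_sum : type_of% @Law11_sum_pr := @Law11_sum_pr

theorem Law11_ne : type_of% @Law11_ne_pr := @Law11_ne_pr

end Pool.Agent.AQ.PENK
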