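import Mathlib
import Pool.Agent.Lib_helper18.AQ.K.DefsW
import Pool.Agent.Lib_helper18.AQ.KF.QF8
import Pool.Agent.Lib_helper18.AQ.KF.QF9

set_option autoImplicit false

namespace Pool.Agent.AQ.PENK

open Finset Pool.Agent.PENT Pool.Agent.PENK

variable [FD]

theorem qf10_ich_nn (a : Prop) : 0 ≤ ich a := by
  unfold ich
  split_ifs <;> norm_num

theorem qf10_ich_mono {a b : Prop} (h : a → b) : ich a ≤ ich b := by
  unfold ich
  split_ifs with h1 h2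
  · exact le_refl _
  · exact absurd (h h1) h2
  · norm_num
  · exact le_refl _

theorem qf10_mono {L : Finset (PolyK 11)} {f g : PolyK 11 → ℝ} (h : ∀ u ∈ L, f u ≤ g u) :
    mL L f ≤ mL L g := by
  unfold mL
  exact div_le_div_of_nonneg_right (Finset.sum_le_sum h) (Nat.cast_nonneg _)

theorem qf10_one (L : Finset (PolyK 11)) : mL L (fun _ => 1) ≤ 1 := by
  unfold mL
  rw [Finset.sum_const, nsmul_eq_mul, mul_one]
  exact div_self_le_one _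

theorem qf10_one' {L : Finset (PolyK 11)} (hL : L.Nonempty) : mL L (fun _ => 1) = 1 := by
  unfold mL
  rw [Finset.sum_const, nsmul_eq_mul, mul_one]
  exact div_self (by exact_mod_cast hL.card_pos.ne')

theorem qf10_add (L : Finset (PolyK 11)) (f g : PolyK 11 → ℝ) :
    mL L (fun u => f u + g u) = mL L f + mL L g := by
  unfold mL
  rw [Finset.sum_add_distrib, add_div]

omit [FD] in
theorem qf10_sel0 : ∀ m j : Fin 11, j ∈ inr 11 → j ≠ m →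
    ((∀ i ∈ blk j, i ≠ m ∧ i ≠ m + 1) ∧ (j + 1) ∉ blk j) ∨
      ((∀ i ∈ blk (j + 1), i ≠ m ∧ i ≠ m + 1) ∧ j ∉ blk (j + 1)) := by
  decide

theorem qf10_sel : ∀ m j : Fin 11, j ∈ inr 11 → j ≠ m →
    ((∀ i ∈ blk j, fx m i = none) ∧ (j + 1) ∉ blk j) ∨
      ((∀ i ∈ blk (j + 1), fx m i = none) ∧ j ∉ blk (j + 1)) := by
  intro m j h1 h2
  rcases qf10_sel0 m j h1 h2 with ⟨h, h'⟩ | ⟨h, h'⟩
  · exact Or.inl ⟨fun i hi => fx_none_iff.2 (h i hi), h'⟩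
  · exact Or.inr ⟨fun i hi => fx_none_iff.2 (h i hi), h'⟩

theorem qf10_self : ∀ j : Fin 11, j ∈ blk j := by
  decide

theorem qf10_main {p : ℕ} (hp : p.Prime) (h2 : FD.N0 < p) (m : Fin 11) (δ1 δ2 : ℤ)
    (hd : dOk m δ1 δ2) (h1 : ¬ (p : ℤ) ∣ δ1) (h2' : ¬ (p : ℤ) ∣ δ2) (s t : Fin 11)
    (hs : ∀ i ∈ blk s, fx m i = none) (ht : t ∉ blk s) :
    1 / (p : ℝ) - 3 / (p : ℝ) ^ 2 ≤
        mL (Law11 m δ1 δ2 p) (fun u => ich ((p : ℤ) ∣ dt (u s) (u t))) ∧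
      mL (Law11 m δ1 δ2 p) (fun u => ich ((p : ℤ) ∣ dt (u s) (u t))) ≤ 3 / p := by
  have hp0 : (0 : ℝ) < p := by exact_mod_cast hp.pos
  have hp1 : (1 : ℝ) ≤ p := by exact_mod_cast hp.one_lt.le
  have hne := Law11_ne hp h2 hd h1 h2'
  have z := zero_le hp h2 hd h1 h2' t
  have hw : ∀ u v : PolyK 11, (∀ i, i ∉ blk s → u i = v i) → u t = v t :=
    fun u v h => h t ht
  have ge := par_ge hp h2 hd h1 h2' s hs (fun u => u t) hw
  have le := par_le hp h2 hd h1 h2' s (hs s (qf10_self s)) (fun u => u t) (fun _ => 1)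
    (fun u v h => ⟨hw u v h, rfl⟩) (fun _ => zero_le_one)
  have tot : 1 ≤ mL (Law11 m δ1 δ2 p) (fun u => ich (¬ ((p : ℤ) ∣ (u t).1 ∧
        (p : ℤ) ∣ (u t).2))) + mL (Law11 m δ1 δ2 p)
          (fun u => ich ((p : ℤ) ∣ (u t).1 ∧ (p : ℤ) ∣ (u t).2)) := by
    rw [← qf10_add, ← qf10_one' hne]
    apply qf10_mono
    intro u _
    by_cases h : (p : ℤ) ∣ (u t).1 ∧ (p : ℤ) ∣ (u t).2
    · unfold ich
      rw [if_neg (not_not.mpr h), if_pos h]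
      norm_num
    · unfold ich
      rw [if_pos h, if_neg h]
      norm_num
  constructor
  · have h3 : 1 - 1 / (p : ℝ) ^ 2 ≤ mL (Law11 m δ1 δ2 p) (fun u => ich (¬ ((p : ℤ) ∣ (u t).1 ∧
        (p : ℤ) ∣ (u t).2))) := by linarith
    have h4 : 1 / ((p : ℝ) + 1) * (1 - 1 / (p : ℝ) ^ 2) ≤
        mL (Law11 m δ1 δ2 p) (fun u => ich ((p : ℤ) ∣ dt (u s) (u t))) :=
      le_trans (mul_le_mul_of_nonneg_left h3 (by positivity)) ge
    have h5 : 1 / (p : ℝ) - 3 / (p : ℝ) ^ 2 ≤ 1 / ((p : ℝ) + 1) * (1 - 1 / (p : ℝ) ^ 2) := by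
      have e : 1 / ((p : ℝ) + 1) * (1 - 1 / (p : ℝ) ^ 2) = 1 / (p : ℝ) - 1 / (p : ℝ) ^ 2 := by
        field_simp
        ring
      rw [e]
      have : 1 / (p : ℝ) ^ 2 ≤ 3 / (p : ℝ) ^ 2 :=
        div_le_div_of_nonneg_right (by norm_num) (by positivity)
      linarith
    linarith
  · have h3 : mL (Law11 m δ1 δ2 p) (fun u => ich ((p : ℤ) ∣ dt (u s) (u t))) ≤
        mL (Law11 m δ1 δ2 p) (fun u => 1 * ich (¬ ((p : ℤ) ∣ (u t).1 ∧ (p : ℤ) ∣ (u t).2) ∧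
          (p : ℤ) ∣ dt (u s) (u t))) + mL (Law11 m δ1 δ2 p)
          (fun u => ich ((p : ℤ) ∣ (u t).1 ∧ (p : ℤ) ∣ (u t).2)) := by
      rw [← qf10_add]
      apply qf10_mono
      intro u _
      rw [one_mul]
      by_cases h : (p : ℤ) ∣ (u t).1 ∧ (p : ℤ) ∣ (u t).2
      · have e1 : ich ((p : ℤ) ∣ (u t).1 ∧ (p : ℤ) ∣ (u t).2) = 1 := by
          unfold ich
          rw [if_pos h]
        have e2 : ich ((p : ℤ) ∣ dt (u s) (u t)) ≤ 1 := by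
          unfold ich
          split_ifs <;> norm_num
        have e3 := qf10_ich_nn (¬ ((p : ℤ) ∣ (u t).1 ∧ (p : ℤ) ∣ (u t).2) ∧
          (p : ℤ) ∣ dt (u s) (u t))
        linarith
      · have e1 : ich ((p : ℤ) ∣ dt (u s) (u t)) ≤ ich (¬ ((p : ℤ) ∣ (u t).1 ∧
            (p : ℤ) ∣ (u t).2) ∧ (p : ℤ) ∣ dt (u s) (u t)) :=
          qf10_ich_mono (fun h' => ⟨h, h'⟩)
        have e2 := qf10_ich_nn ((p : ℤ) ∣ (u t).1 ∧ (p : ℤ) ∣ (u t).2)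
        linarith
    have h4 : mL (Law11 m δ1 δ2 p) (fun u => 1 * ich (¬ ((p : ℤ) ∣ (u t).1 ∧
        (p : ℤ) ∣ (u t).2) ∧ (p : ℤ) ∣ dt (u s) (u t))) ≤ 2 / (p : ℝ) := by
      refine le_trans le ?_
      calc 2 / (p : ℝ) * mL (Law11 m δ1 δ2 p) (fun _ => 1) ≤ 2 / (p : ℝ) * 1 :=
            mul_le_mul_of_nonneg_left (qf10_one _) (by positivity)
        _ = 2 / (p : ℝ) := mul_one _
    have h5 : 1 / (p : ℝ) ^ 2 ≤ 1 / (p : ℝ) := by
      apply one_div_le_one_div_of_le hp0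
      nlinarith
    have h6 : 3 / (p : ℝ) = 2 / (p : ℝ) + 1 / (p : ℝ) := by ring
    linarith

/-- BLOCK QF10 (uses QF8, QF9): the interior edges. Every interior edge `{j, j+1} ≠ {m, m+1}` has an end whose
block contains neither the other end nor a fixed vertex: check by `decide` / `fin_cases` for all `m`, `j`. -/
theorem law11_a_pr : ∃ C : ℝ, 0 ≤ C ∧ ∀ p : ℕ, p.Prime → FD.N0 < p → ∀ (m : Fin 11) (δ1 δ2 : ℤ),
    dOk m δ1 δ2 → ¬ (p : ℤ) ∣ δ1 → ¬ (p : ℤ) ∣ δ2 → ∀ j ∈ inr 11 \ {m},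
    1 / (p : ℝ) - C / (p : ℝ) ^ 2 ≤ mL (Law11 m δ1 δ2 p) (fun u => ich ((p : ℤ) ∣ dl u j)) ∧
      mL (Law11 m δ1 δ2 p) (fun u => ich ((p : ℤ) ∣ dl u j)) ≤ C / p := by
  refine ⟨3, by norm_num, ?_⟩
  intro p hp h2 m δ1 δ2 hd h1 h2' j hj
  rw [Finset.mem_sdiff, Finset.mem_singleton] at hj
  rcases qf10_sel m j hj.1 hj.2 with ⟨hs, ht⟩ | ⟨hs, ht⟩
  · exact qf10_main hp h2 m δ1 δ2 hd h1 h2' j (j + 1) hs ht
  · have e := qf10_main hp h2 m δ1 δ2 hd h1 h2' (j + 1) j hs ht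
    have e2 : (fun u : PolyK 11 => ich ((p : ℤ) ∣ dl u j)) =
        fun u : PolyK 11 => ich ((p : ℤ) ∣ dt (u (j + 1)) (u j)) := by
      funext u
      have e3 : dl u j = -dt (u (j + 1)) (u j) := by
        unfold dl dt
        ring
      rw [e3, dvd_neg]
    rw [e2]
    exact e

end Pool.Agent.AQ.PENK

namespace Pool.Agent.AQ.PENK

theorem law11_a : type_of% @law11_a_pr := @law11_a_pr

end Pool.Agent.AQ.PENK
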