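import Pool.Agent.Lib_helper18.AQ.K.DefsW
import Pool.Agent.Lib_helper18.AQ.KF.QF8
import Pool.Agent.Lib_helper18.AQ.KF.QF9

set_option autoImplicit false

namespace Pool.Agent.AQ.PENK

open Finset Pool.Agent.PENT Pool.Agent.PENK

variable [FD]

theorem qf11_mono {K : ℕ} {L : Finset (PolyK K)} {h h' : PolyK K → ℝ}
    (hh : ∀ r ∈ L, h r ≤ h' r) : mL L h ≤ mL L h' := by
  unfold mL
  exact div_le_div_of_nonneg_right (Finset.sum_le_sum hh) (Nat.cast_nonneg _)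

theorem qf11_add {K : ℕ} {L : Finset (PolyK K)} (h h' : PolyK K → ℝ) :
    mL L (fun r => h r + h' r) = mL L h + mL L h' := by
  unfold mL
  rw [Finset.sum_add_distrib, add_div]

theorem qf11_one {K : ℕ} (L : Finset (PolyK K)) : mL L (fun _ => 1) ≤ 1 := by
  unfold mL
  rw [Finset.sum_const, nsmul_eq_mul, mul_one]
  exact div_self_le_one _

theorem qf11_ich_nonneg (a : Prop) : 0 ≤ ich a := by
  unfold ich
  split_ifs <;> norm_num

theorem qf11_ich_le_one (a : Prop) : ich a ≤ 1 := by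
  unfold ich
  split_ifs <;> norm_num

theorem qf11_ich_cases {a b c : Prop} (h : a → b ∨ c) : ich a ≤ ich b + ich c := by
  unfold ich
  by_cases ha : a
  · rcases h ha with h1 | h1
    · rw [if_pos ha, if_pos h1]
      split_ifs <;> norm_num
    · rw [if_pos ha, if_pos h1]
      split_ifs <;> norm_num
  · rw [if_neg ha]
    split_ifs <;> norm_num

theorem qf11_ich_and (a b : Prop) : ich (a ∧ b) = ich a * ich b := by
  unfold ich
  by_cases h1 : a <;> by_cases h2 : b <;> simp [h1, h2]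

theorem qf11_fx {m v : Fin 11} (h1 : v ≠ m) (h2 : v ≠ m + 1) : fx m v = none := by
  unfold fx
  rw [if_neg h1, if_neg h2]

/-- the end `v` can be used: other end `w`, the other edge is `f` -/
def qf11_P (m f v w : Fin 11) : Prop :=
  v ≠ m ∧ v ≠ m + 1 ∧ w ∉ blk v ∧ f ∉ blk v ∧ f + 1 ∉ blk v

instance qf11_dec (m f v w : Fin 11) : Decidable (qf11_P m f v w) := by
  unfold qf11_P
  infer_instance

theorem qf11_comb : ∀ m i j : Fin 11, i ≠ 1 → i ≠ -1 → i ≠ m → j ≠ 1 → j ≠ -1 → j ≠ m → i ≠ j →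
    (qf11_P m j i (i + 1) ∨ qf11_P m j (i + 1) i) ∨
      (qf11_P m i j (j + 1) ∨ qf11_P m i (j + 1) j) := by
  decide +kernel

theorem qf11_comb1 : ∀ m i : Fin 11, i ≠ 1 → i ≠ -1 → i ≠ m →
    (i ≠ m ∧ i ≠ m + 1 ∧ i + 1 ∉ blk i) ∨ (i + 1 ≠ m ∧ i + 1 ≠ m + 1 ∧ i ∉ blk (i + 1)) := by
  decide +kernel

theorem qf11_dt_symm (a b : ℤ × ℤ) : dt a b = - dt b a := by
  unfold dt
  ring

theorem qf11_inr {m i : Fin 11} (h : i ∈ inr 11 \ {m}) : i ≠ 1 ∧ i ≠ -1 ∧ i ≠ m := by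
  unfold inr at h
  simp only [Finset.mem_sdiff, Finset.mem_filter, Finset.mem_univ, true_and,
    Finset.mem_singleton] at h
  exact ⟨h.1.1, h.1.2, h.2⟩

/-- one edge -/
theorem qf11_edge {p : ℕ} (hp : p.Prime) (h2 : FD.N0 < p) {m : Fin 11} {δ1 δ2 : ℤ} (hd : dOk m δ1 δ2)
    (h1 : ¬ (p : ℤ) ∣ δ1) (h2' : ¬ (p : ℤ) ∣ δ2) (f v w : Fin 11) (hv : fx m v = none)
    (hw : w ∉ blk v) (g : PolyK 11 → ℝ)
    (hg : ∀ u u' : PolyK 11, (∀ i, i ∉ blk v → u i = u' i) → g u = g u')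
    (hg0 : ∀ u, 0 ≤ g u) (hg1 : ∀ u, g u ≤ 1)
    (hf : ∀ u : PolyK 11, (p : ℤ) ∣ dl u f → (p : ℤ) ∣ dt (u v) (u w)) :
    mL (Law11 m δ1 δ2 p) (fun u => g u * ich ((p : ℤ) ∣ dl u f)) ≤
      2 / (p : ℝ) * mL (Law11 m δ1 δ2 p) g + 1 / (p : ℝ) ^ 2 := by
  have e1 := par_le hp h2 hd h1 h2' v hv (fun u => u w) g
    (fun u u' h => ⟨h w hw, hg u u' h⟩) hg0
  have e2 := zero_le hp h2 hd h1 h2' w
  have e3 : mL (Law11 m δ1 δ2 p) (fun u => g u * ich ((p : ℤ) ∣ dl u f)) ≤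
      mL (Law11 m δ1 δ2 p) (fun u => g u * ich (¬ ((p : ℤ) ∣ (u w).1 ∧ (p : ℤ) ∣ (u w).2) ∧
        (p : ℤ) ∣ dt (u v) (u w)) + ich ((p : ℤ) ∣ (u w).1 ∧ (p : ℤ) ∣ (u w).2)) := by
    apply qf11_mono
    intro u _
    have h3 : ich ((p : ℤ) ∣ dl u f) ≤ ich (¬ ((p : ℤ) ∣ (u w).1 ∧ (p : ℤ) ∣ (u w).2) ∧
        (p : ℤ) ∣ dt (u v) (u w)) + ich ((p : ℤ) ∣ (u w).1 ∧ (p : ℤ) ∣ (u w).2) := by
      apply qf11_ich_cases
      intro h
      by_cases hz : (p : ℤ) ∣ (u w).1 ∧ (p : ℤ) ∣ (u w).2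
      · exact Or.inr hz
      · exact Or.inl ⟨hz, hf u h⟩
    have h4 := mul_le_mul_of_nonneg_left h3 (hg0 u)
    have h5 := mul_le_mul_of_nonneg_right (hg1 u)
      (qf11_ich_nonneg ((p : ℤ) ∣ (u w).1 ∧ (p : ℤ) ∣ (u w).2))
    linarith
  rw [qf11_add] at e3
  linarith

theorem qf11_law_a {p : ℕ} (hp : p.Prime) (h2 : FD.N0 < p) {m : Fin 11} {δ1 δ2 : ℤ}
    (hd : dOk m δ1 δ2) (h1 : ¬ (p : ℤ) ∣ δ1) (h2' : ¬ (p : ℤ) ∣ δ2) {f : Fin 11}
    (hf : f ∈ inr 11 \ {m}) :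
    mL (Law11 m δ1 δ2 p) (fun u => ich ((p : ℤ) ∣ dl u f)) ≤ 3 / p := by
  have hp0 : (0 : ℝ) < p := by exact_mod_cast hp.pos
  have hp1 : (1 : ℝ) ≤ p := by exact_mod_cast hp.one_lt.le
  obtain ⟨k1, k2, k3⟩ := qf11_inr hf
  have hone := qf11_one (Law11 m δ1 δ2 p)
  have key : ∀ v w : Fin 11, v ≠ m → v ≠ m + 1 → w ∉ blk v →
      (∀ u : PolyK 11, (p : ℤ) ∣ dl u f → (p : ℤ) ∣ dt (u v) (u w)) →
      mL (Law11 m δ1 δ2 p) (fun u => ich ((p : ℤ) ∣ dl u f)) ≤ 3 / p := by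
    intro v w hv1 hv2 hw hdl
    have e := qf11_edge hp h2 hd h1 h2' f v w (qf11_fx hv1 hv2) hw (fun _ => 1)
      (fun _ _ _ => rfl) (fun _ => zero_le_one) (fun _ => le_rfl) hdl
    simp only [one_mul] at e
    have e2 : 2 / (p : ℝ) * mL (Law11 m δ1 δ2 p) (fun _ => 1) ≤ 2 / p * 1 :=
      mul_le_mul_of_nonneg_left hone (by positivity)
    have e3 : 1 / (p : ℝ) ^ 2 ≤ 1 / p := by
      apply one_div_le_one_div_of_le hp0
      nlinarith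
    have e4 : 3 / (p : ℝ) = 2 / p * 1 + 1 / p := by ring
    linarith
  rcases qf11_comb1 m f k1 k2 k3 with ⟨a1, a2, a3⟩ | ⟨a1, a2, a3⟩
  · exact key f (f + 1) a1 a2 a3 (fun u h => h)
  · apply key (f + 1) f a1 a2 a3
    intro u h
    rw [qf11_dt_symm]
    exact (dvd_neg).2 h

theorem law11_b_pr : ∃ C : ℝ, 0 ≤ C ∧ ∀ p : ℕ, p.Prime → FD.N0 < p → ∀ (m : Fin 11) (δ1 δ2 : ℤ),
    dOk m δ1 δ2 → ¬ (p : ℤ) ∣ δ1 → ¬ (p : ℤ) ∣ δ2 → ∀ i ∈ inr 11 \ {m}, ∀ j ∈ inr 11 \ {m}, i ≠ j →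
    mL (Law11 m δ1 δ2 p) (fun u => ich ((p : ℤ) ∣ dl u i ∧ (p : ℤ) ∣ dl u j)) ≤
      C / (p : ℝ) ^ 2 := by
  refine ⟨7, by norm_num, ?_⟩
  intro p hp h2 m δ1 δ2 hd h1 h2' i hi j hj hij
  have hp0 : (0 : ℝ) < p := by exact_mod_cast hp.pos
  obtain ⟨i1, i2, i3⟩ := qf11_inr hi
  obtain ⟨j1, j2, j3⟩ := qf11_inr hj
  -- `e` the edge with the good end `v`, `f` the other edge
  have key : ∀ e f v w : Fin 11, f ∈ inr 11 \ {m} → qf11_P m f v w →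
      (∀ u : PolyK 11, (p : ℤ) ∣ dl u e → (p : ℤ) ∣ dt (u v) (u w)) →
      mL (Law11 m δ1 δ2 p) (fun u => ich ((p : ℤ) ∣ dl u f) * ich ((p : ℤ) ∣ dl u e)) ≤
        7 / (p : ℝ) ^ 2 := by
    intro e f v w hf hP hdl
    obtain ⟨hv1, hv2, hw, hf1, hf2⟩ := hP
    have e1 := qf11_edge hp h2 hd h1 h2' e v w (qf11_fx hv1 hv2) hw
      (fun u => ich ((p : ℤ) ∣ dl u f))
      (fun u u' h => by
        have a1 := h f hf1
        have a2 := h (f + 1) hf2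
        unfold dl
        rw [a1, a2])
      (fun _ => qf11_ich_nonneg _) (fun _ => qf11_ich_le_one _) hdl
    have e2 := mul_le_mul_of_nonneg_left (qf11_law_a hp h2 hd h1 h2' hf)
      (by positivity : 0 ≤ 2 / (p : ℝ))
    have e3 : 7 / (p : ℝ) ^ 2 = 2 / p * (3 / p) + 1 / (p : ℝ) ^ 2 := by
      field_simp
      norm_num
    linarith
  have hsym : ∀ u : PolyK 11, ∀ f : Fin 11, (p : ℤ) ∣ dl u f → (p : ℤ) ∣ dt (u (f + 1)) (u f) := by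
    intro u f h
    rw [qf11_dt_symm]
    exact (dvd_neg).2 h
  rcases qf11_comb m i j i1 i2 i3 j1 j2 j3 hij with (hP | hP) | (hP | hP)
  · have := key i j i (i + 1) hj hP (fun u h => h)
    refine le_trans (qf11_mono (fun u _ => ?_)) this
    rw [qf11_ich_and, mul_comm]
  · have := key i j (i + 1) i hj hP (fun u h => hsym u i h)
    refine le_trans (qf11_mono (fun u _ => ?_)) this
    rw [qf11_ich_and, mul_comm]
  · have := key j i j (j + 1) hi hP (fun u h => h)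
    refine le_trans (qf11_mono (fun u _ => ?_)) this
    rw [qf11_ich_and]
  · have := key j i (j + 1) j hi hP (fun u h => hsym u j h)
    refine le_trans (qf11_mono (fun u _ => ?_)) this
    rw [qf11_ich_and]

end Pool.Agent.AQ.PENK

namespace Pool.Agent.AQ.PENK

theorem law11_b : type_of% @law11_b_pr := @law11_b_pr

end Pool.Agent.AQ.PENK
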