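import Mathlib
import Pool.Agent.Lib_helper18.AQ.K.DefsW
import Pool.Agent.Lib_helper18.AQ.KF.QF8
import Pool.Agent.Lib_helper18.AQ.KF.QF9

set_option autoImplicit false

namespace Pool.Agent.AQ.PENK

open Finset Pool.Agent.PENT Pool.Agent.PENK

variable [FD]

theorem qf12_ich_nn (a : Prop) : 0 ≤ ich a := by
  unfold ich
  split_ifs <;> norm_num

theorem qf12_ich_mono {a b : Prop} (h : a → b) : ich a ≤ ich b := by
  unfold ich
  split_ifs with h1 h2
  · exact le_refl _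
  · exact absurd (h h1) h2
  · norm_num
  · exact le_refl _

theorem qf12_mono {L : Finset (PolyK 11)} {f g : PolyK 11 → ℝ} (h : ∀ u ∈ L, f u ≤ g u) :
    mL L f ≤ mL L g := by
  unfold mL
  exact div_le_div_of_nonneg_right (Finset.sum_le_sum h) (Nat.cast_nonneg _)

theorem qf12_one (L : Finset (PolyK 11)) : mL L (fun _ => 1) ≤ 1 := by
  unfold mL
  rw [Finset.sum_const, nsmul_eq_mul, mul_one]
  exact div_self_le_one _

theorem qf12_par {p : ℕ} (hp : p.Prime) (h2 : FD.N0 < p) {m : Fin 11} {δ1 δ2 : ℤ} (hd : dOk m δ1 δ2)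
    (h1 : ¬ (p : ℤ) ∣ δ1) (h2' : ¬ (p : ℤ) ∣ δ2) (j : Fin 11) (hj : fx m j = none)
    (w : PolyK 11 → ℤ × ℤ) (A : PolyK 11 → Prop)
    (hw : ∀ u v : PolyK 11, (∀ i, i ∉ blk j → u i = v i) → w u = w v)
    (hA : ∀ u ∈ Law11 m δ1 δ2 p, A u → ¬ ((p : ℤ) ∣ (w u).1 ∧ (p : ℤ) ∣ (w u).2) ∧
      (p : ℤ) ∣ dt (u j) (w u)) :
    mL (Law11 m δ1 δ2 p) (fun u => ich (A u)) ≤ 2 / (p : ℝ) := by
  have e := par_le hp h2 hd h1 h2' j hj w (fun _ => 1) (fun u v h => ⟨hw u v h, rfl⟩)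
    (fun _ => zero_le_one)
  have hp0 : (0 : ℝ) < p := by exact_mod_cast hp.pos
  calc mL (Law11 m δ1 δ2 p) (fun u => ich (A u)) ≤ _ := by
        refine qf12_mono (g := fun u => 1 * ich (¬ ((p : ℤ) ∣ (w u).1 ∧ (p : ℤ) ∣ (w u).2) ∧
          (p : ℤ) ∣ dt (u j) (w u))) ?_
        intro u hu
        rw [one_mul]
        exact qf12_ich_mono (hA u hu)
    _ ≤ 2 / (p : ℝ) * mL (Law11 m δ1 δ2 p) (fun _ => 1) := e
    _ ≤ 2 / (p : ℝ) * 1 := mul_le_mul_of_nonneg_left (qf12_one _) (by positivity)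
    _ = 2 / (p : ℝ) := mul_one _

theorem qf12_aff {p : ℕ} (hp : p.Prime) (h2 : FD.N0 < p) {m : Fin 11} {δ1 δ2 : ℤ} (hd : dOk m δ1 δ2)
    (h1 : ¬ (p : ℤ) ∣ δ1) (h2' : ¬ (p : ℤ) ∣ δ2) (j : Fin 11) (hj : fx m j = none)
    (w : PolyK 11 → ℤ × ℤ) (c : PolyK 11 → ℤ) (A : PolyK 11 → Prop)
    (hw : ∀ u v : PolyK 11, (∀ i, i ∉ blk j → u i = v i) → w u = w v ∧ c u = c v)
    (hf : ∀ u ∈ Law11 m δ1 δ2 p, ∀ i ∈ blk j, fx m i ≠ none → ¬ (p : ℤ) ∣ dt (w u) (u i))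
    (hA : ∀ u ∈ Law11 m δ1 δ2 p, A u → ¬ ((p : ℤ) ∣ (w u).1 ∧ (p : ℤ) ∣ (w u).2) ∧
      (p : ℤ) ∣ dt (u j) (w u) - c u) :
    mL (Law11 m δ1 δ2 p) (fun u => ich (A u)) ≤ 2 / (p : ℝ) := by
  have e := aff_le hp h2 hd h1 h2' j hj w c (fun _ => 1)
    (fun u v h => ⟨(hw u v h).1, (hw u v h).2, rfl⟩)
    (fun _ => zero_le_one) (fun u hu _ => hf u hu)
  have hp0 : (0 : ℝ) < p := by exact_mod_cast hp.pos
  calc mL (Law11 m δ1 δ2 p) (fun u => ich (A u)) ≤ _ := by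
        refine qf12_mono (g := fun u => 1 * ich (¬ ((p : ℤ) ∣ (w u).1 ∧ (p : ℤ) ∣ (w u).2) ∧
          (p : ℤ) ∣ dt (u j) (w u) - c u)) ?_
        intro u hu
        rw [one_mul]
        exact qf12_ich_mono (hA u hu)
    _ ≤ 2 / (p : ℝ) * mL (Law11 m δ1 δ2 p) (fun _ => 1) := e
    _ ≤ 2 / (p : ℝ) * 1 := mul_le_mul_of_nonneg_left (qf12_one _) (by positivity)
    _ = 2 / (p : ℝ) := mul_one _

theorem qf12_mem {m : Fin 11} {δ1 δ2 : ℤ} {p : ℕ} {u : PolyK 11} (hu : u ∈ Law11 m δ1 δ2 p) :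
    (∀ j c, fx m j = some c → cg1 p (u j) c) ∧ (p : ℤ) ∣ dt (u 1) (u 2) - δ1 ∧
      (p : ℤ) ∣ dt (u 10) (u 0) - δ2 := by
  classical
  exact (Finset.mem_filter.mp hu).2

theorem qf12_cg_dvd {p : ℕ} {w a e : ℤ × ℤ} (h : cg1 p a e) (h1 : (p : ℤ) ∣ dt w a) :
    (p : ℤ) ∣ dt w e := by
  have h2 := qf1_dt_cg (qf1_cg p w) h
  have h3 := dvd_sub h1 h2
  rwa [sub_sub_cancel] at h3

theorem qf12_cg_dvd' {p : ℕ} {w a e : ℤ × ℤ} (h : cg1 p a e) (h1 : (p : ℤ) ∣ dt w e) :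
    (p : ℤ) ∣ dt w a := by
  have h2 := qf1_dt_cg (qf1_cg p w) h
  have h3 := dvd_add h2 h1
  rwa [sub_add_cancel] at h3

theorem qf12_zz {p : ℕ} (hp : p.Prime) (h2 : FD.N0 < p) {a b : ℤ × ℤ} (ha : cg1 p a FD.z)
    (hb : cg1 p b (1, 0)) : ¬ (p : ℤ) ∣ dt a b := by
  intro h
  have h3 := qf1_dt_cg ha hb
  have h4 := dvd_sub h h3
  rw [sub_sub_cancel] at h4
  apply FD.zb p hp h2
  have e : dt FD.z (1, 0) = -FD.z.2 := by
    unfold dt
    ring
  rw [e, dvd_neg] at h4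
  exact h4

theorem qf12_ze {p : ℕ} (hp : p.Prime) {m k : Fin 11} {e : ℤ × ℤ} (h : fx m k = some e) :
    ¬ ((p : ℤ) ∣ e.1 ∧ (p : ℤ) ∣ e.2) := by
  rintro ⟨h1, h2⟩
  have h3 : (p : ℤ) ∣ (Int.gcd e.1 e.2 : ℤ) := Int.dvd_coe_gcd h1 h2
  rw [fx_gcd h] at h3
  exact hp.one_lt.ne' (Nat.dvd_one.1 (Int.natCast_dvd_natCast.1 h3))

theorem qf12_bad {m : Fin 11} {δ1 δ2 : ℤ} {p : ℕ} (hp : p.Prime) (h2 : FD.N0 < p) {u : PolyK 11}
    (hu : u ∈ Law11 m δ1 δ2 p) (h : ¬ (p : ℤ) ∣ bad m u) : ¬ (p : ℤ) ∣ dt (u 0) (u 1) := by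
  intro h1
  by_cases hm : m = 0
  · subst hm
    obtain ⟨g, -⟩ := qf12_mem hu
    exact qf12_zz hp h2 (g 0 _ (fx_z 0)) (g 1 _ (fx_1 0)) h1
  · apply h
    have h3 : (0 : Fin 11) ∈ inr 11 := by decide
    have h4 : dn m u 0 ∣ bad m u := Finset.dvd_prod_of_mem _ h3
    have h5 : p ∣ dn m u 0 := (dvd_dn_iff (Ne.symm hm)).2 h1
    exact_mod_cast h5.trans h4

theorem qf12_cv (u : PolyK 11) (k : Fin 11) (v : ℤ × ℤ) :
    dt (cv u k) v = v.1 * dt (u k) (u 0) + v.2 * dt (u k) (u 1) := by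
  unfold cv dt
  ring

theorem qf12_dtr (a w : ℤ × ℤ) (c : ℤ) : dt a (c * w.1, c * w.2) = c * dt a w := by
  unfold dt
  ring

theorem qf12_neg (a b : ℤ × ℤ) : dt a b = -dt b a := by
  unfold dt
  ring

theorem qf12_nz {p : ℕ} (hp : p.Prime) {a b : ℤ × ℤ} {c : ℤ} (hc : ¬ (p : ℤ) ∣ c)
    (h : ¬ (p : ℤ) ∣ dt a b) : ¬ ((p : ℤ) ∣ c * a.1 ∧ (p : ℤ) ∣ c * a.2) := by
  have hp' : Prime (p : ℤ) := Nat.prime_iff_prime_int.mp hp
  rintro ⟨g1, g2⟩
  have k1 := (hp'.dvd_or_dvd g1).resolve_left hc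
  have k2 := (hp'.dvd_or_dvd g2).resolve_left hc
  exact h (dvd_sub (Dvd.dvd.mul_right k1 _) (Dvd.dvd.mul_right k2 _))

theorem qf12_nzr {p : ℕ} (hp : p.Prime) {a b : ℤ × ℤ} {c : ℤ} (hc : ¬ (p : ℤ) ∣ c)
    (h : ¬ (p : ℤ) ∣ dt a b) : ¬ ((p : ℤ) ∣ c * b.1 ∧ (p : ℤ) ∣ c * b.2) := by
  apply qf12_nz hp hc (b := a)
  rw [qf12_neg b a, dvd_neg]
  exact h

theorem qf12_blk2 : ∀ m : Fin 11, m ≠ 0 → fx m 2 = none → ∀ i ∈ blk 2, fx m i = none := by
  simp only [ne_eq, fx_none_iff]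
  decide

theorem qf12_blk10 : ∀ m : Fin 11, m ≠ 0 → fx m 10 = none → ∀ i ∈ blk 10, fx m i = none := by
  simp only [ne_eq, fx_none_iff]
  decide

theorem qf12_fx2 : ∀ m : Fin 11, fx m 2 ≠ none → ∀ i ∈ blk 0, fx m i = none := by
  simp only [ne_eq, fx_none_iff]
  decide

theorem qf12_fx10 : ∀ m : Fin 11, fx m 10 ≠ none → ∀ i ∈ blk 1, fx m i = none := by
  simp only [ne_eq, fx_none_iff]
  decide

theorem qf12_fxk1 : ∀ m k : Fin 11, k ≠ 0 → k ≠ 1 → k ≠ 2 → k ≠ 10 → fx m k ≠ none →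
    fx m 0 = none ∧ fx m 1 = none := by
  simp only [ne_eq, fx_none_iff]
  decide

omit [FD] in
theorem qf12_fxk3 : ∀ m k i : Fin 11, (k ≠ 0 ∧ k ≠ 1 ∧ k ≠ 2 ∧ k ≠ 10) → (k = m ∨ k = m + 1) →
    (i = 10 ∨ i = 0) → (i = m ∨ i = m + 1) → m = 9 ∧ k = 9 ∧ i = 10 := by
  decide +kernel

theorem qf12_fxk2 : ∀ m k i : Fin 11, k ≠ 0 → k ≠ 1 → k ≠ 2 → k ≠ 10 → fx m k ≠ none →
    i ∈ blk 0 → fx m i ≠ none → m = 9 ∧ k = 9 ∧ i = 10 := by
  intro m k i h1 h2 h3 h4 h5 h6 h7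
  refine qf12_fxk3 m k i ⟨h1, h2, h3, h4⟩ ?_ ?_ ?_
  · rw [Ne, fx_none_iff] at h5
    by_contra h
    rw [not_or] at h
    exact h5 h
  · have e : blk 0 = {10, 0} := by decide
    rw [e, Finset.mem_insert, Finset.mem_singleton] at h6
    exact h6
  · rw [Ne, fx_none_iff] at h7
    by_contra h
    rw [not_or] at h
    exact h7 h

theorem qf12_blkk : ∀ k : Fin 11, k ≠ 0 → k ≠ 1 → k ≠ 2 → k ≠ 10 → (0 : Fin 11) ∉ blk k ∧
    (1 : Fin 11) ∉ blk k := by
  decide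

theorem qf12_e {p : ℕ} (hp : p.Prime) {m k : Fin 11} {e : ℤ × ℤ} (h : fx m k = some e) {c : ℤ}
    (hc : ¬ (p : ℤ) ∣ c) : ¬ ((p : ℤ) ∣ c * e.1 ∧ (p : ℤ) ∣ c * e.2) := by
  have hp' : Prime (p : ℤ) := Nat.prime_iff_prime_int.mp hp
  rintro ⟨g1, g2⟩
  exact qf12_ze hp h ⟨(hp'.dvd_or_dvd g1).resolve_left hc, (hp'.dvd_or_dvd g2).resolve_left hc⟩

/-- replace the fixed vector -/
theorem qf12_rp {p : ℕ} {w a e : ℤ × ℤ} (h : cg1 p a e) {v c : ℤ}
    (h1 : (p : ℤ) ∣ v * dt w a - c) : (p : ℤ) ∣ dt w (v * e.1, v * e.2) - c := by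
  rw [qf12_dtr]
  have h2 := qf1_dt_cg (qf1_cg p w) h
  have e2 : v * dt w e - c = (v * dt w a - c) - v * (dt w a - dt w e) := by ring
  rw [e2]
  exact dvd_sub h1 (Dvd.dvd.mul_left h2 _)

theorem qf12_main {p : ℕ} (hp : p.Prime) (h2 : FD.N0 < p) (m : Fin 11) (δ1 δ2 : ℤ)
    (hd : dOk m δ1 δ2) (h1 : ¬ (p : ℤ) ∣ δ1) (h2' : ¬ (p : ℤ) ∣ δ2) (k : Fin 11) (hk0 : k ≠ 0)
    (hk1 : k ≠ 1) (v : ℤ × ℤ) (hv : ¬ ((p : ℤ) ∣ v.1 ∧ (p : ℤ) ∣ v.2)) :
    mL (Law11 m δ1 δ2 p) (fun u => ich (¬ (p : ℤ) ∣ bad m u ∧ (p : ℤ) ∣ dt (cv u k) v)) ≤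
      2 / (p : ℝ) := by
  have hp' : Prime (p : ℤ) := Nat.prime_iff_prime_int.mp hp
  -- the two facts about `k = 2`, `k = 10`
  have f2 : ∀ u ∈ Law11 m δ1 δ2 p, (p : ℤ) ∣ dt (cv u 2) v → ¬ (p : ℤ) ∣ v.1 := by
    intro u hu hA hv1
    obtain ⟨-, g1, -⟩ := qf12_mem hu
    rw [qf12_cv] at hA
    have a1 : (p : ℤ) ∣ v.2 * dt (u 2) (u 1) := by
      have := dvd_sub hA (Dvd.dvd.mul_right hv1 (dt (u 2) (u 0)))
      rwa [add_sub_cancel_left] at this
    have a2 : ¬ (p : ℤ) ∣ v.2 := fun h => hv ⟨hv1, h⟩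
    have a3 := (hp'.dvd_or_dvd a1).resolve_left a2
    apply h1
    have a4 : δ1 = -(dt (u 2) (u 1)) - (dt (u 1) (u 2) - δ1) := by
      rw [qf12_neg (u 1) (u 2)]
      ring
    rw [a4]
    exact dvd_sub (dvd_neg.mpr a3) g1
  have f10 : ∀ u ∈ Law11 m δ1 δ2 p, (p : ℤ) ∣ dt (cv u 10) v → ¬ (p : ℤ) ∣ v.2 := by
    intro u hu hA hv1
    obtain ⟨-, -, g1⟩ := qf12_mem hu
    rw [qf12_cv] at hA
    have a1 : (p : ℤ) ∣ v.1 * dt (u 10) (u 0) := by
      have := dvd_sub hA (Dvd.dvd.mul_right hv1 (dt (u 10) (u 1)))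
      rwa [add_sub_cancel_right] at this
    have a2 : ¬ (p : ℤ) ∣ v.1 := fun h => hv ⟨h, hv1⟩
    have a3 := (hp'.dvd_or_dvd a1).resolve_left a2
    apply h2'
    have a4 : δ2 = dt (u 10) (u 0) - (dt (u 10) (u 0) - δ2) := by ring
    rw [a4]
    exact dvd_sub a3 g1
  rcases hfx : fx m k with _ | e
  · -- `k` is not fixed
    by_cases hm : m = 0 ∧ (k = 2 ∨ k = 10)
    · obtain ⟨rfl, hk⟩ := hm
      refine qf12_par hp h2 hd h1 h2' k hfx
        (fun _ => (v.1 * FD.z.1 + v.2, v.1 * FD.z.2)) _ (fun _ _ _ => rfl) ?_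
      rintro u hu ⟨hb, hA⟩
      obtain ⟨g, -⟩ := qf12_mem hu
      have a0 : cg1 p (u 0) FD.z := g 0 _ (fx_z 0)
      have a1 : cg1 p (u 1) (1, 0) := g 1 _ (fx_1 0)
      refine ⟨fun h => hv ?_, ?_⟩
      · obtain ⟨q1, q2⟩ := h
        have q3 : (p : ℤ) ∣ v.1 := (hp'.dvd_or_dvd q2).resolve_right (FD.zb p hp h2)
        refine ⟨q3, ?_⟩
        have q4 : (p : ℤ) ∣ v.1 * FD.z.1 := Dvd.dvd.mul_right q3 _
        exact (dvd_add_right q4).1 q1
      · rw [qf12_cv] at hA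
        have b0 := qf1_dt_cg (qf1_cg p (u k)) a0
        have b1 := qf1_dt_cg (qf1_cg p (u k)) a1
        have e : dt (u k) (v.1 * FD.z.1 + v.2, v.1 * FD.z.2) =
            (v.1 * dt (u k) (u 0) + v.2 * dt (u k) (u 1)) -
              v.1 * (dt (u k) (u 0) - dt (u k) FD.z) - v.2 * (dt (u k) (u 1) - dt (u k) (1, 0)) := by
          unfold dt
          ring
        rw [e]
        exact dvd_sub (dvd_sub hA (Dvd.dvd.mul_left b0 _)) (Dvd.dvd.mul_left b1 _)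
    · by_cases hk2 : k = 2
      · subst hk2
        have hm0 : m ≠ 0 := fun h => hm ⟨h, Or.inl rfl⟩
        refine qf12_aff hp h2 hd h1 h2' 2 hfx (fun u => (v.1 * (u 0).1, v.1 * (u 0).2))
          (fun _ => v.2 * δ1) _ ?_ ?_ ?_
        · intro u w h
          have a0 : u 0 = w 0 := h 0 (by decide)
          simp only [a0, and_self]
        · intro u hu i hi hne
          exact absurd (qf12_blk2 m hm0 hfx i hi) hne
        · rintro u hu ⟨hb, hA⟩
          obtain ⟨-, g1, -⟩ := qf12_mem hu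
          refine ⟨qf12_nz hp (f2 u hu hA) (qf12_bad hp h2 hu hb), ?_⟩
          rw [qf12_cv] at hA
          rw [qf12_dtr (u 2) (u 0) v.1]
          have a4 : v.1 * dt (u 2) (u 0) - v.2 * δ1 = (v.1 * dt (u 2) (u 0) + v.2 * dt (u 2) (u 1)) +
              v.2 * (dt (u 1) (u 2) - δ1) := by
            rw [qf12_neg (u 1) (u 2)]
            ring
          rw [a4]
          exact dvd_add hA (Dvd.dvd.mul_left g1 _)
      · by_cases hk10 : k = 10
        · subst hk10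
          have hm0 : m ≠ 0 := fun h => hm ⟨h, Or.inr rfl⟩
          refine qf12_aff hp h2 hd h1 h2' 10 hfx (fun u => (v.2 * (u 1).1, v.2 * (u 1).2))
            (fun _ => -(v.1 * δ2)) _ ?_ ?_ ?_
          · intro u w h
            have a0 : u 1 = w 1 := h 1 (by decide)
            simp only [a0, and_self]
          · intro u hu i hi hne
            exact absurd (qf12_blk10 m hm0 hfx i hi) hne
          · rintro u hu ⟨hb, hA⟩
            obtain ⟨-, -, g1⟩ := qf12_mem hu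
            refine ⟨qf12_nzr hp (f10 u hu hA) (qf12_bad hp h2 hu hb), ?_⟩
            rw [qf12_cv] at hA
            rw [qf12_dtr (u 10) (u 1) v.2]
            have a4 : v.2 * dt (u 10) (u 1) - -(v.1 * δ2) =
                (v.1 * dt (u 10) (u 0) + v.2 * dt (u 10) (u 1)) -
                v.1 * (dt (u 10) (u 0) - δ2) := by
              ring
            rw [a4]
            exact dvd_sub hA (Dvd.dvd.mul_left g1 _)
        · refine qf12_par hp h2 hd h1 h2' k hfx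
            (fun u => (v.1 * (u 0).1 + v.2 * (u 1).1, v.1 * (u 0).2 + v.2 * (u 1).2)) _ ?_ ?_
          · intro u w h
            have a0 : u 0 = w 0 := h 0 (qf12_blkk k hk0 hk1 hk2 hk10).1
            have a1 : u 1 = w 1 := h 1 (qf12_blkk k hk0 hk1 hk2 hk10).2
            simp only [a0, a1]
          · rintro u hu ⟨hb, hA⟩
            have hb' := qf12_bad hp h2 hu hb
            refine ⟨?_, ?_⟩
            · rintro ⟨g1, g2⟩
              simp only at g1 g2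
              apply hv
              constructor
              · have a : (p : ℤ) ∣ v.1 * dt (u 0) (u 1) := by
                  have := dvd_sub (Dvd.dvd.mul_right g1 (u 1).2) (Dvd.dvd.mul_right g2 (u 1).1)
                  have e : v.1 * dt (u 0) (u 1) = (v.1 * (u 0).1 + v.2 * (u 1).1) * (u 1).2 -
                      (v.1 * (u 0).2 + v.2 * (u 1).2) * (u 1).1 := by
                    unfold dt
                    ring
                  rw [e]
                  exact this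
                exact (hp'.dvd_or_dvd a).resolve_right hb'
              · have a : (p : ℤ) ∣ v.2 * dt (u 0) (u 1) := by
                  have := dvd_sub (Dvd.dvd.mul_right g2 (u 0).1) (Dvd.dvd.mul_right g1 (u 0).2)
                  have e : v.2 * dt (u 0) (u 1) = (v.1 * (u 0).2 + v.2 * (u 1).2) * (u 0).1 -
                      (v.1 * (u 0).1 + v.2 * (u 1).1) * (u 0).2 := by
                    unfold dt
                    ring
                  rw [e]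
                  exact this
                exact (hp'.dvd_or_dvd a).resolve_right hb'
            · rw [qf12_cv] at hA
              have e : dt (u k) (v.1 * (u 0).1 + v.2 * (u 1).1, v.1 * (u 0).2 + v.2 * (u 1).2) =
                  v.1 * dt (u k) (u 0) + v.2 * dt (u k) (u 1) := by
                unfold dt
                ring
              rw [e]
              exact hA
  · -- `k` is fixed
    have hne : fx m k ≠ none := by
      rw [hfx]
      exact Option.some_ne_none e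
    by_cases hk2 : k = 2
    · subst hk2
      refine qf12_aff hp h2 hd h1 h2' 0 (qf12_fx2 m hne 0 (by decide))
        (fun u => (v.1 * e.1, v.1 * e.2)) (fun _ => -(v.2 * δ1)) _ (fun _ _ _ => ⟨rfl, rfl⟩) ?_ ?_
      · intro u hu i hi hne'
        exact absurd (qf12_fx2 m hne i hi) hne'
      · rintro u hu ⟨hb, hA⟩
        obtain ⟨g, g1, -⟩ := qf12_mem hu
        have gk := g 2 e hfx
        refine ⟨qf12_e hp hfx (f2 u hu hA), ?_⟩
        rw [qf12_cv] at hA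
        refine qf12_rp gk ?_
        have a4 : v.1 * dt (u 0) (u 2) - -(v.2 * δ1) =
            -(v.1 * dt (u 2) (u 0) + v.2 * dt (u 2) (u 1)) - v.2 * (dt (u 1) (u 2) - δ1) := by
          rw [qf12_neg (u 1) (u 2), qf12_neg (u 0) (u 2)]
          ring
        rw [a4]
        exact dvd_sub (dvd_neg.mpr hA) (Dvd.dvd.mul_left g1 _)
    · by_cases hk10 : k = 10
      · subst hk10
        refine qf12_aff hp h2 hd h1 h2' 1 (qf12_fx10 m hne 1 (by decide))
          (fun u => (v.2 * e.1, v.2 * e.2)) (fun _ => v.1 * δ2) _ (fun _ _ _ => ⟨rfl, rfl⟩) ?_ ?_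
        · intro u hu i hi hne'
          exact absurd (qf12_fx10 m hne i hi) hne'
        · rintro u hu ⟨hb, hA⟩
          obtain ⟨g, -, g1⟩ := qf12_mem hu
          have gk := g 10 e hfx
          refine ⟨qf12_e hp hfx (f10 u hu hA), ?_⟩
          rw [qf12_cv] at hA
          refine qf12_rp gk ?_
          have a4 : v.2 * dt (u 1) (u 10) - v.1 * δ2 =
              -(v.1 * dt (u 10) (u 0) + v.2 * dt (u 10) (u 1)) +
                v.1 * (dt (u 10) (u 0) - δ2) := by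
            rw [qf12_neg (u 1) (u 10)]
            ring
          rw [a4]
          exact dvd_add (dvd_neg.mpr hA) (Dvd.dvd.mul_left g1 _)
      · obtain ⟨q0, q1⟩ := qf12_fxk1 m k hk0 hk1 hk2 hk10 hne
        by_cases hv1 : (p : ℤ) ∣ v.1
        · refine qf12_par hp h2 hd h1 h2' 1 q1 (fun _ => e) _ (fun _ _ _ => rfl) ?_
          rintro u hu ⟨hb, hA⟩
          obtain ⟨g, -, -⟩ := qf12_mem hu
          have gk := g k e hfx
          constructor
          · exact qf12_ze hp hfx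
          · rw [qf12_cv] at hA
            have a1 : (p : ℤ) ∣ v.2 * dt (u k) (u 1) := by
              have := dvd_sub hA (Dvd.dvd.mul_right hv1 (dt (u k) (u 0)))
              rwa [add_sub_cancel_left] at this
            have a2 : ¬ (p : ℤ) ∣ v.2 := fun h => hv ⟨hv1, h⟩
            have a3 := (hp'.dvd_or_dvd a1).resolve_left a2
            refine qf12_cg_dvd gk ?_
            rw [qf12_neg, dvd_neg]
            exact a3
        · refine qf12_aff hp h2 hd h1 h2' 0 q0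
            (fun u => (v.1 * e.1, v.1 * e.2)) (fun u => -(v.2 * dt (u 1) e)) _ ?_ ?_ ?_
          · intro u w h
            have a0 : u 1 = w 1 := h 1 (by decide)
            simp only [a0, and_self]
          · intro u hu i hi hne'
            obtain ⟨r1, r2, r3⟩ := qf12_fxk2 m k i hk0 hk1 hk2 hk10 hne hi hne'
            subst r1 r2 r3
            have e1 : e = FD.z := by
              rw [fx_z] at hfx
              exact (Option.some.inj hfx).symm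
            obtain ⟨g, -, -⟩ := qf12_mem hu
            have g10 : cg1 p (u 10) (1, 0) := g 10 (1, 0) (fx_1 9)
            intro hh
            have hh2 := qf12_cg_dvd g10 hh
            rw [e1] at hh2
            have e3 : dt (v.1 * FD.z.1, v.1 * FD.z.2) (1, 0) = -(v.1 * FD.z.2) := by
              unfold dt
              ring
            rw [e3, dvd_neg] at hh2
            exact (hp'.dvd_or_dvd hh2).elim hv1 (FD.zb p hp h2)
          · rintro u hu ⟨hb, hA⟩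
            obtain ⟨g, -, -⟩ := qf12_mem hu
            have gk := g k e hfx
            refine ⟨qf12_e hp hfx hv1, ?_⟩
            rw [qf12_cv] at hA
            refine qf12_rp gk ?_
            have b1 := qf1_dt_cg (qf1_cg p (u 1)) gk
            have a5 : v.1 * dt (u 0) (u k) - -(v.2 * dt (u 1) e) =
                (v.1 * dt (u 0) (u k) - -(v.2 * dt (u 1) (u k))) -
                  v.2 * (dt (u 1) (u k) - dt (u 1) e) := by ring
            rw [a5]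
            refine dvd_sub ?_ (Dvd.dvd.mul_left b1 _)
            have a4 : v.1 * dt (u 0) (u k) - -(v.2 * dt (u 1) (u k)) =
                -(v.1 * dt (u k) (u 0) + v.2 * dt (u k) (u 1)) := by
              rw [qf12_neg (u 1) (u k), qf12_neg (u 0) (u k)]
              ring
            rw [a4]
            exact dvd_neg.mpr hA

/-- BLOCK QF12 (uses QF8, QF9): `c_k` on a line `v`. If `p ∤ dl_0`: `c_k ∥ v` iff
`u_k ∥ v_1 u_0 + v_2 u_1 =: w ≢ 0`. `k ≠ 2, 10`, not fixed: `par_le` for `u_k`. `k = 2`: the condition is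
`v_1 det(u_0, u_2) = - v_2 δ1` up to sign (`v_1 ≢ 0`, else never), `aff_le` for `u_0` if it is not fixed and,
if `m = 9`, `u_2 ∦ u_10` (`par_le` for `u_2`), else (`u_0` fixed: `m = 0`: `u_0 = (0,1)`, `u_1 = (1,0)`,
`u_2 = (t, δ1)`; `m = 10`: `u_0 = (1,0)`) directly for `u_2`; `m = 1`, `m = 2`: `u_2` fixed. `k = 10`: mirror. `k`
fixed, `k ≠ 2, 10`: the condition is linear in `u_0` or in `u_1` (`v_1 ≢ 0` or `v_2 ≢ 0`). -/
theorem law11_c_pr : ∃ C : ℝ, 0 ≤ C ∧ ∀ p : ℕ, p.Prime → FD.N0 < p → ∀ (m : Fin 11) (δ1 δ2 : ℤ),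
    dOk m δ1 δ2 → ¬ (p : ℤ) ∣ δ1 → ¬ (p : ℤ) ∣ δ2 → ∀ k ∈ ivr 11, ∀ v : ℤ × ℤ,
    ¬ ((p : ℤ) ∣ v.1 ∧ (p : ℤ) ∣ v.2) →
    mL (Law11 m δ1 δ2 p) (fun u => ich (¬ (p : ℤ) ∣ bad m u ∧ (p : ℤ) ∣ dt (cv u k) v)) ≤
      C / p := by
  refine ⟨2, by norm_num, ?_⟩
  intro p hp h2 m δ1 δ2 hd h1 h2' k hk v hv
  have hk' := (Finset.mem_filter.mp hk).2
  exact qf12_main hp h2 m δ1 δ2 hd h1 h2' k hk'.1 hk'.2 v hv

end Pool.Agent.AQ.PENK

namespace Pool.Agent.AQ.PENK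

theorem law11_c : type_of% @law11_c_pr := @law11_c_pr

end Pool.Agent.AQ.PENK
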