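import Pool.Agent.Lib_helper18.AQ.K.DefsW
import Pool.Agent.Lib_helper18.AQ.KF.QF8
import Pool.Agent.Lib_helper18.AQ.KF.QF9

/-! PENK (MP_892e4c_nt), block QF13 (helper67) -/

set_option autoImplicit false

namespace Pool.Agent.AQ.PENK

open Finset Pool.Agent.PENT Pool.Agent.PENK

variable [FD]

theorem qf13_mono {K : ℕ} (L : Finset (PolyK K)) {f g : PolyK K → ℝ} (h : ∀ u ∈ L, f u ≤ g u) :
    mL L f ≤ mL L g := by
  unfold mL
  exact div_le_div_of_nonneg_right (sum_le_sum h) (Nat.cast_nonneg _)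

theorem qf13_add {K : ℕ} (L : Finset (PolyK K)) (f g : PolyK K → ℝ) :
    mL L (fun u => f u + g u) = mL L f + mL L g := by
  unfold mL
  rw [sum_add_distrib, add_div]

theorem qf13_one {K : ℕ} (L : Finset (PolyK K)) : mL L (fun _ => 1) ≤ 1 := by
  unfold mL
  rw [sum_const, nsmul_eq_mul, mul_one]
  exact div_self_le_one _

theorem qf13_ich0 (a : Prop) : 0 ≤ ich a := by
  unfold ich
  split_ifs <;> norm_num

theorem qf13_zero {a : Prop} (h : ¬ a) : ich a = 0 := by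
  unfold ich
  rw [if_neg h]

theorem qf13_pos {a : Prop} (h : a) : ich a = 1 := by
  unfold ich
  rw [if_pos h]

theorem qf13_zz {m : Fin 11} {δ1 δ2 : ℤ} {p : ℕ} (hp : p.Prime) (h2 : FD.N0 < p) {u : PolyK 11}
    (hu : u ∈ Law11 m δ1 δ2 p) : ¬ (p : ℤ) ∣ dt (u m) (u (m + 1)) := by
  classical
  intro h
  have g := (Finset.mem_filter.mp hu).2.1
  have h3 := qf1_dt_cg (g m _ (fx_z m)) (g (m + 1) _ (fx_1 m))
  have h4 := dvd_sub h h3
  rw [sub_sub_cancel] at h4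
  apply FD.zb p hp h2
  have e : dt FD.z (1, 0) = -FD.z.2 := by
    unfold dt
    ring
  rw [e, dvd_neg] at h4
  exact h4

/-- an interior edge is not divisible -/
theorem qf13_edge {m : Fin 11} {δ1 δ2 : ℤ} {p : ℕ} (hp : p.Prime) (h2 : FD.N0 < p) {u : PolyK 11}
    (hu : u ∈ Law11 m δ1 δ2 p) {i : Fin 11} (hi : i ∈ inr 11)
    (hb : ¬ (p : ℤ) ∣ bad m u) : ¬ (p : ℤ) ∣ dt (u i) (u (i + 1)) := by
  intro h
  by_cases hm : i = m
  · rw [hm] at h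
    exact qf13_zz hp h2 hu h
  · apply hb
    have h2 : p ∣ dn m u i := (dvd_dn_iff hm).2 h
    have h3 : dn m u i ∣ bad m u := dvd_prod_of_mem _ hi
    exact Int.natCast_dvd_natCast.mpr (h2.trans h3)

/-- parallel coordinate vectors -/
theorem qf13_cv {m : Fin 11} {δ1 δ2 : ℤ} {p : ℕ} (hp : p.Prime) (h2 : FD.N0 < p) {u : PolyK 11}
    (hu : u ∈ Law11 m δ1 δ2 p) (i j : Fin 11) (hb : ¬ (p : ℤ) ∣ bad m u) (h : (p : ℤ) ∣ dt (cv u i) (cv u j)) : (p : ℤ) ∣ dt (u i) (u j) := by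
  have e : dt (cv u i) (cv u j) = dt (u i) (u j) * dl u 0 := by
    have h0 : dl u 0 = dt (u 0) (u 1) := rfl
    rw [h0]
    unfold cv dt
    ring
  rw [e] at h
  rcases (Nat.prime_iff_prime_int.mp hp).dvd_or_dvd h with h1 | h1
  · exact h1
  · exfalso
    exact qf13_edge hp h2 hu (by decide) hb h1

/-- two vertices which are not adjacent -/
theorem qf13_far {p : ℕ} (hp : p.Prime) (h2 : FD.N0 < p) {m : Fin 11} {δ1 δ2 : ℤ}
    (hd : dOk m δ1 δ2) (h1 : ¬ (p : ℤ) ∣ δ1) (h2' : ¬ (p : ℤ) ∣ δ2) {a b : Fin 11}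
    (ha : fx m a = none) (hab : b ∉ blk a) :
    mL (Law11 m δ1 δ2 p) (fun u => ich ((p : ℤ) ∣ dt (u a) (u b))) ≤ 3 / p := by
  have hp1 : (1 : ℝ) ≤ p := by exact_mod_cast hp.one_le
  have hp0 : (0 : ℝ) < p := by linarith
  have k1 := par_le hp h2 hd h1 h2' a ha (fun u => u b) (fun _ => 1)
    (fun u v h => ⟨h b hab, rfl⟩) (fun _ => zero_le_one)
  have k2 := zero_le hp h2 hd h1 h2' b
  have k3 := qf13_one (Law11 m δ1 δ2 p)
  calc mL (Law11 m δ1 δ2 p) (fun u => ich ((p : ℤ) ∣ dt (u a) (u b)))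
      ≤ mL (Law11 m δ1 δ2 p) (fun u => (1 * ich (¬ ((p : ℤ) ∣ (u b).1 ∧ (p : ℤ) ∣ (u b).2) ∧
          (p : ℤ) ∣ dt (u a) (u b))) + ich ((p : ℤ) ∣ (u b).1 ∧ (p : ℤ) ∣ (u b).2)) := by
        refine qf13_mono _ fun u _ => ?_
        by_cases c1 : (p : ℤ) ∣ dt (u a) (u b)
        · by_cases c2 : (p : ℤ) ∣ (u b).1 ∧ (p : ℤ) ∣ (u b).2
          · rw [qf13_pos c1, qf13_pos c2, one_mul]
            linarith [qf13_ich0 (¬ ((p : ℤ) ∣ (u b).1 ∧ (p : ℤ) ∣ (u b).2) ∧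
              (p : ℤ) ∣ dt (u a) (u b))]
          · rw [qf13_pos c1, qf13_pos (⟨c2, c1⟩ : ¬ ((p : ℤ) ∣ (u b).1 ∧ (p : ℤ) ∣ (u b).2) ∧
              (p : ℤ) ∣ dt (u a) (u b)), one_mul]
            linarith [qf13_ich0 ((p : ℤ) ∣ (u b).1 ∧ (p : ℤ) ∣ (u b).2)]
        · rw [qf13_zero c1, one_mul]
          exact add_nonneg (qf13_ich0 _) (qf13_ich0 _)
    _ = mL (Law11 m δ1 δ2 p) (fun u => 1 * ich (¬ ((p : ℤ) ∣ (u b).1 ∧ (p : ℤ) ∣ (u b).2) ∧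
          (p : ℤ) ∣ dt (u a) (u b))) +
        mL (Law11 m δ1 δ2 p) (fun u => ich ((p : ℤ) ∣ (u b).1 ∧ (p : ℤ) ∣ (u b).2)) :=
        qf13_add _ _ _
    _ ≤ 2 / p * 1 + 1 / (p : ℝ) ^ 2 := by
        refine add_le_add (k1.trans ?_) k2
        exact mul_le_mul_of_nonneg_left k3 (by positivity)
    _ ≤ 3 / p := by
        have : 1 / (p : ℝ) ^ 2 ≤ 1 / p := by
          apply one_div_le_one_div_of_le hp0
          nlinarith
        have e : (3 : ℝ) / p = 2 / p * 1 + 1 / p := by ring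
        linarith

theorem qf13_comb : ∀ m i j : Fin 11, i ∈ ivr 11 → j ∈ ivr 11 → i ≠ j →
    (j = i + 1 ∧ i ∈ inr 11) ∨ (i = j + 1 ∧ j ∈ inr 11) ∨ (fx m i = none ∧ j ∉ blk i) ∨
      (fx m j = none ∧ i ∉ blk j) := by
  simp only [fx_none_iff]
  decide +kernel

theorem qf13_swap (p : ℕ) (a x : ℤ × ℤ) : ((p : ℤ) ∣ dt x a) = ((p : ℤ) ∣ dt a x) := by
  have : dt x a = -dt a x := by unfold dt; ring
  rw [this, dvd_neg]

/-- BLOCK QF13 (uses QF8, QF9): `c_i`, `c_j` parallel: `p ∤ dl_0`, so `u_i ∥ u_j`. Adjacent `i, j`: an interior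
edge, excluded by `¬ p ∣ bad m u` (or the open edge `{m, m+1}`: never parallel). Otherwise one of `i, j` is not
fixed and its block does not contain the other one (`i, j ≠ 0, 1`): `par_le`, `zero_le`. -/
theorem law11_d_pr : ∃ C : ℝ, 0 ≤ C ∧ ∀ p : ℕ, p.Prime → FD.N0 < p → ∀ (m : Fin 11) (δ1 δ2 : ℤ),
    dOk m δ1 δ2 → ¬ (p : ℤ) ∣ δ1 → ¬ (p : ℤ) ∣ δ2 → ∀ i ∈ ivr 11, ∀ j ∈ ivr 11, i ≠ j →
    mL (Law11 m δ1 δ2 p) (fun u => ich (¬ (p : ℤ) ∣ bad m u ∧ (p : ℤ) ∣ dt (cv u i) (cv u j))) ≤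
      C / p := by
  refine ⟨3, by norm_num, ?_⟩
  intro p hp h2 m δ1 δ2 hd h1 h2' i hi j hj hij
  have hp0 : (0 : ℝ) < p := by exact_mod_cast hp.pos
  have hz : ∀ {f : PolyK 11 → ℝ}, (∀ u ∈ Law11 m δ1 δ2 p, f u ≤ 0) →
      mL (Law11 m δ1 δ2 p) f ≤ 3 / p := by
    intro f hf
    have : mL (Law11 m δ1 δ2 p) f ≤ 0 := by
      unfold mL
      exact div_nonpos_of_nonpos_of_nonneg (sum_nonpos hf) (Nat.cast_nonneg _)
    have h3 : (0 : ℝ) ≤ 3 / p := by positivity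
    linarith
  rcases qf13_comb m i j hi hj hij with ⟨e, hin⟩ | ⟨e, hin⟩ | ⟨ha, hb⟩ | ⟨ha, hb⟩
  · refine hz fun u hu => ?_
    rw [qf13_zero]
    rintro ⟨c1, c2⟩
    have := qf13_cv hp h2 hu i j c1 c2
    rw [e] at this
    exact qf13_edge hp h2 hu hin c1 this
  · refine hz fun u hu => ?_
    rw [qf13_zero]
    rintro ⟨c1, c2⟩
    have := qf13_cv hp h2 hu i j c1 c2
    rw [e, qf13_swap] at this
    exact qf13_edge hp h2 hu hin c1 this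
  · refine le_trans (qf13_mono _ fun u hu => ?_) (qf13_far hp h2 hd h1 h2' ha hb)
    by_cases c : ¬ (p : ℤ) ∣ bad m u ∧ (p : ℤ) ∣ dt (cv u i) (cv u j)
    · rw [qf13_pos c, qf13_pos (qf13_cv hp h2 hu i j c.1 c.2)]
    · rw [qf13_zero c]
      exact qf13_ich0 _
  · refine le_trans (qf13_mono _ fun u hu => ?_) (qf13_far hp h2 hd h1 h2' ha hb)
    by_cases c : ¬ (p : ℤ) ∣ bad m u ∧ (p : ℤ) ∣ dt (cv u i) (cv u j)
    · have := qf13_cv hp h2 hu i j c.1 c.2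
      rw [← qf13_swap] at this
      rw [qf13_pos c, qf13_pos this]
    · rw [qf13_zero c]
      exact qf13_ich0 _

end Pool.Agent.AQ.PENK

namespace Pool.Agent.AQ.PENK

theorem law11_d : type_of% @law11_d_pr := @law11_d_pr

end Pool.Agent.AQ.PENK
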