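import Pool.Agent.Lib_helper18.AQ.K.DefsW
import Pool.Agent.Lib_helper18.AQ.KF.QF8
import Pool.Agent.Lib_helper18.AQ.KF.QF9
import Pool.Agent.Lib_helper18.AQ.KF.QF11

set_option autoImplicit false

namespace Pool.Agent.AQ.PENK

open Finset Pool.Agent.PENT Pool.Agent.PENK

variable [FD]

theorem qf15_mono {K : ℕ} {L : Finset (PolyK K)} {h h' : PolyK K → ℝ}
    (hh : ∀ r ∈ L, h r ≤ h' r) : mL L h ≤ mL L h' := by
  unfold mL
  exact div_le_div_of_nonneg_right (Finset.sum_le_sum hh) (Nat.cast_nonneg _)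

theorem qf15_add {K : ℕ} {L : Finset (PolyK K)} (h h' : PolyK K → ℝ) :
    mL L (fun r => h r + h' r) = mL L h + mL L h' := by
  unfold mL
  rw [Finset.sum_add_distrib, add_div]

theorem qf15_one {K : ℕ} (L : Finset (PolyK K)) : mL L (fun _ => 1) ≤ 1 := by
  unfold mL
  rw [Finset.sum_const, nsmul_eq_mul, mul_one]
  exact div_self_le_one _

theorem qf15_zero {K : ℕ} (L : Finset (PolyK K)) : mL L (fun _ => 0) = 0 := by
  unfold mL
  simp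

theorem qf15_ich_nonneg (a : Prop) : 0 ≤ ich a := by
  unfold ich
  split_ifs <;> norm_num

theorem qf15_ich_true {a : Prop} (h : a) : ich a = 1 := by
  unfold ich
  rw [if_pos h]

theorem qf15_ich_false {a : Prop} (h : ¬ a) : ich a = 0 := by
  unfold ich
  rw [if_neg h]

theorem qf15_ich_mono {a b : Prop} (h : a → b) : ich a ≤ ich b := by
  by_cases ha : a
  · rw [qf15_ich_true ha, qf15_ich_true (h ha)]
  · rw [qf15_ich_false ha]
    exact qf15_ich_nonneg _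

theorem qf15_ich_cases {a b c : Prop} (h : a → b ∨ c) : ich a ≤ ich b + ich c := by
  by_cases ha : a
  · rw [qf15_ich_true ha]
    rcases h ha with h1 | h1
    · rw [qf15_ich_true h1]
      linarith [qf15_ich_nonneg c]
    · rw [qf15_ich_true h1]
      linarith [qf15_ich_nonneg b]
  · rw [qf15_ich_false ha]
    exact add_nonneg (qf15_ich_nonneg _) (qf15_ich_nonneg _)

theorem qf15_ich_mul {a b c : Prop} (h : a → b ∧ c) : ich a ≤ ich b * ich c := by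
  by_cases ha : a
  · rw [qf15_ich_true ha, qf15_ich_true (h ha).1, qf15_ich_true (h ha).2, one_mul]
  · rw [qf15_ich_false ha]
    exact mul_nonneg (qf15_ich_nonneg _) (qf15_ich_nonneg _)

theorem qf15_fx {m v : Fin 11} (h1 : v ≠ m) (h2 : v ≠ m + 1) : fx m v = none := by
  unfold fx
  rw [if_neg h1, if_neg h2]

theorem qf15_zz {p : ℕ} (hp : p.Prime) (h2 : FD.N0 < p) {a b : ℤ × ℤ} (ha : cg1 p a FD.z)
    (hb : cg1 p b (1, 0)) : ¬ (p : ℤ) ∣ dt a b := by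
  intro h
  have h3 := qf1_dt_cg ha hb
  have h4 := dvd_sub h h3
  rw [sub_sub_cancel] at h4
  apply FD.zb p hp h2
  have e : dt FD.z (1, 0) = -FD.z.2 := by
    unfold dt
    ring
  rw [e, dvd_neg] at h4
  exact h4

theorem qf15_cgd {p : ℕ} {w a e : ℤ × ℤ} (h : cg1 p a e) (h1 : (p : ℤ) ∣ dt w a) :
    (p : ℤ) ∣ dt w e := by
  have h2 := qf1_dt_cg (qf1_cg p w) h
  have h3 := dvd_sub h1 h2
  rwa [sub_sub_cancel] at h3

theorem qf15_gcd {p : ℕ} (hp : p.Prime) {e : ℤ × ℤ} (h : Int.gcd e.1 e.2 = 1) :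
    ¬ ((p : ℤ) ∣ e.1 ∧ (p : ℤ) ∣ e.2) := by
  rintro ⟨h1, h2⟩
  have h3 : (p : ℤ) ∣ (Int.gcd e.1 e.2 : ℤ) := Int.dvd_coe_gcd h1 h2
  rw [h] at h3
  exact hp.one_lt.ne' (Nat.dvd_one.1 (Int.natCast_dvd_natCast.1 h3))

theorem qf15_fxne {m i : Fin 11} (h : fx m i ≠ none) : i = m ∨ i = m + 1 := by
  by_contra hn
  push Not at hn
  exact h (qf15_fx hn.1 hn.2)

theorem qf15_inr {m i : Fin 11} (h : i ∈ inr 11 \ {m}) : i ≠ 1 ∧ i ≠ -1 ∧ i ≠ m := by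
  unfold inr at h
  simp only [Finset.mem_sdiff, Finset.mem_filter, Finset.mem_univ, true_and,
    Finset.mem_singleton] at h
  exact ⟨h.1.1, h.1.2, h.2⟩

/-- the properties of the elements of the law -/
theorem qf15_law {m : Fin 11} {δ1 δ2 : ℤ} {p : ℕ} {u : PolyK 11} (hu : u ∈ Law11 m δ1 δ2 p) :
    (∀ j c, fx m j = some c → cg1 p (u j) c) ∧ (p : ℤ) ∣ dt (u 1) (u 2) - δ1 ∧
      (p : ℤ) ∣ dt (u 10) (u 0) - δ2 := by
  classical
  unfold Law11 at hu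
  rw [Finset.mem_filter] at hu
  exact hu.2

/-! ### vectors modulo `p` -/

/-- zero modulo `p` -/
abbrev qf15_Z (p : ℕ) (a : ℤ × ℤ) : Prop := (p : ℤ) ∣ a.1 ∧ (p : ℤ) ∣ a.2

theorem qf15_symm {p : ℕ} {a b : ℤ × ℤ} (h : (p : ℤ) ∣ dt a b) : (p : ℤ) ∣ dt b a := by
  have : dt b a = - dt a b := by unfold dt; ring
  rw [this]
  exact (dvd_neg).2 h

theorem qf15_trans {p : ℕ} (hp : p.Prime) {a b c : ℤ × ℤ} (h1 : (p : ℤ) ∣ dt a b)
    (h2 : (p : ℤ) ∣ dt b c) (hb : ¬ qf15_Z p b) : (p : ℤ) ∣ dt a c := by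
  have hP := Nat.prime_iff_prime_int.1 hp
  have e1 : dt a c * b.1 = dt a b * c.1 + dt b c * a.1 := by unfold dt; ring
  have e2 : dt a c * b.2 = dt a b * c.2 + dt b c * a.2 := by unfold dt; ring
  have d1 : (p : ℤ) ∣ dt a c * b.1 := by
    rw [e1]
    exact dvd_add (dvd_mul_of_dvd_left h1 _) (dvd_mul_of_dvd_left h2 _)
  have d2 : (p : ℤ) ∣ dt a c * b.2 := by
    rw [e2]
    exact dvd_add (dvd_mul_of_dvd_left h1 _) (dvd_mul_of_dvd_left h2 _)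
  by_contra hn
  apply hb
  exact ⟨(hP.dvd_or_dvd d1).resolve_left hn, (hP.dvd_or_dvd d2).resolve_left hn⟩

/-- a vector parallel to two independent vectors is zero -/
theorem qf15_indep {p : ℕ} (hp : p.Prime) {a b w : ℤ × ℤ} (h : ¬ (p : ℤ) ∣ dt a b)
    (h1 : (p : ℤ) ∣ dt w a) (h2 : (p : ℤ) ∣ dt w b) : qf15_Z p w := by
  by_contra hn
  exact h (qf15_trans hp (qf15_symm h1) h2 hn)

theorem qf15_ne_left {p : ℕ} {a b : ℤ × ℤ} (h : ¬ (p : ℤ) ∣ dt a b) : ¬ qf15_Z p a := by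
  intro hz
  apply h
  unfold dt
  exact dvd_sub (dvd_mul_of_dvd_left hz.1 _) (dvd_mul_of_dvd_left hz.2 _)

theorem qf15_ne_right {p : ℕ} {a b : ℤ × ℤ} (h : ¬ (p : ℤ) ∣ dt a b) : ¬ qf15_Z p b := by
  intro hz
  apply h
  unfold dt
  exact dvd_sub (dvd_mul_of_dvd_right hz.2 _) (dvd_mul_of_dvd_right hz.1 _)

/-- `t a` -/
def qf15_s (t : ℤ) (a : ℤ × ℤ) : ℤ × ℤ := (t * a.1, t * a.2)

theorem qf15_s_ne {p : ℕ} (hp : p.Prime) {t : ℤ} {a : ℤ × ℤ} (ht : ¬ (p : ℤ) ∣ t)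
    (ha : ¬ qf15_Z p a) : ¬ qf15_Z p (qf15_s t a) := by
  have hP := Nat.prime_iff_prime_int.1 hp
  intro hz
  exact ha ⟨(hP.dvd_or_dvd hz.1).resolve_left ht, (hP.dvd_or_dvd hz.2).resolve_left ht⟩

theorem qf15_s_dt (t : ℤ) (a b : ℤ × ℤ) : dt (qf15_s t a) b = t * dt a b ∧
    dt a (qf15_s t b) = t * dt a b := by
  unfold qf15_s dt
  constructor <;> ring

/-- replace a fixed vector -/
theorem qf15_rp {p : ℕ} {w a e : ℤ × ℤ} (h : cg1 p a e) {t c : ℤ}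
    (h1 : (p : ℤ) ∣ t * dt w a - c) : (p : ℤ) ∣ dt w (qf15_s t e) - c := by
  rw [(qf15_s_dt _ _ _).2]
  have h2 := qf1_dt_cg (qf1_cg p w) h
  have e2 : t * dt w e - c = (t * dt w a - c) - t * (dt w a - dt w e) := by ring
  rw [e2]
  exact dvd_sub h1 (Dvd.dvd.mul_left h2 _)

/-- `w = L₁ u_0 + L₂ u_1` -/
def qf15_w (L : ℤ × ℤ) (u : PolyK 11) : ℤ × ℤ :=
  (L.1 * (u 0).1 + L.2 * (u 1).1, L.1 * (u 0).2 + L.2 * (u 1).2)

theorem qf15_w_dt (L : ℤ × ℤ) (u : PolyK 11) (a : ℤ × ℤ) :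
    dt (qf15_w L u) a = L.1 * dt (u 0) a + L.2 * dt (u 1) a := by
  unfold qf15_w dt
  ring

theorem qf15_dt_cv (L : ℤ × ℤ) (u : PolyK 11) (k : Fin 11) :
    dt L (cv u k) = dt (qf15_w L u) (u k) := by
  unfold qf15_w cv dt
  ring

/-- the condition `u_k ∥ w` -/
def qf15_R (p : ℕ) (L : ℤ × ℤ) (k : Fin 11) (u : PolyK 11) : Prop :=
  ¬ qf15_Z p (qf15_w L u) ∧ (p : ℤ) ∣ dt (qf15_w L u) (u k) ∧ ¬ qf15_Z p (u k)

/-! ### one condition -/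

section
variable {p : ℕ} {m : Fin 11} {δ1 δ2 : ℤ}

theorem qf15_par {m : Fin 11} (hp : p.Prime) (h2 : FD.N0 < p) (hd : dOk m δ1 δ2) (h1 : ¬ (p : ℤ) ∣ δ1)
    (h2' : ¬ (p : ℤ) ∣ δ2) (j : Fin 11) (hj : fx m j = none) (w : PolyK 11 → ℤ × ℤ)
    (R E : PolyK 11 → Prop)
    (hw : ∀ u v : PolyK 11, (∀ i, i ∉ blk j → u i = v i) → w u = w v ∧ (R u ↔ R v))
    {G : ℝ} (hG : mL (Law11 m δ1 δ2 p) (fun u => ich (R u)) ≤ G)
    (hE : ∀ u ∈ Law11 m δ1 δ2 p, E u → R u ∧ ¬ qf15_Z p (w u) ∧ (p : ℤ) ∣ dt (u j) (w u)) :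
    mL (Law11 m δ1 δ2 p) (fun u => ich (E u)) ≤ 2 / (p : ℝ) * G := by
  have e1 := par_le hp h2 hd h1 h2' j hj w (fun u => ich (R u))
    (fun u v h => ⟨(hw u v h).1, by
      have := (hw u v h).2
      by_cases hr : R u
      · rw [qf15_ich_true hr, qf15_ich_true (this.1 hr)]
      · rw [qf15_ich_false hr, qf15_ich_false (fun h' => hr (this.2 h'))]⟩)
    (fun u => qf15_ich_nonneg _)
  refine (qf15_mono ?_).trans (e1.trans (mul_le_mul_of_nonneg_left hG (by positivity)))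
  intro u hu
  exact qf15_ich_mul (hE u hu)

theorem qf15_aff {m : Fin 11} (hp : p.Prime) (h2 : FD.N0 < p) (hd : dOk m δ1 δ2) (h1 : ¬ (p : ℤ) ∣ δ1)
    (h2' : ¬ (p : ℤ) ∣ δ2) (j : Fin 11) (hj : fx m j = none) (w : PolyK 11 → ℤ × ℤ)
    (c : PolyK 11 → ℤ) (R E : PolyK 11 → Prop)
    (hw : ∀ u v : PolyK 11, (∀ i, i ∉ blk j → u i = v i) → w u = w v ∧ c u = c v ∧ (R u ↔ R v))
    (hf : ∀ u ∈ Law11 m δ1 δ2 p, ∀ i ∈ blk j, fx m i ≠ none → ¬ (p : ℤ) ∣ dt (w u) (u i))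
    {G : ℝ} (hG : mL (Law11 m δ1 δ2 p) (fun u => ich (R u)) ≤ G)
    (hE : ∀ u ∈ Law11 m δ1 δ2 p, E u → R u ∧ ¬ qf15_Z p (w u) ∧
      (p : ℤ) ∣ dt (u j) (w u) - c u) :
    mL (Law11 m δ1 δ2 p) (fun u => ich (E u)) ≤ 2 / (p : ℝ) * G := by
  have e1 := aff_le hp h2 hd h1 h2' j hj w c (fun u => ich (R u))
    (fun u v h => ⟨(hw u v h).1, (hw u v h).2.1, by
      have := (hw u v h).2.2
      by_cases hr : R u
      · rw [qf15_ich_true hr, qf15_ich_true (this.1 hr)]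
      · rw [qf15_ich_false hr, qf15_ich_false (fun h' => hr (this.2 h'))]⟩)
    (fun u => qf15_ich_nonneg _) (fun u hu _ => hf u hu)
  refine (qf15_mono ?_).trans (e1.trans (mul_le_mul_of_nonneg_left hG (by positivity)))
  intro u hu
  exact qf15_ich_mul (hE u hu)

theorem qf15_empty {m : Fin 11} {E : PolyK 11 → Prop} (hE : ∀ u ∈ Law11 m δ1 δ2 p, ¬ E u) {B : ℝ}
    (hB : 0 ≤ B) : mL (Law11 m δ1 δ2 p) (fun u => ich (E u)) ≤ B := by
  refine (qf15_mono (h' := fun _ => 0) ?_).trans ?_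
  · intro u hu
    rw [qf15_ich_false (hE u hu)]
  · rw [qf15_zero]
    exact hB

theorem qf15_true : mL (Law11 m δ1 δ2 p) (fun _ => ich True) ≤ 1 := by
  rw [qf15_ich_true trivial]
  exact qf15_one _

theorem qf15_comb1 : ∀ m v : Fin 11, (v = m ∨ v = m + 1) → v ≠ 0 → v ≠ 1 → v ≠ 2 → v ≠ 10 →
    ((0 : Fin 11) ≠ m ∧ (0 : Fin 11) ≠ m + 1 ∧ (1 : Fin 11) ≠ m ∧ (1 : Fin 11) ≠ m + 1) ∧
      ∀ i ∈ blk 0, (i = m ∨ i = m + 1) → m = 9 ∧ i = 10 ∧ v = 9 := by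
  decide +kernel

theorem qf15_comb2 : ∀ v : Fin 11, v ≠ 0 → v ≠ 1 → v ≠ 2 → v ≠ 10 →
    (0 : Fin 11) ∉ blk v ∧ (1 : Fin 11) ∉ blk v := by
  decide +kernel

/-- `u_k ∥ w` with probability at most `2/p` -/
theorem qf15_Rb {m : Fin 11} (hp : p.Prime) (h2 : FD.N0 < p) (hd : dOk m δ1 δ2) (h1 : ¬ (p : ℤ) ∣ δ1)
    (h2' : ¬ (p : ℤ) ∣ δ2) {L : ℤ × ℤ} (hL : ¬ ((p : ℤ) ∣ L.1 ∧ (p : ℤ) ∣ L.2)) {v : Fin 11}
    (hv0 : v ≠ 0) (hv1 : v ≠ 1) (hv2 : v = 2 → m ≠ 2) (hv10 : v = 10 → m ≠ 9) :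
    mL (Law11 m δ1 δ2 p) (fun u => ich (qf15_R p L v u)) ≤ 2 / (p : ℝ) := by
  have hP := Nat.prime_iff_prime_int.1 hp
  have hp1 : ¬ (p : ℤ) ∣ 1 := fun h => hP.not_dvd_one h
  rw [show 2 / (p : ℝ) = 2 / p * 1 by ring]
  have hpos : (0 : ℝ) ≤ 2 / (p : ℝ) * 1 := by positivity
  by_cases e2 : v = 2
  · -- `v = 2`
    subst e2
    have hm2 := hv2 rfl
    have key : ∀ u ∈ Law11 m δ1 δ2 p, qf15_R p L 2 u →
        (p : ℤ) ∣ L.1 * dt (u 0) (u 2) + L.2 * δ1 := by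
      intro u hu hR
      obtain ⟨_, l1, l2⟩ := qf15_law hu
      have a1 := hR.2.1
      rw [qf15_w_dt] at a1
      have : L.1 * dt (u 0) (u 2) + L.2 * δ1 = (L.1 * dt (u 0) (u 2) + L.2 * dt (u 1) (u 2)) -
        L.2 * (dt (u 1) (u 2) - δ1) := by ring
      rw [this]
      exact dvd_sub a1 (dvd_mul_of_dvd_right l1 _)
    by_cases hl : (p : ℤ) ∣ L.1
    · apply qf15_empty _ hpos
      intro u hu hR
      have a3 : (p : ℤ) ∣ L.2 * δ1 :=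
        (dvd_add_right (dvd_mul_of_dvd_left hl _)).1 (key u hu hR)
      exact hL ⟨hl, (hP.dvd_or_dvd a3).resolve_right h1⟩
    by_cases hm1 : m = 1
    · subst hm1
      apply qf15_aff hp h2 hd h1 h2' 0 (fx_none (by decide) (by decide)) (fun u => qf15_s L.1 (1, 0))
        (fun _ => -(L.2 * δ1)) (fun _ => True) _ (fun u v h => ⟨rfl, rfl, Iff.rfl⟩) _
        qf15_true
      · intro u hu hR
        obtain ⟨l0, l1, l2⟩ := qf15_law hu
        have a0 : cg1 p (u 2) (1, 0) := l0 2 (1, 0) (fx_1 1)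
        refine ⟨trivial, qf15_s_ne hp hl (fun h => hp1 h.1), ?_⟩
        refine qf15_rp a0 ?_
        rw [sub_neg_eq_add]
        exact key u hu hR
      · intro u hu i hi hfi
        exfalso
        have : ∀ i ∈ blk 0, ¬ (i = 1 ∨ i = (1 : Fin 11) + 1) := by decide +kernel
        exact this i hi (qf15_fxne hfi)
    · have hfx2 : fx m 2 = none := by
        apply qf15_fx (Ne.symm hm2)
        intro h
        apply hm1
        have : ∀ m : Fin 11, 2 = m + 1 → m = 1 := by decide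
        exact this m h
      apply qf15_aff hp h2 hd h1 h2' 2 hfx2 (fun u => qf15_s L.1 (u 0))
        (fun _ => L.2 * δ1) (fun _ => True) _
        (fun u v h => ⟨by rw [h 0 (by decide)], rfl, Iff.rfl⟩) _ qf15_true
      · intro u hu hR
        obtain ⟨l0, l1, l2⟩ := qf15_law hu
        have hd2 : ¬ (p : ℤ) ∣ dt (u 10) (u 0) := by
          intro h
          exact h2' ((dvd_sub_right h).1 l2)
        refine ⟨trivial, qf15_s_ne hp hl (qf15_ne_right hd2), ?_⟩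
        rw [(qf15_s_dt _ _ _).2]
        have : L.1 * dt (u 2) (u 0) - L.2 * δ1 = -(L.1 * dt (u 0) (u 2) + L.2 * δ1) := by
          unfold dt; ring
        rw [this]
        exact (dvd_neg).2 (key u hu hR)
      · intro u hu i hi hfi hdv
        obtain ⟨l0, l1, l2⟩ := qf15_law hu
        have hc : ∀ m i : Fin 11, m ≠ 1 → m ≠ 2 → i ∈ blk 2 → (i = m ∨ i = m + 1) →
            m = 0 ∧ i = 1 := by decide +kernel
        obtain ⟨rfl, rfl⟩ := hc m i hm1 hm2 hi (qf15_fxne hfi)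
        rw [(qf15_s_dt _ _ _).1] at hdv
        exact hl ((hP.dvd_or_dvd hdv).resolve_right
          (qf15_zz hp h2 (l0 0 _ (fx_z 0)) (l0 1 _ (fx_1 0))))
  by_cases e10 : v = 10
  · -- `v = 10`
    subst e10
    have hm9 := hv10 rfl
    have key : ∀ u ∈ Law11 m δ1 δ2 p, qf15_R p L 10 u →
        (p : ℤ) ∣ L.2 * dt (u 1) (u 10) - L.1 * δ2 := by
      intro u hu hR
      obtain ⟨_, l1, l2⟩ := qf15_law hu
      have a1 := hR.2.1
      rw [qf15_w_dt] at a1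
      have : L.2 * dt (u 1) (u 10) - L.1 * δ2 = (L.1 * dt (u 0) (u 10) + L.2 * dt (u 1) (u 10)) +
        L.1 * (dt (u 10) (u 0) - δ2) := by unfold dt; ring
      rw [this]
      exact dvd_add a1 (dvd_mul_of_dvd_right l2 _)
    by_cases hl : (p : ℤ) ∣ L.2
    · apply qf15_empty _ hpos
      intro u hu hR
      have a3 : (p : ℤ) ∣ L.1 * δ2 :=
        (dvd_sub_right (dvd_mul_of_dvd_left hl _)).1 (key u hu hR)
      exact hL ⟨(hP.dvd_or_dvd a3).resolve_right h2', hl⟩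
    by_cases hm10 : m = 10
    · subst hm10
      apply qf15_aff hp h2 hd h1 h2' 1 (fx_none (by decide) (by decide))
        (fun u => qf15_s L.2 FD.z)
        (fun _ => L.1 * δ2) (fun _ => True) _ (fun u v h => ⟨rfl, rfl, Iff.rfl⟩) _
        qf15_true
      · intro u hu hR
        obtain ⟨l0, l1, l2⟩ := qf15_law hu
        have a0 : cg1 p (u 10) FD.z := l0 10 _ (fx_z 10)
        refine ⟨trivial, qf15_s_ne hp hl (qf15_gcd hp FD.zc), ?_⟩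
        exact qf15_rp a0 (key u hu hR)
      · intro u hu i hi hfi
        exfalso
        have : ∀ i ∈ blk 1, ¬ (i = 10 ∨ i = (10 : Fin 11) + 1) := by decide +kernel
        exact this i hi (qf15_fxne hfi)
    · have hfx2 : fx m 10 = none := by
        apply qf15_fx (Ne.symm hm10)
        intro h
        apply hm9
        have : ∀ m : Fin 11, 10 = m + 1 → m = 9 := by decide
        exact this m h
      apply qf15_aff hp h2 hd h1 h2' 10 hfx2 (fun u => qf15_s L.2 (u 1))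
        (fun _ => -(L.1 * δ2)) (fun _ => True) _
        (fun u v h => ⟨by rw [h 1 (by decide)], rfl, Iff.rfl⟩) _ qf15_true
      · intro u hu hR
        obtain ⟨l0, l1, l2⟩ := qf15_law hu
        have hd2 : ¬ (p : ℤ) ∣ dt (u 1) (u 2) := by
          intro h
          exact h1 ((dvd_sub_right h).1 l1)
        refine ⟨trivial, qf15_s_ne hp hl (qf15_ne_left hd2), ?_⟩
        rw [(qf15_s_dt _ _ _).2]
        have : L.2 * dt (u 10) (u 1) - -(L.1 * δ2) = -(L.2 * dt (u 1) (u 10) - L.1 * δ2) := by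
          unfold dt; ring
        rw [this]
        exact (dvd_neg).2 (key u hu hR)
      · intro u hu i hi hfi hdv
        obtain ⟨l0, l1, l2⟩ := qf15_law hu
        have hc : ∀ m i : Fin 11, m ≠ 9 → m ≠ 10 → i ∈ blk 10 → (i = m ∨ i = m + 1) →
            m = 0 ∧ i = 0 := by decide +kernel
        obtain ⟨rfl, rfl⟩ := hc m i hm9 hm10 hi (qf15_fxne hfi)
        rw [(qf15_s_dt _ _ _).1] at hdv
        exact hl ((hP.dvd_or_dvd hdv).resolve_right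
          (fun h => qf15_zz hp h2 (l0 0 _ (fx_z 0)) (l0 1 _ (fx_1 0)) (qf15_symm h)))
  -- single vertices
  obtain ⟨hb0, hb1⟩ := qf15_comb2 v hv0 hv1 e2 e10
  by_cases hfv : fx m v = none
  · apply qf15_par hp h2 hd h1 h2' v hfv (qf15_w L) (fun _ => True) _
      (fun u u' h => ⟨by unfold qf15_w; rw [h 0 hb0, h 1 hb1], Iff.rfl⟩) qf15_true
    intro u hu hR
    exact ⟨trivial, hR.1, qf15_symm hR.2.1⟩
  · -- fixed
    have hfm := qf15_fxne hfv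
    obtain ⟨⟨k1, k2, k3, k4⟩, k5⟩ := qf15_comb1 m v hfm hv0 hv1 e2 e10
    obtain ⟨c, hc⟩ : ∃ c, fx m v = some c := Option.ne_none_iff_exists'.1 hfv
    have hcz : ¬ qf15_Z p c := qf15_gcd hp (fx_gcd hc)
    by_cases hl : (p : ℤ) ∣ L.1
    · have hl2 : ¬ (p : ℤ) ∣ L.2 := fun h => hL ⟨hl, h⟩
      apply qf15_par hp h2 hd h1 h2' 1 (qf15_fx k3 k4) (fun _ => c) (fun _ => True) _
        (fun u u' h => ⟨rfl, Iff.rfl⟩) qf15_true
      intro u hu hR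
      obtain ⟨l0, _, _⟩ := qf15_law hu
      have a1 := qf15_cgd (l0 v c hc) hR.2.1
      rw [qf15_w_dt] at a1
      have a2 := (dvd_add_right (dvd_mul_of_dvd_left hl _)).1 a1
      exact ⟨trivial, hcz, (hP.dvd_or_dvd a2).resolve_left hl2⟩
    · apply qf15_aff hp h2 hd h1 h2' 0 (qf15_fx k1 k2) (fun _ => qf15_s L.1 c)
        (fun u => -(L.2 * dt (u 1) c)) (fun _ => True) _
        (fun u u' h => ⟨rfl, by rw [h 1 (by decide)], Iff.rfl⟩) _ qf15_true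
      · intro u hu hR
        obtain ⟨l0, _, _⟩ := qf15_law hu
        have a1 := qf15_cgd (l0 v c hc) hR.2.1
        rw [qf15_w_dt] at a1
        refine ⟨trivial, qf15_s_ne hp hl hcz, ?_⟩
        rw [(qf15_s_dt _ _ _).2, sub_neg_eq_add]
        exact a1
      · intro u hu i hi hfi hdv
        obtain ⟨l0, _, _⟩ := qf15_law hu
        obtain ⟨rfl, rfl, rfl⟩ := k5 i hi (qf15_fxne hfi)
        have a0 : c = FD.z := (Option.some.inj ((fx_z 9).symm.trans hc)).symm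
        rw [(qf15_s_dt _ _ _).1, a0] at hdv
        exact hl ((hP.dvd_or_dvd hdv).resolve_right
          (qf15_zz hp h2 (qf1_cg p _) (l0 10 _ (fx_1 9))))

/-! ### two conditions -/

theorem qf15_A {m : Fin 11} (hp : p.Prime) (h2 : FD.N0 < p) (hd : dOk m δ1 δ2) (h1 : ¬ (p : ℤ) ∣ δ1)
    (h2' : ¬ (p : ℤ) ∣ δ2) {L : ℤ × ℤ} (hL : ¬ ((p : ℤ) ∣ L.1 ∧ (p : ℤ) ∣ L.2)) {v v' : Fin 11}
    (hv : fx m v = none) (hb0 : (0 : Fin 11) ∉ blk v) (hb1 : (1 : Fin 11) ∉ blk v)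
    (hb' : v' ∉ blk v) (hv0 : v' ≠ 0) (hv1 : v' ≠ 1) (hv2 : v' = 2 → m ≠ 2)
    (hv10 : v' = 10 → m ≠ 9) {E : PolyK 11 → Prop}
    (hE : ∀ u ∈ Law11 m δ1 δ2 p, E u → qf15_R p L v' u ∧ (p : ℤ) ∣ dt (u v) (u v')) :
    mL (Law11 m δ1 δ2 p) (fun u => ich (E u)) ≤ 2 / (p : ℝ) * (2 / (p : ℝ)) := by
  apply qf15_par hp h2 hd h1 h2' v hv (fun u => u v') (qf15_R p L v') E _
    (qf15_Rb hp h2 hd h1 h2' hL hv0 hv1 hv2 hv10)
  · intro u hu he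
    obtain ⟨a1, a2⟩ := hE u hu he
    exact ⟨a1, a1.2.2, a2⟩
  · intro u u' h
    refine ⟨h v' hb', ?_⟩
    unfold qf15_R qf15_w
    rw [h 0 hb0, h 1 hb1, h v' hb']

theorem qf15_B1 (hp : p.Prime) (h2 : FD.N0 < p) (hd : dOk 3 δ1 δ2) (h1 : ¬ (p : ℤ) ∣ δ1)
    (h2' : ¬ (p : ℤ) ∣ δ2) {L : ℤ × ℤ} (hL : ¬ ((p : ℤ) ∣ L.1 ∧ (p : ℤ) ∣ L.2))
    {E : PolyK 11 → Prop}
    (hE : ∀ u ∈ Law11 3 δ1 δ2 p, E u → qf15_R p L 2 u ∧ (p : ℤ) ∣ dt (u 2) (u 3)) :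
    mL (Law11 3 δ1 δ2 p) (fun u => ich (E u)) ≤ 2 / (p : ℝ) * (2 / (p : ℝ)) := by
  have hP := Nat.prime_iff_prime_int.1 hp
  have hcz : ¬ qf15_Z p FD.z := qf15_gcd hp FD.zc
  have hE' : ∀ u ∈ Law11 3 δ1 δ2 p, E u → (p : ℤ) ∣ dt (u 2) FD.z ∧
      (p : ℤ) ∣ L.1 * dt (u 0) FD.z + L.2 * dt (u 1) FD.z := by
    intro u hu he
    obtain ⟨a1, a2⟩ := hE u hu he
    obtain ⟨l0, _, _⟩ := qf15_law hu
    have a3 : cg1 p (u 3) FD.z := l0 3 _ (fx_z 3)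
    replace a2 := qf15_cgd a3 a2
    refine ⟨a2, ?_⟩
    rw [← qf15_w_dt]
    exact qf15_trans hp a1.2.1 a2 a1.2.2
  by_cases hl : (p : ℤ) ∣ L.1
  · apply qf15_empty _ (by positivity)
    intro u hu he
    obtain ⟨a1, a2⟩ := hE' u hu he
    obtain ⟨_, l1, _⟩ := qf15_law hu
    have hl2 : ¬ (p : ℤ) ∣ L.2 := fun h => hL ⟨hl, h⟩
    have a3 := (dvd_add_right (dvd_mul_of_dvd_left hl _)).1 a2
    have a4 := (hP.dvd_or_dvd a3).resolve_left hl2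
    have a5 := qf15_trans hp a4 (qf15_symm a1) hcz
    exact h1 ((dvd_sub_right a5).1 l1)
  · apply qf15_aff hp h2 hd h1 h2' 0 (fx_none (by decide) (by decide)) (fun _ => qf15_s L.1 FD.z)
      (fun u => -(L.2 * dt (u 1) FD.z)) (fun u => (p : ℤ) ∣ dt (u 2) FD.z) E
      (fun u u' h => ⟨rfl, by rw [h 1 (by decide)], by rw [h 2 (by decide)]⟩)
    · intro u hu i hi hfi
      exfalso
      have : ∀ i ∈ blk 0, ¬ (i = 3 ∨ i = (3 : Fin 11) + 1) := by decide +kernel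
      exact this i hi (qf15_fxne hfi)
    · rw [show 2 / (p : ℝ) = 2 / p * 1 by ring]
      apply qf15_par hp h2 hd h1 h2' 2 (fx_none (by decide) (by decide)) (fun _ => FD.z) (fun _ => True) _
        (fun u u' h => ⟨rfl, Iff.rfl⟩) qf15_true
      intro u _ h
      exact ⟨trivial, hcz, h⟩
    · intro u hu he
      obtain ⟨a1, a2⟩ := hE' u hu he
      refine ⟨a1, qf15_s_ne hp hl hcz, ?_⟩
      rw [(qf15_s_dt _ _ _).2, sub_neg_eq_add]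
      exact a2

theorem qf15_B2 (hp : p.Prime) (h2 : FD.N0 < p) (hd : dOk 8 δ1 δ2) (h1 : ¬ (p : ℤ) ∣ δ1)
    (h2' : ¬ (p : ℤ) ∣ δ2) {L : ℤ × ℤ} (hL : ¬ ((p : ℤ) ∣ L.1 ∧ (p : ℤ) ∣ L.2))
    {E : PolyK 11 → Prop}
    (hE : ∀ u ∈ Law11 8 δ1 δ2 p, E u → qf15_R p L 9 u ∧ (p : ℤ) ∣ dt (u 9) (u 10)) :
    mL (Law11 8 δ1 δ2 p) (fun u => ich (E u)) ≤ 2 / (p : ℝ) * (2 / (p : ℝ)) := by
  have hP := Nat.prime_iff_prime_int.1 hp
  have hp1 : ¬ (p : ℤ) ∣ 1 := fun h => hP.not_dvd_one h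
  have hcz : ¬ qf15_Z p (1, 0) := fun h => hp1 h.1
  have hE' : ∀ u ∈ Law11 8 δ1 δ2 p, E u → (p : ℤ) ∣ dt (u 10) (1, 0) ∧
      (p : ℤ) ∣ L.1 * dt (u 0) (1, 0) + L.2 * dt (u 1) (1, 0) := by
    intro u hu he
    obtain ⟨a1, a2⟩ := hE u hu he
    obtain ⟨l0, _, _⟩ := qf15_law hu
    have a3 : cg1 p (u 9) (1, 0) := l0 9 (1, 0) (fx_1 8)
    have a4 := qf15_cgd a3 a1.2.1
    replace a2 := qf15_cgd a3 (qf15_symm a2)
    refine ⟨a2, ?_⟩
    rw [← qf15_w_dt]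
    exact a4
  by_cases hl : (p : ℤ) ∣ L.2
  · apply qf15_empty _ (by positivity)
    intro u hu he
    obtain ⟨a1, a2⟩ := hE' u hu he
    obtain ⟨_, _, l2⟩ := qf15_law hu
    have hl2 : ¬ (p : ℤ) ∣ L.1 := fun h => hL ⟨h, hl⟩
    have a3 := (dvd_add_left (dvd_mul_of_dvd_left hl _)).1 a2
    have a4 := (hP.dvd_or_dvd a3).resolve_left hl2
    have a5 := qf15_trans hp a1 (qf15_symm a4) hcz
    exact h2' ((dvd_sub_right a5).1 l2)
  · apply qf15_aff hp h2 hd h1 h2' 1 (fx_none (by decide) (by decide)) (fun _ => qf15_s L.2 (1, 0))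
      (fun u => -(L.1 * dt (u 0) (1, 0))) (fun u => (p : ℤ) ∣ dt (u 10) (1, 0)) E
      (fun u u' h => ⟨rfl, by rw [h 0 (by decide)], by rw [h 10 (by decide)]⟩)
    · intro u hu i hi hfi
      exfalso
      have : ∀ i ∈ blk 1, ¬ (i = 8 ∨ i = (8 : Fin 11) + 1) := by decide +kernel
      exact this i hi (qf15_fxne hfi)
    · rw [show 2 / (p : ℝ) = 2 / p * 1 by ring]
      apply qf15_par hp h2 hd h1 h2' 10 (fx_none (by decide) (by decide)) (fun _ => (1, 0)) (fun _ => True) _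
        (fun u u' h => ⟨rfl, Iff.rfl⟩) qf15_true
      intro u _ h
      exact ⟨trivial, hcz, h⟩
    · intro u hu he
      obtain ⟨a1, a2⟩ := hE' u hu he
      refine ⟨a1, qf15_s_ne hp hl hcz, ?_⟩
      rw [(qf15_s_dt _ _ _).2, sub_neg_eq_add, add_comm]
      exact a2

theorem qf15_comb3 : ∀ m k : Fin 11, k ≠ 0 → k ≠ 1 → k ≠ -1 → k ≠ m →
    (k + 1 ≠ m ∧ k + 1 ≠ m + 1 ∧ (0 : Fin 11) ∉ blk (k + 1) ∧ (1 : Fin 11) ∉ blk (k + 1) ∧
      k ∉ blk (k + 1)) ∨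
    (k ≠ m ∧ k ≠ m + 1 ∧ (0 : Fin 11) ∉ blk k ∧ (1 : Fin 11) ∉ blk k ∧ k + 1 ∉ blk k) ∨
    (k = 2 ∧ m = 3) ∨ (k = 9 ∧ m = 8) := by
  decide +kernel

theorem qf15_comb4 : ∀ m k : Fin 11, k ≠ 0 → k ≠ 1 → k ≠ -1 → k ≠ m →
    (k ≠ 0 ∧ k ≠ 1 ∧ (k = 2 → m ≠ 2) ∧ (k = 10 → m ≠ 9)) ∧
      (k + 1 ≠ 0 ∧ k + 1 ≠ 1 ∧ (k + 1 = 2 → m ≠ 2) ∧ (k + 1 = 10 → m ≠ 9)) := by
  decide +kernel

/-- `k ≠ 0` -/
theorem qf15_k {m : Fin 11} (hp : p.Prime) (h2 : FD.N0 < p) (hd : dOk m δ1 δ2) (h1 : ¬ (p : ℤ) ∣ δ1)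
    (h2' : ¬ (p : ℤ) ∣ δ2) {L : ℤ × ℤ} (hL : ¬ ((p : ℤ) ∣ L.1 ∧ (p : ℤ) ∣ L.2)) {k : Fin 11}
    (hk0 : k ≠ 0) (hk1 : k ≠ 1) (hk10 : k ≠ -1) (hkm : k ≠ m) :
    mL (Law11 m δ1 δ2 p) (fun u => ich (qf15_R p L k u ∧ (p : ℤ) ∣ dl u k ∧
      ¬ qf15_Z p (u (k + 1)))) ≤ 2 / (p : ℝ) * (2 / (p : ℝ)) := by
  obtain ⟨⟨a1, a2, a3, a4⟩, b1, b2, b3, b4⟩ := qf15_comb4 m k hk0 hk1 hk10 hkm
  rcases qf15_comb3 m k hk0 hk1 hk10 hkm with ⟨c1, c2, c3, c4, c5⟩ | ⟨c1, c2, c3, c4, c5⟩ |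
    ⟨rfl, rfl⟩ | ⟨rfl, rfl⟩
  · apply qf15_A hp h2 hd h1 h2' hL (v := k + 1) (v' := k) (qf15_fx c1 c2) c3 c4 c5 a1 a2 a3 a4
    intro u _ he
    exact ⟨he.1, qf15_symm he.2.1⟩
  · apply qf15_A hp h2 hd h1 h2' hL (v := k) (v' := k + 1) (qf15_fx c1 c2) c3 c4 c5 b1 b2 b3 b4
    intro u _ he
    exact ⟨⟨he.1.1, qf15_trans hp he.1.2.1 he.2.1 he.1.2.2, he.2.2⟩, he.2.1⟩
  · exact qf15_B1 hp h2 hd h1 h2' hL (fun u _ he => ⟨he.1, he.2.1⟩)
  · exact qf15_B2 hp h2 hd h1 h2' hL (fun u _ he => ⟨he.1, he.2.1⟩)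

/-! ### `k = 0`: counting -/

theorem qf15_L1 {p : ℕ} {a : ℤ × ℤ} (h : a ∈ L1 p) : (0 ≤ a.1 ∧ a.1 < p) ∧ 0 ≤ a.2 ∧ a.2 < p := by
  unfold L1 at h
  simp only [Finset.mem_product, Finset.mem_Ico] at h
  exact h

theorem qf15_uniq {p : ℕ} {x y : ℤ} (hx : 0 ≤ x ∧ x < p) (hy : 0 ≤ y ∧ y < p)
    (h : (p : ℤ) ∣ x - y) : x = y := by
  have h1 : |x - y| < p := by
    rw [abs_lt]
    constructor <;> linarith [hx.1, hx.2, hy.1, hy.2]
  have := Int.eq_zero_of_abs_lt_dvd h h1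
  linarith

theorem qf15_same {p : ℕ} (hp : p.Prime) {t : ℤ} (ht : ¬ (p : ℤ) ∣ t) {a b c : ℤ × ℤ}
    (ha : a ∈ L1 p) (hb : b ∈ L1 p) (h1 : (p : ℤ) ∣ t * a.1 + c.1 ∧ (p : ℤ) ∣ t * a.2 + c.2)
    (h2 : (p : ℤ) ∣ t * b.1 + c.1 ∧ (p : ℤ) ∣ t * b.2 + c.2) : a = b := by
  have hP := Nat.prime_iff_prime_int.1 hp
  have hA := qf15_L1 ha
  have hB := qf15_L1 hb
  apply Prod.ext
  · apply qf15_uniq hA.1 hB.1
    have : (p : ℤ) ∣ t * (a.1 - b.1) := by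
      have e : t * (a.1 - b.1) = (t * a.1 + c.1) - (t * b.1 + c.1) := by ring
      rw [e]
      exact dvd_sub h1.1 h2.1
    exact (hP.dvd_or_dvd this).resolve_left ht
  · apply qf15_uniq hA.2 hB.2
    have : (p : ℤ) ∣ t * (a.2 - b.2) := by
      have e : t * (a.2 - b.2) = (t * a.2 + c.2) - (t * b.2 + c.2) := by ring
      rw [e]
      exact dvd_sub h1.2 h2.2
    exact (hP.dvd_or_dvd this).resolve_left ht

theorem qf15_L2 {p : ℕ} {δ : ℤ} {v : (ℤ × ℤ) × (ℤ × ℤ)} (h : v ∈ L2 δ p) :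
    v.1 ∈ L1 p ∧ v.2 ∈ L1 p ∧ (p : ℤ) ∣ dt v.1 v.2 - δ := by
  unfold L2 at h
  rw [Finset.mem_filter, Finset.mem_product] at h
  exact ⟨h.1.1, h.1.2, h.2⟩

open Classical in
theorem qf15_cnt1 {p : ℕ} (hp : p.Prime) {δ t : ℤ} (hδ : ¬ (p : ℤ) ∣ δ) (ht : ¬ (p : ℤ) ∣ t)
    (c : ℤ × ℤ) : ((L2 δ p).filter (fun v => (p : ℤ) ∣ t * v.1.1 + c.1 ∧
      (p : ℤ) ∣ t * v.1.2 + c.2)).card ≤ p := by
  by_cases hne : ((L2 δ p).filter (fun v => (p : ℤ) ∣ t * v.1.1 + c.1 ∧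
      (p : ℤ) ∣ t * v.1.2 + c.2)).Nonempty
  · obtain ⟨v0, hv0⟩ := hne
    rw [Finset.mem_filter] at hv0
    obtain ⟨k1, k2, k3⟩ := qf15_L2 hv0.1
    have hz : ¬ qf15_Z p v0.1 := qf15_ne_left (fun h => hδ ((dvd_sub_right h).1 k3))
    refine le_trans ?_ (fib_card hp hz δ).le
    apply Finset.card_le_card_of_injOn (fun v => v.2)
    · intro v hv
      rw [Finset.mem_coe, Finset.mem_filter] at hv
      obtain ⟨l1, l2, l3⟩ := qf15_L2 hv.1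
      have e := qf15_same hp ht l1 k1 hv.2 hv0.2
      rw [Finset.mem_coe, Finset.mem_filter]
      rw [e] at l3
      exact ⟨l2, l3⟩
    · intro v hv w hw hvw
      rw [Finset.mem_coe, Finset.mem_filter] at hv hw
      obtain ⟨l1, _, _⟩ := qf15_L2 hv.1
      obtain ⟨m1, _, _⟩ := qf15_L2 hw.1
      exact Prod.ext (qf15_same hp ht l1 m1 hv.2 hw.2) hvw
  · rw [Finset.not_nonempty_iff_eq_empty] at hne
    rw [hne]
    simp

open Classical in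
theorem qf15_cnt2 {p : ℕ} (hp : p.Prime) {δ t : ℤ} (hδ : ¬ (p : ℤ) ∣ δ) (ht : ¬ (p : ℤ) ∣ t)
    (c : ℤ × ℤ) : ((L2 δ p).filter (fun v => (p : ℤ) ∣ t * v.2.1 + c.1 ∧
      (p : ℤ) ∣ t * v.2.2 + c.2)).card ≤ p := by
  by_cases hne : ((L2 δ p).filter (fun v => (p : ℤ) ∣ t * v.2.1 + c.1 ∧
      (p : ℤ) ∣ t * v.2.2 + c.2)).Nonempty
  · obtain ⟨v0, hv0⟩ := hne
    rw [Finset.mem_filter] at hv0
    obtain ⟨k1, k2, k3⟩ := qf15_L2 hv0.1
    have hz : ¬ qf15_Z p v0.2 := qf15_ne_right (fun h => hδ ((dvd_sub_right h).1 k3))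
    refine le_trans ?_ (fib_card hp hz (-δ)).le
    apply Finset.card_le_card_of_injOn (fun v => v.1)
    · intro v hv
      rw [Finset.mem_coe, Finset.mem_filter] at hv
      obtain ⟨l1, l2, l3⟩ := qf15_L2 hv.1
      have e := qf15_same hp ht l2 k2 hv.2 hv0.2
      rw [Finset.mem_coe, Finset.mem_filter]
      rw [e] at l3
      refine ⟨l1, ?_⟩
      have e2 : dt v0.2 v.1 - -δ = -(dt v.1 v0.2 - δ) := by unfold dt; ring
      dsimp only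
      rw [e2]
      exact (dvd_neg).2 l3
    · intro v hv w hw hvw
      rw [Finset.mem_coe, Finset.mem_filter] at hv hw
      obtain ⟨_, l1, _⟩ := qf15_L2 hv.1
      obtain ⟨_, m1, _⟩ := qf15_L2 hw.1
      exact Prod.ext hvw (qf15_same hp ht l1 m1 hv.2 hw.2)
  · rw [Finset.not_nonempty_iff_eq_empty] at hne
    rw [hne]
    simp

theorem qf15_LS (δ : ℤ) (p : ℕ) : LS none none δ p = L2 δ p := by
  classical
  unfold LS
  apply Finset.filter_true_of_mem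
  intro v _
  exact ⟨fun c h => by simp at h, fun c h => by simp at h⟩

theorem qf15_ratio {N M Sx P num : ℝ} (hN : 0 ≤ N) (hS : 0 ≤ Sx) (hP : 3 ≤ P)
    (hM : M = P * (P ^ 2 - 1)) (hnum : num ≤ N * P * Sx) :
    num / (N * M * Sx) ≤ 2 / P ^ 2 := by
  have hP0 : 0 < P := by linarith
  have hP1 : 0 < P ^ 2 - 1 := by nlinarith
  have hM0 : 0 < M := by rw [hM]; positivity
  rcases (mul_nonneg hN hS).eq_or_lt with h | h
  · have : N * M * Sx = 0 := by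
      calc N * M * Sx = M * (N * Sx) := by ring
        _ = 0 := by rw [← h, mul_zero]
    rw [this, div_zero]
    positivity
  · have h1 : 0 < N * M * Sx := by
      have : N * M * Sx = M * (N * Sx) := by ring
      rw [this]
      positivity
    rw [div_le_div_iff₀ h1 (by positivity)]
    have h2 : N * P * Sx * P ^ 2 ≤ 2 * (N * M * Sx) := by
      rw [hM]
      have h3 : N * P * Sx * P ^ 2 = (N * Sx) * P * P ^ 2 := by ring
      have h4 : 2 * (N * (P * (P ^ 2 - 1)) * Sx) = (N * Sx) * P * (2 * (P ^ 2 - 1)) := by ring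
      rw [h3, h4]
      apply mul_le_mul_of_nonneg_left _ (by positivity)
      nlinarith
    have h3 := mul_le_mul_of_nonneg_right hnum (by positivity : 0 ≤ P ^ 2)
    linarith

theorem qf15_cast {p : ℕ} (hp : p.Prime) {δ : ℤ} (hδ : ¬ (p : ℤ) ∣ δ) :
    ((L2 δ p).card : ℝ) = p * ((p : ℝ) ^ 2 - 1) := by
  have := L2_card hp hδ
  exact_mod_cast this

theorem qf15_sum_ich {V : Type} (S : Finset V) (F : V → Prop) [DecidablePred F] :
    ∑ v ∈ S, ich (F v) = ((S.filter F).card : ℝ) := by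
  rw [Finset.card_filter]
  push_cast
  apply Finset.sum_congr rfl
  intro v _
  by_cases h : F v
  · rw [qf15_ich_true h, if_pos h]
  · rw [qf15_ich_false h, if_neg h]

/-- `w = 0` with probability at most `2/p²` -/
theorem qf15_0 (hp : p.Prime) (h2 : FD.N0 < p) (h1 : ¬ (p : ℤ) ∣ δ1)
    (h2' : ¬ (p : ℤ) ∣ δ2) {L : ℤ × ℤ} (hL1 : ¬ (p : ℤ) ∣ L.1) (hL2 : ¬ (p : ℤ) ∣ L.2)
    (hm : m ≠ 0) :
    mL (Law11 m δ1 δ2 p) (fun u => ich (qf15_Z p (qf15_w L u))) ≤ 2 / (p : ℝ) ^ 2 := by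
  classical
  have hp3 : (3 : ℝ) ≤ p := by
    have h3 : 3 ≤ p := lt_of_le_of_lt FD.two h2
    exact_mod_cast h3
  have hcard : ((Law11 m δ1 δ2 p).card : ℝ) = ∑ u ∈ Law11 m δ1 δ2 p, (1 : ℝ) := by simp
  unfold mL
  rw [hcard, Law11_sum, Law11_sum]
  have hw : ∀ v w s, qf15_w L (asm11 ((v, w), s)) =
      (L.1 * w.2.1 + L.2 * v.1.1, L.1 * w.2.2 + L.2 * v.1.2) := fun v w s => rfl
  simp only [hw, Finset.sum_const, nsmul_eq_mul, mul_one]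
  set Sx : ℝ := ((Fintype.piFinset (fun j => LL1 (fx m (sv j)) p)).card : ℝ) with hSx
  have hc : ∀ m : Fin 11, m ≠ 0 → (0 ≠ m ∧ 0 ≠ m + 1 ∧ 10 ≠ m ∧ 10 ≠ m + 1) ∨
      (1 ≠ m ∧ 1 ≠ m + 1 ∧ 2 ≠ m ∧ 2 ≠ m + 1) := by decide +kernel
  rcases hc m hm with ⟨k1, k2, k3, k4⟩ | ⟨k1, k2, k3, k4⟩
  · rw [qf15_fx k1 k2, qf15_fx k3 k4, qf15_LS]
    set N : ℝ := ((LS (fx m 1) (fx m 2) δ1 p).card : ℝ) with hN
    have hden : N * (((L2 δ2 p).card : ℝ) * Sx) = N * ((p : ℝ) * ((p : ℝ) ^ 2 - 1)) * Sx := by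
      rw [qf15_cast hp h2']
      ring
    rw [hden]
    apply qf15_ratio (Nat.cast_nonneg _) (Nat.cast_nonneg _) hp3 rfl
    calc ∑ v ∈ LS (fx m 1) (fx m 2) δ1 p, ∑ w ∈ L2 δ2 p, Sx *
          ich ((p : ℤ) ∣ L.1 * w.2.1 + L.2 * v.1.1 ∧ (p : ℤ) ∣ L.1 * w.2.2 + L.2 * v.1.2)
        ≤ ∑ v ∈ LS (fx m 1) (fx m 2) δ1 p, Sx * p := by
          apply Finset.sum_le_sum
          intro v _
          rw [← Finset.mul_sum]
          apply mul_le_mul_of_nonneg_left _ (Nat.cast_nonneg _)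
          rw [qf15_sum_ich]
          have := qf15_cnt2 hp h2' hL1 (qf15_s L.2 v.1)
          exact_mod_cast this
      _ = N * p * Sx := by
          rw [Finset.sum_const, nsmul_eq_mul]
          ring
  · rw [qf15_fx k1 k2, qf15_fx k3 k4, qf15_LS, Finset.sum_comm]
    set N : ℝ := ((LS (fx m 10) (fx m 0) δ2 p).card : ℝ) with hN
    have hden : ((L2 δ1 p).card : ℝ) * (N * Sx) = N * ((p : ℝ) * ((p : ℝ) ^ 2 - 1)) * Sx := by
      rw [qf15_cast hp h1]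
      ring
    rw [hden]
    apply qf15_ratio (Nat.cast_nonneg _) (Nat.cast_nonneg _) hp3 rfl
    calc ∑ w ∈ LS (fx m 10) (fx m 0) δ2 p, ∑ v ∈ L2 δ1 p, Sx *
          ich ((p : ℤ) ∣ L.1 * w.2.1 + L.2 * v.1.1 ∧ (p : ℤ) ∣ L.1 * w.2.2 + L.2 * v.1.2)
        ≤ ∑ w ∈ LS (fx m 10) (fx m 0) δ2 p, Sx * p := by
          apply Finset.sum_le_sum
          intro w _
          rw [← Finset.mul_sum]
          apply mul_le_mul_of_nonneg_left _ (Nat.cast_nonneg _)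
          have e : ∀ v : (ℤ × ℤ) × (ℤ × ℤ),
              ich ((p : ℤ) ∣ L.1 * w.2.1 + L.2 * v.1.1 ∧ (p : ℤ) ∣ L.1 * w.2.2 + L.2 * v.1.2) =
              ich ((p : ℤ) ∣ L.2 * v.1.1 + (qf15_s L.1 w.2).1 ∧
                (p : ℤ) ∣ L.2 * v.1.2 + (qf15_s L.1 w.2).2) := by
            intro v
            unfold qf15_s
            rw [add_comm (L.1 * w.2.1), add_comm (L.1 * w.2.2)]
          rw [Finset.sum_congr rfl (fun v _ => e v), qf15_sum_ich]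
          have := qf15_cnt1 hp h1 hL2 (qf15_s L.1 w.2)
          exact_mod_cast this
      _ = N * p * Sx := by
          rw [Finset.sum_const, nsmul_eq_mul]
          ring

end

theorem law11_G_pr : ∃ C : ℝ, 1 ≤ C ∧ ∀ p : ℕ, p.Prime → FD.N0 < p → ∀ (m : Fin 11) (δ1 δ2 : ℤ),
    dOk m δ1 δ2 → ¬ (p : ℤ) ∣ δ1 → ¬ (p : ℤ) ∣ δ2 → ∀ L : ℤ × ℤ,
    ¬ ((p : ℤ) ∣ L.1 ∧ (p : ℤ) ∣ L.2) → ∀ k ∈ inr 11 \ {m},
    mL (Law11 m δ1 δ2 p) (fun u => ich ((p : ℤ) ∣ dl u k ∧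
      (p : ℤ) ∣ dt L (if k = 0 then cv u 2 else cv u k) ∧
      ¬ ((p : ℤ) ∣ (u k).1 ∧ (p : ℤ) ∣ (u k).2) ∧
      ¬ ((p : ℤ) ∣ (u (k + 1)).1 ∧ (p : ℤ) ∣ (u (k + 1)).2))) ≤ C / (p : ℝ) ^ 2 := by
  obtain ⟨Cb, hCb, hb⟩ := law11_b
  refine ⟨Cb + 4, by linarith, ?_⟩
  intro p hp h2 m δ1 δ2 hd h1 h2' L hL k hk
  have hP := Nat.prime_iff_prime_int.1 hp
  have hp1 : ¬ (p : ℤ) ∣ 1 := fun h => hP.not_dvd_one h
  have hp0 : (0 : ℝ) < p := by exact_mod_cast hp.pos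
  have hp2 : (0 : ℝ) ≤ 2 / (p : ℝ) ^ 2 := by positivity
  obtain ⟨k1, k10, km⟩ := qf15_inr hk
  have hsum : (Cb + 4) / (p : ℝ) ^ 2 = Cb / (p : ℝ) ^ 2 + 2 / p * (2 / p) := by
    field_simp
    norm_num
  rw [hsum]
  have hCb2 : 0 ≤ Cb / (p : ℝ) ^ 2 := by positivity
  by_cases k0 : k = 0
  · subst k0
    have h24 : 2 / (p : ℝ) ^ 2 ≤ 2 / p * (2 / p) := by
      have : 2 / (p : ℝ) * (2 / p) = 2 / (p : ℝ) ^ 2 + 2 / (p : ℝ) ^ 2 := by
        field_simp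
        norm_num
      linarith
    have hE : ∀ u ∈ Law11 m δ1 δ2 p, ((p : ℤ) ∣ dl u 0 ∧
        (p : ℤ) ∣ dt L (if (0 : Fin 11) = 0 then cv u 2 else cv u 0) ∧
        ¬ ((p : ℤ) ∣ (u 0).1 ∧ (p : ℤ) ∣ (u 0).2) ∧
        ¬ ((p : ℤ) ∣ (u (0 + 1)).1 ∧ (p : ℤ) ∣ (u (0 + 1)).2)) →
        qf15_Z p (qf15_w L u) ∧ ¬ (p : ℤ) ∣ L.1 ∧ ¬ (p : ℤ) ∣ L.2 := by
      intro u hu ⟨e1, e2, e3, e4⟩
      obtain ⟨_, l1, l2⟩ := qf15_law hu
      rw [if_pos rfl, qf15_dt_cv] at e2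
      have e1' : (p : ℤ) ∣ dt (u 0) (u 1) := e1
      have e4' : ¬ qf15_Z p (u 1) := e4
      have hz : qf15_Z p (qf15_w L u) := by
        apply qf15_indep hp (a := u 1) (b := u 2)
          (fun h => h1 ((dvd_sub_right h).1 l1)) _ e2
        rw [qf15_w_dt]
        apply dvd_add (dvd_mul_of_dvd_right e1' _)
        have : dt (u 1) (u 1) = 0 := by unfold dt; ring
        rw [this, mul_zero]
        exact dvd_zero _
      refine ⟨hz, ?_, ?_⟩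
      · intro hl
        have hl2 : ¬ (p : ℤ) ∣ L.2 := fun h => hL ⟨hl, h⟩
        apply e4'
        constructor
        · have := (dvd_add_right (dvd_mul_of_dvd_left hl _)).1 hz.1
          exact (hP.dvd_or_dvd this).resolve_left hl2
        · have := (dvd_add_right (dvd_mul_of_dvd_left hl _)).1 hz.2
          exact (hP.dvd_or_dvd this).resolve_left hl2
      · intro hl
        have hl2 : ¬ (p : ℤ) ∣ L.1 := fun h => hL ⟨h, hl⟩
        apply e3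
        constructor
        · have := (dvd_add_left (dvd_mul_of_dvd_left hl _)).1 hz.1
          exact (hP.dvd_or_dvd this).resolve_left hl2
        · have := (dvd_add_left (dvd_mul_of_dvd_left hl _)).1 hz.2
          exact (hP.dvd_or_dvd this).resolve_left hl2
    by_cases hLL : ¬ (p : ℤ) ∣ L.1 ∧ ¬ (p : ℤ) ∣ L.2
    · have h3 := qf15_0 (m := m) hp h2 h1 h2' hLL.1 hLL.2 (Ne.symm km)
      refine (qf15_mono ?_).trans (h3.trans ?_)
      · intro u hu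
        exact qf15_ich_mono (fun h => (hE u hu h).1)
      · linarith
    · apply qf15_empty _ (by positivity)
      intro u hu h
      exact hLL (hE u hu h).2
  · -- `k ≠ 0`
    have h3 : mL (Law11 m δ1 δ2 p) (fun u => ich ((p : ℤ) ∣ dl u k ∧ (p : ℤ) ∣ dl u 0)) ≤
        Cb / (p : ℝ) ^ 2 := by
      by_cases hm0 : m = 0
      · subst hm0
        apply qf15_empty _ hCb2
        intro u hu h
        obtain ⟨l0, _, _⟩ := qf15_law hu
        have h4 : (p : ℤ) ∣ dt (u 0) (u 1) := h.2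
        exact qf15_zz hp h2 (l0 0 _ (fx_z 0)) (l0 1 _ (fx_1 0)) h4
      · apply hb p hp h2 m δ1 δ2 hd h1 h2' k hk 0 _ k0
        unfold inr
        simp only [Finset.mem_sdiff, Finset.mem_filter, Finset.mem_univ, true_and,
          Finset.mem_singleton]
        exact ⟨by decide, Ne.symm hm0⟩
    have h4 := qf15_k hp h2 hd h1 h2' hL k0 k1 k10 km
    refine (qf15_mono (h' := fun u => ich ((p : ℤ) ∣ dl u k ∧ (p : ℤ) ∣ dl u 0) +
      ich (qf15_R p L k u ∧ (p : ℤ) ∣ dl u k ∧ ¬ qf15_Z p (u (k + 1)))) ?_).trans ?_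
    · intro u hu
      apply qf15_ich_cases
      rintro ⟨e1, e2, e3, e4⟩
      rw [if_neg k0, qf15_dt_cv] at e2
      by_cases h0 : (p : ℤ) ∣ dl u 0
      · exact Or.inl ⟨e1, h0⟩
      · right
        refine ⟨⟨?_, e2, e3⟩, e1, e4⟩
        intro hz
        have h0' : ¬ (p : ℤ) ∣ dt (u 0) (u 1) := h0
        apply hL
        have b1 : (p : ℤ) ∣ dt (qf15_w L u) (u 1) := by
          unfold dt
          exact dvd_sub (dvd_mul_of_dvd_left hz.1 _) (dvd_mul_of_dvd_left hz.2 _)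
        have b0 : (p : ℤ) ∣ dt (qf15_w L u) (u 0) := by
          unfold dt
          exact dvd_sub (dvd_mul_of_dvd_left hz.1 _) (dvd_mul_of_dvd_left hz.2 _)
        rw [qf15_w_dt] at b1 b0
        have c1 : dt (u 1) (u 1) = 0 := by unfold dt; ring
        have c0 : dt (u 0) (u 0) = 0 := by unfold dt; ring
        rw [c1, mul_zero, add_zero] at b1
        rw [c0, mul_zero, zero_add] at b0
        exact ⟨(hP.dvd_or_dvd b1).resolve_right h0',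
          (hP.dvd_or_dvd b0).resolve_right (fun h => h0' (qf15_symm h))⟩
    · rw [qf15_add]
      linarith

end Pool.Agent.AQ.PENK

namespace Pool.Agent.AQ.PENK

theorem law11_G : type_of% @law11_G_pr := @law11_G_pr

end Pool.Agent.AQ.PENK
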