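import Pool.Agent.Lib_helper18.AQ.K.DefsW
import Pool.Agent.Lib_helper18.PENKF.PF6
import Pool.Agent.Lib_helper18.AQ.KF.QF1
import Pool.Agent.Lib_helper18.AQ.KF.QF2
import Pool.Agent.Lib_helper18.PENKF.QF3

set_option autoImplicit false

namespace Pool.Agent.AQ.PENK

open Finset Pool.Agent.PENT Pool.Agent.PENK

variable [FD]

theorem qf4_slot1 {κ x : ℝ} {m : Fin 11} {i : Fin 11 → ℕ} (h : PSiz κ m x i) {δ1 δ2 : ℤ}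
    (hd : dOk m δ1 δ2) :
    (fx m 1 = none ∧ fx m 2 = none ∧ x ^ (4 * κ) ≤ (2 : ℝ) ^ (i 1 + 1) ∧
        x ^ (4 * κ) ≤ (2 : ℝ) ^ (i 2 + 1) ∧
        x ^ (4 * κ) ≤ (2 : ℝ) ^ (max (i 1) (i 2) - min (i 1) (i 2) + 1) ∧
        (2 : ℝ) ^ i 1 ≤ x ∧ (2 : ℝ) ^ i 2 ≤ x) ∨
      (∃ c, Int.gcd c.1 c.2 = 1 ∧ fx m 1 = some c ∧ fx m 2 = none ∧
        x ^ (4 * κ) ≤ (2 : ℝ) ^ (i 2 + 1)) ∨
      (∃ c, Int.gcd c.1 c.2 = 1 ∧ fx m 1 = none ∧ fx m 2 = some c ∧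
        x ^ (4 * κ) ≤ (2 : ℝ) ^ (i 1 + 1)) ∨
      (∃ c c', fx m 1 = some c ∧ fx m 2 = some c' ∧ δ1 = dt c c') := by
  have key : ∀ m : Fin 11, (1 = m → 2 = m + 1) ∧ (1 = m + 1 → 2 ≠ m ∧ 2 ≠ m + 1) := by decide
  rcases fx_cases m 1 with ⟨h1, h2, h3⟩ | ⟨h1, h2⟩ | ⟨h1, h2⟩
  · rcases hf : fx m 2 with _ | c
    · exact Or.inl ⟨h1, rfl, h.lo 1 h1, h.lo 2 hf, h.g1 h1 hf, h.hi 1, h.hi 2⟩
    · exact Or.inr (Or.inr (Or.inl ⟨c, fx_gcd hf, h1, rfl, h.lo 1 h1⟩))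
  · have h3 := (key m).1 h2
    refine Or.inr (Or.inr (Or.inr ⟨FD.z, (1, 0), h1, by rw [h3]; exact fx_1 m, ?_⟩))
    rw [hd.1 h2.symm]
    unfold dt
    ring
  · have h3 := fx_none ((key m).2 h2).1 ((key m).2 h2).2
    exact Or.inr (Or.inl ⟨(1, 0), rfl, h1, h3, h.lo 2 h3⟩)

theorem qf4_slot2 {κ x : ℝ} {m : Fin 11} {i : Fin 11 → ℕ} (h : PSiz κ m x i) {δ1 δ2 : ℤ}
    (hd : dOk m δ1 δ2) :
    (fx m 10 = none ∧ fx m 0 = none ∧ x ^ (4 * κ) ≤ (2 : ℝ) ^ (i 10 + 1) ∧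
        x ^ (4 * κ) ≤ (2 : ℝ) ^ (i 0 + 1) ∧
        x ^ (4 * κ) ≤ (2 : ℝ) ^ (max (i 10) (i 0) - min (i 10) (i 0) + 1) ∧
        (2 : ℝ) ^ i 10 ≤ x ∧ (2 : ℝ) ^ i 0 ≤ x) ∨
      (∃ c, Int.gcd c.1 c.2 = 1 ∧ fx m 10 = some c ∧ fx m 0 = none ∧
        x ^ (4 * κ) ≤ (2 : ℝ) ^ (i 0 + 1)) ∨
      (∃ c, Int.gcd c.1 c.2 = 1 ∧ fx m 10 = none ∧ fx m 0 = some c ∧
        x ^ (4 * κ) ≤ (2 : ℝ) ^ (i 10 + 1)) ∨
      (∃ c c', fx m 10 = some c ∧ fx m 0 = some c' ∧ δ2 = dt c c') := by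
  have key : ∀ m : Fin 11, (10 = m → 0 = m + 1) ∧ (10 = m + 1 → 0 ≠ m ∧ 0 ≠ m + 1) := by decide
  have e10 : (-1 : Fin 11) = 10 := by decide
  rcases fx_cases m 10 with ⟨h1, h2, h3⟩ | ⟨h1, h2⟩ | ⟨h1, h2⟩
  · rcases hf : fx m 0 with _ | c
    · have h4 := h.g4 (e10 ▸ h1) hf
      rw [e10] at h4
      exact Or.inl ⟨h1, rfl, h.lo 10 h1, h.lo 0 hf, h4, h.hi 10, h.hi 0⟩
    · exact Or.inr (Or.inr (Or.inl ⟨c, fx_gcd hf, h1, rfl, h.lo 10 h1⟩))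
  · have h3 := (key m).1 h2
    refine Or.inr (Or.inr (Or.inr ⟨FD.z, (1, 0), h1, by rw [h3]; exact fx_1 m, ?_⟩))
    rw [hd.2 h2.symm]
    unfold dt
    ring
  · have h3 := fx_none ((key m).2 h2).1 ((key m).2 h2).2
    exact Or.inr (Or.inl ⟨(1, 0), rfl, h1, h3, h.lo 0 h3⟩)

theorem qf4_single {κ x : ℝ} {m : Fin 11} {i : Fin 11 → ℕ} (h : PSiz κ m x i) (j : Fin 11) :
    (fx m j = none ∧ x ^ (4 * κ) ≤ (2 : ℝ) ^ (i j + 1)) ∨ ∃ c, fx m j = some c := by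
  rcases hf : fx m j with _ | c
  · exact Or.inl ⟨rfl, h.lo j hf⟩
  · exact Or.inr ⟨c, rfl⟩

/-- the parts of a path -/
def qf4_inv (u : PolyK 11) :
    (((ℤ × ℤ) × (ℤ × ℤ)) × ((ℤ × ℤ) × (ℤ × ℤ))) × (Fin 7 → ℤ × ℤ) :=
  (((u 1, u 2), (u 10, u 0)), fun j => u (sv j))

theorem qf4_asm_inv (u : PolyK 11) : asm11 (qf4_inv u) = u := by
  funext j
  fin_cases j <;> rfl

theorem qf4_inv_asm (v : (((ℤ × ℤ) × (ℤ × ℤ)) × ((ℤ × ℤ) × (ℤ × ℤ))) × (Fin 7 → ℤ × ℤ)) :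
    qf4_inv (asm11 v) = v := by
  obtain ⟨⟨⟨a, b⟩, ⟨c, d⟩⟩, s⟩ := v
  unfold qf4_inv
  refine Prod.ext rfl ?_
  funext j
  fin_cases j <;> rfl

theorem qf4_forall (P : Fin 11 → Prop) :
    (∀ j, P j) ↔ ((P 1 ∧ P 2) ∧ (P 10 ∧ P 0)) ∧ ∀ j : Fin 7, P (sv j) := by
  constructor
  · intro h
    exact ⟨⟨⟨h 1, h 2⟩, ⟨h 10, h 0⟩⟩, fun j => h (sv j)⟩
  · rintro ⟨⟨⟨h1, h2⟩, ⟨h10, h0⟩⟩, h⟩ j
    fin_cases j
    · exact h0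
    · exact h1
    · exact h2
    · exact h 0
    · exact h 1
    · exact h 2
    · exact h 3
    · exact h 4
    · exact h 5
    · exact h 6
    · exact h10

/-- the law as a product -/
theorem qf4_mem (m : Fin 11) (δ1 δ2 : ℤ) (p : ℕ) (u : PolyK 11) :
    u ∈ Law11 m δ1 δ2 p ↔ qf4_inv u ∈ (LS (fx m 1) (fx m 2) δ1 p ×ˢ LS (fx m 10) (fx m 0) δ2 p) ×ˢ
      Fintype.piFinset (fun j => LL1 (fx m (sv j)) p) := by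
  classical
  unfold Law11 LS L2
  rw [Finset.mem_filter, Fintype.mem_piFinset, Finset.mem_product, Finset.mem_product,
    Finset.mem_filter, Finset.mem_filter, Finset.mem_filter, Finset.mem_filter,
    Finset.mem_product, Finset.mem_product, Fintype.mem_piFinset, qf4_forall (fun j => u j ∈ L1 p),
    qf4_forall (fun j => ∀ c, fx m j = some c → cg1 p (u j) c)]
  have hs : (∀ j : Fin 7, (qf4_inv u).2 j ∈ LL1 (fx m (sv j)) p) ↔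
      (∀ j : Fin 7, u (sv j) ∈ L1 p) ∧ ∀ j : Fin 7, ∀ c, fx m (sv j) = some c → cg1 p (u (sv j)) c := by
    constructor
    · intro h
      refine ⟨fun j => ?_, fun j => ?_⟩
      · have := h j
        unfold LL1 at this
        exact (Finset.mem_filter.mp this).1
      · have := h j
        unfold LL1 at this
        exact (Finset.mem_filter.mp this).2
    · rintro ⟨h1, h2⟩ j
      unfold LL1
      exact Finset.mem_filter.mpr ⟨h1 j, h2 j⟩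
  rw [hs]
  show ((((u 1 ∈ L1 p ∧ u 2 ∈ L1 p) ∧ u 10 ∈ L1 p ∧ u 0 ∈ L1 p) ∧ ∀ j : Fin 7, u (sv j) ∈ L1 p) ∧
      ((((∀ c, fx m 1 = some c → cg1 p (u 1) c) ∧ ∀ c, fx m 2 = some c → cg1 p (u 2) c) ∧
        (∀ c, fx m 10 = some c → cg1 p (u 10) c) ∧ ∀ c, fx m 0 = some c → cg1 p (u 0) c) ∧
        ∀ j : Fin 7, ∀ c, fx m (sv j) = some c → cg1 p (u (sv j)) c) ∧
      (p : ℤ) ∣ dt (u 1) (u 2) - δ1 ∧ (p : ℤ) ∣ dt (u 10) (u 0) - δ2) ↔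
    (((((u 1 ∈ L1 p ∧ u 2 ∈ L1 p) ∧ (p : ℤ) ∣ dt (u 1) (u 2) - δ1) ∧
        (∀ c, fx m 1 = some c → cg1 p (u 1) c) ∧ ∀ c, fx m 2 = some c → cg1 p (u 2) c) ∧
      ((u 10 ∈ L1 p ∧ u 0 ∈ L1 p) ∧ (p : ℤ) ∣ dt (u 10) (u 0) - δ2) ∧
        (∀ c, fx m 10 = some c → cg1 p (u 10) c) ∧ ∀ c, fx m 0 = some c → cg1 p (u 0) c) ∧
      (∀ j : Fin 7, u (sv j) ∈ L1 p) ∧ ∀ j : Fin 7, ∀ c, fx m (sv j) = some c → cg1 p (u (sv j)) c)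
  tauto

theorem qf4_mean (m : Fin 11) (δ1 δ2 : ℤ) (p : ℕ) (h : PolyK 11 → ℝ) :
    mG ((LS (fx m 1) (fx m 2) δ1 p ×ˢ LS (fx m 10) (fx m 0) δ2 p) ×ˢ
      Fintype.piFinset (fun j => LL1 (fx m (sv j)) p)) (fun v => h (asm11 v)) =
      mL (Law11 m δ1 δ2 p) h := by
  have hsum : ∀ f : PolyK 11 → ℝ, ∑ v ∈ (LS (fx m 1) (fx m 2) δ1 p ×ˢ
      LS (fx m 10) (fx m 0) δ2 p) ×ˢ Fintype.piFinset (fun j => LL1 (fx m (sv j)) p),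
      f (asm11 v) = ∑ u ∈ Law11 m δ1 δ2 p, f u := by
    intro f
    refine Finset.sum_nbij' asm11 qf4_inv ?_ ?_ ?_ ?_ ?_
    · intro v hv
      rw [qf4_mem, qf4_inv_asm]
      exact hv
    · intro u hu
      exact (qf4_mem m δ1 δ2 p u).mp hu
    · intro v _
      exact qf4_inv_asm v
    · intro u _
      exact qf4_asm_inv u
    · intro v _
      rfl
  have hcard : (((LS (fx m 1) (fx m 2) δ1 p ×ˢ LS (fx m 10) (fx m 0) δ2 p) ×ˢ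
      Fintype.piFinset (fun j => LL1 (fx m (sv j)) p)).card : ℝ) =
      ((Law11 m δ1 δ2 p).card : ℝ) := by
    have h1 := hsum (fun _ => 1)
    rw [Finset.sum_const, Finset.sum_const, nsmul_eq_mul, nsmul_eq_mul, mul_one, mul_one] at h1
    exact h1
  unfold mG mL
  rw [hsum, hcard]

theorem qf4_cg (p : ℕ) (v w : (((ℤ × ℤ) × (ℤ × ℤ)) × ((ℤ × ℤ) × (ℤ × ℤ))) × (Fin 7 → ℤ × ℤ))
    (h : (cg2 p v.1.1 w.1.1 ∧ cg2 p v.1.2 w.1.2) ∧ ∀ i, cg1 p (v.2 i) (w.2 i)) (j : Fin 11) :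
    (p : ℤ) ∣ (asm11 v j).1 - (asm11 w j).1 ∧ (p : ℤ) ∣ (asm11 v j).2 - (asm11 w j).2 := by
  obtain ⟨⟨⟨h1, h2⟩, ⟨h10, h0⟩⟩, hs⟩ := h
  revert j
  rw [qf4_forall (fun j => (p : ℤ) ∣ (asm11 v j).1 - (asm11 w j).1 ∧
    (p : ℤ) ∣ (asm11 v j).2 - (asm11 w j).2)]
  refine ⟨⟨⟨h1, h2⟩, ⟨h10, h0⟩⟩, ?_⟩
  intro j
  fin_cases j
  · exact hs 0
  · exact hs 1
  · exact hs 2
  · exact hs 3
  · exact hs 4
  · exact hs 5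
  · exact hs 6

/-- BLOCK QF4 -/
theorem path_equi_pr {κ : ℝ} (hκ : 0 < κ) (hκ1 : κ ≤ 1 / 10) : ∃ x₀ : ℝ, 1 ≤ x₀ ∧ ∀ x ≥ x₀,
    ∀ (m : Fin 11) (i : Fin 11 → ℕ), PSiz κ m x i → ∀ δ1 δ2 : ℤ, dOk m δ1 δ2 → ∀ S : Finset ℕ,
    (∀ p ∈ S, p.Prime ∧ FD.N0 < p ∧ ¬ (p : ℤ) ∣ δ1 ∧ ¬ (p : ℤ) ∣ δ2) →
    EquiF (O11 m i) (pol11 m i δ1 δ2) (Law11 m δ1 δ2) S (x ^ κ) (x ^ (-κ)) := by
  obtain ⟨xa, hxa, ha⟩ := slot_equi hκ hκ1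
  obtain ⟨xb, hxb, hb⟩ := single_equi hκ hκ1
  refine ⟨max 1 (max xa (max xb ((9 : ℝ) ^ (1 / (κ / 2))))), le_max_left _ _, ?_⟩
  intro x hx m i hi δ1 δ2 hd S hS
  have hx1 : 1 ≤ x := (le_max_left _ _).trans hx
  have hx2 := (le_max_right _ _).trans hx
  have hxa' : xa ≤ x := (le_max_left _ _).trans hx2
  have hx3 := (le_max_right _ _).trans hx2
  have hxb' : xb ≤ x := (le_max_left _ _).trans hx3
  have hx9 : (9 : ℝ) ^ (1 / (κ / 2)) ≤ x := (le_max_right _ _).trans hx3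
  have hx0 : 0 < x := by linarith
  have hκ2 : 0 < κ / 2 := by linarith
  have h9 : 9 ≤ x ^ (κ / 2) := by
    have h1 := Real.rpow_le_rpow (by positivity) hx9 hκ2.le
    rw [← Real.rpow_mul (by norm_num), one_div_mul_cancel hκ2.ne', Real.rpow_one] at h1
    exact h1
  obtain ⟨η, hη⟩ : ∃ η : ℝ, η = x ^ (-(3 / 2 * κ)) := ⟨_, rfl⟩
  have hη0 : 0 ≤ η := by rw [hη]; exact Real.rpow_nonneg hx0.le _
  have hη9 : 9 * η ≤ x ^ (-κ) := by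
    have h1 : x ^ (-κ) = x ^ (κ / 2) * η := by
      rw [hη, ← Real.rpow_add hx0]
      congr 1
      ring
    rw [h1]
    exact mul_le_mul_of_nonneg_right h9 hη0
  have e1 := ha x hxa' (fx m 1) (fx m 2) (i 1) (i 2) δ1 (qf4_slot1 hi hd) S
    (fun p hp => ⟨(hS p hp).1, (hS p hp).2.1, (hS p hp).2.2.1⟩)
  have e2 := ha x hxa' (fx m 10) (fx m 0) (i 10) (i 0) δ2 (qf4_slot2 hi hd) S
    (fun p hp => ⟨(hS p hp).1, (hS p hp).2.1, (hS p hp).2.2.2⟩)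
  have e3 : ∀ j : Fin 7, EquiG (O1 (fx m (sv j)) (i (sv j))) (fun v => v) cg1
      (LL1 (fx m (sv j))) S (x ^ κ) (x ^ (-(3 / 2 * κ))) := fun j =>
    hb x hxb' (fx m (sv j)) (i (sv j)) (qf4_single hi (sv j)) S
      (fun p hp => ⟨(hS p hp).1, (hS p hp).2.1⟩)
  rw [← hη] at e1 e2
  simp only [← hη] at e3
  have c1 : ∀ (p : ℕ) (v : ℤ × ℤ), cg1 p v v := fun p v => by
    unfold cg1
    rw [sub_self, sub_self]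
    exact ⟨dvd_zero _, dvd_zero _⟩
  have c2 : ∀ (p : ℕ) (v : (ℤ × ℤ) × (ℤ × ℤ)), cg2 p v v := fun p v => ⟨c1 p v.1, c1 p v.2⟩
  have e4 := equi_pi (fun j : Fin 7 => O1 (fx m (sv j)) (i (sv j))) cg1
    (fun j => LL1 (fx m (sv j))) c1 hη0 e3
  have e5 := equi_prod c2 c2 hη0 hη0 e1 e2
  have e6 := equi_prod (fun p v => ⟨c2 p v.1, c2 p v.2⟩) (fun p v j => c1 p (v j))
    (add_nonneg hη0 hη0) (mul_nonneg (Nat.cast_nonneg 7) hη0) e5 e4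
  intro T hT hTQ h hper h01
  have e7 := e6 T hT hTQ (fun p v => h p (asm11 v)) ?_ ?_
  · have hm : ∀ p, mG ((LS (fx m 1) (fx m 2) δ1 p ×ˢ LS (fx m 10) (fx m 0) δ2 p) ×ˢ
        Fintype.piFinset (fun j => LL1 (fx m (sv j)) p)) (fun v => h p (asm11 v)) =
        mL (Law11 m δ1 δ2 p) (h p) := fun p => qf4_mean m δ1 δ2 p (h p)
    have hprod : ∏ p ∈ T, mG ((LS (fx m 1) (fx m 2) δ1 p ×ˢ LS (fx m 10) (fx m 0) δ2 p) ×ˢ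
        Fintype.piFinset (fun j => LL1 (fx m (sv j)) p)) (fun v => h p (asm11 v)) =
        ∏ p ∈ T, mL (Law11 m δ1 δ2 p) (h p) := Finset.prod_congr rfl fun p _ => hm p
    have e8 : |∑ o ∈ O11 m i, ∏ p ∈ T, h p (pol11 m i δ1 δ2 o) -
        (O11 m i).card * ∏ p ∈ T, mL (Law11 m δ1 δ2 p) (h p)| ≤
        (η + η + (7 : ℕ) * η) * (O11 m i).card := by
      rw [← hprod]
      exact e7
    refine e8.trans (mul_le_mul_of_nonneg_right ?_ (Nat.cast_nonneg _))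
    push_cast
    linarith
  · intro p hp v w hvw
    exact hper p hp _ _ (fun j => qf4_cg p v w hvw j)
  · intro p hp v
    exact h01 p hp _

end Pool.Agent.AQ.PENK

namespace Pool.Agent.AQ.PENK

theorem path_equi : type_of% @path_equi_pr := @path_equi_pr

end Pool.Agent.AQ.PENK
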