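import Pool.Agent.Lib_helper18.AQ.K.DefsW
import Pool.Agent.Lib_helper18.PENKF.PF2

set_option autoImplicit false

namespace Pool.Agent.AQ.PENK

open Finset Pool.Agent.PENT Pool.Agent.PENK

variable [FD]

theorem qf6_icc (k : ℕ) : (Icc (-(k : ℤ)) (k : ℤ)).card = 2 * k + 1 := by
  rw [Int.card_Icc]
  omega

theorem qf6_sq (A : ℕ) : (PENK.sq A).card = (2 * A + 1) ^ 2 := by
  unfold PENK.sq
  rw [Finset.card_product, qf6_icc]
  ring

theorem qf6_pr (A : ℕ) : (pr A).card ≤ (2 * A + 1) ^ 2 := by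
  unfold pr
  refine (Finset.card_filter_le _ _).trans ?_
  rw [qf6_sq]

theorem qf6_OS (fa fb : Option (ℤ × ℤ)) (ia ib : ℕ) :
    (OS fa fb ia ib).card ≤ 432 * (2 ^ ia * 2 ^ ib) := by
  have ha : 1 ≤ 2 ^ ia := Nat.one_le_two_pow
  have hb : 1 ≤ 2 ^ ib := Nat.one_le_two_pow
  have hab : 2 ^ ia ≤ 2 ^ ia * 2 ^ ib := Nat.le_mul_of_pos_right _ hb
  have hba : 2 ^ ib ≤ 2 ^ ia * 2 ^ ib := Nat.le_mul_of_pos_left _ ha
  cases fa with
  | none =>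
    cases fb with
    | none =>
      show (OP (2 ^ (min ia ib + 1)) (4 * 2 ^ (max ia ib - min ia ib))).card ≤ _
      unfold OP
      rw [Finset.card_product, qf6_icc]
      have h1 := qf6_pr (2 ^ (min ia ib + 1))
      have hle : min ia ib ≤ max ia ib := (min_le_left _ _).trans (le_max_left _ _)
      have hsum : min ia ib + max ia ib = ia + ib := min_add_max ia ib
      have e1 : 2 ^ (min ia ib + 1) = 2 * 2 ^ min ia ib := by rw [pow_succ]; ring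
      obtain ⟨a, hA⟩ : ∃ a : ℕ, a = 2 ^ min ia ib := ⟨_, rfl⟩
      obtain ⟨b, hB⟩ : ∃ b : ℕ, b = 2 ^ (max ia ib - min ia ib) := ⟨_, rfl⟩
      have hprod : a ^ 2 * b = 2 ^ ia * 2 ^ ib := by
        rw [hA, hB, ← pow_mul, ← pow_add, ← pow_add]
        congr 1
        omega
      have ha1 : 1 ≤ a := by rw [hA]; exact Nat.one_le_two_pow
      have hb1 : 1 ≤ b := by rw [hB]; exact Nat.one_le_two_pow
      rw [e1, ← hA] at h1
      rw [e1, ← hA, ← hB, ← hprod]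
      have h2 : 2 * (2 * a) + 1 ≤ 5 * a := by omega
      have h3 : 2 * (4 * b) + 1 ≤ 9 * b := by omega
      calc (pr (2 * a)).card * (2 * (4 * b) + 1)
          ≤ (2 * (2 * a) + 1) ^ 2 * (2 * (4 * b) + 1) := Nat.mul_le_mul_right _ h1
        _ ≤ (5 * a) ^ 2 * (9 * b) := Nat.mul_le_mul (Nat.pow_le_pow_left h2 2) h3
        _ = 225 * (a ^ 2 * b) := by ring
        _ ≤ 432 * (a ^ 2 * b) := Nat.mul_le_mul_right _ (by norm_num)
    | some c =>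
      show (({(0, 0)} : Finset (ℤ × ℤ)) ×ˢ Icc (-((2 ^ (ia + 2) : ℕ) : ℤ))
        ((2 ^ (ia + 2) : ℕ) : ℤ)).card ≤ _
      rw [Finset.card_product, Finset.card_singleton, qf6_icc]
      have e1 : 2 ^ (ia + 2) = 4 * 2 ^ ia := by rw [pow_add]; ring
      omega
  | some c =>
    cases fb with
    | none =>
      show (({(0, 0)} : Finset (ℤ × ℤ)) ×ˢ Icc (-((2 ^ (ib + 2) : ℕ) : ℤ))
        ((2 ^ (ib + 2) : ℕ) : ℤ)).card ≤ _
      rw [Finset.card_product, Finset.card_singleton, qf6_icc]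
      have e1 : 2 ^ (ib + 2) = 4 * 2 ^ ib := by rw [pow_add]; ring
      omega
    | some c' =>
      show (({((0, 0), 0)} : Finset ((ℤ × ℤ) × ℤ))).card ≤ _
      rw [Finset.card_singleton]
      omega

theorem qf6_O1 (f : Option (ℤ × ℤ)) (i : ℕ) : (O1 f i).card ≤ 25 * (2 ^ i) ^ 2 := by
  have ha : 1 ≤ 2 ^ i := Nat.one_le_two_pow
  have ha2 : 1 ≤ (2 ^ i) ^ 2 := Nat.one_le_pow _ _ ha
  cases f with
  | none =>
    show (PENK.sq (2 ^ (i + 1))).card ≤ _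
    rw [qf6_sq]
    have e1 : 2 ^ (i + 1) = 2 * 2 ^ i := by rw [pow_succ]; ring
    have h2 : 2 * 2 ^ (i + 1) + 1 ≤ 5 * 2 ^ i := by omega
    calc (2 * 2 ^ (i + 1) + 1) ^ 2 ≤ (5 * 2 ^ i) ^ 2 := Nat.pow_le_pow_left h2 2
      _ = 25 * (2 ^ i) ^ 2 := by ring
  | some c =>
    show (({c} : Finset (ℤ × ℤ))).card ≤ _
    rw [Finset.card_singleton]
    omega

/-- BLOCK QF6 -/
theorem O11_card_pr (m : Fin 11) (i : Fin 11 → ℕ) :
    ((O11 m i).card : ℝ) ≤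
    10 ^ 20 * ((2 : ℝ) ^ i 0 * 2 ^ i 1 * 2 ^ i 2 * 2 ^ i 10 * ∏ j : Fin 7, (2 ^ i (sv j)) ^ 2) := by
  have h1 : (O11 m i).card ≤ 10 ^ 20 * (2 ^ i 0 * 2 ^ i 1 * 2 ^ i 2 * 2 ^ i 10 *
      ∏ j : Fin 7, (2 ^ i (sv j)) ^ 2) := by
    unfold O11
    rw [Finset.card_product, Finset.card_product, Fintype.card_piFinset]
    have e1 := qf6_OS (fx m 1) (fx m 2) (i 1) (i 2)
    have e2 := qf6_OS (fx m 10) (fx m 0) (i 10) (i 0)
    have e3 : ∏ j : Fin 7, (O1 (fx m (sv j)) (i (sv j))).card ≤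
        ∏ j : Fin 7, (25 * (2 ^ i (sv j)) ^ 2) :=
      Finset.prod_le_prod' fun j _ => qf6_O1 _ _
    have e4 : ∏ j : Fin 7, (25 * (2 ^ i (sv j)) ^ 2) =
        25 ^ 7 * ∏ j : Fin 7, (2 ^ i (sv j)) ^ 2 := by
      rw [Finset.prod_mul_distrib, Finset.prod_const, Finset.card_univ, Fintype.card_fin]
    rw [e4] at e3
    refine (Nat.mul_le_mul (Nat.mul_le_mul e1 e2) e3).trans ?_
    obtain ⟨P, hP⟩ : ∃ P : ℕ, P = ∏ j : Fin 7, (2 ^ i (sv j)) ^ 2 := ⟨_, rfl⟩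
    rw [← hP]
    calc 432 * (2 ^ i 1 * 2 ^ i 2) * (432 * (2 ^ i 10 * 2 ^ i 0)) * (25 ^ 7 * P)
        = 432 ^ 2 * 25 ^ 7 * (2 ^ i 0 * 2 ^ i 1 * 2 ^ i 2 * 2 ^ i 10 * P) := by ring
      _ ≤ 10 ^ 20 * (2 ^ i 0 * 2 ^ i 1 * 2 ^ i 2 * 2 ^ i 10 * P) :=
          Nat.mul_le_mul_right _ (by norm_num)
  exact_mod_cast h1

end Pool.Agent.AQ.PENK

namespace Pool.Agent.AQ.PENK

theorem O11_card : type_of% @O11_card_pr := @O11_card_pr

end Pool.Agent.AQ.PENK
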