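import Mathlib
import Pool.Agent.Lib_helper18.AQ.K.DefsW

/-! Block QH1: the density of the second sieve for paths -/

set_option autoImplicit false

namespace Pool.Agent.AQ.PENK

open Finset Pool.Agent.PENT Pool.Agent.PENK

variable [FD]

/-- BLOCK QH1: the density of the second sieve in the general form -/
theorem bden11_pr (m : Fin 11) (W : Wts 11) (P0 p : ℕ) : bden m W P0 p =
    if ¬ Sp p then eB3 m else if p ≤ P0 then eBP m W else eB1 m W := by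
  unfold bden eB3 eBP eB1
  rfl

/-- the number of interior edges -/
theorem card_inr11_pr (m : Fin 11) :
    (inr 11 \ {m}).card = if m = 1 ∨ m = 10 then 9 else 8 := by
  revert m
  decide

theorem qh1_card (m : Fin 11) : ((inr 11 \ {m}).card : ℝ) ≤ 9 := by
  rw [card_inr11_pr]
  split_ifs <;> norm_num

theorem qh1_ivr : (ivr 11).card = 9 := by decide

theorem qh1_div {a b : ℝ} (ha : 0 < a) (hb : 0 ≤ b) (c : ℝ) (hc0 : 0 ≤ c) :
    0 ≤ a * c / (a + b) ∧ a * c / (a + b) ≤ c := by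
  have h1 : 0 < a + b := by linarith
  refine ⟨by positivity, ?_⟩
  rw [div_le_iff₀ h1]
  nlinarith

theorem qh1_sum {ι : Type} (s : Finset ι) (f : ι → ℝ) (h0 : ∀ i, 0 ≤ f i) (h1 : ∀ i, f i ≤ 1)
    (n : ℝ) (hn : (s.card : ℝ) ≤ n) : 0 ≤ ∑ i ∈ s, f i ∧ ∑ i ∈ s, f i ≤ n := by
  refine ⟨Finset.sum_nonneg (fun i _ => h0 i), ?_⟩
  have h2 := Finset.sum_le_card_nsmul s f 1 (fun i _ => h1 i)
  rw [nsmul_eq_mul, mul_one] at h2
  linarith

/-- the exponents are bounded -/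
theorem eB_le_pr (m : Fin 11) (W : Wts 11) (hW : W.Ok) : 0 ≤ eB3 m ∧ eB3 m ≤ 100 ∧ 0 ≤ eBP m W ∧
    eBP m W ≤ 100 ∧ 0 ≤ eB1 m W ∧ eB1 m W ≤ 100 ∧ 0 ≤ eS1 W ∧ eS1 W ≤ 6 ∧ 0 ≤ eS0 W ∧
    eS0 W ≤ 6 := by
  have hc := qh1_card m
  have hc0 : (0 : ℝ) ≤ ((inr 11 \ {m}).card : ℝ) := Nat.cast_nonneg _
  have hv : ((ivr 11).card : ℝ) ≤ 9 := by
    rw [qh1_ivr]
    norm_num
  have b1 := qh1_sum (ivr 11) (fun k => 1 - W.bo k)
    (fun k => by have := hW.bo1 k; show 0 ≤ 1 - W.bo k; linarith)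
    (fun k => by have := hW.bo0 k; show 1 - W.bo k ≤ 1; linarith) 9 hv
  have b2 := qh1_sum (ivr 11) (fun k => 1 - W.be k)
    (fun k => by have := hW.be1 k; show 0 ≤ 1 - W.be k; linarith)
    (fun k => by have := hW.be0 k; show 1 - W.be k ≤ 1; linarith) 9 hv
  have b3 := qh1_sum (inr 11 \ {m}) (fun j => 1 - 2 * W.al j)
    (fun j => by have := hW.al1 j; show 0 ≤ 1 - 2 * W.al j; linarith)
    (fun j => by have := hW.al0 j; show 1 - 2 * W.al j ≤ 1; linarith) 9 hc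
  have b4 := qh1_div (hW.be0 0) (hW.al0 (-1)) (W.be 0) (hW.be0 0).le
  have b5 := qh1_div (hW.be0 1) (hW.al0 1) (W.be 1) (hW.be0 1).le
  have b6 := qh1_div (hW.be0 1) (hW.al0 1) (W.al 1) (hW.al0 1)
  have b7 := qh1_div (hW.be0 0) (hW.al0 (-1)) (W.al (-1)) (hW.al0 (-1))
  have s0 : 0 < W.be 0 + W.al (-1) := by
    have h1 := hW.be0 0
    have h2 := hW.al0 (-1)
    linarith
  have s1 : 0 < W.be 1 + W.al 1 := by
    have h1 := hW.be0 1
    have h2 := hW.al0 1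
    linarith
  have q1 : 0 ≤ W.al 1 ^ 2 / (W.be 1 + W.al 1) ∧ W.al 1 ^ 2 / (W.be 1 + W.al 1) ≤ W.al 1 := by
    refine ⟨by positivity, ?_⟩
    rw [div_le_iff₀ s1]
    have h1 := hW.be0 1
    have h2 := hW.al0 1
    nlinarith
  have q0 : 0 ≤ W.al (-1) ^ 2 / (W.be 0 + W.al (-1)) ∧
      W.al (-1) ^ 2 / (W.be 0 + W.al (-1)) ≤ W.al (-1) := by
    refine ⟨by positivity, ?_⟩
    rw [div_le_iff₀ s0]
    have h1 := hW.be0 0
    have h2 := hW.al0 (-1)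
    nlinarith
  have e1 : W.be 0 ^ 2 / W.s0 = W.be 0 * W.be 0 / (W.be 0 + W.al (-1)) := by
    unfold Wts.s0
    ring
  have e2 : W.be 1 ^ 2 / W.s1 = W.be 1 * W.be 1 / (W.be 1 + W.al 1) := by
    unfold Wts.s1
    ring
  have e3 : W.al 1 * W.be 1 / W.s1 = W.be 1 * W.al 1 / (W.be 1 + W.al 1) := by
    unfold Wts.s1
    ring
  have e4 : W.al (-1) * W.be 0 / W.s0 = W.be 0 * W.al (-1) / (W.be 0 + W.al (-1)) := by
    unfold Wts.s0
    ring
  have e5 : W.al 1 ^ 2 / W.s1 = W.al 1 ^ 2 / (W.be 1 + W.al 1) := rfl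
  have e6 : W.al (-1) ^ 2 / W.s0 = W.al (-1) ^ 2 / (W.be 0 + W.al (-1)) := rfl
  have u1 := hW.be1 0
  have u2 := hW.be1 1
  have u3 := hW.al1 1
  have u4 := hW.al1 (-1)
  have u5 := hW.bo0 0
  have u6 := hW.bo1 0
  have u7 := hW.bo0 1
  have u8 := hW.bo1 1
  unfold eB3 eBP eB1 eS1 eS0
  rw [e1, e2, e3, e4, e5, e6]
  refine ⟨?_, ?_, ?_, ?_, ?_, ?_, ?_, ?_, ?_, ?_⟩
  · linarith
  · linarith
  · linarith [b1.1]
  · linarith [b1.2]
  · linarith [b2.1, b3.1, b4.2, b5.2]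
  · linarith [b2.2, b3.2, b4.1, b5.1]
  · linarith [b6.1, q1.1]
  · linarith [b6.2, q1.2]
  · linarith [b7.1, q0.1]
  · linarith [b7.2, q0.2]

end Pool.Agent.AQ.PENK

namespace Pool.Agent.AQ.PENK

theorem bden11 : type_of% @bden11_pr := @bden11_pr

theorem card_inr11 : type_of% @card_inr11_pr := @card_inr11_pr

theorem eB_le : type_of% @eB_le_pr := @eB_le_pr

end Pool.Agent.AQ.PENK
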