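import Pool.Agent.Lib_helper18.AQ.K.DefsW
import Pool.Agent.Lib_helper68.LEV.MRT
import Pool.Agent.Lib_helper8.PENT.B.zk

/-! PENK (MP_892e4c_nt), block QH3 (helper76), after PH3 (helper53) -/

set_option autoImplicit false

namespace Pool.Agent.AQ.PENK

open Finset Pool.Agent.PENT Pool.Agent.PENK

variable [FD]

theorem qh3_pow (s : Finset ℕ) (g1 g2 : ℕ → ℝ) :
    ∑ A ∈ s.powerset, ∑ A' ∈ s.powerset,
      ∏ p ∈ A ∪ A', (if p ∈ A ∧ p ∈ A' then g2 p else g1 p) =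
      ∏ p ∈ s, (1 + 2 * g1 p + g2 p) := by
  classical
  induction s using Finset.induction_on with
  | empty => simp
  | @insert q s hq ih =>
    rw [prod_insert hq, ← ih, sum_powerset_insert hq]
    have hmem : ∀ A ∈ s.powerset, q ∉ A := fun A hA h => hq (mem_powerset.1 hA h)
    have f1 : ∀ A ∈ s.powerset, ∀ A' ∈ s.powerset,
        ∏ p ∈ A ∪ insert q A', (if p ∈ A ∧ p ∈ insert q A' then g2 p else g1 p) =
          g1 q * ∏ p ∈ A ∪ A', (if p ∈ A ∧ p ∈ A' then g2 p else g1 p) := by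
      intro A hA A' hA'
      have h1 := hmem A hA
      have h2 := hmem A' hA'
      rw [union_insert, prod_insert (by rw [mem_union]; tauto), if_neg (by tauto)]
      congr 1
      refine prod_congr rfl fun p hp => ?_
      have hpq : p ≠ q := by
        rintro rfl
        rcases mem_union.1 hp with h | h
        · exact h1 h
        · exact h2 h
      simp only [mem_insert, hpq, false_or]
    have f2 : ∀ A ∈ s.powerset, ∀ A' ∈ s.powerset,
        ∏ p ∈ insert q A ∪ A', (if p ∈ insert q A ∧ p ∈ A' then g2 p else g1 p) =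
          g1 q * ∏ p ∈ A ∪ A', (if p ∈ A ∧ p ∈ A' then g2 p else g1 p) := by
      intro A hA A' hA'
      have h1 := hmem A hA
      have h2 := hmem A' hA'
      rw [insert_union, prod_insert (by rw [mem_union]; tauto), if_neg (by tauto)]
      congr 1
      refine prod_congr rfl fun p hp => ?_
      have hpq : p ≠ q := by
        rintro rfl
        rcases mem_union.1 hp with h | h
        · exact h1 h
        · exact h2 h
      simp only [mem_insert, hpq, false_or]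
    have f3 : ∀ A ∈ s.powerset, ∀ A' ∈ s.powerset,
        ∏ p ∈ insert q A ∪ insert q A', (if p ∈ insert q A ∧ p ∈ insert q A' then g2 p else g1 p) =
          g2 q * ∏ p ∈ A ∪ A', (if p ∈ A ∧ p ∈ A' then g2 p else g1 p) := by
      intro A hA A' hA'
      have h1 := hmem A hA
      have h2 := hmem A' hA'
      rw [union_insert, insert_union, insert_idem, prod_insert (by rw [mem_union]; tauto),
        if_pos ⟨mem_insert_self _ _, mem_insert_self _ _⟩]
      congr 1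
      refine prod_congr rfl fun p hp => ?_
      have hpq : p ≠ q := by
        rintro rfl
        rcases mem_union.1 hp with h | h
        · exact h1 h
        · exact h2 h
      simp only [mem_insert, hpq, false_or]
    have e1 : ∀ A ∈ s.powerset, ∑ A' ∈ (insert q s).powerset,
        ∏ p ∈ A ∪ A', (if p ∈ A ∧ p ∈ A' then g2 p else g1 p) =
        (1 + g1 q) * ∑ A' ∈ s.powerset,
          ∏ p ∈ A ∪ A', (if p ∈ A ∧ p ∈ A' then g2 p else g1 p) := by
      intro A hA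
      rw [sum_powerset_insert hq, add_mul, one_mul, mul_sum]
      congr 1
      exact sum_congr rfl fun A' hA' => f1 A hA A' hA'
    have e2 : ∀ A ∈ s.powerset, ∑ A' ∈ (insert q s).powerset,
        ∏ p ∈ insert q A ∪ A', (if p ∈ insert q A ∧ p ∈ A' then g2 p else g1 p) =
        (g1 q + g2 q) * ∑ A' ∈ s.powerset,
          ∏ p ∈ A ∪ A', (if p ∈ A ∧ p ∈ A' then g2 p else g1 p) := by
      intro A hA
      rw [sum_powerset_insert hq, add_mul, mul_sum, mul_sum]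
      congr 1
      · exact sum_congr rfl fun A' hA' => f2 A hA A' hA'
      · exact sum_congr rfl fun A' hA' => f3 A hA A' hA'
    rw [sum_congr rfl e1, sum_congr rfl e2, ← mul_sum, ← mul_sum]
    ring

theorem qh3_le {D : Finset ℕ} {T : Finset (Finset ℕ)} {φ : ℕ → Finset ℕ}
    (hφ : ∀ d ∈ D, φ d ∈ T) (hi : ∀ d ∈ D, ∀ d' ∈ D, φ d = φ d' → d = d')
    {h : Finset ℕ → ℝ} (h0 : ∀ A, 0 ≤ h A) : ∑ d ∈ D, h (φ d) ≤ ∑ A ∈ T, h A := by
  classical
  rw [← sum_image (f := h) (g := φ) (s := D) (fun d hd d' hd' h => hi d hd d' hd' h)]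
  refine sum_le_sum_of_subset_of_nonneg ?_ (fun A _ _ => h0 A)
  intro A hA
  obtain ⟨d, hd, rfl⟩ := mem_image.1 hA
  exact hφ d hd

theorem qh3_dp {P0 N d : ℕ} (h : d ∈ DP0 P0 N) : 1 ≤ d ∧ d ≤ N ∧ Squarefree d ∧
    ∀ p : ℕ, p.Prime → p ∣ d → P0 < p ∧ Sp p := by
  classical
  rw [DP0, mem_filter, mem_Icc] at h
  exact ⟨h.1.1, h.1.2, h.2.1, h.2.2⟩

theorem qh3_sum (P0 N : ℕ) {g1 g2 : ℕ → ℝ} (hg1 : ∀ p, 0 ≤ g1 p) (hg2 : ∀ p, 0 ≤ g2 p) :
    ∑ d ∈ DP0 P0 N, ∑ d' ∈ DP0 P0 N, ∏ p ∈ (d * d').primeFactors,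
      (if p ∣ d ∧ p ∣ d' then g2 p else g1 p) ≤
      ∏ p ∈ (prs P0 N).filter (fun p => Sp p), (1 + 2 * g1 p + g2 p) := by
  classical
  set Rs := (prs P0 N).filter (fun p => Sp p) with hRs
  have hφ : ∀ d ∈ DP0 P0 N, d.primeFactors ∈ Rs.powerset := by
    intro d hd
    obtain ⟨h1, h2, h3, h4⟩ := qh3_dp hd
    rw [mem_powerset]
    intro p hp
    have hp' := Nat.mem_primeFactors.1 hp
    rw [hRs, mem_filter, prs, mem_filter, mem_Ioc]
    exact ⟨⟨⟨(h4 p hp'.1 hp'.2.1).1, (Nat.le_of_dvd (by omega) hp'.2.1).trans h2⟩, hp'.1⟩,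
      (h4 p hp'.1 hp'.2.1).2⟩
  have hi : ∀ d ∈ DP0 P0 N, ∀ d' ∈ DP0 P0 N, d.primeFactors = d'.primeFactors → d = d' := by
    intro d hd d' hd' h
    rw [← Nat.prod_primeFactors_of_squarefree (qh3_dp hd).2.2.1,
      ← Nat.prod_primeFactors_of_squarefree (qh3_dp hd').2.2.1, h]
  have h0 : ∀ A A' : Finset ℕ, 0 ≤ ∏ p ∈ A ∪ A', (if p ∈ A ∧ p ∈ A' then g2 p else g1 p) :=
    fun A A' => prod_nonneg fun p _ => by
      split_ifs
      · exact hg2 p
      · exact hg1 p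
  rw [← qh3_pow]
  calc ∑ d ∈ DP0 P0 N, ∑ d' ∈ DP0 P0 N, ∏ p ∈ (d * d').primeFactors,
        (if p ∣ d ∧ p ∣ d' then g2 p else g1 p)
      = ∑ d ∈ DP0 P0 N, ∑ d' ∈ DP0 P0 N, ∏ p ∈ d.primeFactors ∪ d'.primeFactors,
        (if p ∈ d.primeFactors ∧ p ∈ d'.primeFactors then g2 p else g1 p) := by
        refine sum_congr rfl fun d hd => sum_congr rfl fun d' hd' => ?_
        have h1 := (qh3_dp hd).1
        have h2 := (qh3_dp hd').1
        rw [Nat.primeFactors_mul (by omega) (by omega)]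
        refine prod_congr rfl fun p hp => ?_
        have hpp : p.Prime := by
          rcases mem_union.1 hp with h | h
          · exact (Nat.mem_primeFactors.1 h).1
          · exact (Nat.mem_primeFactors.1 h).1
        have e : (p ∈ d.primeFactors ∧ p ∈ d'.primeFactors) ↔ (p ∣ d ∧ p ∣ d') := by
          rw [Nat.mem_primeFactors, Nat.mem_primeFactors]
          constructor
          · rintro ⟨⟨_, a, _⟩, _, b, _⟩
            exact ⟨a, b⟩
          · rintro ⟨a, b⟩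
            exact ⟨⟨hpp, a, by omega⟩, hpp, b, by omega⟩
        simp only [e]
    _ ≤ ∑ d ∈ DP0 P0 N, ∑ A' ∈ Rs.powerset, ∏ p ∈ d.primeFactors ∪ A',
        (if p ∈ d.primeFactors ∧ p ∈ A' then g2 p else g1 p) :=
        sum_le_sum fun d _ => qh3_le (h := fun A' => ∏ p ∈ d.primeFactors ∪ A',
          (if p ∈ d.primeFactors ∧ p ∈ A' then g2 p else g1 p)) hφ hi (fun A' => h0 _ _)
    _ ≤ ∑ A ∈ Rs.powerset, ∑ A' ∈ Rs.powerset, ∏ p ∈ A ∪ A',
        (if p ∈ A ∧ p ∈ A' then g2 p else g1 p) :=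
        qh3_le (h := fun A => ∑ A' ∈ Rs.powerset, ∏ p ∈ A ∪ A',
          (if p ∈ A ∧ p ∈ A' then g2 p else g1 p)) hφ hi
          (fun A => sum_nonneg fun A' _ => h0 _ _)

/-- the primes in `(P, x]` for `P ≥ x ^ τ` -/
theorem qh3_tail {C0 : ℝ} (hC0 : ∀ x : ℝ, 2 ≤ x →
      |∑ p ∈ (Icc 1 ⌊x⌋₊).filter Nat.Prime, 1 / (p : ℝ) - Real.log (Real.log x)| ≤ C0)
    {τ : ℝ} (hτ : 0 < τ) {x : ℝ} (hx : 2 ≤ x) {P : ℕ} (hP2 : 2 ≤ P) (hτP : x ^ τ ≤ P)
    (hPx : (P : ℝ) ≤ x) {Q : Finset ℕ} (hQm : ∀ p ∈ Q, P < p ∧ p ≤ ⌊x⌋₊ ∧ p.Prime) :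
    ∑ p ∈ Q, 1 / (p : ℝ) ≤ 2 * C0 - Real.log τ := by
  classical
  obtain ⟨N, hN⟩ : ∃ N, N = ⌊x⌋₊ := ⟨_, rfl⟩
  have hPN : P ≤ N := by
    rw [hN]; exact Nat.le_floor hPx
  have hP2' : (2:ℝ) ≤ P := by exact_mod_cast hP2
  have m1 := hC0 x hx
  have m2 := hC0 P hP2'
  rw [Nat.floor_natCast] at m2
  rw [← hN] at m1
  rw [← hN] at hQm
  rw [abs_le] at m1 m2
  have h3 : ∑ p ∈ Q, 1 / (p : ℝ) + ∑ p ∈ (Icc 1 P).filter Nat.Prime, 1 / (p : ℝ) ≤
      ∑ p ∈ (Icc 1 N).filter Nat.Prime, 1 / (p : ℝ) := by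
    rw [← sum_union]
    · refine sum_le_sum_of_subset_of_nonneg ?_ (fun p _ _ => by positivity)
      intro p hp
      rw [mem_filter, mem_Icc]
      rcases mem_union.1 hp with h | h
      · obtain ⟨a, b, c⟩ := hQm p h
        exact ⟨⟨by omega, b⟩, c⟩
      · rw [mem_filter, mem_Icc] at h
        exact ⟨⟨h.1.1, h.1.2.trans hPN⟩, h.2⟩
    · rw [disjoint_left]
      intro p hp hp'
      have a := (hQm p hp).1
      rw [mem_filter, mem_Icc] at hp'
      omega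
  have hx0 : 0 < x := by linarith
  have hlx : 0 < Real.log x := Real.log_pos (by linarith)
  have h4 : τ * Real.log x ≤ Real.log P := by
    rw [← Real.log_rpow hx0]
    exact Real.log_le_log (by positivity) hτP
  have h5 : Real.log τ + Real.log (Real.log x) ≤ Real.log (Real.log P) := by
    rw [← Real.log_mul hτ.ne' hlx.ne']
    exact Real.log_le_log (by positivity) h4
  linarith [m1.2, m2.1]

/-- BLOCK QH3 (as PH3): the sum over a special edge; `0 ≤ both, one ≤ 1`. A prime dividing only `d` or only `d'`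
contributes `2 one / p` (`p ≤ P`), a common prime `2 both / p`. -/
theorem sum_wsp_gen_pr {both one : ℝ} (hb : 0 ≤ both) (hb1 : both ≤ 1) (ho : 0 ≤ one) (ho1 : one ≤ 1)
    {τ : ℝ} (hτ : 0 < τ) : ∃ C x₀ : ℝ, 0 ≤ C ∧ 2 ≤ x₀ ∧ ∀ x ≥ x₀, ∀ P0 P : ℕ,
    2 ≤ P0 → P0 ≤ P → x ^ τ ≤ P → (P : ℝ) ≤ x →
    ∑ d ∈ DP0 P0 ⌊x⌋₊, ∑ d' ∈ DP0 P0 ⌊x⌋₊, wsp P both one d d' ≤
      C * ∏ p ∈ (prs P0 P).filter (fun p => Sp p), (1 + (4 * one + 2 * both) / (p : ℝ)) := by
  classical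
  obtain ⟨C0, hC0⟩ := Pool.Agent.LEV.mertens_two
  refine ⟨Real.exp (6 * (2 * C0 - Real.log τ)), 2, (Real.exp_pos _).le, le_rfl, ?_⟩
  intro x hx P0 P hP0 hP0P hτP hPx
  have htail := fun Q hQ => qh3_tail hC0 hτ hx (hP0.trans hP0P) hτP hPx (Q := Q) hQ
  obtain ⟨N, hN⟩ : ∃ N, N = ⌊x⌋₊ := ⟨_, rfl⟩
  rw [← hN] at htail ⊢
  have hPN : P ≤ N := by
    rw [hN]; exact Nat.le_floor hPx
  set g1 : ℕ → ℝ := fun p => 2 * lw P p one / p with hg1
  set g2 : ℕ → ℝ := fun p => 2 * lw P p both / p with hg2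
  have hg10 : ∀ p, 0 ≤ g1 p := by
    intro p
    have : 0 ≤ lw P p one := by
      rw [lw]; split_ifs
      · exact ho
      · norm_num
    simp only [hg1]
    positivity
  have hg20 : ∀ p, 0 ≤ g2 p := by
    intro p
    have : 0 ≤ lw P p both := by
      rw [lw]; split_ifs
      · exact hb
      · norm_num
    simp only [hg2]
    positivity
  have hw : ∀ d d', wsp P both one d d' =
      ∏ p ∈ (d * d').primeFactors, (if p ∣ d ∧ p ∣ d' then g2 p else g1 p) := by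
    intro d d'
    rw [wsp]
    refine prod_congr rfl fun p _ => ?_
    split_ifs <;> rfl
  have h1 := qh3_sum P0 N hg10 hg20
  rw [sum_congr rfl fun d _ => sum_congr rfl fun d' _ => hw d d']
  refine h1.trans ?_
  rw [← prod_filter_mul_prod_filter_not ((prs P0 N).filter (fun p => Sp p)) (fun p => p ≤ P)]
  have s1 : ((prs P0 N).filter (fun p => Sp p)).filter (fun p => p ≤ P) =
      (prs P0 P).filter (fun p => Sp p) := by
    ext p
    simp only [prs, mem_filter, mem_Ioc]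
    constructor
    · rintro ⟨⟨⟨⟨a, b⟩, c⟩, d⟩, e⟩
      exact ⟨⟨⟨a, e⟩, c⟩, d⟩
    · rintro ⟨⟨⟨a, b⟩, c⟩, d⟩
      exact ⟨⟨⟨⟨a, b.trans hPN⟩, c⟩, d⟩, b⟩
  rw [s1, mul_comm]
  have e1 : ∏ p ∈ (prs P0 P).filter (fun p => Sp p), (1 + 2 * g1 p + g2 p) =
      ∏ p ∈ (prs P0 P).filter (fun p => Sp p), (1 + (4 * one + 2 * both) / (p : ℝ)) := by
    refine prod_congr rfl fun p hp => ?_
    have hp' : p ≤ P := by
      simp only [prs, mem_filter, mem_Ioc] at hp
      exact hp.1.1.2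
    simp only [hg1, hg2, lw, if_pos hp']
    ring
  rw [e1]
  refine mul_le_mul_of_nonneg_right ?_ (prod_nonneg fun p _ => by positivity)
  -- the large primes
  set Q := ((prs P0 N).filter (fun p => Sp p)).filter (fun p => ¬ p ≤ P) with hQ
  have hQm : ∀ p ∈ Q, P < p ∧ p ≤ N ∧ p.Prime := by
    intro p hp
    simp only [hQ, prs, mem_filter, mem_Ioc] at hp
    exact ⟨by omega, hp.1.1.1.2, hp.1.1.2⟩
  have h2 : ∏ p ∈ Q, (1 + 2 * g1 p + g2 p) ≤ Real.exp (∑ p ∈ Q, 6 * (1 / (p : ℝ))) := by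
    rw [Real.exp_sum]
    refine prod_le_prod (fun p _ => by have := hg10 p; have := hg20 p; positivity) fun p hp => ?_
    have hp' : ¬ p ≤ P := by have := (hQm p hp).1; omega
    have : 1 + 2 * g1 p + g2 p = 6 * (1 / (p : ℝ)) + 1 := by
      simp only [hg1, hg2, lw, if_neg hp']
      ring
    rw [this]
    exact Real.add_one_le_exp _
  refine h2.trans (Real.exp_le_exp.2 ?_)
  rw [← mul_sum]
  exact mul_le_mul_of_nonneg_left (htail Q hQm) (by norm_num)

end Pool.Agent.AQ.PENK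

namespace Pool.Agent.AQ.PENK

theorem sum_wsp_gen : type_of% @sum_wsp_gen_pr := @sum_wsp_gen_pr

end Pool.Agent.AQ.PENK
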