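import Mathlib
import Pool.Agent.Lib_helper18.AQ.K.DefsW

/-! Block QH4: the primes dividing `E` do not matter -/

set_option autoImplicit false

namespace Pool.Agent.AQ.PENK

open Finset Pool.Agent.PENT Pool.Agent.PENK

variable [FD]

theorem qh4_FF_ge (B3 BP B1 C1 : ℝ) (h3' : B3 ≤ 100)
    (hP' : BP ≤ 100) (h1' : B1 ≤ 100) (hC1 : 0 ≤ C1) (P0 p : ℕ) (hp : 0 < p) :
    1 - 100 / (p : ℝ) ≤ FFg B3 BP B1 C1 P0 p := by
  unfold FFg
  have hp0 : (0 : ℝ) < p := by exact_mod_cast hp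
  have h1 : 0 ≤ C1 / (p : ℝ) ^ 2 := by positivity
  have h2 : (if ¬ Sp p then B3 else if p ≤ P0 then BP else B1) ≤ 100 := by
    split_ifs <;> assumption
  have h3 : (if ¬ Sp p then B3 else if p ≤ P0 then BP else B1) / (p : ℝ) ≤
      100 / (p : ℝ) := div_le_div_of_nonneg_right h2 hp0.le
  linarith

theorem qh4_card (E : ℕ) (hE : 1 ≤ E) (T : Finset ℕ) (hT : ∀ p ∈ T, p.Prime ∧ p ∣ E) :
    2 ^ T.card ≤ E := by
  have h1 : T ⊆ E.primeFactors := by
    intro p hp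
    rw [Nat.mem_primeFactors]
    exact ⟨(hT p hp).1, (hT p hp).2, by omega⟩
  have h2 : ∏ p ∈ T, p ∣ E :=
    (Finset.prod_dvd_prod_of_subset _ _ _ h1).trans (Nat.prod_primeFactors_dvd _)
  calc 2 ^ T.card = ∏ _p ∈ T, 2 := by rw [Finset.prod_const]
    _ ≤ ∏ p ∈ T, p := Finset.prod_le_prod' (fun p hp => (hT p hp).1.two_le)
    _ ≤ E := Nat.le_of_dvd (by omega) h2

/-- BLOCK QH4 (as PH4) -/
theorem FFg_restore_pr (B3 BP B1 C1 : ℝ) (h3 : 0 ≤ B3) (h3' : B3 ≤ 100) (hP : 0 ≤ BP)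
    (hP' : BP ≤ 100) (h1 : 0 ≤ B1) (h1' : B1 ≤ 100) (hC1 : 0 ≤ C1) (ps : ℕ)
    (hpos : ∀ P0 p : ℕ, p.Prime → ps < p → 1 / 4 ≤ FFg B3 BP B1 C1 P0 p) : ∃ x₀ : ℝ, 2 ≤ x₀ ∧
    ∀ x ≥ x₀, ∀ P0 P E : ℕ, Real.log x ^ 60 ≤ P0 → 1 ≤ E → (E : ℝ) ≤ x →
    (∀ p : ℕ, p.Prime → p ∣ E → P0 < p) →
    ∏ p ∈ (prs ps P).filter (fun p => ¬ p ∣ E), FFg B3 BP B1 C1 P0 p ≤
      2 * ∏ p ∈ prs ps P, FFg B3 BP B1 C1 P0 p := by
  refine ⟨Real.exp 2, ?_, ?_⟩
  · have := Real.add_one_le_exp (2 : ℝ)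
    linarith
  intro x hx P0 P E hP0 hE hEx hdiv
  have hx0 : 0 < x := (Real.exp_pos 2).trans_le hx
  have hL : 2 ≤ Real.log x := by
    rw [← Real.log_exp 2]
    exact Real.log_le_log (Real.exp_pos 2) hx
  set L : ℝ := Real.log x with hLd
  have hL0 : 0 < L := by linarith
  set T := (prs ps P).filter (fun p => p ∣ E) with hT
  have hmem : ∀ p ∈ prs ps P, p.Prime ∧ ps < p := by
    intro p hp
    simp only [prs, Finset.mem_filter, Finset.mem_Ioc] at hp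
    exact ⟨hp.2, hp.1.1⟩
  have hcard := qh4_card E hE T (by
    intro p hp
    rw [hT, Finset.mem_filter] at hp
    exact ⟨(hmem p hp.1).1, hp.2⟩)
  have hcard2 : (T.card : ℝ) ≤ 2 * L := by
    have h1 : ((2 : ℝ)) ^ T.card ≤ x := by
      have : ((2 ^ T.card : ℕ) : ℝ) ≤ (E : ℝ) := by exact_mod_cast hcard
      push_cast at this
      linarith
    have h2 := Real.log_le_log (by positivity) h1
    rw [Real.log_pow, ← hLd] at h2
    have h3 : (0.5 : ℝ) < Real.log 2 := by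
      have := Real.log_two_gt_d9
      linarith
    have h4 : (0 : ℝ) ≤ (T.card : ℝ) := Nat.cast_nonneg _
    nlinarith
  have h59 : (512 : ℝ) ≤ L ^ 59 := by
    calc (512 : ℝ) = 2 ^ 9 := by norm_num
      _ ≤ 2 ^ 59 := by norm_num
      _ ≤ L ^ 59 := pow_le_pow_left₀ (by norm_num) hL 59
  have h60 : (0 : ℝ) < L ^ 60 := by positivity
  have h60' : 100 / L ^ 60 ≤ 1 := by
    rw [div_le_one h60]
    calc (100 : ℝ) ≤ 512 := by norm_num
      _ ≤ L ^ 59 := h59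
      _ ≤ L ^ 60 := pow_le_pow_right₀ (by linarith) (by norm_num)
  have hhalf : (1 / 2 : ℝ) ≤ ∏ p ∈ T, FFg B3 BP B1 C1 P0 p := by
    have h1 : ∏ _p ∈ T, (1 + (-(100 / L ^ 60))) ≤ ∏ p ∈ T, FFg B3 BP B1 C1 P0 p := by
      apply Finset.prod_le_prod
      · intro p _
        linarith
      · intro p hp
        rw [hT, Finset.mem_filter] at hp
        have h2 := hdiv p (hmem p hp.1).1 hp.2
        have h3 : L ^ 60 ≤ (p : ℝ) := hP0.trans (by exact_mod_cast h2.le)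
        have h4 := qh4_FF_ge B3 BP B1 C1 h3' hP' h1' hC1 P0 p (hmem p hp.1).1.pos
        have h5 : 100 / (p : ℝ) ≤ 100 / L ^ 60 :=
          div_le_div_of_nonneg_left (by norm_num) h60 h3
        linarith
    rw [Finset.prod_const] at h1
    have h2 := one_add_mul_le_pow (a := -(100 / L ^ 60)) (by linarith) T.card
    have h3 : (T.card : ℝ) * (100 / L ^ 60) ≤ 1 / 2 := by
      calc (T.card : ℝ) * (100 / L ^ 60) ≤ 2 * L * (100 / L ^ 60) :=
            mul_le_mul_of_nonneg_right hcard2 (by positivity)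
        _ = 200 / L ^ 59 := by
            field_simp
            ring
        _ ≤ 1 / 2 := by
            rw [div_le_div_iff₀ (by positivity) (by norm_num)]
            linarith
    linarith
  have hsplit := Finset.prod_filter_mul_prod_filter_not (prs ps P) (fun p => p ∣ E)
    (fun p => FFg B3 BP B1 C1 P0 p)
  rw [← hsplit, ← hT]
  have hnn : 0 ≤ ∏ p ∈ (prs ps P).filter (fun p => ¬ p ∣ E), FFg B3 BP B1 C1 P0 p := by
    apply Finset.prod_nonneg
    intro p hp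
    rw [Finset.mem_filter] at hp
    have := hpos P0 p (hmem p hp.1).1 (hmem p hp.1).2
    linarith
  nlinarith

end Pool.Agent.AQ.PENK

namespace Pool.Agent.AQ.PENK

theorem FFg_restore : type_of% @FFg_restore_pr := @FFg_restore_pr

end Pool.Agent.AQ.PENK
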