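import Pool.Agent.Lib_helper18.AQ.K.DefsW
import Pool.Agent.Lib_helper18.AQ.KF.PG4
import Pool.Agent.Lib_helper18.AQ.KF.PG5
import Pool.Agent.Lib_helper18.AQ.KF.QF4
import Pool.Agent.Lib_helper18.AQ.KF.QF5
import Pool.Agent.Lib_helper18.AQ.KF.QF6
import Pool.Agent.Lib_helper18.AQ.KF.QF14
import Pool.Agent.Lib_helper18.AQ.KF.QH1
import Pool.Agent.Lib_helper18.AQ.KF.QH4

set_option autoImplicit false

namespace Pool.Agent.AQ.PENK

open Finset Pool.Agent.PENT Pool.Agent.PENK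

variable [FD]

theorem qh5_neg : (-1 : Fin 11) = 10 := by decide

theorem qh5_lw {P p : ℕ} {α : ℝ} (h : 0 ≤ α) : 0 ≤ lw P p α := by
  unfold lw; split_ifs
  · exact h
  · exact zero_le_one

theorem qh5_wsp {P : ℕ} {both one : ℝ} (hb : 0 ≤ both) (ho : 0 ≤ one) (d d' : ℕ) :
    0 ≤ wsp P both one d d' := by
  unfold wsp
  refine prod_nonneg fun p _ => ?_
  refine div_nonneg (mul_nonneg zero_le_two ?_) (Nat.cast_nonneg _)
  split_ifs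
  · exact qh5_lw hb
  · exact qh5_lw ho

theorem qh5_wsp2 {W : Wts 11} (hW : W.Ok) (P d1 d1' d2 d2' : ℕ) :
    0 ≤ wsp2 W P d1 d1' d2 d2' := by
  have a1 := hW.al0 1
  have b1 := (hW.be0 1).le
  have a0 := hW.al0 (-1)
  have b0 := (hW.be0 0).le
  have s1 : 0 ≤ W.s1 := by unfold Wts.s1; linarith
  have s0 : 0 ≤ W.s0 := by unfold Wts.s0; linarith
  unfold wsp2
  refine mul_nonneg (qh5_wsp ?_ ?_ _ _) (qh5_wsp ?_ ?_ _ _)
  · exact div_nonneg (sq_nonneg _) s1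
  · exact div_nonneg (mul_nonneg a1 b1) s1
  · exact div_nonneg (sq_nonneg _) s0
  · exact div_nonneg (mul_nonneg a0 b0) s0

/-- the sizes are determined by the polygon -/
theorem qh5_siz {i i' : Fin 11 → ℕ} {u : PolyK 11} (h : Siz i u) (h' : Siz i' u) : i = i' := by
  funext j
  have h1 := h j
  have h2 := h' j
  have a : i j < i' j + 1 :=
    (Nat.pow_lt_pow_iff_right (by norm_num : 1 < 2)).mp (h1.1.trans_lt h2.2)
  have b : i' j < i j + 1 :=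
    (Nat.pow_lt_pow_iff_right (by norm_num : 1 < 2)).mp (h2.1.trans_lt h1.2)
  omega

/-- monotonicity in the level -/
theorem qh5_mono {ι : Type} {O : Finset ι} {pol : ι → PolyK 11} {L : ℕ → Finset (PolyK 11)}
    {S : Finset ℕ} {Q Q' η : ℝ} (h : EquiF O pol L S Q η) (hQ : Q' ≤ Q) :
    EquiF O pol L S Q' η := fun T hT hp => h T hT (hp.trans hQ)

/-- the product of the sizes of the interior edges -/
noncomputable def qh5_B (i : Fin 11 → ℕ) : ℝ :=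
  (2 : ℝ) ^ i 0 * 2 ^ i 1 * 2 ^ i 2 * 2 ^ i 10 * ∏ j : Fin 7, (2 ^ i (sv j)) ^ 2

theorem qh5_Bpos (i : Fin 11 → ℕ) : 0 < qh5_B i := by
  unfold qh5_B; positivity

theorem qh5_inr : inr 11 = {0, 2, 3, 4, 5, 6, 7, 8, 9} := by unfold inr; decide

theorem qh5_prod (c : ℝ) (i : Fin 11 → ℕ) :
    ∏ j ∈ inr 11, (c * ((2 : ℝ) ^ i j * 2 ^ i (j + 1))) = c ^ 9 * qh5_B i := by
  have e1 : (0 + 1 : Fin 11) = 1 := by decide
  have e3 : (2 + 1 : Fin 11) = 3 := by decide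
  have e4 : (3 + 1 : Fin 11) = 4 := by decide
  have e5 : (4 + 1 : Fin 11) = 5 := by decide
  have e6 : (5 + 1 : Fin 11) = 6 := by decide
  have e7 : (6 + 1 : Fin 11) = 7 := by decide
  have e8 : (7 + 1 : Fin 11) = 8 := by decide
  have e9 : (8 + 1 : Fin 11) = 9 := by decide
  have e10 : (9 + 1 : Fin 11) = 10 := by decide
  have v0 : sv 0 = 3 := by decide
  have v1 : sv 1 = 4 := by decide
  have v2 : sv 2 = 5 := by decide
  have v3 : sv 3 = 6 := by decide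
  have v4 : sv 4 = 7 := by decide
  have v5 : sv 5 = 8 := by decide
  have v6 : sv 6 = 9 := by decide
  rw [qh5_inr]
  rw [prod_insert (by decide), prod_insert (by decide), prod_insert (by decide),
    prod_insert (by decide), prod_insert (by decide), prod_insert (by decide),
    prod_insert (by decide), prod_insert (by decide), prod_singleton]
  rw [e1, e3, e4, e5, e6, e7, e8, e9, e10]
  unfold qh5_B
  rw [Fin.prod_univ_seven, v0, v1, v2, v3, v4, v5, v6]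
  ring

/-- `d_j` as a function of the determinant -/
def dnz (m j : Fin 11) (δ : ℤ) : ℕ := if j = m then 1 else δ.natAbs

theorem qh5_zz : (1 : ℝ) ≤ (FD.z.2 : ℝ) := by exact_mod_cast FD.zy

/-- the product of the interior determinants is large -/
theorem qh5_bad {m : Fin 11} {q : Par 11} (hc : 0 < q.c3) {κ x : ℝ} {P0 : ℕ} {i : Fin 11 → ℕ}
    {u : PolyK 11} (hu : IsPath q κ m x P0 u) (hi : Siz i u) :
    q.c3 ^ 9 / (FD.z.2 : ℝ) * qh5_B i ≤ (bad m u : ℝ) := by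
  have hz := qh5_zz
  have hz0 : (0 : ℝ) < (FD.z.2 : ℝ) := by linarith
  have hs := hu.sep
  have key : q.c3 ^ 9 * qh5_B i ≤ (FD.z.2 : ℝ) * (bad m u : ℝ) := by
    rw [← qh5_prod]
    have h1 : ∏ j ∈ inr 11, (q.c3 * ((2 : ℝ) ^ i j * 2 ^ i (j + 1))) ≤
        ∏ j ∈ inr 11, ((if j = m then (FD.z.2 : ℝ) else 1) * (dn m u j : ℝ)) := by
      refine prod_le_prod (fun j _ => by positivity) fun j _ => ?_
      have hne : j ≠ j + 1 := by
        intro h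
        have : (1 : Fin 11) = 0 := by
          have := h.symm
          rwa [add_eq_left] at this
        exact absurd this (by decide)
      have h1 := hs j (j + 1) hne
      have e : (if j = m then (FD.z.2 : ℝ) else 1) * ((dn m u j : ℕ) : ℝ) =
          |(dt (u j) (u (j + 1)) : ℝ)| := by
        by_cases hjm : j = m
        · have f0 : u m = FD.z := hu.fix m FD.z (fx_z m)
          have f1 : u (m + 1) = (1, 0) := hu.fix (m + 1) (1, 0) (fx_1 m)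
          rw [if_pos hjm, hjm, dn_m, f0, f1]
          unfold dt
          have e1 : ((FD.z.1 * (0 : ℤ) - FD.z.2 * 1 : ℤ) : ℝ) = -(FD.z.2 : ℝ) := by
            push_cast
            ring
          rw [e1, abs_neg, abs_of_pos hz0]
          norm_num
        · rw [if_neg hjm, dn_ne u hjm, one_mul]
          unfold dl
          rw [Nat.cast_natAbs, Int.cast_abs]
      rw [e]
      refine le_trans ?_ h1
      have a1 : ((2 : ℝ) ^ i j) ≤ (nr (u j) : ℝ) := by exact_mod_cast (hi j).1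
      have a2 : ((2 : ℝ) ^ i (j + 1)) ≤ (nr (u (j + 1)) : ℝ) := by exact_mod_cast (hi (j + 1)).1
      calc q.c3 * ((2 : ℝ) ^ i j * 2 ^ i (j + 1)) ≤ q.c3 * ((nr (u j) : ℝ) * nr (u (j + 1))) := by
            gcongr
        _ = q.c3 * nr (u j) * nr (u (j + 1)) := by ring
    refine h1.trans ?_
    rw [prod_mul_distrib]
    unfold bad
    rw [Nat.cast_prod]
    refine mul_le_mul_of_nonneg_right ?_ (prod_nonneg fun j _ => Nat.cast_nonneg _)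
    rw [prod_ite_eq']
    split_ifs
    · exact le_rfl
    · exact hz
  rw [div_mul_eq_mul_div, div_le_iff₀ hz0]
  linarith

theorem qh5_dt_le (a b : ℤ × ℤ) : (dt a b).natAbs ≤ nr a * nr b := by
  unfold dt nr
  zify
  calc |a.1 * b.2 - a.2 * b.1| ≤ |a.1 * b.2| + |a.2 * b.1| := abs_sub _ _
    _ = |a.1| * |b.2| + |a.2| * |b.1| := by rw [abs_mul, abs_mul]
    _ ≤ (|a.1| + |a.2|) * (|b.1| + |b.2|) := by
        nlinarith [abs_nonneg a.1, abs_nonneg a.2, abs_nonneg b.1, abs_nonneg b.2,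
          mul_nonneg (abs_nonneg a.1) (abs_nonneg b.1), mul_nonneg (abs_nonneg a.2) (abs_nonneg b.2)]

theorem qh5_dn_le {m : Fin 11} {q : Par 11} (hq : q.Ok) {x : ℝ} (hx : 1 ≤ x) {P0 : ℕ}
    {u : PolyK 11} (hu : IsPoly m q x P0 u) (j : Fin 11) :
    (dn m u j : ℝ) ≤ (nr (u j) : ℝ) * nr (u (j + 1)) := by
  by_cases hjm : j = m
  · rw [hjm, dn_m, Nat.cast_one]
    have h1 : ∀ k, (1 : ℝ) ≤ (nr (u k) : ℝ) := fun k =>
      (Real.one_le_rpow hx (hq.he k)).trans (hu.lo k)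
    nlinarith [h1 m, h1 (m + 1)]
  · rw [dn_ne u hjm]
    unfold dl
    exact_mod_cast qh5_dt_le (u j) (u (j + 1))

/-- the product of the two special determinants is small -/
theorem qh5_sp {m : Fin 11} {q : Par 11} (hq : q.Ok) {x : ℝ} (hx : 1 ≤ x) {P0 : ℕ} {u : PolyK 11}
    (hu : IsPoly m q x P0 u) : ((dn m u 1 * dn m u 10 : ℕ) : ℝ) ≤ x ^ (1 / 500 : ℝ) := by
  have hx0 : 0 < x := by linarith
  have e2 : (1 + 1 : Fin 11) = 2 := by decide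
  have e0 : (10 + 1 : Fin 11) = 0 := by decide
  have h1 : (dn m u 1 : ℝ) ≤ (nr (u 1) : ℝ) * nr (u 2) := by
    have := qh5_dn_le hq hx hu 1
    rwa [e2] at this
  have h2 : (dn m u 10 : ℝ) ≤ (nr (u 10) : ℝ) * nr (u 0) := by
    have := qh5_dn_le hq hx hu 10
    rwa [e0] at this
  have k1 := hu.hi 1
  have k2 := hu.hi 2
  have k10 := hu.hi 10
  have k0 := hu.hi 0
  have hs := hq.hs
  have hd := hq.δ1
  have hε := hq.ε0
  have hsum : q.e 1 + q.e 2 + q.e 10 + q.e 0 + 4 * q.ε ≤ ∑ j, (q.e j + q.ε) := by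
    have hnn : ∀ j : Fin 11, 0 ≤ q.e j + q.ε := fun j => by
      have := hq.he j
      linarith
    have : ∑ j ∈ ({1, 2, 10, 0} : Finset (Fin 11)), (q.e j + q.ε) ≤ ∑ j, (q.e j + q.ε) :=
      sum_le_sum_of_subset_of_nonneg (subset_univ _) fun j _ _ => hnn j
    rw [sum_insert (by decide), sum_insert (by decide), sum_insert (by decide),
      sum_singleton] at this
    linarith
  push_cast
  calc (dn m u 1 : ℝ) * dn m u 10 ≤ ((nr (u 1) : ℝ) * nr (u 2)) * ((nr (u 10) : ℝ) * nr (u 0)) := by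
        gcongr
    _ ≤ (x ^ (q.e 1 + q.ε / 50) * x ^ (q.e 2 + q.ε / 50)) *
        (x ^ (q.e 10 + q.ε / 50) * x ^ (q.e 0 + q.ε / 50)) := by gcongr
    _ = x ^ (q.e 1 + q.ε / 50 + (q.e 2 + q.ε / 50) + (q.e 10 + q.ε / 50 + (q.e 0 + q.ε / 50))) := by
        rw [← Real.rpow_add hx0, ← Real.rpow_add hx0, ← Real.rpow_add hx0]
    _ ≤ x ^ (1 / 500 : ℝ) := by
        apply Real.rpow_le_rpow_of_exponent_le hx
        linarith

/-- the density in the two notations -/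
theorem qh5_ff (m : Fin 11) (W : Wts 11) (C1 : ℝ) (P0 p : ℕ) :
    FFg (eB3 m) (eBP m W) (eB1 m W) C1 P0 p = 1 - bden m W P0 p / p + C1 / (p : ℝ) ^ 2 := by
  unfold FFg
  rw [bden11]

theorem qh5_dOk (m : Fin 11) : dOk m (-FD.z.2) (-FD.z.2) := ⟨fun _ => rfl, fun _ => rfl⟩

theorem qh5_not {p : ℕ} (hp : p.Prime) (hN : FD.N0 < p) : ¬ (p : ℤ) ∣ -FD.z.2 :=
  fun h => FD.zb p hp hN ((dvd_neg).mp h)

/-- the primes which do not divide `d_j` -/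
theorem qh5_nd {m j : Fin 11} {δ : ℤ} {p : ℕ} (hp : p.Prime) (hN : FD.N0 < p)
    (hd : m = j → δ = -FD.z.2) (h : ¬ p ∣ dnz m j δ) : ¬ (p : ℤ) ∣ δ := by
  intro h1
  by_cases hjm : j = m
  · rw [hd hjm.symm] at h1
    exact qh5_not hp hN h1
  · apply h
    unfold dnz
    rw [if_neg hjm]
    exact Int.natCast_dvd.mp h1

/-- positivity of the densities -/
theorem qh5_pos {m : Fin 11} {W : Wts 11} {C0 : ℝ} {ps k : ℕ} {C1 : ℝ} (hps : nz 11 ≤ ps)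
    (hL : ∀ p : ℕ, p.Prime → FD.N0 < p → ∀ (m : Fin 11) (δ1 δ2 : ℤ),
      dOk m δ1 δ2 → ¬ (p : ℤ) ∣ δ1 → ¬ (p : ℤ) ∣ δ2 → LocF m p (Law11 m δ1 δ2 p) C0)
    (hS : ∀ (ι ι' : Type) (O : Finset ι)
      (pol : ι → PolyK 11) (O' : Finset ι') (pol' : ι' → PolyK 11) (L L' : ℕ → Finset (PolyK 11))
      (S : Finset ℕ) (P0 P : ℕ) (η : ℝ), 1 ≤ P → 0 ≤ η → η ≤ 1 →
      (∀ p ∈ S, p.Prime ∧ ps < p ∧ p ≤ P) →
      (∀ p ∈ S, LocF m p (L p) C0 ∧ LocF m p (L' p) C0) →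
      EquiF O pol L S ((P : ℝ) ^ k) η → EquiF O' pol' L' S ((P : ℝ) ^ k) η →
      ∑ o ∈ O, ∑ o' ∈ O', ∏ p ∈ S, Phi m W P0 (pol o) (pol' o') p ≤
        (O.card : ℝ) * O'.card * (2 * ∏ p ∈ S, (1 - bden m W P0 p / p + C1 / (p : ℝ) ^ 2) +
          (P : ℝ) ^ k * (2 * η)) ∧
      ∀ p ∈ S, 1 / 4 ≤ 1 - bden m W P0 p / p + C1 / (p : ℝ) ^ 2)
    (P0 p : ℕ) (hp : p.Prime) (hpp : ps < p) :
    1 / 4 ≤ FFg (eB3 m) (eBP m W) (eB1 m W) C1 P0 p := by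
  rw [qh5_ff]
  have h2 : FD.N0 < p := nz_N (lt_of_le_of_lt hps hpp)
  have hloc := hL p hp h2 m (-FD.z.2) (-FD.z.2) (qh5_dOk m) (qh5_not hp h2) (qh5_not hp h2)
  have hE : EquiF (∅ : Finset Unit) (fun _ => (fun _ => (0, 0) : PolyK 11))
      (Law11 m (-FD.z.2) (-FD.z.2)) {p} ((p : ℝ) ^ k) 0 := by
    intro T _ _ h _ _
    simp
  exact (hS Unit Unit ∅ (fun _ => (fun _ => (0, 0) : PolyK 11)) ∅
    (fun _ => (fun _ => (0, 0) : PolyK 11)) (Law11 m (-FD.z.2) (-FD.z.2)) (Law11 m (-FD.z.2) (-FD.z.2)) {p} P0 p 0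
    hp.one_le le_rfl zero_le_one
    (fun r hr => by rw [mem_singleton.mp hr]; exact ⟨hp, hpp, le_rfl⟩)
    (fun r hr => by rw [mem_singleton.mp hr]; exact ⟨hloc, hloc⟩) hE hE).2 p
    (mem_singleton_self p)

/-- the sum over pairs of polygons is bounded by the sum over the indices -/
theorem qh5_sum {ι : Type} (O O' : Finset ι) (pol pol' : ι → PolyK 11)
    (A : Finset (PolyK 11 × PolyK 11)) (f : PolyK 11 → PolyK 11 → ℝ) (hf : ∀ u v, 0 ≤ f u v)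
    (h : ∀ s ∈ A, (∃ o ∈ O, pol o = s.1) ∧ ∃ o' ∈ O', pol' o' = s.2) :
    ∑ s ∈ A, f s.1 s.2 ≤ ∑ o ∈ O, ∑ o' ∈ O', f (pol o) (pol' o') := by
  classical
  rcases A.eq_empty_or_nonempty with rfl | ⟨s0, hs0⟩
  · simp only [sum_empty]
    exact sum_nonneg fun o _ => sum_nonneg fun o' _ => hf _ _
  obtain ⟨⟨o0, _, _⟩, _⟩ := h s0 hs0
  let g : PolyK 11 × PolyK 11 → ι × ι := fun s =>
    if hs : s ∈ A then ((h s hs).1.choose, (h s hs).2.choose) else (o0, o0)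
  have hg : ∀ s ∈ A, (g s).1 ∈ O ∧ pol (g s).1 = s.1 ∧ (g s).2 ∈ O' ∧ pol' (g s).2 = s.2 := by
    intro s hs
    have e : g s = ((h s hs).1.choose, (h s hs).2.choose) := by
      simp only [g, dif_pos hs]
    rw [e]
    exact ⟨(h s hs).1.choose_spec.1, (h s hs).1.choose_spec.2, (h s hs).2.choose_spec.1,
      (h s hs).2.choose_spec.2⟩
  have inj : Set.InjOn g (A : Set (PolyK 11 × PolyK 11)) := by
    intro s hs t ht hst
    have a := hg s hs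
    have b := hg t ht
    have e1 : s.1 = t.1 := by rw [← a.2.1, ← b.2.1, hst]
    have e2 : s.2 = t.2 := by rw [← a.2.2.2, ← b.2.2.2, hst]
    exact Prod.ext e1 e2
  rw [← sum_product']
  calc ∑ s ∈ A, f s.1 s.2 = ∑ s ∈ A, f (pol (g s).1) (pol' (g s).2) := by
        refine sum_congr rfl fun s hs => ?_
        rw [(hg s hs).2.1, (hg s hs).2.2.2]
    _ = ∑ t ∈ A.image g, f (pol t.1) (pol' t.2) := by
        rw [sum_image inj]
    _ ≤ ∑ t ∈ O ×ˢ O', f (pol t.1) (pol' t.2) := by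
        refine sum_le_sum_of_subset_of_nonneg ?_ fun t _ _ => hf _ _
        intro t ht
        obtain ⟨s, hs, rfl⟩ := mem_image.mp ht
        exact mem_product.mpr ⟨(hg s hs).1, (hg s hs).2.2.1⟩

/-- the factor of `Gc = 1` -/
theorem qh5_thB {m : Fin 11} {W : Wts 11} {P : ℕ} {u v : PolyK 11} (hG : Gc m u v = 1) :
    ThB m W P u v = wi m W P u * wi m W P v *
      wsp2 W P (dn m u 1) (dn m v 1) (dn m u 10) (dn m v 10) := by
  unfold ThB wsp2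
  rw [hG, qh5_neg]
  simp

/-- the primes of the special determinants -/
theorem qh5_E {m : Fin 11} {q : Par 11} {x : ℝ} {P0 : ℕ} {u v : PolyK 11} (hu : IsPoly m q x P0 u)
    (hv : IsPoly m q x P0 v) (p : ℕ) (hp : p.Prime)
    (h : p ∣ dn m u 1 * dn m u 10 * dn m v 1 * dn m v 10) : P0 < p := by
  rcases (hp.dvd_mul).mp h with h | h
  · rcases (hp.dvd_mul).mp h with h | h
    · rcases (hp.dvd_mul).mp h with h | h
      · exact hu.ro _ p hp h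
      · exact hu.ro _ p hp h
    · exact hv.ro _ p hp h
  · exact hv.ro _ p hp h

/-- the product of the special determinants of a pair -/
theorem qh5_Ele {m : Fin 11} {q : Par 11} (hq : q.Ok) {x : ℝ} (hx : 1 ≤ x) {P0 : ℕ} {u v : PolyK 11}
    (hu : IsPoly m q x P0 u) (hv : IsPoly m q x P0 v) :
    1 ≤ dn m u 1 * dn m u 10 * dn m v 1 * dn m v 10 ∧
      ((dn m u 1 * dn m u 10 * dn m v 1 * dn m v 10 : ℕ) : ℝ) ≤ x := by
  have x0 : 0 < x := by linarith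
  constructor
  · have a1 := Nat.pos_of_ne_zero (hu.sq 1).ne_zero
    have a2 := Nat.pos_of_ne_zero (hu.sq 10).ne_zero
    have a3 := Nat.pos_of_ne_zero (hv.sq 1).ne_zero
    have a4 := Nat.pos_of_ne_zero (hv.sq 10).ne_zero
    exact Nat.mul_pos (Nat.mul_pos (Nat.mul_pos a1 a2) a3) a4
  · have a := qh5_sp hq hx hu
    have b := qh5_sp hq hx hv
    have e : ((dn m u 1 * dn m u 10 * dn m v 1 * dn m v 10 : ℕ) : ℝ) =
        ((dn m u 1 * dn m u 10 : ℕ) : ℝ) * ((dn m v 1 * dn m v 10 : ℕ) : ℝ) := by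
      push_cast; ring
    rw [e]
    calc ((dn m u 1 * dn m u 10 : ℕ) : ℝ) * ((dn m v 1 * dn m v 10 : ℕ) : ℝ)
        ≤ x ^ (1 / 500 : ℝ) * x ^ (1 / 500 : ℝ) := by gcongr
      _ = x ^ (1 / 500 + 1 / 500 : ℝ) := (Real.rpow_add x0 _ _).symm
      _ ≤ x ^ (1 : ℝ) := Real.rpow_le_rpow_of_exponent_le hx (by norm_num)
      _ = x := Real.rpow_one x

theorem qh5_real1 {a w V Φ C2 b b' c c' : ℝ} (h : a * V ≤ C2 / (b * b') * Φ) (hw : 0 ≤ w)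
    (hΦ : 0 ≤ Φ) (hC : 0 ≤ C2) (hc : 0 < c) (hc' : 0 < c') (hb : c ≤ b) (hb' : c' ≤ b') :
    a * w * V ≤ w * (C2 / (c * c')) * Φ := by
  have hb0 : 0 ≤ b := hc.le.trans hb
  have w2 : C2 / (b * b') ≤ C2 / (c * c') := by gcongr
  calc a * w * V = w * (a * V) := by ring
    _ ≤ w * (C2 / (b * b') * Φ) := by gcongr
    _ ≤ w * (C2 / (c * c') * Φ) := by gcongr
    _ = _ := by ring

theorem qh5_real2 {w C2 c B B' T F X : ℝ} (hw : 0 ≤ w) (hC : 0 ≤ C2) (hc : 0 < c) (hB : 0 < B)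
    (hB' : 0 < B') (hT : T ≤ (10 ^ 20 * B) * (10 ^ 20 * B') * (4 * (F + X))) :
    w * (C2 / ((c * B) * (c * B'))) * T ≤
      C2 / (c * c) * (10 ^ 20 * 10 ^ 20 * 4) * w * (F + X) := by
  calc w * (C2 / ((c * B) * (c * B'))) * T
      ≤ w * (C2 / ((c * B) * (c * B'))) * ((10 ^ 20 * B) * (10 ^ 20 * B') * (4 * (F + X))) := by
        gcongr
    _ = C2 / (c * c) * (10 ^ 20 * 10 ^ 20 * 4) * w * (F + X) := by
        field_simp

/-- the error of the second sieve -/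
theorem qh5_err {κ x : ℝ} (hκ : 0 < κ) (x1 : 1 ≤ x) {k P1 : ℕ}
    (hP : (P1 : ℝ) ≤ x ^ (κ / (4 * ((k : ℝ) + 1)))) :
    (P1 : ℝ) ^ k ≤ x ^ κ ∧ (P1 : ℝ) ^ k * (2 * x ^ (-κ)) ≤ 2 * x ^ (-(κ / 2)) := by
  have x0 : 0 < x := by linarith
  have hk : (0 : ℝ) < 4 * (k + 1) := by positivity
  have hlev : (P1 : ℝ) ^ k ≤ x ^ (κ / 4) := by
    calc (P1 : ℝ) ^ k ≤ (x ^ (κ / (4 * ((k : ℝ) + 1)))) ^ k := by gcongr
      _ = x ^ (κ / (4 * ((k : ℝ) + 1)) * k) := by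
          rw [← Real.rpow_natCast, ← Real.rpow_mul x0.le]
      _ ≤ x ^ (κ / 4) := by
          apply Real.rpow_le_rpow_of_exponent_le x1
          rw [div_mul_eq_mul_div, div_le_div_iff₀ hk (by norm_num)]
          nlinarith [hκ]
  refine ⟨hlev.trans (Real.rpow_le_rpow_of_exponent_le x1 (by linarith)), ?_⟩
  have hη0 : 0 ≤ x ^ (-κ) := Real.rpow_nonneg x0.le _
  calc (P1 : ℝ) ^ k * (2 * x ^ (-κ)) ≤ x ^ (κ / 4) * (2 * x ^ (-κ)) := by gcongr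
    _ = 2 * (x ^ (κ / 4) * x ^ (-κ)) := by ring
    _ = 2 * x ^ (κ / 4 + -κ) := by rw [Real.rpow_add x0]
    _ ≤ 2 * x ^ (-(κ / 2)) := by
        have := Real.rpow_le_rpow_of_exponent_le x1 (show κ / 4 + -κ ≤ -(κ / 2) by linarith)
        linarith

theorem qh5_real3 {c c' B B' D e F X : ℝ} (hc : c ≤ 10 ^ 20 * B) (hc' : c' ≤ 10 ^ 20 * B')
    (c0 : 0 ≤ c) (c0' : 0 ≤ c') (hD : D ≤ 2 * F) (he : e ≤ 2 * X) (hF : 0 ≤ F)
    (hX : 0 ≤ X) (hB : 0 < B) :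
    c * c' * (2 * D + e) ≤ (10 ^ 20 * B) * (10 ^ 20 * B') * (4 * (F + X)) := by
  have i1 : 2 * D + e ≤ 4 * (F + X) := by linarith
  have i0 : 0 ≤ 4 * (F + X) := by positivity
  calc c * c' * (2 * D + e) ≤ c * c' * (4 * (F + X)) := by gcongr
    _ ≤ _ := by gcongr

/-- BLOCK QH5 (as PH5; uses PG4, PG5, QF4, QF5, QF6, QF14, QH1, QH4): class (iii) in one cell. The second sieve
runs over the primes `≤ P1` only (`Phi ≤ 1`), `P1 ≤ x ^ τ₀`; `PG5` with `S ⊆ (ps, P1]`, `P1 ≤ P`. -/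
theorem cell3_11_pr (q : Par 11) (hq : q.Ok) {κ : ℝ} (hκ : 0 < κ) (hκ1 : κ ≤ 1 / 10) (m : Fin 11)
    (W : Wts 11) (hW : Bal m W) : ∃ (ps : ℕ) (C1 τ₀ : ℝ), nz 11 ≤ ps ∧ 0 ≤ C1 ∧ 0 < τ₀ ∧
    (∀ P0 p : ℕ, p.Prime → ps < p → 1 / 4 ≤ FFg (eB3 m) (eBP m W) (eB1 m W) C1 P0 p) ∧
    ∀ τ : ℝ, 0 < τ → ∃ C x₀ : ℝ, 0 ≤ C ∧ 2 ≤ x₀ ∧ ∀ x ≥ x₀, ∀ P0 P1 P : ℕ,
      Real.log x ^ 60 ≤ P0 → P0 ≤ P1 → P1 ≤ P → x ^ τ ≤ P1 → (P1 : ℝ) ≤ x ^ τ₀ → (P : ℝ) ≤ x →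
      ∀ (i i' : Fin 11 → ℕ) (δ1 δ2 δ1' δ2' : ℤ) (A : Finset (PolyK 11 × PolyK 11)),
      (∀ s ∈ A, PairP q κ m x P0 s ∧ Gc m s.1 s.2 = 1 ∧ Siz i s.1 ∧ Siz i' s.2 ∧ dl s.1 1 = δ1 ∧
        dl s.1 10 = δ2 ∧ dl s.2 1 = δ1' ∧ dl s.2 10 = δ2') →
      ∑ s ∈ A, ThB m W P s.1 s.2 * VP m W P0 P s.1 s.2 ≤
        C * wsp2 W P (dnz m 1 δ1) (dnz m 1 δ1') (dnz m 10 δ2) (dnz m 10 δ2') *
            (∏ p ∈ prs ps P1, FFg (eB3 m) (eBP m W) (eB1 m W) C1 P0 p + x ^ (-(κ / 2))) := by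
  obtain ⟨C0, hC0, hL⟩ := law11_locF
  obtain ⟨ps, k, C1, hps, hC1, hS⟩ := c3_sieve (m := m) (K := 11) (by norm_num) W hW.ok C0 hC0
  have hpos : ∀ P0 p : ℕ, p.Prime → ps < p →
      1 / 4 ≤ FFg (eB3 m) (eBP m W) (eB1 m W) C1 P0 p :=
    fun P0 p hp hpp => qh5_pos hps hL hS P0 p hp hpp
  have hk : (0 : ℝ) < 4 * (k + 1) := by positivity
  refine ⟨ps, C1, κ / (4 * (k + 1)), hps, hC1, by positivity, hpos, ?_⟩
  intro τ hτ
  obtain ⟨C2, x2, hC2, hx2, hwi⟩ := wi_VP_le (m := m) (K := 11) (by norm_num) q hq W hW.ok hτ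
  obtain ⟨x3, hx3, hpe⟩ := path_equi hκ hκ1
  obtain ⟨b1, b2, b3, b4, b5, b6, _⟩ := eB_le m W hW.ok
  obtain ⟨x4, hx4, hre⟩ := FFg_restore (eB3 m) (eBP m W) (eB1 m W) C1 b1 b2 b3 b4 b5 b6 hC1 ps hpos
  have hc3 := hq.c30
  have hzz0 : (0 : ℝ) < (FD.z.2 : ℝ) := by linarith [qh5_zz]
  set cc : ℝ := q.c3 ^ 9 / (FD.z.2 : ℝ) with hcc
  have hcc0 : 0 < cc := by rw [hcc]; positivity
  set Cc : ℝ := C2 / (cc * cc) * (10 ^ 20 * 10 ^ 20 * 4) with hCc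
  have hCc0 : 0 ≤ Cc := by rw [hCc]; positivity
  refine ⟨Cc, max (max x2 x3) (max x4 (max (Real.exp 2) 2)), hCc0,
    le_max_of_le_right (le_max_of_le_right (le_max_right _ _)), ?_⟩
  intro x hx P0 P1 P hP0 hP01 hP1P hxP1 hP1x hPx i i' δ1 δ2 δ1' δ2' A hA
  have gx2 : x2 ≤ x := ((le_max_left _ _).trans (le_max_left _ _)).trans hx
  have gx3 : x3 ≤ x := ((le_max_right _ _).trans (le_max_left _ _)).trans hx
  have gx4 : x4 ≤ x := ((le_max_left _ _).trans (le_max_right _ _)).trans hx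
  have gxe : Real.exp 2 ≤ x :=
    ((le_max_left _ _).trans ((le_max_right _ _).trans (le_max_right _ _))).trans hx
  have gx1 : 2 ≤ x :=
    ((le_max_right _ _).trans ((le_max_right _ _).trans (le_max_right _ _))).trans hx
  have x1 : 1 ≤ x := by linarith
  have x0 : 0 < x := by linarith
  have hlog : 2 ≤ Real.log x := (Real.le_log_iff_exp_le x0).mpr gxe
  have hP02 : 2 ≤ P0 := by
    have h1 : (2 : ℝ) ≤ Real.log x ^ 60 := by
      calc (2 : ℝ) ≤ 2 ^ 60 := by norm_num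
        _ ≤ Real.log x ^ 60 := by gcongr
    exact_mod_cast h1.trans hP0
  have hFF0 : ∀ p ∈ prs ps P1, 0 ≤ FFg (eB3 m) (eBP m W) (eB1 m W) C1 P0 p := by
    intro p hp
    have h1 := mem_filter.mp hp
    have h2 := (mem_Ioc.mp h1.1).1
    have := hpos P0 p h1.2 h2
    linarith
  have hprod0 : 0 ≤ ∏ p ∈ prs ps P1, FFg (eB3 m) (eBP m W) (eB1 m W) C1 P0 p :=
    prod_nonneg hFF0
  have hw0 := qh5_wsp2 hW.ok P (dnz m 1 δ1) (dnz m 1 δ1') (dnz m 10 δ2) (dnz m 10 δ2')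
  have hxk : 0 ≤ x ^ (-(κ / 2)) := Real.rpow_nonneg x0.le _
  rcases A.eq_empty_or_nonempty with rfl | ⟨s0, hs0⟩
  · simp only [sum_empty]
    exact mul_nonneg (mul_nonneg hCc0 hw0) (add_nonneg hprod0 hxk)
  obtain ⟨H0, _, hi0, hi0', d1, d2, d1', d2'⟩ := hA s0 hs0
  obtain ⟨⟨j, hj, hjP⟩, hdO⟩ := psiz_ok hq hκ x1 H0.p1
  obtain ⟨⟨j', hj', hjP'⟩, hdO'⟩ := psiz_ok hq hκ x1 H0.p2
  rw [qh5_siz hj hi0] at hjP
  rw [qh5_siz hj' hi0'] at hjP'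
  rw [d1, d2] at hdO
  rw [d1', d2'] at hdO'
  -- the primes of the special edges
  have n1 : dn m s0.1 1 = dnz m 1 δ1 := by unfold dn dnz; rw [d1]
  have n2 : dn m s0.1 10 = dnz m 10 δ2 := by unfold dn dnz; rw [d2]
  have n1' : dn m s0.2 1 = dnz m 1 δ1' := by unfold dn dnz; rw [d1']
  have n2' : dn m s0.2 10 = dnz m 10 δ2' := by unfold dn dnz; rw [d2']
  have hEf := qh5_Ele hq x1 H0.p1.poly H0.p2.poly
  have hEp := qh5_E H0.p1.poly H0.p2.poly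
  rw [n1, n2, n1', n2'] at hEf hEp
  set E : ℕ := dnz m 1 δ1 * dnz m 10 δ2 * dnz m 1 δ1' * dnz m 10 δ2' with hE
  obtain ⟨hE1, hEx⟩ := hEf
  set S : Finset ℕ := (prs ps P1).filter (fun p => ¬ p ∣ E) with hSdef
  have hSp : ∀ p ∈ S, p.Prime ∧ ps < p ∧ p ≤ P1 ∧ ¬ p ∣ E := by
    intro p hp
    have h1 := mem_filter.mp hp
    have h2 := mem_filter.mp h1.1
    have h3 := mem_Ioc.mp h2.1
    exact ⟨h2.2, h3.1, h3.2, h1.2⟩
  have hN : ∀ p ∈ S, FD.N0 < p := fun p hp => nz_N (lt_of_le_of_lt hps (hSp p hp).2.1)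
  have hnd : ∀ p ∈ S, ¬ (p : ℤ) ∣ δ1 ∧ ¬ (p : ℤ) ∣ δ2 ∧ ¬ (p : ℤ) ∣ δ1' ∧ ¬ (p : ℤ) ∣ δ2' := by
    intro p hp
    have h := (hSp p hp).2.2.2
    have hpp := (hSp p hp).1
    refine ⟨qh5_nd hpp (hN p hp) hdO.1 fun h1 => h (h1.trans ?_),
      qh5_nd hpp (hN p hp) hdO.2 fun h1 => h (h1.trans ?_),
      qh5_nd hpp (hN p hp) hdO'.1 fun h1 => h (h1.trans ?_),
      qh5_nd hpp (hN p hp) hdO'.2 fun h1 => h (h1.trans ?_)⟩
    · exact ⟨dnz m 10 δ2 * dnz m 1 δ1' * dnz m 10 δ2', by rw [hE]; ring⟩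
    · exact ⟨dnz m 1 δ1 * dnz m 1 δ1' * dnz m 10 δ2', by rw [hE]; ring⟩
    · exact ⟨dnz m 1 δ1 * dnz m 10 δ2 * dnz m 10 δ2', by rw [hE]; ring⟩
    · exact ⟨dnz m 1 δ1 * dnz m 10 δ2 * dnz m 1 δ1', by rw [hE]; ring⟩
  have hP1pos : 1 ≤ P1 := by omega
  have hP1r : (1 : ℝ) ≤ P1 := by exact_mod_cast hP1pos
  -- the level
  obtain ⟨hlev', err⟩ := qh5_err hκ x1 hP1x
  have hη : x ^ (-κ) ≤ 1 := Real.rpow_le_one_of_one_le_of_nonpos x1 (by linarith)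
  have hη0 : 0 ≤ x ^ (-κ) := Real.rpow_nonneg x0.le _
  have q1 := qh5_mono (hpe x gx3 m i hjP δ1 δ2 hdO S (fun p hp =>
    ⟨(hSp p hp).1, hN p hp, (hnd p hp).1, (hnd p hp).2.1⟩)) hlev'
  have q2 := qh5_mono (hpe x gx3 m i' hjP' δ1' δ2' hdO' S (fun p hp =>
    ⟨(hSp p hp).1, hN p hp, (hnd p hp).2.2.1, (hnd p hp).2.2.2⟩)) hlev'
  have sieve := (hS I11 I11 (O11 m i) (pol11 m i δ1 δ2) (O11 m i') (pol11 m i' δ1' δ2')
    (Law11 m δ1 δ2) (Law11 m δ1' δ2') S P0 P1 (x ^ (-κ)) hP1pos hη0 hη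
    (fun p hp => ⟨(hSp p hp).1, (hSp p hp).2.1, (hSp p hp).2.2.1⟩)
    (fun p hp => by
      have h2 : FD.N0 < p := hN p hp
      exact ⟨hL p (hSp p hp).1 h2 m δ1 δ2 hdO (hnd p hp).1 (hnd p hp).2.1,
        hL p (hSp p hp).1 h2 m δ1' δ2' hdO' (hnd p hp).2.2.1 (hnd p hp).2.2.2⟩) q1 q2).1
  -- the sum over the pairs
  have hPhi0 : ∀ u v : PolyK 11, 0 ≤ ∏ p ∈ S, Phi m W P0 u v p := by
    intro u v
    refine prod_nonneg fun p hp => ?_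
    exact (Phi_mem W hW.ok P0 u v).1
  have sumle : ∑ s ∈ A, ∏ p ∈ S, Phi m W P0 s.1 s.2 p ≤
      ∑ o ∈ O11 m i, ∑ o' ∈ O11 m i',
        ∏ p ∈ S, Phi m W P0 (pol11 m i δ1 δ2 o) (pol11 m i' δ1' δ2' o') p := by
    refine qh5_sum (O11 m i) (O11 m i') (pol11 m i δ1 δ2) (pol11 m i' δ1' δ2') A
      (fun u v => ∏ p ∈ S, Phi m W P0 u v p) hPhi0 fun s hs => ?_
    obtain ⟨H, _, hi1, hi2, c1, c2, c1', c2'⟩ := hA s hs
    have m1 := path_mem H.p1 hi1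
    have m2 := path_mem H.p2 hi2
    rw [c1, c2] at m1
    rw [c1', c2'] at m2
    exact ⟨m1, m2⟩
  -- the density
  have dens : ∏ p ∈ S, (1 - bden m W P0 p / p + C1 / (p : ℝ) ^ 2) ≤
      2 * ∏ p ∈ prs ps P1, FFg (eB3 m) (eBP m W) (eB1 m W) C1 P0 p := by
    have h := hre x gx4 P0 P1 E hP0 hE1 hEx hEp
    calc ∏ p ∈ S, (1 - bden m W P0 p / p + C1 / (p : ℝ) ^ 2) =
        ∏ p ∈ S, FFg (eB3 m) (eBP m W) (eB1 m W) C1 P0 p :=
          prod_congr rfl fun p _ => (qh5_ff m W C1 P0 p).symm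
      _ ≤ _ := h
  have c1 := O11_card m i
  have c2 := O11_card m i'
  have B1 := qh5_Bpos i
  have B2 := qh5_Bpos i'
  change ((O11 m i).card : ℝ) ≤ 10 ^ 20 * qh5_B i at c1
  change ((O11 m i').card : ℝ) ≤ 10 ^ 20 * qh5_B i' at c2
  set F : ℝ := ∏ p ∈ prs ps P1, FFg (eB3 m) (eBP m W) (eB1 m W) C1 P0 p with hF
  have tot : ∑ s ∈ A, ∏ p ∈ S, Phi m W P0 s.1 s.2 p ≤
      (10 ^ 20 * qh5_B i) * (10 ^ 20 * qh5_B i') * (4 * (F + x ^ (-(κ / 2)))) :=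
    sumle.trans (sieve.trans (qh5_real3 c1 c2 (Nat.cast_nonneg _) (Nat.cast_nonneg _) dens err
      hprod0 hxk B1))
  -- each term
  have cpos : 0 < cc * qh5_B i := by positivity
  have cpos' : 0 < cc * qh5_B i' := by positivity
  have hxP : x ^ τ ≤ P := hxP1.trans (by exact_mod_cast hP1P)
  have term : ∀ s ∈ A, ThB m W P s.1 s.2 * VP m W P0 P s.1 s.2 ≤
      wsp2 W P (dnz m 1 δ1) (dnz m 1 δ1') (dnz m 10 δ2) (dnz m 10 δ2') *
        (C2 / ((cc * qh5_B i) * (cc * qh5_B i'))) *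
          ∏ p ∈ S, Phi m W P0 s.1 s.2 p := by
    intro s hs
    obtain ⟨H, hG, hi1, hi2, k1, k2, k1', k2'⟩ := hA s hs
    have o1 : dn m s.1 1 = dnz m 1 δ1 := by unfold dn dnz; rw [k1]
    have o2 : dn m s.1 10 = dnz m 10 δ2 := by unfold dn dnz; rw [k2]
    have o1' : dn m s.2 1 = dnz m 1 δ1' := by unfold dn dnz; rw [k1']
    have o2' : dn m s.2 10 = dnz m 10 δ2' := by unfold dn dnz; rw [k2']
    have hcond : ∀ p ∈ S, p.Prime ∧ nz 11 < p ∧ p ≤ P ∧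
        ¬ p ∣ dn m s.1 1 * dn m s.1 (-1) * dn m s.2 1 * dn m s.2 (-1) := by
      intro p hp
      obtain ⟨t1, t2, t3, t4⟩ := hSp p hp
      refine ⟨t1, lt_of_le_of_lt hps t2, t3.trans hP1P, ?_⟩
      rw [qh5_neg, o1, o2, o1', o2']
      exact t4
    have w := hwi x gx2 P0 P hP02 hxP s.1 s.2 H.p1.poly H.p2.poly H.o1 H.o2 S hcond
    rw [qh5_thB hG, o1, o2, o1', o2']
    exact qh5_real1 w hw0 (hPhi0 s.1 s.2) hC2 cpos cpos' (qh5_bad hc3 H.p1 hi1)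
      (qh5_bad hc3 H.p2 hi2)
  refine (sum_le_sum term).trans ?_
  rw [← mul_sum]
  exact qh5_real2 hw0 hC2 hcc0 B1 B2 tot

end Pool.Agent.AQ.PENK

namespace Pool.Agent.AQ.PENK

theorem cell3_11 : type_of% @cell3_11_pr := @cell3_11_pr

end Pool.Agent.AQ.PENK
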