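import Mathlib
import Pool.Agent.Lib_helper18.AQ.K.DefsW

set_option autoImplicit false

namespace Pool.Agent.AQ.PENK

open Finset Pool.Agent.PENT Pool.Agent.PENK

variable [FD]

theorem qh6_dt_le (a b : ℤ × ℤ) : |(dt a b : ℝ)| ≤ (nr a : ℝ) * nr b := by
  have h1 : (dt a b : ℝ) = (a.1 : ℝ) * b.2 - (a.2 : ℝ) * b.1 := by
    unfold dt
    push_cast
    ring
  have hn : ∀ v : ℤ × ℤ, (nr v : ℝ) = |(v.1 : ℝ)| + |(v.2 : ℝ)| := by
    intro v
    unfold nr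
    push_cast
    rw [Nat.cast_natAbs, Nat.cast_natAbs]
    push_cast
    rfl
  rw [h1, hn, hn]
  have h2 : |(a.1 : ℝ) * b.2 - (a.2 : ℝ) * b.1| ≤ |(a.1 : ℝ) * b.2| + |(a.2 : ℝ) * b.1| :=
    abs_sub _ _
  rw [abs_mul, abs_mul] at h2
  have h3 := abs_nonneg (a.1 : ℝ)
  have h4 := abs_nonneg (a.2 : ℝ)
  have h5 := abs_nonneg (b.1 : ℝ)
  have h6 := abs_nonneg (b.2 : ℝ)
  nlinarith [mul_nonneg h3 h5, mul_nonneg h4 h6]

theorem qh6_dn {K : ℕ} [NeZero K] {m : Fin K} (u : PolyK K) {j : Fin K} (hj : j ≠ m) :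
    (dn m u j : ℝ) = |(dt (u j) (u (j + 1)) : ℝ)| := by
  rw [dn_ne u hj]
  unfold dl
  rw [Nat.cast_natAbs]
  push_cast
  rfl

/-- the size of an entry -/
theorem qh6_size {m : Fin 11} (q : Par 11) (hq : q.Ok) {x : ℝ} (hx : 2 ≤ x) {P0 : ℕ} {u : PolyK 11}
    (hu : IsPoly m q x P0 u) {i : Fin 11 → ℕ} (hs : Siz i u) (j : Fin 11) :
    i j ≤ ⌊2 * Real.log x⌋₊ := by
  have hx1 : (1 : ℝ) ≤ x := by linarith
  have he : q.e j + q.ε / 50 ≤ 1 := by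
    have h1 : q.e j + q.ε ≤ ∑ j, (q.e j + q.ε) :=
      Finset.single_le_sum (f := fun j => q.e j + q.ε)
        (fun k _ => add_nonneg (hq.he k) (le_of_lt hq.ε0)) (Finset.mem_univ j)
    have h2 := hq.hs
    have h3 := hq.δ1
    have h4 := hq.ε0
    linarith
  have h1 : ((2 : ℝ)) ^ (i j) ≤ x := by
    have h2 : ((2 : ℝ)) ^ (i j) ≤ (nr (u j) : ℝ) := by
      exact_mod_cast (hs j).1
    have h3 := hu.hi j
    have h4 : x ^ (q.e j + q.ε / 50) ≤ x ^ (1 : ℝ) := Real.rpow_le_rpow_of_exponent_le hx1 he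
    rw [Real.rpow_one] at h4
    linarith
  have h5 : (i j : ℝ) * Real.log 2 ≤ Real.log x := by
    rw [← Real.log_pow]
    exact Real.log_le_log (by positivity) h1
  have h6 := Real.log_two_gt_d9
  apply Nat.le_floor
  have h7 : (0 : ℝ) ≤ (i j : ℝ) := Nat.cast_nonneg _
  nlinarith

/-- the sizes of the fixed vertices -/
def qh6_c (m j : Fin 11) : ℕ := Nat.log 2 (nr (if j = m then FD.z else (1, 0)))

/-- a fixed vertex has a fixed size -/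
theorem qh6_fix {q : Par 11} {κ : ℝ} {m : Fin 11} {x : ℝ} {P0 : ℕ} {u : PolyK 11}
    (hu : IsPath q κ m x P0 u) {i : Fin 11 → ℕ} (hs : Siz i u) {j : Fin 11}
    (hj : j = m ∨ j = m + 1) : i j = qh6_c m j := by
  have h1 : u j = if j = m then FD.z else (1, 0) := by
    by_cases h : j = m
    · rw [if_pos h, h]
      exact hu.fix m _ (fx_z m)
    · have h' : j = m + 1 := by tauto
      rw [if_neg h, h']
      exact hu.fix (m + 1) _ (fx_1 m)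
  have h2 := hs j
  unfold qh6_c
  rw [← h1]
  exact (Nat.log_eq_of_pow_le_of_lt_pow h2.1 h2.2).symm

/-- the special edges -/
theorem qh6_edge {m : Fin 11} (q : Par 11) (hq : q.Ok) {L : ℕ} (hL : 1 ≤ q.c3 * 2 ^ L) {u v : PolyK 11}
    {κ x : ℝ} {P0 : ℕ} (pu : IsPath q κ m x P0 u) (pv : IsPath q κ m x P0 v)
    {i k : Fin 11 → ℕ} (hi : Siz i u) (hk : Siz k v)
    (j : Fin 11) (hd : dn m u j = dn m v j) : i j + i (j + 1) ≤ k j + k (j + 1) + L + 2 := by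
  by_cases hjm : j = m
  · have e1 := qh6_fix pu hi (j := j) (Or.inl hjm)
    have e2 := qh6_fix pv hk (j := j) (Or.inl hjm)
    have e3 := qh6_fix pu hi (j := j + 1) (Or.inr (by rw [hjm]))
    have e4 := qh6_fix pv hk (j := j + 1) (Or.inr (by rw [hjm]))
    omega
  have su := pu.sep
  have hne : j ≠ j + 1 := by
    fin_cases j <;> decide
  have h1 := su j (j + 1) hne
  have h2 := qh6_dt_le (v j) (v (j + 1))
  have h3 : |(dt (u j) (u (j + 1)) : ℝ)| = |(dt (v j) (v (j + 1)) : ℝ)| := by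
    rw [← qh6_dn u hjm, ← qh6_dn v hjm, hd]
  rw [h3] at h1
  have h4 : q.c3 * nr (u j) * nr (u (j + 1)) ≤ (nr (v j) : ℝ) * nr (v (j + 1)) := le_trans h1 h2
  have hc := hq.c30
  have a1 : ((2 : ℝ)) ^ (i j) ≤ (nr (u j) : ℝ) := by exact_mod_cast (hi j).1
  have a2 : ((2 : ℝ)) ^ (i (j + 1)) ≤ (nr (u (j + 1)) : ℝ) := by exact_mod_cast (hi (j + 1)).1
  have b1 : (nr (v j) : ℝ) < ((2 : ℝ)) ^ (k j + 1) := by exact_mod_cast (hk j).2
  have b2 : (nr (v (j + 1)) : ℝ) < ((2 : ℝ)) ^ (k (j + 1) + 1) := by exact_mod_cast (hk (j + 1)).2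
  have c1 : q.c3 * ((2 : ℝ) ^ (i j) * 2 ^ (i (j + 1))) ≤ q.c3 * nr (u j) * nr (u (j + 1)) := by
    rw [mul_assoc]
    exact mul_le_mul_of_nonneg_left (mul_le_mul a1 a2 (by positivity) (by positivity)) hc.le
  have c2 : (nr (v j) : ℝ) * nr (v (j + 1)) < (2 : ℝ) ^ (k j + 1) * 2 ^ (k (j + 1) + 1) :=
    mul_lt_mul'' b1 b2 (by positivity) (by positivity)
  have c3 : q.c3 * ((2 : ℝ) ^ (i j) * 2 ^ (i (j + 1))) < (2 : ℝ) ^ (k j + 1) * 2 ^ (k (j + 1) + 1) :=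
    by linarith
  have c4 : (2 : ℝ) ^ (i j + i (j + 1)) < (2 : ℝ) ^ (k j + k (j + 1) + L + 2) := by
    have e1 : (2 : ℝ) ^ (k j + k (j + 1) + L + 2) =
        2 ^ L * ((2 : ℝ) ^ (k j + 1) * 2 ^ (k (j + 1) + 1)) := by ring
    rw [e1, pow_add]
    have e2 : (0 : ℝ) < 2 ^ L := by positivity
    have e3 : (0 : ℝ) < (2 : ℝ) ^ (i j) * 2 ^ (i (j + 1)) := by positivity
    have e4 : 2 ^ L * (q.c3 * ((2 : ℝ) ^ (i j) * 2 ^ (i (j + 1)))) <
        2 ^ L * ((2 : ℝ) ^ (k j + 1) * 2 ^ (k (j + 1) + 1)) := mul_lt_mul_of_pos_left c3 e2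
    have e5 : 1 * ((2 : ℝ) ^ (i j) * 2 ^ (i (j + 1))) ≤
        (q.c3 * 2 ^ L) * ((2 : ℝ) ^ (i j) * 2 ^ (i (j + 1))) := mul_le_mul_of_nonneg_right hL e3.le
    nlinarith
  exact le_of_lt ((pow_lt_pow_iff_right₀ (by norm_num : (1 : ℝ) < 2)).mp c4)

/-- the compatibility -/
theorem qh6_comp {C : ℝ} {M : ℕ} (hM : C ≤ 2 ^ M) (hC : 0 ≤ C) {u v : PolyK 11}
    {i k : Fin 11 → ℕ} (hi : Siz i u) (hk : Siz k v)
    (h : (nr (u 0) : ℝ) * nr (v 1) ≤ C * (nr (u 1) * nr (v 0))) :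
    i 0 + k 1 ≤ i 1 + k 0 + M + 2 := by
  have a1 : ((2 : ℝ)) ^ (i 0) ≤ (nr (u 0) : ℝ) := by exact_mod_cast (hi 0).1
  have a2 : ((2 : ℝ)) ^ (k 1) ≤ (nr (v 1) : ℝ) := by exact_mod_cast (hk 1).1
  have b1 : (nr (u 1) : ℝ) < ((2 : ℝ)) ^ (i 1 + 1) := by exact_mod_cast (hi 1).2
  have b2 : (nr (v 0) : ℝ) < ((2 : ℝ)) ^ (k 0 + 1) := by exact_mod_cast (hk 0).2
  have c1 : (2 : ℝ) ^ (i 0) * 2 ^ (k 1) ≤ (nr (u 0) : ℝ) * nr (v 1) :=
    mul_le_mul a1 a2 (by positivity) (by positivity)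
  have c2 : (nr (u 1) : ℝ) * nr (v 0) < (2 : ℝ) ^ (i 1 + 1) * 2 ^ (k 0 + 1) :=
    mul_lt_mul'' b1 b2 (by positivity) (by positivity)
  have c4 : C * (nr (u 1) * nr (v 0)) ≤ 2 ^ M * ((2 : ℝ) ^ (i 1 + 1) * 2 ^ (k 0 + 1)) :=
    mul_le_mul hM c2.le (by positivity) (by positivity)
  have c5 : (2 : ℝ) ^ (i 0 + k 1) ≤ (2 : ℝ) ^ (i 1 + k 0 + M + 2) := by
    have e1 : (2 : ℝ) ^ (i 1 + k 0 + M + 2) =
        2 ^ M * ((2 : ℝ) ^ (i 1 + 1) * 2 ^ (k 0 + 1)) := by ring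
    rw [e1, pow_add]
    linarith
  exact (pow_le_pow_iff_right₀ (by norm_num : (1 : ℝ) < 2)).mp c5

/-- the determined sizes -/
def qh6_rem (m : Fin 11) : Finset (Fin 11 × Fin 2) :=
  if m = 0 then {(2, 0), (2, 1), (10, 0), (10, 1)}
  else if m = 1 then {(0, 0), (10, 0), (10, 1)}
  else if m = 2 then {(1, 0), (1, 1), (10, 0), (10, 1), (0, 0)}
  else if m = 9 then {(2, 0), (2, 1), (0, 0), (0, 1), (1, 0)}
  else if m = 10 then {(1, 0), (2, 0), (2, 1)}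
  else {(2, 0), (2, 1), (10, 0), (10, 1), (0, 0)}

/-- the free sizes -/
def qh6_Fr (m : Fin 11) : Finset (Fin 11 × Fin 2) :=
  univ.filter (fun j => j.1 ≠ m ∧ j.1 ≠ m + 1 ∧ j ∉ qh6_rem m)

theorem qh6_Fr_card : ∀ m : Fin 11, (qh6_Fr m).card = ncell m := by decide

/-- the invariants of a pair of sizes -/
def qh6_F (m : Fin 11) (t : (Fin 11 → ℕ) × (Fin 11 → ℕ)) :
    (Fin 11 × Fin 2 → ℕ) × (Fin 5 → ℤ) :=
  (fun j => if j ∈ qh6_Fr m then (if j.2 = 0 then t.1 j.1 else t.2 j.1) else 0,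
    ![(t.1 1 : ℤ) + t.1 2, (t.1 10 : ℤ) + t.1 0, (t.2 1 : ℤ) + t.2 2, (t.2 10 : ℤ) + t.2 0,
      (t.1 0 : ℤ) + t.2 1 - t.1 1 - t.2 0])

theorem qh6_inj (m : Fin 11) (t t' : (Fin 11 → ℕ) × (Fin 11 → ℕ)) (c : Fin 11 → ℕ)
    (Z1 : ∀ j, j = m ∨ j = m + 1 → t.1 j = c j) (Z2 : ∀ j, j = m ∨ j = m + 1 → t.2 j = c j)
    (Y1 : ∀ j, j = m ∨ j = m + 1 → t'.1 j = c j) (Y2 : ∀ j, j = m ∨ j = m + 1 → t'.2 j = c j)
    (h : qh6_F m t = qh6_F m t') : t = t' := by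
  have h1 := congrArg Prod.fst h
  have h2 := congrArg Prod.snd h
  have g0 : (t.1 1 : ℤ) + t.1 2 = (t'.1 1 : ℤ) + t'.1 2 := congrFun h2 0
  have g1 : (t.1 10 : ℤ) + t.1 0 = (t'.1 10 : ℤ) + t'.1 0 := congrFun h2 1
  have g2 : (t.2 1 : ℤ) + t.2 2 = (t'.2 1 : ℤ) + t'.2 2 := congrFun h2 2
  have g3 : (t.2 10 : ℤ) + t.2 0 = (t'.2 10 : ℤ) + t'.2 0 := congrFun h2 3
  have g4 : (t.1 0 : ℤ) + t.2 1 - t.1 1 - t.2 0 = (t'.1 0 : ℤ) + t'.2 1 - t'.1 1 - t'.2 0 :=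
    congrFun h2 4
  have H1 : ∀ j : Fin 11, (j, (0 : Fin 2)) ∈ qh6_Fr m → t.1 j = t'.1 j := by
    intro j hj
    have e := congrFun h1 (j, 0)
    simp only [qh6_F, if_pos hj, if_true] at e
    exact e
  have H2 : ∀ j : Fin 11, (j, (1 : Fin 2)) ∈ qh6_Fr m → t.2 j = t'.2 j := by
    intro j hj
    have e := congrFun h1 (j, 1)
    have h01 : ¬ ((1 : Fin 2) = 0) := by decide
    simp only [qh6_F, if_pos hj, if_neg h01] at e
    exact e
  clear h h1 h2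
  have k : ∀ j : Fin 11, t.1 j = t'.1 j ∧ t.2 j = t'.2 j := by
    fin_cases m <;>
    · try have a0 := H1 0 (by decide)
      try have a1 := H1 1 (by decide)
      try have a2 := H1 2 (by decide)
      try have a10 := H1 10 (by decide)
      try have b0 := H2 0 (by decide)
      try have b1 := H2 1 (by decide)
      try have b2 := H2 2 (by decide)
      try have b10 := H2 10 (by decide)
      try have c0 := Z1 0 (by decide)
      try have c1 := Z1 1 (by decide)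
      try have c2 := Z1 2 (by decide)
      try have c10 := Z1 10 (by decide)
      try have d0 := Z2 0 (by decide)
      try have d1 := Z2 1 (by decide)
      try have d2 := Z2 2 (by decide)
      try have d10 := Z2 10 (by decide)
      try have x0 := Y1 0 (by decide)
      try have x1 := Y1 1 (by decide)
      try have x2 := Y1 2 (by decide)
      try have x10 := Y1 10 (by decide)
      try have y0 := Y2 0 (by decide)
      try have y1 := Y2 1 (by decide)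
      try have y2 := Y2 2 (by decide)
      try have y10 := Y2 10 (by decide)
      intro j
      fin_cases j <;>
      first
        | exact ⟨H1 _ (by decide), H2 _ (by decide)⟩
        | exact ⟨(Z1 _ (by decide)).trans (Y1 _ (by decide)).symm,
            (Z2 _ (by decide)).trans (Y2 _ (by decide)).symm⟩
        | (show t.1 0 = t'.1 0 ∧ t.2 0 = t'.2 0
           omega)
        | (show t.1 1 = t'.1 1 ∧ t.2 1 = t'.2 1
           omega)
        | (show t.1 2 = t'.1 2 ∧ t.2 2 = t'.2 2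
           omega)
        | (show t.1 10 = t'.1 10 ∧ t.2 10 = t'.2 10
           omega)
  exact Prod.ext (funext fun j => (k j).1) (funext fun j => (k j).2)

theorem qh6_card (m : Fin 11) (N K : ℕ) (b : Fin 5 → ℤ) :
    ((Fintype.piFinset (fun j : Fin 11 × Fin 2 => if j ∈ qh6_Fr m then range (N + 1) else {0})) ×ˢ
      (Fintype.piFinset (fun j : Fin 5 => Icc (b j - K) (b j + K)))).card =
        (N + 1) ^ ncell m * (2 * K + 1) ^ 5 := by
  rw [Finset.card_product, Fintype.card_piFinset, Fintype.card_piFinset]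
  have h : ∀ j : Fin 5, (Icc (b j - K) (b j + K)).card = 2 * K + 1 := by
    intro j
    rw [Int.card_Icc]
    omega
  have h' : ∀ j : Fin 11 × Fin 2, (if j ∈ qh6_Fr m then range (N + 1) else {0}).card =
      if j ∈ qh6_Fr m then N + 1 else 1 := by
    intro j
    split_ifs
    · rw [Finset.card_range]
    · rw [Finset.card_singleton]
  simp only [h, h', Finset.prod_const, Finset.card_univ, Fintype.card_fin]
  rw [Finset.prod_ite_mem, Finset.univ_inter, Finset.prod_const, qh6_Fr_card]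

/-- BLOCK QH6 (as PH6): the number of cells: 18 sizes `i j, i' j` (`j` not fixed). Constraints: `m ≠ 1`:
`2 ^ (i 1 + i 2) ~ a1`, the same for `i'`; `m ≠ 10`: `2 ^ (i 10 + i 0) ~ a2`, `i'`; `m ≠ 0`:
`i 0 + i' 1 - i 1 - i' 0 = O(1)`: each determines one free size up to `O(1)`. Cases: generic `m` (3..8): `i 2, i' 2,
i 10, i' 10`, and `i 0`; `m = 2`: `i 1, i' 1, i 10, i' 10`, then `i 0`; `m = 9`: `i 2, i' 2, i 0, i' 0`, then
`i 1`; `m = 1`: `i 10, i' 10`, and `i 0 - i' 0 = O(1)`; `m = 10`: `i 2, i' 2`, and `i 1 - i' 1 = O(1)`;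
`m = 0`: `i 2, i' 2, i 10, i' 10`. -/
theorem cells_count11_pr (q : Par 11) (hq : q.Ok) {κ : ℝ} (hκ : 0 < κ) (m : Fin 11) :
    ∃ C x₀ : ℝ, 0 ≤ C ∧ 2 ≤ x₀ ∧ ∀ x ≥ x₀,
    ∀ (P0 a1 a2 a1' a2' : ℕ) (S : Finset ((Fin 11 → ℕ) × (Fin 11 → ℕ))),
    (∀ t ∈ S, ∃ s, PairP q κ m x P0 s ∧ Siz t.1 s.1 ∧ Siz t.2 s.2 ∧ dn m s.1 1 = a1 ∧
      dn m s.1 10 = a2 ∧ dn m s.2 1 = a1' ∧ dn m s.2 10 = a2') →
    (S.card : ℝ) ≤ C * Real.log x ^ ncell m := by
  obtain ⟨L, hL⟩ : ∃ L : ℕ, 1 ≤ q.c3 * 2 ^ L := by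
    obtain ⟨L, hL⟩ := pow_unbounded_of_one_lt (1 / q.c3) (by norm_num : (1 : ℝ) < 2)
    refine ⟨L, ?_⟩
    have h1 := hq.c30
    rw [div_lt_iff₀ h1] at hL
    linarith
  obtain ⟨M, hM⟩ : ∃ M : ℕ, q.C4 ^ 2 ≤ 2 ^ M := by
    obtain ⟨M, hM⟩ := pow_unbounded_of_one_lt (q.C4 ^ 2) (by norm_num : (1 : ℝ) < 2)
    exact ⟨M, hM.le⟩
  obtain ⟨K, hK⟩ : ∃ K : ℕ, K = 2 * (L + M + 2) := ⟨_, rfl⟩
  refine ⟨4 ^ ncell m * (2 * K + 1) ^ 5, 2, by positivity, le_refl _, ?_⟩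
  intro x hx P0 a1 a4 a1' a4' S hS
  obtain ⟨N, hN⟩ : ∃ N : ℕ, N = ⌊2 * Real.log x⌋₊ := ⟨_, rfl⟩
  have hlog : (1 : ℝ) / 2 ≤ Real.log x := by
    have h1 := Real.log_two_gt_d9
    have h2 : Real.log 2 ≤ Real.log x := Real.log_le_log (by norm_num) hx
    linarith
  have hN1 : ((N : ℝ) + 1) ≤ 4 * Real.log x := by
    have h1 : (N : ℝ) ≤ 2 * Real.log x := by
      rw [hN]
      exact Nat.floor_le (by linarith)
    linarith
  rcases S.eq_empty_or_nonempty with hSe | ⟨t0, ht0⟩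
  · rw [hSe]
    simp only [Finset.card_empty, Nat.cast_zero]
    have h1 : (0 : ℝ) ≤ Real.log x := by linarith
    positivity
  obtain ⟨s0, p0, z0, z0', d1, d4, d1', d4'⟩ := hS t0 ht0
  have hcard : S.card ≤ ((Fintype.piFinset
      (fun j : Fin 11 × Fin 2 => if j ∈ qh6_Fr m then range (N + 1) else {0})) ×ˢ
      (Fintype.piFinset (fun j : Fin 5 => Icc ((qh6_F m t0).2 j - K)
        ((qh6_F m t0).2 j + K)))).card := by
    apply Finset.card_le_card_of_injOn (qh6_F m)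
    · intro t ht
      obtain ⟨s, p, z, z', e1, e4, e1', e4'⟩ := hS t ht
      rw [Finset.mem_coe, Finset.mem_product]
      constructor
      · rw [Fintype.mem_piFinset]
        intro j
        by_cases hj : j ∈ qh6_Fr m
        · simp only [qh6_F, if_pos hj]
          rw [Finset.mem_range, Nat.lt_succ_iff, hN]
          split_ifs
          · exact qh6_size q hq hx p.p1.poly z j.1
          · exact qh6_size q hq hx p.p2.poly z' j.1
        · simp only [qh6_F, if_neg hj, Finset.mem_singleton]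
      · rw [Fintype.mem_piFinset]
        have A1 : t.1 1 + t.1 2 ≤ t0.1 1 + t0.1 2 + L + 2 :=
          qh6_edge q hq hL p.p1 p0.p1 z z0 1 (e1.trans d1.symm)
        have A2 : t0.1 1 + t0.1 2 ≤ t.1 1 + t.1 2 + L + 2 :=
          qh6_edge q hq hL p0.p1 p.p1 z0 z 1 (d1.trans e1.symm)
        have A3 : t.1 10 + t.1 0 ≤ t0.1 10 + t0.1 0 + L + 2 :=
          qh6_edge q hq hL p.p1 p0.p1 z z0 10 (e4.trans d4.symm)
        have A4 : t0.1 10 + t0.1 0 ≤ t.1 10 + t.1 0 + L + 2 :=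
          qh6_edge q hq hL p0.p1 p.p1 z0 z 10 (d4.trans e4.symm)
        have A5 : t.2 1 + t.2 2 ≤ t0.2 1 + t0.2 2 + L + 2 :=
          qh6_edge q hq hL p.p2 p0.p2 z' z0' 1 (e1'.trans d1'.symm)
        have A6 : t0.2 1 + t0.2 2 ≤ t.2 1 + t.2 2 + L + 2 :=
          qh6_edge q hq hL p0.p2 p.p2 z0' z' 1 (d1'.trans e1'.symm)
        have A7 : t.2 10 + t.2 0 ≤ t0.2 10 + t0.2 0 + L + 2 :=
          qh6_edge q hq hL p.p2 p0.p2 z' z0' 10 (e4'.trans d4'.symm)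
        have A8 : t0.2 10 + t0.2 0 ≤ t.2 10 + t.2 0 + L + 2 :=
          qh6_edge q hq hL p0.p2 p.p2 z0' z' 10 (d4'.trans e4'.symm)
        have B1 : t.1 0 + t.2 1 ≤ t.1 1 + t.2 0 + M + 2 :=
          qh6_comp hM (sq_nonneg _) z z' p.cp.1
        have B2 : t.2 0 + t.1 1 ≤ t.2 1 + t.1 0 + M + 2 :=
          qh6_comp hM (sq_nonneg _) z' z p.cp.2
        have B3 : t0.1 0 + t0.2 1 ≤ t0.1 1 + t0.2 0 + M + 2 :=
          qh6_comp hM (sq_nonneg _) z0 z0' p0.cp.1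
        have B4 : t0.2 0 + t0.1 1 ≤ t0.2 1 + t0.1 0 + M + 2 :=
          qh6_comp hM (sq_nonneg _) z0' z0 p0.cp.2
        intro j
        rw [Finset.mem_Icc]
        fin_cases j
        · show (t0.1 1 : ℤ) + t0.1 2 - K ≤ (t.1 1 : ℤ) + t.1 2 ∧
            (t.1 1 : ℤ) + t.1 2 ≤ (t0.1 1 : ℤ) + t0.1 2 + K
          omega
        · show (t0.1 10 : ℤ) + t0.1 0 - K ≤ (t.1 10 : ℤ) + t.1 0 ∧
            (t.1 10 : ℤ) + t.1 0 ≤ (t0.1 10 : ℤ) + t0.1 0 + K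
          omega
        · show (t0.2 1 : ℤ) + t0.2 2 - K ≤ (t.2 1 : ℤ) + t.2 2 ∧
            (t.2 1 : ℤ) + t.2 2 ≤ (t0.2 1 : ℤ) + t0.2 2 + K
          omega
        · show (t0.2 10 : ℤ) + t0.2 0 - K ≤ (t.2 10 : ℤ) + t.2 0 ∧
            (t.2 10 : ℤ) + t.2 0 ≤ (t0.2 10 : ℤ) + t0.2 0 + K
          omega
        · show (t0.1 0 : ℤ) + t0.2 1 - t0.1 1 - t0.2 0 - K ≤
              (t.1 0 : ℤ) + t.2 1 - t.1 1 - t.2 0 ∧
            (t.1 0 : ℤ) + t.2 1 - t.1 1 - t.2 0 ≤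
              (t0.1 0 : ℤ) + t0.2 1 - t0.1 1 - t0.2 0 + K
          omega
    · intro t ht t' ht' h
      obtain ⟨s, p, z, z', -⟩ := hS t ht
      obtain ⟨s', p', y, y', -⟩ := hS t' ht'
      exact qh6_inj m t t' (qh6_c m) (fun j hj => qh6_fix p.p1 z hj) (fun j hj => qh6_fix p.p2 z' hj)
        (fun j hj => qh6_fix p'.p1 y hj) (fun j hj => qh6_fix p'.p2 y' hj) h
  rw [qh6_card] at hcard
  have h1 : (S.card : ℝ) ≤ ((N : ℝ) + 1) ^ ncell m * (2 * K + 1) ^ 5 := by exact_mod_cast hcard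
  have h2 : ((N : ℝ) + 1) ^ ncell m ≤ (4 * Real.log x) ^ ncell m := by
    apply pow_le_pow_left₀ (by positivity) hN1
  have h3 : ((N : ℝ) + 1) ^ ncell m * (2 * K + 1) ^ 5 ≤
      (4 * Real.log x) ^ ncell m * (2 * K + 1) ^ 5 :=
    mul_le_mul_of_nonneg_right h2 (by positivity)
  have h4 : (4 * Real.log x) ^ ncell m * (2 * (K : ℝ) + 1) ^ 5 =
      4 ^ ncell m * (2 * K + 1) ^ 5 * Real.log x ^ ncell m := by
    rw [mul_pow]
    ring
  linarith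

end Pool.Agent.AQ.PENK

namespace Pool.Agent.AQ.PENK

theorem cells_count11 : type_of% @cells_count11_pr := @cells_count11_pr

end Pool.Agent.AQ.PENK
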