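import Mathlib
import Pool.Agent.Lib_helper18.AQ.K.DefsW
import Pool.Agent.Lib_helper18.AQ.KF.QF5
import Pool.Agent.Lib_helper18.AQ.KF.QF6
import Pool.Agent.Lib_helper18.AQ.KF.QH1
import Pool.Agent.Lib_helper18.AQ.KF.QH3
import Pool.Agent.Lib_helper18.AQ.KF.QH8
import Pool.Agent.Lib_helper18.AQ.KF.PA6
import Pool.Agent.Lib_helper18.AQ.KF.PG5
import Pool.Agent.Lib_helper18.AQ.KF.PR2

set_option autoImplicit false

namespace Pool.Agent.AQ.PENK

open Finset Pool.Agent.PENT Pool.Agent.PENK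

variable [FD]

theorem qh9_dl {m : Fin 11} (q : Par 11) (hq : q.Ok) {x : ℝ} {P0 : ℕ} {u : PolyK 11} (h : IsPoly m q x P0 u)
    (j : Fin 11) (hjm : j ≠ m) : dl u j = q.σ j (j + 1) * (dn m u j : ℤ) := by
  have hj : j ≠ j + 1 := by fin_cases j <;> decide
  have h1 := h.sg j (j + 1) hj
  rw [dn_ne u hjm]
  unfold dl
  rcases hq.hσ j (j + 1) with h2 | h2
  · rw [h2] at h1 ⊢
    rw [one_mul] at h1 ⊢
    rw [Int.natCast_natAbs, abs_of_pos h1]
  · rw [h2] at h1 ⊢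
    rw [Int.natCast_natAbs, abs_of_neg (by linarith)]
    ring

theorem qh9_dlm {q : Par 11} {κ x : ℝ} {P0 : ℕ} {m : Fin 11} {v : PolyK 11}
    (hv : IsPath q κ m x P0 v) : dl v m = -FD.z.2 := by
  have h1 : v m = FD.z := hv.fix m _ (fx_z m)
  have h2 : v (m + 1) = (1, 0) := hv.fix (m + 1) (1, 0) (fx_1 m)
  unfold dl dt
  rw [h1, h2]
  ring

/-- the determinant of a special edge is determined by the key -/
theorem qh9_dl' {m : Fin 11} (q : Par 11) (hq : q.Ok) {κ x : ℝ} {P0 : ℕ} {u : PolyK 11}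
    (h : IsPath q κ m x P0 u) (j : Fin 11) :
    dl u j = if j = m then -FD.z.2 else q.σ j (j + 1) * (dn m u j : ℤ) := by
  by_cases hjm : j = m
  · rw [if_pos hjm, hjm]
    exact qh9_dlm h
  · rw [if_neg hjm]
    exact qh9_dl q hq h.poly j hjm

theorem qh9_abs (q : Par 11) (hq : q.Ok) (i j : Fin 11) (a : ℕ) :
    (q.σ i j * (a : ℤ)).natAbs = a := by
  rcases hq.hσ i j with h2 | h2 <;> rw [h2] <;> simp

theorem qh9_mem {m : Fin 11} (q : Par 11) (hq : q.Ok) : ∃ x₀ : ℝ, 2 ≤ x₀ ∧ ∀ x ≥ x₀, ∀ P0 : ℕ,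
    ∀ u : PolyK 11, IsPoly m q x P0 u → One4 m u → ∀ j, dn m u j ∈ DP0 P0 ⌊x⌋₊ := by
  classical
  obtain ⟨x₀, hx₀, H⟩ := DD_le (K := 11) hq
  refine ⟨max 2 x₀, le_max_left _ _, fun x hx P0 u hu h4 j => ?_⟩
  have hx1 : x₀ ≤ x := le_trans (le_max_right _ _) hx
  have hx2 : (2 : ℝ) ≤ x := le_trans (le_max_left _ _) hx
  obtain ⟨h1, h2⟩ := H x hx1 P0 u hu
  have hdv : dn m u j ∣ DD m u := Finset.dvd_prod_of_mem _ (Finset.mem_univ j)
  have hpos : 0 < dn m u j := Nat.pos_of_dvd_of_pos hdv h1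
  have hle : dn m u j ≤ DD m u := Nat.le_of_dvd h1 hdv
  have hle2 : (dn m u j : ℝ) ≤ x := by
    have h3 : (dn m u j : ℝ) ≤ DD m u := by exact_mod_cast hle
    have h4 : x ^ (q.δ / 20) ≤ x ^ (1 : ℝ) := by
      apply Real.rpow_le_rpow_of_exponent_le (by linarith)
      have := hq.δ1
      linarith
    rw [Real.rpow_one] at h4
    linarith
  unfold DP0
  rw [Finset.mem_filter, Finset.mem_Icc]
  refine ⟨⟨hpos, Nat.le_floor hle2⟩, hu.sq j, fun p hp hpd => ⟨hu.ro j p hp hpd, h4 p hp (hpd.trans hdv)⟩⟩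

theorem qh9_siz {m : Fin 11} {q : Par 11} {x : ℝ} (hx : 0 < x) {P0 : ℕ} {u : PolyK 11}
    (h : IsPoly m q x P0 u) : Siz (fun j => Nat.log 2 (nr (u j))) u := by
  intro j
  have h1 : nr (u j) ≠ 0 := by
    intro h0
    have h2 := h.lo j
    rw [h0] at h2
    have h3 : 0 < x ^ q.e j := Real.rpow_pos_of_pos hx _
    simp at h2
    linarith
  exact ⟨Nat.pow_log_le_self 2 h1, Nat.lt_pow_succ_log_self (by norm_num) _⟩

theorem qh9_wsp_nn (P : ℕ) {both one : ℝ} (hb : 0 ≤ both) (ho : 0 ≤ one) (d d' : ℕ) :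
    0 ≤ wsp P both one d d' := by
  unfold wsp
  apply Finset.prod_nonneg
  intro p _
  have h1 : 0 ≤ lw P p both := by
    unfold lw
    split_ifs
    · exact hb
    · norm_num
  have h2 : 0 ≤ lw P p one := by
    unfold lw
    split_ifs
    · exact ho
    · norm_num
  split_ifs <;> positivity

theorem qh9_par {a b : ℝ} (ha : 0 ≤ a) (ha1 : a ≤ 1 / 2) (hb : 0 < b)
    (hb1 : b ≤ 1) : 0 ≤ a ^ 2 / (b + a) ∧ a ^ 2 / (b + a) ≤ 1 ∧ 0 ≤ a * b / (b + a) ∧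
      a * b / (b + a) ≤ 1 := by
  have hs : 0 < b + a := by linarith
  refine ⟨by positivity, ?_, by positivity, ?_⟩
  · rw [div_le_one hs]
    nlinarith
  · rw [div_le_one hs]
    nlinarith

theorem qh9_prod_le (S : Finset ℕ) (f : ℕ → ℝ) (hf : ∀ p ∈ S, 0 ≤ 1 + f p) :
    ∏ p ∈ S, (1 + f p) ≤ Real.exp (∑ p ∈ S, f p) := by
  rw [Real.exp_sum]
  apply Finset.prod_le_prod hf
  intro p _
  have := Real.add_one_le_exp (f p)
  linarith

/-- the product over a special edge is at most a power of `log x` -/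
theorem qh9_G : ∃ C : ℝ, 0 ≤ C ∧ ∀ x : ℝ, 2 ≤ x → 1 ≤ Real.log x → ∀ P0 P : ℕ, (P : ℝ) ≤ x →
    ∀ σ : ℝ, 0 ≤ σ → σ ≤ 6 →
    ∏ p ∈ (prs P0 P).filter (fun p => Sp p), (1 + σ / (p : ℝ)) ≤ C * Real.log x ^ 6 := by
  obtain ⟨C, hC⟩ := Pool.Agent.LEV.mertens_two
  refine ⟨Real.exp (6 * |C|), (Real.exp_pos _).le, ?_⟩
  intro x hx hL P0 P hP σ hσ hσ6
  have h1 := qh9_prod_le ((prs P0 P).filter (fun p => Sp p)) (fun p => σ / (p : ℝ))
    (fun p _ => by positivity)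
  refine h1.trans ?_
  have hsum : ∑ p ∈ (prs P0 P).filter (fun p => Sp p), σ / (p : ℝ) ≤
      6 * ∑ p ∈ (Finset.Icc 1 ⌊x⌋₊).filter Nat.Prime, 1 / (p : ℝ) := by
    rw [Finset.mul_sum]
    calc ∑ p ∈ (prs P0 P).filter (fun p => Sp p), σ / (p : ℝ) ≤
        ∑ p ∈ (prs P0 P).filter (fun p => Sp p), 6 * (1 / (p : ℝ)) := by
          apply Finset.sum_le_sum
          intro p _
          rw [mul_one_div]
          exact div_le_div_of_nonneg_right hσ6 (Nat.cast_nonneg p)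
      _ ≤ _ := by
          apply Finset.sum_le_sum_of_subset_of_nonneg
          · intro p hp
            rw [Finset.mem_filter] at hp
            have hp1 := hp.1
            unfold prs at hp1
            rw [Finset.mem_filter, Finset.mem_Ioc] at hp1
            rw [Finset.mem_filter, Finset.mem_Icc]
            refine ⟨⟨hp1.2.pos, ?_⟩, hp1.2⟩
            apply Nat.le_floor
            have : (p : ℝ) ≤ P := by exact_mod_cast hp1.1.2
            linarith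
          · intro p _ _
            positivity
  have hm := (abs_le.1 (hC x hx)).2
  have hCC : C ≤ |C| := le_abs_self C
  have h2 : ∑ p ∈ (prs P0 P).filter (fun p => Sp p), σ / (p : ℝ) ≤
      6 * |C| + 6 * Real.log (Real.log x) := by linarith
  refine (Real.exp_le_exp.2 h2).trans (le_of_eq ?_)
  rw [Real.exp_add]
  congr 1
  have hL0 : 0 < Real.log x := by linarith
  rw [show (6 : ℝ) * Real.log (Real.log x) = ((6 : ℕ) : ℝ) * Real.log (Real.log x) by norm_num,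
    Real.exp_nat_mul, Real.exp_log hL0]

theorem qh9_m1 : (-1 : Fin 11) = 10 := by decide

theorem qh9_dnlow {m : Fin 11} {q : Par 11} (hq : q.Ok) {κ x : ℝ} {P0 : ℕ} {u : PolyK 11}
    (hu : IsPath q κ m x P0 u) {i : Fin 11 → ℕ}
    (hi : Siz i u) (j : Fin 11) : q.c3 * (2 ^ i j * 2 ^ i (j + 1)) ≤
      (if j = m then (FD.z.2 : ℝ) else 1) * (dn m u j : ℝ) := by
  have hz : (1 : ℝ) ≤ FD.z.2 := by exact_mod_cast FD.zy
  have hj : j ≠ j + 1 := by fin_cases j <;> decide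
  have h1 := hu.sep j (j + 1) hj
  have h2 : (if j = m then (FD.z.2 : ℝ) else 1) * (dn m u j : ℝ) =
      |(dt (u j) (u (j + 1)) : ℝ)| := by
    by_cases hjm : j = m
    · rw [if_pos hjm, hjm, dn_m]
      have h5 : dt (u m) (u (m + 1)) = -FD.z.2 := qh9_dlm hu
      rw [h5]
      push_cast
      rw [abs_neg, abs_of_pos (by linarith), mul_one]
    · rw [if_neg hjm, dn_ne u hjm, one_mul]
      unfold dl
      rw [Nat.cast_natAbs, Int.cast_abs]
  rw [h2]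
  refine le_trans ?_ h1
  have h3 : (2 : ℝ) ^ i j ≤ (nr (u j) : ℝ) := by exact_mod_cast (hi j).1
  have h4 : (2 : ℝ) ^ i (j + 1) ≤ (nr (u (j + 1)) : ℝ) := by exact_mod_cast (hi (j + 1)).1
  have h5 := hq.c30
  calc q.c3 * (2 ^ i j * 2 ^ i (j + 1)) ≤ q.c3 * ((nr (u j) : ℝ) * nr (u (j + 1))) := by
        apply mul_le_mul_of_nonneg_left _ h5.le
        exact mul_le_mul h3 h4 (by positivity) (by positivity)
    _ = q.c3 * nr (u j) * nr (u (j + 1)) := by ring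

theorem qh9_inr : inr 11 = {0, 2, 3, 4, 5, 6, 7, 8, 9} := by
  unfold inr
  decide

theorem qh9_badlow {m : Fin 11} {q : Par 11} (hq : q.Ok) {κ x : ℝ} {P0 : ℕ} {u : PolyK 11}
    (hu : IsPath q κ m x P0 u) {i : Fin 11 → ℕ}
    (hi : Siz i u) : q.c3 ^ 9 * ((2 : ℝ) ^ i 0 * 2 ^ i 1 * 2 ^ i 2 * 2 ^ i 10 *
      ∏ j : Fin 7, (2 ^ i (sv j)) ^ 2) ≤ (FD.z.2 : ℝ) * (bad m u : ℝ) := by
  have hc := hq.c30
  have hz : (1 : ℝ) ≤ FD.z.2 := by exact_mod_cast FD.zy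
  have h1 : ∏ j ∈ inr 11, (q.c3 * ((2 : ℝ) ^ i j * 2 ^ i (j + 1))) ≤
      (FD.z.2 : ℝ) * (bad m u : ℝ) := by
    have h6 : ∏ j ∈ inr 11, (q.c3 * ((2 : ℝ) ^ i j * 2 ^ i (j + 1))) ≤
        ∏ j ∈ inr 11, ((if j = m then (FD.z.2 : ℝ) else 1) * (dn m u j : ℝ)) :=
      Finset.prod_le_prod (fun j _ => by positivity) (fun j _ => qh9_dnlow hq hu hi j)
    refine h6.trans ?_
    rw [Finset.prod_mul_distrib, Finset.prod_ite_eq']
    unfold bad
    push_cast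
    apply mul_le_mul_of_nonneg_right _ (Finset.prod_nonneg (fun j _ => by positivity))
    split_ifs
    · exact le_rfl
    · exact hz
  refine le_trans (le_of_eq ?_) h1
  rw [qh9_inr]
  rw [Finset.prod_insert (by decide), Finset.prod_insert (by decide),
    Finset.prod_insert (by decide), Finset.prod_insert (by decide),
    Finset.prod_insert (by decide), Finset.prod_insert (by decide),
    Finset.prod_insert (by decide), Finset.prod_insert (by decide), Finset.prod_singleton,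
    Fin.prod_univ_seven]
  have s0 : sv 0 = 3 := rfl
  have s1 : sv 1 = 4 := rfl
  have s2 : sv 2 = 5 := rfl
  have s3 : sv 3 = 6 := rfl
  have s4 : sv 4 = 7 := rfl
  have s5 : sv 5 = 8 := rfl
  have s6 : sv 6 = 9 := rfl
  have e0 : (0 : Fin 11) + 1 = 1 := rfl
  have e2 : (2 : Fin 11) + 1 = 3 := rfl
  have e3 : (3 : Fin 11) + 1 = 4 := rfl
  have e4 : (4 : Fin 11) + 1 = 5 := rfl
  have e5 : (5 : Fin 11) + 1 = 6 := rfl
  have e6 : (6 : Fin 11) + 1 = 7 := rfl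
  have e7 : (7 : Fin 11) + 1 = 8 := rfl
  have e8 : (8 : Fin 11) + 1 = 9 := rfl
  have e9 : (9 : Fin 11) + 1 = 10 := rfl
  rw [s0, s1, s2, s3, s4, s5, s6, e0, e2, e3, e4, e5, e6, e7, e8, e9]
  ring

/-- the sum of `1 / bad` in one cell -/
theorem qh9_cell {q : Par 11} (hq : q.Ok) {κ : ℝ} {m : Fin 11} {x : ℝ} {P0 : ℕ}
    {i : Fin 11 → ℕ} {δ1 δ2 : ℤ} (U : Finset (PolyK 11))
    (hU : ∀ u ∈ U, IsPath q κ m x P0 u ∧ Siz i u ∧ dl u 1 = δ1 ∧ dl u 10 = δ2) :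
    ∑ u ∈ U, 1 / (bad m u : ℝ) ≤ (FD.z.2 : ℝ) * 10 ^ 20 / q.c3 ^ 9 := by
  classical
  have hc := hq.c30
  have hz : (1 : ℝ) ≤ FD.z.2 := by exact_mod_cast FD.zy
  rcases U.eq_empty_or_nonempty with hUe | ⟨u0, hu0⟩
  · rw [hUe, Finset.sum_empty]
    positivity
  set M : ℝ := (2 : ℝ) ^ i 0 * 2 ^ i 1 * 2 ^ i 2 * 2 ^ i 10 *
    ∏ j : Fin 7, (2 ^ i (sv j)) ^ 2 with hM
  have hM0 : 0 < M := by positivity
  have hcard : (U.card : ℝ) ≤ 10 ^ 20 * M := by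
    have h1 : U ⊆ (O11 m i).image (pol11 m i δ1 δ2) := by
      intro u hu
      obtain ⟨h1, h3, h4, h5⟩ := hU u hu
      obtain ⟨o, ho, hou⟩ := path_mem h1 h3
      rw [h4, h5] at hou
      rw [Finset.mem_image]
      exact ⟨o, ho, hou⟩
    have h2 : U.card ≤ (O11 m i).card := le_trans (Finset.card_le_card h1) Finset.card_image_le
    have h3 : (U.card : ℝ) ≤ ((O11 m i).card : ℝ) := by exact_mod_cast h2
    exact le_trans h3 (O11_card m i)
  have hterm : ∀ u ∈ U, 1 / (bad m u : ℝ) ≤ (FD.z.2 : ℝ) / (q.c3 ^ 9 * M) := by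
    intro u hu
    obtain ⟨h2, h3, _, _⟩ := hU u hu
    have h4 := qh9_badlow hq h2 h3
    have h5 : 0 < (FD.z.2 : ℝ) * (bad m u : ℝ) := lt_of_lt_of_le (by positivity) h4
    have h6 : 0 < (bad m u : ℝ) := by
      by_contra h7
      push Not at h7
      nlinarith
    rw [div_le_div_iff₀ h6 (by positivity), one_mul]
    exact h4
  calc ∑ u ∈ U, 1 / (bad m u : ℝ) ≤ ∑ u ∈ U, (FD.z.2 : ℝ) / (q.c3 ^ 9 * M) :=
        Finset.sum_le_sum hterm
    _ = (U.card : ℝ) * ((FD.z.2 : ℝ) / (q.c3 ^ 9 * M)) := by rw [Finset.sum_const, nsmul_eq_mul]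
    _ ≤ (10 ^ 20 * M) * ((FD.z.2 : ℝ) / (q.c3 ^ 9 * M)) :=
        mul_le_mul_of_nonneg_right hcard (by positivity)
    _ = (FD.z.2 : ℝ) * 10 ^ 20 / q.c3 ^ 9 := by field_simp

theorem qh9_gc (n : ℕ) (hn : n ≠ 0) : ∏ p ∈ n.primeFactors, ((p : ℝ) / 2) ≤ n := by
  have h1 : ∏ p ∈ n.primeFactors, ((p : ℝ) / 2) ≤ ∏ p ∈ n.primeFactors, (p : ℝ) := by
    apply Finset.prod_le_prod
    · intro p _; positivity
    · intro p _
      have : (0 : ℝ) ≤ p := Nat.cast_nonneg p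
      linarith
  have h2 : ∏ p ∈ n.primeFactors, p ≤ n :=
    Nat.le_of_dvd (Nat.pos_of_ne_zero hn) (Nat.prod_primeFactors_dvd n)
  have h3 : ((∏ p ∈ n.primeFactors, p : ℕ) : ℝ) ≤ n := by exact_mod_cast h2
  push_cast at h3
  linarith

theorem qh9_ThB {m : Fin 11} (W : Wts 11) (P : ℕ) (u v : PolyK 11) : ThB m W P u v =
    (∏ p ∈ (Gc m u v).primeFactors, (p : ℝ) / 2) * (wi m W P u * wi m W P v) *
      wsp2 W P (dn m u 1) (dn m v 1) (dn m u 10) (dn m v 10) := by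
  unfold ThB wsp2
  rw [← qh9_m1]

/-- the sum over one cell of pairs -/
theorem qh9_pairs {q : Par 11} (hq : q.Ok) {κ : ℝ} {m : Fin 11} {x : ℝ} {P0 : ℕ}
    {i i' : Fin 11 → ℕ} {δ1 δ2 δ1' δ2' : ℤ} {E : ℝ} (hE : 0 ≤ E)
    (hcell : ∀ u : PolyK 11, IsPath q κ m x P0 u →
      ∀ (A : Finset (PolyK 11)),
      (∀ v ∈ A, IsPath q κ m x P0 v ∧ Siz i' v ∧ dl v 1 = δ1' ∧ dl v 10 = δ2' ∧
        1 < Gc m u v ∧ (Gc m u v : ℝ) ≤ x ^ (κ / 8)) →
      ∑ v ∈ A, (Gc m u v : ℝ) / bad m v ≤ E)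
    (B : Finset (PolyK 11 × PolyK 11))
    (hB : ∀ s ∈ B, PairP q κ m x P0 s ∧ 1 < Gc m s.1 s.2 ∧ (Gc m s.1 s.2 : ℝ) ≤ x ^ (κ / 8) ∧
      Siz i s.1 ∧ Siz i' s.2 ∧ dl s.1 1 = δ1 ∧ dl s.1 10 = δ2 ∧ dl s.2 1 = δ1' ∧
      dl s.2 10 = δ2') :
    ∑ s ∈ B, (Gc m s.1 s.2 : ℝ) / ((bad m s.1 : ℝ) * bad m s.2) ≤
      (FD.z.2 : ℝ) * 10 ^ 20 / q.c3 ^ 9 * E := by
  classical
  have hc := hq.c30
  rw [← Finset.sum_fiberwise_of_maps_to (g := Prod.fst) (t := B.image Prod.fst)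
      (fun s hs => Finset.mem_image_of_mem _ hs)]
  have hin : ∀ u ∈ B.image Prod.fst, ∑ s ∈ B.filter (fun s => s.1 = u),
      (Gc m s.1 s.2 : ℝ) / ((bad m s.1 : ℝ) * bad m s.2) ≤ 1 / (bad m u : ℝ) * E := by
    intro u hu
    rw [Finset.mem_image] at hu
    obtain ⟨s0, hs0, rfl⟩ := hu
    obtain ⟨h0, _⟩ := hB s0 hs0
    have h1 := hcell s0.1 h0.p1 ((B.filter (fun s => s.1 = s0.1)).image Prod.snd) (by
      intro v hv
      rw [Finset.mem_image] at hv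
      obtain ⟨s, hs, rfl⟩ := hv
      rw [Finset.mem_filter] at hs
      obtain ⟨hsB, hs1⟩ := hs
      obtain ⟨a1, a2, a3, a4, a5, a6, a7, a8, a9⟩ := hB s hsB
      rw [← hs1]
      exact ⟨a1.p2, a5, a8, a9, a2, a3⟩)
    rw [Finset.sum_image (by
      intro s hs t ht hst
      rw [Finset.mem_coe, Finset.mem_filter] at hs ht
      exact Prod.ext (hs.2.trans ht.2.symm) hst)] at h1
    calc ∑ s ∈ B.filter (fun s => s.1 = s0.1), (Gc m s.1 s.2 : ℝ) / ((bad m s.1 : ℝ) * bad m s.2)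
        = 1 / (bad m s0.1 : ℝ) * ∑ s ∈ B.filter (fun s => s.1 = s0.1),
            (Gc m s0.1 s.2 : ℝ) / bad m s.2 := by
          rw [Finset.mul_sum]
          apply Finset.sum_congr rfl
          intro s hs
          rw [Finset.mem_filter] at hs
          rw [hs.2, one_div, div_eq_mul_inv, mul_inv, div_eq_mul_inv]
          ring
      _ ≤ 1 / (bad m s0.1 : ℝ) * E := mul_le_mul_of_nonneg_left h1 (by positivity)
  calc ∑ u ∈ B.image Prod.fst, ∑ s ∈ B.filter (fun s => s.1 = u),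
        (Gc m s.1 s.2 : ℝ) / ((bad m s.1 : ℝ) * bad m s.2)
      ≤ ∑ u ∈ B.image Prod.fst, 1 / (bad m u : ℝ) * E := Finset.sum_le_sum hin
    _ = (∑ u ∈ B.image Prod.fst, 1 / (bad m u : ℝ)) * E := by rw [Finset.sum_mul]
    _ ≤ (FD.z.2 : ℝ) * 10 ^ 20 / q.c3 ^ 9 * E := by
        apply mul_le_mul_of_nonneg_right _ hE
        apply qh9_cell hq (κ := κ) (m := m) (x := x) (P0 := P0) (i := i) (δ1 := δ1) (δ2 := δ2)
        intro u hu
        rw [Finset.mem_image] at hu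
        obtain ⟨s, hs, rfl⟩ := hu
        obtain ⟨a1, a2, a3, a4, a5, a6, a7, a8, a9⟩ := hB s hs
        exact ⟨a1.p1, a4, a6, a7⟩

/-- the sizes of the vertices -/
theorem qh9_nr {m : Fin 11} {q : Par 11} (hq : q.Ok) {x : ℝ} (hx : 1 ≤ x) {P0 : ℕ} {u : PolyK 11}
    (h : IsPoly m q x P0 u) (j : Fin 11) : (nr (u j) : ℝ) ≤ x := by
  refine (h.hi j).trans ?_
  have h1 : q.e j + q.ε ≤ ∑ j, (q.e j + q.ε) :=
    Finset.single_le_sum (f := fun j => q.e j + q.ε)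
      (fun j _ => add_nonneg (hq.he j) hq.ε0.le) (Finset.mem_univ j)
  have h2 := hq.hs
  have h3 := hq.δ1
  have h4 := hq.ε0
  calc x ^ (q.e j + q.ε / 50) ≤ x ^ (1 : ℝ) :=
        Real.rpow_le_rpow_of_exponent_le hx (by linarith)
    _ = x := Real.rpow_one x

theorem qh9_cells {m : Fin 11} {q : Par 11} (hq : q.Ok) {x : ℝ} (hx : 2 ≤ x) (hL : 2 ≤ Real.log x) {P0 : ℕ}
    (T : Finset ((Fin 11 → ℕ) × (Fin 11 → ℕ)))
    (hT : ∀ t ∈ T, ∃ u v : PolyK 11, IsPoly m q x P0 u ∧ IsPoly m q x P0 v ∧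
      t = ((fun j => Nat.log 2 (nr (u j))), (fun j => Nat.log 2 (nr (v j))))) :
    (T.card : ℝ) ≤ (3 * Real.log x) ^ 22 := by
  classical
  set N : ℕ := Nat.log 2 ⌊x⌋₊ with hN
  have hsub : T ⊆ (Fintype.piFinset (fun _ : Fin 11 => Finset.range (N + 1))) ×ˢ
      (Fintype.piFinset (fun _ : Fin 11 => Finset.range (N + 1))) := by
    intro t ht
    obtain ⟨u, v, hu, hv, rfl⟩ := hT t ht
    rw [Finset.mem_product, Fintype.mem_piFinset, Fintype.mem_piFinset]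
    constructor
    · intro j
      rw [Finset.mem_range]
      have := Nat.log_mono_right (b := 2) (Nat.le_floor (qh9_nr hq (by linarith) hu j))
      simp only
      omega
    · intro j
      rw [Finset.mem_range]
      have := Nat.log_mono_right (b := 2) (Nat.le_floor (qh9_nr hq (by linarith) hv j))
      simp only
      omega
  have h1 := Finset.card_le_card hsub
  rw [Finset.card_product, Fintype.card_piFinset] at h1
  simp only [Finset.card_range, Finset.prod_const, Finset.card_univ, Fintype.card_fin] at h1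
  have h2 : (T.card : ℝ) ≤ ((N : ℝ) + 1) ^ 11 * ((N : ℝ) + 1) ^ 11 := by exact_mod_cast h1
  have h3 : (N : ℝ) ≤ 2 * Real.log x := by
    have hfl : 0 < ⌊x⌋₊ := Nat.floor_pos.2 (by linarith)
    have h4 : 2 ^ N ≤ ⌊x⌋₊ := Nat.pow_log_le_self 2 hfl.ne'
    have h5 : (2 : ℝ) ^ N ≤ x := by
      have h6 : ((2 ^ N : ℕ) : ℝ) ≤ (⌊x⌋₊ : ℝ) := by exact_mod_cast h4
      push_cast at h6
      exact h6.trans (Nat.floor_le (by linarith))
    have h6 := Real.log_le_log (by positivity) h5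
    rw [Real.log_pow] at h6
    have h7 := Real.log_two_gt_d9
    nlinarith [Nat.cast_nonneg (α := ℝ) N]
  have h4 : (N : ℝ) + 1 ≤ 3 * Real.log x := by linarith
  calc (T.card : ℝ) ≤ ((N : ℝ) + 1) ^ 11 * ((N : ℝ) + 1) ^ 11 := h2
    _ = ((N : ℝ) + 1) ^ 22 := by ring
    _ ≤ (3 * Real.log x) ^ 22 := pow_le_pow_left₀ (by positivity) h4 22

theorem cls2_11_pr (q : Par 11) (hq : q.Ok) {κ : ℝ} (hκ : 0 < κ) (hκ1 : κ ≤ 1 / 10) (m : Fin 11)
    (W : Wts 11) (hW : Bal m W) {τ : ℝ} (hτ : 0 < τ) : ∃ x₀ : ℝ, 2 ≤ x₀ ∧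
    ∀ x ≥ x₀, ∀ P0 P : ℕ, Real.log x ^ 200 ≤ P0 → P0 ≤ P → x ^ τ ≤ P → (P : ℝ) ≤ x →
      ∀ A : Finset (PolyK 11 × PolyK 11), (∀ s ∈ A, PairP q κ m x P0 s ∧ 1 < Gc m s.1 s.2 ∧
        (Gc m s.1 s.2 : ℝ) ≤ x ^ (κ / 8)) →
      ∑ s ∈ A, ThB m W P s.1 s.2 * VP m W P0 P s.1 s.2 ≤ Real.log x ^ (-120 : ℝ) := by
  classical
  obtain ⟨b30, b31, bP0, bP1, b10, b11, s10, s16, s00, s06⟩ := eB_le m W hW.ok
  have hal1 := qh9_par (hW.ok.al0 1) (hW.ok.al1 1) (hW.ok.be0 1) (hW.ok.be1 1)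
  have hal0 := qh9_par (hW.ok.al0 (-1)) (hW.ok.al1 (-1)) (hW.ok.be0 0) (hW.ok.be1 0)
  have hs1e : W.be 1 + W.al 1 = W.s1 := rfl
  have hs0e : W.be 0 + W.al (-1) = W.s0 := rfl
  rw [hs1e] at hal1
  rw [hs0e] at hal0
  obtain ⟨x5, hx5, H5⟩ := cell2_11 q hq hκ hκ1 m
  obtain ⟨C3, x3, hC3, hx3, H3⟩ := sum_wsp_gen hal1.1 hal1.2.1 hal1.2.2.1 hal1.2.2.2 hτ
  obtain ⟨C4, x4, hC4, hx4, H4⟩ := sum_wsp_gen hal0.1 hal0.2.1 hal0.2.2.1 hal0.2.2.2 hτ
  obtain ⟨C2, x2, hC2, hx2, H2⟩ := wi_VP_le (K := 11) (by norm_num) q hq W hW.ok hτ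
  obtain ⟨xm, hxm, Hm⟩ := qh9_mem q hq
  obtain ⟨C7, hC7, HG⟩ := qh9_G
  have hc := hq.c30
  have hz : (1 : ℝ) ≤ FD.z.2 := by exact_mod_cast FD.zy
  obtain ⟨Kz, hKz⟩ : ∃ Kz : ℝ, Kz = (FD.z.2 : ℝ) * 10 ^ 20 / q.c3 ^ 9 := ⟨_, rfl⟩
  have hKz0 : 0 ≤ Kz := by rw [hKz]; positivity
  set K0 : ℝ := 3 ^ 22 * C2 * (Kz) * ((C3 * C7) * (C4 * C7)) with hK0
  have hK00 : 0 ≤ K0 := by positivity
  refine ⟨max (max (max x5 x4) (max x3 x2)) (max xm (Real.exp (max K0 2))), ?_, ?_⟩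
  · exact le_trans hx5 (le_trans (le_trans (le_max_left _ _) (le_max_left _ _)) (le_max_left _ _))
  intro x hx P0 P hP0 hP0P hτP hPx A hA
  simp only [ge_iff_le, max_le_iff] at hx
  obtain ⟨⟨⟨hx5', hx4'⟩, hx3', hx2'⟩, hxm', hxe⟩ := hx
  have hx2r : (2 : ℝ) ≤ x := by linarith
  have hxpos : 0 < x := by linarith
  have hlogK : max K0 2 ≤ Real.log x := by
    rw [Real.le_log_iff_exp_le hxpos]; exact hxe
  have hlog2 : 2 ≤ Real.log x := le_trans (le_max_right _ _) hlogK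
  have hlogK' : K0 ≤ Real.log x := le_trans (le_max_left _ _) hlogK
  have hlogpos : 0 < Real.log x := by linarith
  have hP02 : 2 ≤ P0 := by
    have h1 : (2 : ℝ) ≤ Real.log x ^ 200 := by
      calc (2 : ℝ) ≤ 2 ^ 200 := by norm_num
        _ ≤ Real.log x ^ 200 := pow_le_pow_left₀ (by norm_num) hlog2 200
    have h2 : (2 : ℝ) ≤ (P0 : ℝ) := le_trans h1 hP0
    exact_mod_cast h2
  -- abbreviations
  set f : PolyK 11 × PolyK 11 → ℝ := fun s => ThB m W P s.1 s.2 * VP m W P0 P s.1 s.2 with hf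
  set D : Finset ℕ := DP0 P0 ⌊x⌋₊ with hD
  set η : ℝ := Real.log x ^ (-198 : ℝ) with hη
  have hη0 : 0 < η := Real.rpow_pos_of_pos hlogpos _
  -- keys
  set key : PolyK 11 × PolyK 11 → (ℕ × ℕ) × (ℕ × ℕ) :=
    fun s => ((dn m s.1 1, dn m s.2 1), (dn m s.1 10, dn m s.2 10)) with hkey
  set key2 : PolyK 11 × PolyK 11 → (Fin 11 → ℕ) × (Fin 11 → ℕ) :=
    fun s => ((fun j => Nat.log 2 (nr (s.1 j))), (fun j => Nat.log 2 (nr (s.2 j)))) with hkey2
  set V : ((ℕ × ℕ) × (ℕ × ℕ)) → ℝ := fun k => wsp2 W P k.1.1 k.1.2 k.2.1 k.2.2 with hV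
  have hV0 : ∀ k, 0 ≤ V k := fun k =>
    mul_nonneg (qh9_wsp_nn P hal1.1 hal1.2.2.1 _ _) (qh9_wsp_nn P hal0.1 hal0.2.2.1 _ _)
  have hmaps : ∀ s ∈ A, key s ∈ (D ×ˢ D) ×ˢ (D ×ˢ D) := by
    intro s hs
    obtain ⟨hs1, _⟩ := hA s hs
    simp only [hkey, Finset.mem_product]
    exact ⟨⟨Hm x hxm' P0 _ hs1.p1.poly hs1.o1 1, Hm x hxm' P0 _ hs1.p2.poly hs1.o2 1⟩,
      ⟨Hm x hxm' P0 _ hs1.p1.poly hs1.o1 10, Hm x hxm' P0 _ hs1.p2.poly hs1.o2 10⟩⟩
  -- one pair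
  have hone : ∀ s ∈ A, f s ≤ C2 * V (key s) *
      ((Gc m s.1 s.2 : ℝ) / ((bad m s.1 : ℝ) * bad m s.2)) := by
    intro s hs
    obtain ⟨hs1, hs2, hs3⟩ := hA s hs
    have h1 := H2 x hx2' P0 P hP02 hτP s.1 s.2 hs1.p1.poly hs1.p2.poly hs1.o1 hs1.o2 ∅ (by simp)
    rw [Finset.prod_empty, mul_one] at h1
    have h2 : ∏ p ∈ (Gc m s.1 s.2).primeFactors, (p : ℝ) / 2 ≤ Gc m s.1 s.2 :=
      qh9_gc _ (by omega)
    have h3 : 0 ≤ ∏ p ∈ (Gc m s.1 s.2).primeFactors, (p : ℝ) / 2 :=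
      Finset.prod_nonneg (fun p _ => by positivity)
    have h4 : 0 ≤ C2 / ((bad m s.1 : ℝ) * bad m s.2) := by positivity
    simp only [hf]
    rw [qh9_ThB]
    calc (∏ p ∈ (Gc m s.1 s.2).primeFactors, (p : ℝ) / 2) * (wi m W P s.1 * wi m W P s.2) *
          wsp2 W P (dn m s.1 1) (dn m s.2 1) (dn m s.1 10) (dn m s.2 10) * VP m W P0 P s.1 s.2
        = ((∏ p ∈ (Gc m s.1 s.2).primeFactors, (p : ℝ) / 2) *
            (wi m W P s.1 * wi m W P s.2 * VP m W P0 P s.1 s.2)) * V (key s) := by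
          simp only [hV, hkey]
          ring
      _ ≤ ((∏ p ∈ (Gc m s.1 s.2).primeFactors, (p : ℝ) / 2) *
            (C2 / ((bad m s.1 : ℝ) * bad m s.2))) * V (key s) := by
          apply mul_le_mul_of_nonneg_right _ (hV0 _)
          exact mul_le_mul_of_nonneg_left h1 h3
      _ ≤ ((Gc m s.1 s.2 : ℝ) * (C2 / ((bad m s.1 : ℝ) * bad m s.2))) * V (key s) := by
          apply mul_le_mul_of_nonneg_right _ (hV0 _)
          exact mul_le_mul_of_nonneg_right h2 h4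
      _ = C2 * V (key s) * ((Gc m s.1 s.2 : ℝ) / ((bad m s.1 : ℝ) * bad m s.2)) := by ring
  have hcell : ∀ k, ∀ t, ∑ s ∈ (A.filter (fun s => key s = k)).filter (fun s => key2 s = t), f s ≤
      C2 * V k * (Kz * η) := by
    intro k t
    have h := qh9_pairs hq (κ := κ) (m := m) (x := x) (P0 := P0) (i := t.1) (i' := t.2)
      (δ1 := if (1 : Fin 11) = m then -FD.z.2 else q.σ 1 (1 + 1) * (k.1.1 : ℤ))
      (δ2 := if (10 : Fin 11) = m then -FD.z.2 else q.σ 10 (10 + 1) * (k.2.1 : ℤ))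
      (δ1' := if (1 : Fin 11) = m then -FD.z.2 else q.σ 1 (1 + 1) * (k.1.2 : ℤ))
      (δ2' := if (10 : Fin 11) = m then -FD.z.2 else q.σ 10 (10 + 1) * (k.2.2 : ℤ))
      (E := η) hη0.le
      (fun u hu B hB => H5 x hx5' P0 hP0 u hu t.2 _ _ B hB)
      ((A.filter (fun s => key s = k)).filter (fun s => key2 s = t)) ?_
    · rw [← hKz] at h
      calc ∑ s ∈ (A.filter (fun s => key s = k)).filter (fun s => key2 s = t), f s
          ≤ ∑ s ∈ (A.filter (fun s => key s = k)).filter (fun s => key2 s = t), C2 * V k *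
              ((Gc m s.1 s.2 : ℝ) / ((bad m s.1 : ℝ) * bad m s.2)) := by
            apply Finset.sum_le_sum
            intro s hs
            rw [Finset.mem_filter, Finset.mem_filter] at hs
            have h1 := hone s hs.1.1
            rw [hs.1.2] at h1
            exact h1
        _ = C2 * V k * ∑ s ∈ (A.filter (fun s => key s = k)).filter (fun s => key2 s = t),
              ((Gc m s.1 s.2 : ℝ) / ((bad m s.1 : ℝ) * bad m s.2)) := by rw [Finset.mul_sum]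
        _ ≤ C2 * V k * (Kz * η) :=
            mul_le_mul_of_nonneg_left h (mul_nonneg hC2 (hV0 k))
    · intro s hs
      rw [Finset.mem_filter, Finset.mem_filter] at hs
      obtain ⟨⟨hsA, hk⟩, ht⟩ := hs
      obtain ⟨hs1, hs2, hs3⟩ := hA s hsA
      refine ⟨hs1, hs2, hs3, ?_, ?_, ?_, ?_, ?_, ?_⟩
      · rw [← ht]; exact qh9_siz hxpos hs1.p1.poly
      · rw [← ht]; exact qh9_siz hxpos hs1.p2.poly
      · rw [← hk]; exact qh9_dl' q hq hs1.p1 1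
      · rw [← hk]; exact qh9_dl' q hq hs1.p1 10
      · rw [← hk]; exact qh9_dl' q hq hs1.p2 1
      · rw [← hk]; exact qh9_dl' q hq hs1.p2 10
  have hfib : ∀ k, ∑ s ∈ A.filter (fun s => key s = k), f s ≤
      (3 * Real.log x) ^ 22 * (C2 * V k * (Kz * η)) := by
    intro k
    have hM0 : 0 ≤ C2 * V k * (Kz * η) := by
      have := hV0 k
      positivity
    rw [← Finset.sum_fiberwise_of_maps_to (g := key2)
      (t := (A.filter (fun s => key s = k)).image key2)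
      (fun s hs => Finset.mem_image_of_mem _ hs)]
    calc ∑ t ∈ (A.filter (fun s => key s = k)).image key2,
          ∑ s ∈ (A.filter (fun s => key s = k)).filter (fun s => key2 s = t), f s
        ≤ ∑ t ∈ (A.filter (fun s => key s = k)).image key2,
            C2 * V k * (Kz * η) :=
          Finset.sum_le_sum (fun t _ => hcell k t)
      _ = (((A.filter (fun s => key s = k)).image key2).card : ℝ) *
            (C2 * V k * (Kz * η)) := by
          rw [Finset.sum_const, nsmul_eq_mul]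
      _ ≤ (3 * Real.log x) ^ 22 * (C2 * V k * (Kz * η)) := by
          apply mul_le_mul_of_nonneg_right _ hM0
          apply qh9_cells hq hx2r hlog2 (P0 := P0)
          intro t ht
          rw [Finset.mem_image] at ht
          obtain ⟨s, hs, rfl⟩ := ht
          rw [Finset.mem_filter] at hs
          obtain ⟨hsA, hk⟩ := hs
          obtain ⟨hs1, hs2⟩ := hA s hsA
          exact ⟨s.1, s.2, hs1.p1.poly, hs1.p2.poly, rfl⟩
  have hsumV : ∑ k ∈ (D ×ˢ D) ×ˢ (D ×ˢ D), V k ≤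
      (C3 * (C7 * Real.log x ^ 6)) * (C4 * (C7 * Real.log x ^ 6)) := by
    have h1 : ∑ k ∈ (D ×ˢ D) ×ˢ (D ×ˢ D), V k =
        (∑ d ∈ D, ∑ d' ∈ D, wsp P (W.al 1 ^ 2 / W.s1) (W.al 1 * W.be 1 / W.s1) d d') *
          (∑ d ∈ D, ∑ d' ∈ D,
            wsp P (W.al (-1) ^ 2 / W.s0) (W.al (-1) * W.be 0 / W.s0) d d') := by
      rw [Finset.sum_product, ← Finset.sum_product' (s := D) (t := D)
        (f := fun d d' => wsp P (W.al 1 ^ 2 / W.s1) (W.al 1 * W.be 1 / W.s1) d d'),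
        ← Finset.sum_product' (s := D) (t := D)
        (f := fun d d' => wsp P (W.al (-1) ^ 2 / W.s0) (W.al (-1) * W.be 0 / W.s0) d d'),
        Finset.sum_mul_sum]
      rfl
    rw [h1]
    have h2 := (H3 x hx3' P0 P hP02 hP0P hτP hPx).trans (mul_le_mul_of_nonneg_left
      (HG x hx2r (by linarith) P0 P hPx (eS1 W) s10 s16) hC3)
    have h3 := (H4 x hx4' P0 P hP02 hP0P hτP hPx).trans (mul_le_mul_of_nonneg_left
      (HG x hx2r (by linarith) P0 P hPx (eS0 W) s00 s06) hC4)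
    have h4 : 0 ≤ ∑ d ∈ D, ∑ d' ∈ D,
        wsp P (W.al (-1) ^ 2 / W.s0) (W.al (-1) * W.be 0 / W.s0) d d' :=
      Finset.sum_nonneg (fun d _ => Finset.sum_nonneg
        (fun d' _ => qh9_wsp_nn P hal0.1 hal0.2.2.1 _ _))
    exact mul_le_mul h2 h3 h4 (by positivity)
  have hfin : Real.log x ^ 34 * Real.log x ^ (-198 : ℝ) = Real.log x ^ (-164 : ℝ) := by
    rw [← Real.rpow_natCast (Real.log x) 34, ← Real.rpow_add hlogpos]
    norm_num
  have hfin2 : Real.log x * Real.log x ^ (-164 : ℝ) = Real.log x ^ (-163 : ℝ) := by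
    conv_lhs => rw [← Real.rpow_one (Real.log x), ← Real.rpow_mul hlogpos.le]
    rw [← Real.rpow_add hlogpos]
    norm_num
  calc ∑ s ∈ A, f s = ∑ k ∈ (D ×ˢ D) ×ˢ (D ×ˢ D), ∑ s ∈ A.filter (fun s => key s = k), f s :=
        (Finset.sum_fiberwise_of_maps_to hmaps f).symm
    _ ≤ ∑ k ∈ (D ×ˢ D) ×ˢ (D ×ˢ D),
          (3 * Real.log x) ^ 22 * (C2 * V k * (Kz * η)) :=
        Finset.sum_le_sum (fun k _ => hfib k)
    _ = (3 * Real.log x) ^ 22 * C2 * (Kz * η) *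
          ∑ k ∈ (D ×ˢ D) ×ˢ (D ×ˢ D), V k := by
        rw [Finset.mul_sum]
        apply Finset.sum_congr rfl
        intro k _
        ring
    _ ≤ (3 * Real.log x) ^ 22 * C2 * (Kz * η) *
          ((C3 * (C7 * Real.log x ^ 6)) * (C4 * (C7 * Real.log x ^ 6))) :=
        mul_le_mul_of_nonneg_left hsumV (by positivity)
    _ = K0 * (Real.log x ^ 34 * Real.log x ^ (-198 : ℝ)) := by
        rw [hK0, hη]; ring
    _ = K0 * Real.log x ^ (-164 : ℝ) := by rw [hfin]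
    _ ≤ Real.log x * Real.log x ^ (-164 : ℝ) :=
        mul_le_mul_of_nonneg_right hlogK' (Real.rpow_nonneg hlogpos.le _)
    _ = Real.log x ^ (-163 : ℝ) := hfin2
    _ ≤ Real.log x ^ (-120 : ℝ) :=
        Real.rpow_le_rpow_of_exponent_le (by linarith) (by norm_num)

end Pool.Agent.AQ.PENK

namespace Pool.Agent.AQ.PENK

theorem cls2_11 : type_of% @cls2_11_pr := @cls2_11_pr

end Pool.Agent.AQ.PENK
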