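import Pool.Agent.Lib_helper18.AQ.K.DefsW
import Pool.Agent.Lib_helper18.AQ.KF.PR4
import Pool.Agent.Lib_helper18.AQ.KF.PB4
import Pool.Agent.Lib_helper18.AQ.KF.PB5
import Pool.Agent.Lib_helper18.AQ.KF.PA6
import Pool.Agent.Lib_helper18.AQ.KF.QH7
import Pool.Agent.Lib_helper18.AQ.KF.QH9

/-! PENK (MP_892e4c_nt), block QH10 (helper67): the final statements for paths -/

set_option autoImplicit false

namespace Pool.Agent.AQ.PENK

open Finset Pool.Agent.PENT Pool.Agent.PENK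

variable [FD]

/-- a triple gives a pair -/
theorem qh10_pair {q : Par 11} (hq : q.Ok) {κ : ℝ} {m : Fin 11} {x : ℝ} (hx : 0 < x) {P0 : ℕ}
    (hP0 : 2 ≤ P0) {s : Bas × PolyK 11 × PolyK 11} (h : TripP q κ m x P0 s) :
    PairP q κ m x P0 s.2 where
  p1 := h.p1
  p2 := h.p2
  o1 := over_one4 (by norm_num) h.p1.poly h.o1
  o2 := over_one4 (by norm_num) h.p2.poly h.o2
  cp := compat_of_over hq hx h.o1 h.o2

/-- `x ^ (-a) ≤ (log x) ^ (-b)` for large `x` -/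
theorem qh10_log {a b : ℝ} (ha : 0 < a) : ∃ x₀ : ℝ, 3 ≤ x₀ ∧ ∀ x ≥ x₀,
    x ^ (-a) ≤ Real.log x ^ (-b) := by
  have h := isLittleO_log_rpow_rpow_atTop b ha
  have h2 := h.bound (show (0 : ℝ) < 1 by norm_num)
  obtain ⟨x₁, hx₁⟩ := Filter.eventually_atTop.mp h2
  refine ⟨max x₁ 3, le_max_right _ _, fun x hx => ?_⟩
  have h3 : 3 ≤ x := (le_max_right _ _).trans hx
  have h4 := hx₁ x ((le_max_left _ _).trans hx)
  have h0 : 0 < Real.log x := Real.log_pos (by linarith)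
  rw [one_mul, Real.norm_of_nonneg (Real.rpow_nonneg h0.le _),
    Real.norm_of_nonneg (Real.rpow_nonneg (by linarith) _)] at h4
  rw [Real.rpow_neg (by linarith), Real.rpow_neg h0.le]
  exact inv_anti₀ (Real.rpow_pos_of_pos h0 _) h4

/-- the logarithm is large -/
theorem qh10_big (B : ℝ) : ∃ x₀ : ℝ, 3 ≤ x₀ ∧ ∀ x ≥ x₀, B ≤ Real.log x := by
  have h2 := Real.tendsto_log_atTop.eventually_ge_atTop B
  obtain ⟨x₁, hx₁⟩ := Filter.eventually_atTop.mp h2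
  exact ⟨max x₁ 3, le_max_right _ _, fun x hx => hx₁ x ((le_max_left _ _).trans hx)⟩

/-- numerical summary -/
theorem qh10_sum {C L : ℝ} (hC : 0 ≤ C) (hL : 2 ≤ L) (hL' : 2 * C ≤ L) :
    C * L ^ (-120 : ℝ) + L ^ (-111 : ℝ) ≤ L ^ (-110 : ℝ) := by
  have h0 : 0 < L := by linarith
  have e1 : L ^ (-110 : ℝ) = L ^ (-111 : ℝ) * L := by
    nth_rewrite 3 [← Real.rpow_one L]
    rw [← Real.rpow_add h0]; norm_num
  have e2 : L ^ (-120 : ℝ) ≤ L ^ (-111 : ℝ) :=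
    Real.rpow_le_rpow_of_exponent_le (by linarith) (by norm_num)
  have p7 : 0 < L ^ (-111 : ℝ) := Real.rpow_pos_of_pos h0 _
  rw [e1]
  have : C * L ^ (-120 : ℝ) ≤ (L / 2) * L ^ (-111 : ℝ) := by
    calc C * L ^ (-120 : ℝ) ≤ C * L ^ (-111 : ℝ) := by gcongr
      _ ≤ (L / 2) * L ^ (-111 : ℝ) := by
        apply mul_le_mul_of_nonneg_right _ p7.le
        linarith
  nlinarith

/-- the size of `P0` -/
theorem qh10_P0 {n : ℕ} (hn : n ≠ 0) {x : ℝ} (hx : 2 ≤ Real.log x) {P0 : ℕ}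
    (h : Real.log x ^ n ≤ P0) : 2 ≤ P0 := by
  have : (2 : ℝ) ≤ P0 := by
    calc (2 : ℝ) = 2 ^ 1 := by norm_num
      _ ≤ 2 ^ n := pow_le_pow_right₀ (by norm_num) (Nat.one_le_iff_ne_zero.mpr hn)
      _ ≤ Real.log x ^ n := by gcongr
      _ ≤ P0 := h
  exact_mod_cast this

/-- the sum over the triples -/
theorem qh10_tri (q : Par 11) (hq : q.Ok) {κ : ℝ} (m : Fin 11) (W : Wts 11) (hW : Bal m W)
    (hE : EQQ q.δ) : ∃ τ₀ : ℝ, 0 < τ₀ ∧ τ₀ ≤ 1 ∧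
    ∃ C x₀ : ℝ, 0 ≤ C ∧ 3 ≤ x₀ ∧ ∀ x ≥ x₀, ∀ P0 P : ℕ, 2 ≤ P0 → 1 ≤ P →
      (P : ℝ) ≤ x ^ τ₀ → ∀ (S : Finset (Bas × PolyK 11 × PolyK 11)) (B : ℝ),
      (∀ s ∈ S, TripP q κ m x P0 s) →
      ((∀ s ∈ S.image (fun s => s.2), PairP q κ m x P0 s) →
        ∑ s ∈ S.image (fun s => s.2), ThB m W P s.1 s.2 * VP m W P0 P s.1 s.2 ≤ B) →
      ∑ s ∈ S, Wt m W P0 P s.2.1 s.2.2 s.1 ≤ x * (C * B + x ^ (-(q.δ / 4))) := by
  obtain ⟨τ, hτ, C, x₀, hC, hx₀, H⟩ := triples (K := 11) (by norm_num) q hq W hW.ok hE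
  refine ⟨min τ 1, lt_min hτ one_pos, min_le_right _ _, C, max x₀ 3, hC, le_max_right _ _, ?_⟩
  intro x hx P0 P hP0 hP hPx S B hS hB
  have hx3 : 3 ≤ x := (le_max_right _ _).trans hx
  have hx0 : 0 < x := by linarith
  have h1 : (P : ℝ) ≤ x ^ τ := hPx.trans
    (Real.rpow_le_rpow_of_exponent_le (by linarith) (min_le_left _ _))
  have h2 := H x ((le_max_left _ _).trans hx) P0 P hP0 hP h1 S
    (fun s hs => ⟨(hS s hs).p1.poly, (hS s hs).p2.poly, (hS s hs).o1, (hS s hs).o2⟩)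
  have h3 := hB (by
    intro s hs
    obtain ⟨t, ht, rfl⟩ := mem_image.mp hs
    exact qh10_pair hq hx0 hP0 (hS t ht))
  refine h2.trans ?_
  have e : x ^ (1 - q.δ / 4) = x * x ^ (-(q.δ / 4)) := by
    rw [sub_eq_add_neg, Real.rpow_add hx0, Real.rpow_one]
  rw [e]
  have : C * x * ∑ s ∈ S.image (fun s => s.2), ThB m W P s.1 s.2 * VP m W P0 P s.1 s.2 ≤
      C * x * B := mul_le_mul_of_nonneg_left h3 (mul_nonneg hC hx0.le)
  nlinarith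

/-- the second level: `exp (√(log x)) ≤ x ^ τ` and `x ^ (τ/2) ≤ ⌊x ^ τ⌋` for large `x` -/
theorem qh10_level {τ τ₀ : ℝ} (hτ : 0 < τ) (hτ₀ : 0 < τ₀) : ∃ x₀ : ℝ, 3 ≤ x₀ ∧ ∀ x ≥ x₀,
    Real.exp (Real.log x ^ (1 / 2 : ℝ)) ≤ x ^ τ ∧ x ^ (τ₀ / 2) ≤ (⌊x ^ τ₀⌋₊ : ℝ) := by
  obtain ⟨x1, hx1, H1⟩ := qh10_big (max 1 ((1 / τ) ^ 2))
  obtain ⟨x2, hx2, H2⟩ := qh10_big (4 / τ₀)
  refine ⟨max x1 x2, hx1.trans (le_max_left _ _), fun x hx => ?_⟩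
  have y1 := H1 x ((le_max_left _ _).trans hx)
  have y2 := H2 x ((le_max_right _ _).trans hx)
  have hx3 : 3 ≤ x := hx1.trans ((le_max_left _ _).trans hx)
  have hx0 : 0 < x := by linarith
  have L1 : 1 ≤ Real.log x := (le_max_left _ _).trans y1
  have L2 : (1 / τ) ^ 2 ≤ Real.log x := (le_max_right _ _).trans y1
  have L0 : 0 < Real.log x := by linarith
  constructor
  · rw [Real.rpow_def_of_pos hx0]
    apply Real.exp_le_exp.mpr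
    rw [← Real.sqrt_eq_rpow]
    have h1 : 1 / τ ≤ Real.sqrt (Real.log x) := Real.le_sqrt_of_sq_le L2
    have h2 : Real.sqrt (Real.log x) * Real.sqrt (Real.log x) = Real.log x :=
      Real.mul_self_sqrt L0.le
    have h3 : 1 ≤ Real.sqrt (Real.log x) * τ := by
      have := mul_le_mul_of_nonneg_right h1 hτ.le
      rwa [one_div, inv_mul_cancel₀ hτ.ne'] at this
    have h4 : 0 ≤ Real.sqrt (Real.log x) := Real.sqrt_nonneg _
    calc Real.sqrt (Real.log x) = Real.sqrt (Real.log x) * 1 := by ring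
      _ ≤ Real.sqrt (Real.log x) * (Real.sqrt (Real.log x) * τ) :=
          mul_le_mul_of_nonneg_left h3 h4
      _ = Real.log x * τ := by rw [← mul_assoc, h2]
  · -- `y = x ^ (τ₀/2) ≥ e² ≥ 2`, `y ≤ y² - 1`
    have e1 : x ^ τ₀ = x ^ (τ₀ / 2) * x ^ (τ₀ / 2) := by
      rw [← Real.rpow_add hx0]
      congr 1
      ring
    have e2 : (2 : ℝ) ≤ x ^ (τ₀ / 2) := by
      rw [Real.rpow_def_of_pos hx0]
      have h1 : (1 : ℝ) ≤ Real.log x * (τ₀ / 2) := by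
        have h2 : 4 / τ₀ * (τ₀ / 2) ≤ Real.log x * (τ₀ / 2) :=
          mul_le_mul_of_nonneg_right y2 (by positivity)
        have h3 : 4 / τ₀ * (τ₀ / 2) = 2 := by
          field_simp
          norm_num
        linarith
      have h4 := Real.add_one_le_exp (Real.log x * (τ₀ / 2))
      linarith
    have e3 : x ^ τ₀ < (⌊x ^ τ₀⌋₊ : ℝ) + 1 := Nat.lt_floor_add_one _
    nlinarith

/-- BLOCK QH10 (as PH11; uses PR4, PB4, PB5, QH7, QH9): the final statements for paths. -/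
theorem gen11_pr (q : Par 11) (hq : q.Ok) {κ : ℝ} (hκ : 0 < κ) (hκ1 : κ ≤ 1 / 10) (m : Fin 11)
    (W : Wts 11) (hW : Bal m W) (hE : EQQ q.δ) : ∃ τ₂ : ℝ, 0 < τ₂ ∧
    ∀ τ : ℝ, 0 < τ → ∃ C x₀ : ℝ, 0 ≤ C ∧ 2 ≤ x₀ ∧ ∀ x ≥ x₀, ∀ P0 P : ℕ,
      Real.log x ^ 60 ≤ P0 → (P0 : ℝ) ≤ Real.exp (Real.log x ^ (1 / 2 : ℝ)) → x ^ τ ≤ P →
      (P : ℝ) ≤ x ^ τ₂ →
      ∀ S : Finset (Bas × PolyK 11 × PolyK 11), (∀ s ∈ S, TripP q κ m x P0 s ∧
        Gc m s.2.1 s.2.2 = 1) →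
      ∑ s ∈ S, Wt m W P0 P s.2.1 s.2.2 s.1 ≤
        C * x * Real.log x ^ ((ncell m : ℝ) - eB3 m / 2 - eBP m W / 2) := by
  obtain ⟨τ1, hτ1, hτ1', C1, x1, hC1, hx1, H1⟩ := qh10_tri q hq (κ := κ) m W hW hE
  obtain ⟨τ0, hτ0, H2⟩ := cls3_11 q hq hκ hκ1 m W hW
  refine ⟨τ1, hτ1, fun τ hτ => ?_⟩
  set τ' : ℝ := min τ (τ0 / 2) with hτ'def
  have hτ' : 0 < τ' := lt_min hτ (by positivity)
  obtain ⟨C2, x2, hC2, hx2, H2⟩ := H2 τ' hτ'
  set e : ℝ := (ncell m : ℝ) - eB3 m / 2 - eBP m W / 2 with he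
  obtain ⟨x3, hx3, H3⟩ := qh10_log (a := q.δ / 4) (b := -e) (by have := hq.δ0; positivity)
  rw [neg_neg] at H3
  obtain ⟨x4, hx4, H4⟩ := qh10_big 2
  obtain ⟨x5, hx5, H5⟩ := qh10_level hτ' hτ0
  refine ⟨C1 * C2 + 1, max (max (max x1 x2) (max x3 x4)) x5, by positivity, ?_, ?_⟩
  · exact (by linarith : (2 : ℝ) ≤ x5).trans (le_max_right _ _)
  intro x hx P0 P hP0 hP0' hPx hPx' S hS
  have y5 : x5 ≤ x := (le_max_right _ _).trans hx
  have hx' := (le_max_left _ _).trans hx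
  have y1 : x1 ≤ x := ((le_max_left _ _).trans (le_max_left _ _)).trans hx'
  have y2 : x2 ≤ x := ((le_max_right _ _).trans (le_max_left _ _)).trans hx'
  have y3 : x3 ≤ x := ((le_max_left _ _).trans (le_max_right _ _)).trans hx'
  have y4 : x4 ≤ x := ((le_max_right _ _).trans (le_max_right _ _)).trans hx'
  have hx1' : 1 ≤ x := by linarith
  have P2 : 2 ≤ P0 := qh10_P0 (by norm_num) (H4 x y4) hP0
  obtain ⟨l1, l2⟩ := H5 x y5
  have hPle : (P : ℝ) ≤ x := by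
    have := hPx'.trans (Real.rpow_le_rpow_of_exponent_le hx1' hτ1')
    rwa [Real.rpow_one] at this
  -- the level `P1`
  set P1 : ℕ := min P ⌊x ^ τ0⌋₊ with hP1
  have a1 : x ^ τ' ≤ (P1 : ℝ) := by
    rw [hP1]
    push_cast
    refine le_min ?_ ?_
    · exact (Real.rpow_le_rpow_of_exponent_le hx1' (min_le_left _ _)).trans hPx
    · exact (Real.rpow_le_rpow_of_exponent_le hx1' (min_le_right _ _)).trans l2
  have a2 : (P1 : ℝ) ≤ x ^ τ0 := by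
    have h1 : (P1 : ℝ) ≤ (⌊x ^ τ0⌋₊ : ℝ) := by exact_mod_cast min_le_right _ _
    exact h1.trans (Nat.floor_le (by positivity))
  have a3 : P1 ≤ P := min_le_left _ _
  have a4 : P0 ≤ P1 := by
    have : (P0 : ℝ) ≤ P1 := (hP0'.trans l1).trans a1
    exact_mod_cast this
  have a5 : 1 ≤ P := by omega
  have K := H1 x y1 P0 P P2 a5 hPx' S (C2 * Real.log x ^ e)
    (fun s hs => (hS s hs).1) (fun hp => H2 x y2 P0 P1 P hP0 a4 a3 a1 a2 hPle _ (fun s hs => by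
      refine ⟨hp s hs, ?_⟩
      obtain ⟨t, ht, rfl⟩ := mem_image.mp hs
      exact (hS t ht).2))
  refine K.trans ?_
  have := H3 x y3
  have hx0 : 0 ≤ x := by linarith
  calc x * (C1 * (C2 * Real.log x ^ e) + x ^ (-(q.δ / 4))) ≤
      x * (C1 * (C2 * Real.log x ^ e) + Real.log x ^ e) := by gcongr
    _ = (C1 * C2 + 1) * x * Real.log x ^ e := by ring

theorem small11_pr (q : Par 11) (hq : q.Ok) {κ : ℝ} (hκ : 0 < κ) (hκ1 : κ ≤ 1 / 10) (m : Fin 11)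
    (W : Wts 11) (hW : Bal m W) (hE : EQQ q.δ) : ∃ τ₂ : ℝ, 0 < τ₂ ∧
    ∀ τ : ℝ, 0 < τ → ∃ x₀ : ℝ, 2 ≤ x₀ ∧ ∀ x ≥ x₀, ∀ P0 P : ℕ,
      Real.log x ^ 200 ≤ P0 → P0 ≤ P → x ^ τ ≤ P → (P : ℝ) ≤ x ^ τ₂ →
      ∀ S : Finset (Bas × PolyK 11 × PolyK 11), (∀ s ∈ S, TripP q κ m x P0 s ∧
        1 < Gc m s.2.1 s.2.2 ∧ (Gc m s.2.1 s.2.2 : ℝ) ≤ x ^ (κ / 8)) →
      ∑ s ∈ S, Wt m W P0 P s.2.1 s.2.2 s.1 ≤ x * Real.log x ^ (-110 : ℝ) := by
  obtain ⟨τ1, hτ1, hτ1', C1, x1, hC1, hx1, H1⟩ := qh10_tri q hq (κ := κ) m W hW hE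
  refine ⟨τ1, hτ1, fun τ hτ => ?_⟩
  obtain ⟨x2, hx2, H2⟩ := cls2_11 q hq hκ hκ1 m W hW hτ
  obtain ⟨x3, hx3, H3⟩ := qh10_log (a := q.δ / 4) (b := 111) (by have := hq.δ0; positivity)
  obtain ⟨x4, hx4, H4⟩ := qh10_big (max 2 (2 * C1))
  refine ⟨max (max x1 x2) (max x3 x4), ?_, ?_⟩
  · exact (by linarith : (2 : ℝ) ≤ x1).trans ((le_max_left _ _).trans (le_max_left _ _))
  intro x hx P0 P hP0 hP hPx hPx' S hS
  have y1 : x1 ≤ x := ((le_max_left _ _).trans (le_max_left _ _)).trans hx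
  have y2 : x2 ≤ x := ((le_max_right _ _).trans (le_max_left _ _)).trans hx
  have y3 : x3 ≤ x := ((le_max_left _ _).trans (le_max_right _ _)).trans hx
  have y4 : x4 ≤ x := ((le_max_right _ _).trans (le_max_right _ _)).trans hx
  have hx1' : 1 ≤ x := by linarith
  have L2 : 2 ≤ Real.log x := (le_max_left _ _).trans (H4 x y4)
  have L2' : 2 * C1 ≤ Real.log x := (le_max_right _ _).trans (H4 x y4)
  have P2 : 2 ≤ P0 := qh10_P0 (by norm_num) L2 hP0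
  have q2 : (P : ℝ) ≤ x := by
    have := hPx'.trans (Real.rpow_le_rpow_of_exponent_le hx1' hτ1')
    rwa [Real.rpow_one] at this
  have K := H1 x y1 P0 P P2 (by omega) hPx' S (Real.log x ^ (-120 : ℝ))
    (fun s hs => (hS s hs).1) (fun hp => H2 x y2 P0 P hP0 hP hPx q2 _ (fun s hs => by
      refine ⟨hp s hs, ?_⟩
      obtain ⟨t, ht, rfl⟩ := mem_image.mp hs
      exact (hS t ht).2))
  refine K.trans ?_
  have h3 := H3 x y3
  have hx0 : 0 ≤ x := by linarith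
  have h5 := qh10_sum hC1 L2 L2'
  exact mul_le_mul_of_nonneg_left (by linarith) hx0

end Pool.Agent.AQ.PENK

namespace Pool.Agent.AQ.PENK

theorem gen11 : type_of% @gen11_pr := @gen11_pr

theorem small11 : type_of% @small11_pr := @small11_pr

end Pool.Agent.AQ.PENK
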