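import Pool.Agent.Lib_helper18.AQ.KF.PR3
import Pool.Agent.Lib_helper18.AQ.KF.PR4

/-!
# PENK: the sum over the bases, uniform first sieve level (helper18; the proofs are those of `rsum`
(helper85) and `triples` (helper54) with the quantifiers in another order)
-/

set_option autoImplicit false

namespace Pool.Agent.AQ.PENK

open Finset Pool.Agent.PENT Pool.Agent.PENK

variable [FD]

variable {K : ℕ} [NeZero K] {m : Fin K}

theorem rsum_u (hK : 5 ≤ K) : ∃ k : ℕ, ∀ (m : Fin K) (q : Par K) (_ : q.Ok) (W : Wts K) (_ : W.Ok)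
    (_ : EQQ q.δ), ∃ C x₀ : ℝ, 0 ≤ C ∧ 1 ≤ x₀ ∧ ∀ x ≥ x₀, ∀ P0 P : ℕ, 2 ≤ P0 → 1 ≤ P →
      (P : ℝ) ≤ x ^ (q.δ / (4 * (k + 1))) → ∀ u u' : PolyK K, IsPoly m q x P0 u → IsPoly m q x P0 u' → One4 m u →
      One4 m u' → ∀ S : Finset Bas, (∀ R ∈ S, Over m q x R u ∧ Over m q x R u') →
      ∑ R ∈ S, ∏ p ∈ (prs FD.N0 P).filter (fun p => ¬ p ∣ DD m u * DD m u'), phi W P0 u u' p R ≤
        C * x * (pit m u u' * VP m W P0 P u u') + x ^ (1 - q.δ / 2) := by
  classical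
  have hK0 : (5 : ℝ) ≤ K := by exact_mod_cast hK
  obtain ⟨k, hk⟩ := brun_primes (4 * K - 4 : ℝ) 2 (by linarith) (by norm_num)
  refine ⟨k, fun m q hq W hW hE => ?_⟩
  obtain ⟨M, x₁, hx₁, hm⟩ := over_cover (m := m) hq
  obtain ⟨x₂, hx₂, hDD⟩ := DD_le (m := m) hq
  obtain ⟨CE, x₃, hCE, hx₃, hE'⟩ := hE q.C4 hq.C41
  have hδ := hq.δ0
  obtain ⟨x₄, hx₄⟩ : ∃ x₄ : ℝ, ∀ x ≥ x₄, (M : ℝ) ≤ x ^ (q.δ / 4) :=
    Filter.eventually_atTop.1 ((tendsto_rpow_atTop (by linarith : 0 < q.δ / 4)).eventually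
      (Filter.eventually_ge_atTop (M : ℝ)))
  refine ⟨M * (2 * CE), max (max x₁ x₂) (max x₃ x₄),
    by positivity, le_max_of_le_left (le_max_of_le_left hx₁), ?_⟩
  intro x hx P0 P hP0 hP hPx u u' h h' h4 h4' S hS
  have hxx₁ : x₁ ≤ x := ((le_max_left _ _).trans (le_max_left _ _)).trans hx
  have hxx₂ : x₂ ≤ x := ((le_max_right _ _).trans (le_max_left _ _)).trans hx
  have hxx₃ : x₃ ≤ x := ((le_max_left _ _).trans (le_max_right _ _)).trans hx
  have hxx₄ : x₄ ≤ x := ((le_max_right _ _).trans (le_max_right _ _)).trans hx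
  have hx1 : 1 ≤ x := hx₁.trans hxx₁
  have hx0 : 0 < x := by linarith
  obtain ⟨G, hG, hcov⟩ := hm x hxx₁ P0 u h
  have hPk : (P : ℝ) ^ k ≤ x ^ (q.δ / 4) := by
    calc (P : ℝ) ^ k ≤ (x ^ (q.δ / (4 * (k + 1)))) ^ k := by
          apply pow_le_pow_left₀ (Nat.cast_nonneg _) hPx
      _ = x ^ (q.δ / (4 * (k + 1)) * k) := by
          rw [← Real.rpow_natCast, ← Real.rpow_mul hx0.le]
      _ ≤ x ^ (q.δ / 4) := by
          apply Real.rpow_le_rpow_of_exponent_le hx1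
          have hk0 : (0 : ℝ) < k + 1 := by positivity
          have : q.δ / (4 * (k + 1)) * k = q.δ / 4 * (k / (k + 1)) := by field_simp
          rw [this]
          have h1 : (k : ℝ) / (k + 1) ≤ 1 := by
            rw [div_le_one hk0]; linarith
          nlinarith
  have hd := hDD x hxx₂ P0 u h
  have hd' := hDD x hxx₂ P0 u' h'
  have hDP : ((DD m u * DD m u' : ℕ) : ℝ) * (P : ℝ) ^ k ≤ x ^ q.δ := by
    push_cast
    have h1 : (DD m u : ℝ) * DD m u' ≤ x ^ (q.δ / 20) * x ^ (q.δ / 20) :=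
      mul_le_mul hd.2 hd'.2 (Nat.cast_nonneg _) (by positivity)
    have h2 : (DD m u : ℝ) * DD m u' * (P : ℝ) ^ k ≤ x ^ (q.δ / 20) * x ^ (q.δ / 20) * x ^ (q.δ / 4) :=
      mul_le_mul h1 hPk (by positivity) (by positivity)
    refine h2.trans ?_
    rw [← Real.rpow_add hx0, ← Real.rpow_add hx0]
    apply Real.rpow_le_rpow_of_exponent_le hx1
    linarith
  have hpos : 0 < DD m u * DD m u' := Nat.mul_pos hd.1 hd'.1
  have hpit : 0 ≤ pit m u u' := by
    unfold pit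
    apply Finset.prod_nonneg
    intro p _
    unfold pip
    split_ifs <;> positivity
  have hVP : 0 ≤ VP m W P0 P u u' := by
    unfold VP
    apply Finset.prod_nonneg
    intro p hp
    unfold prs at hp
    rw [mem_filter, mem_filter, mem_Ioc] at hp
    have h2 : FD.N0 < p := nz_N hp.1.1.1
    have hv := vv_bounds hK W hW P0 u u' hp.1.2 h2 hp.2 (h.op p hp.1.2 h2) (h'.op p hp.1.2 h2)
    have hpK : (100 * K : ℝ) < p := by exact_mod_cast nz_K hp.1.1.1
    have h3 : (4 * K - 4 : ℝ) / (p + 1) ≤ 1 := by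
      rw [div_le_one (by linarith)]
      linarith
    linarith [hv.2]
  -- one box
  have hbox : ∀ i ∈ Finset.range M,
      ∑ R ∈ S.filter (fun R => 2 ^ i * G < (R.1 : ℝ) ∧ (R.1 : ℝ) ≤ 2 * (2 ^ i * G)),
        ∏ p ∈ (prs FD.N0 P).filter (fun p => ¬ p ∣ DD m u * DD m u'), phi W P0 u u' p R ≤
      2 * (CE * x * pit m u u' * VP m W P0 P u u') + x ^ (q.δ / 4) * x ^ (1 - q.δ) := by
    intro i hi
    rw [Finset.mem_range] at hi
    obtain ⟨O, f, hO1, hO2, hO3⟩ := hE' x hxx₃ (2 ^ i * G) (hG i hi).1 (hG i hi).2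
    have hb := pr3_box hK W hW (k := k)
      (fun F w y S Y g X R a b c d e f g' h => (hk Bas F w y S Y g X R a b c d e f g' h).2)
      hx1 hP0 hP h h' h4 h4' hDP hpos O f hO3
      (S.filter (fun R => 2 ^ i * G < (R.1 : ℝ) ∧ (R.1 : ℝ) ≤ 2 * (2 ^ i * G)))
      (fun R hR => hS R (Finset.mem_filter.1 hR).1)
      (fun R hR => by
        rw [Finset.mem_filter] at hR
        have hov := hS R hR.1
        exact hO1 R hov.1.disc hR.2.1 hR.2.2 hov.1.n1)
    refine hb.trans (add_le_add ?_ ?_)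
    · have h1 : (O.card : ℝ) * (pit m u u' * VP m W P0 P u u') ≤
          CE * x * (pit m u u' * VP m W P0 P u u') :=
        mul_le_mul_of_nonneg_right hO2 (mul_nonneg hpit hVP)
      nlinarith
    · exact mul_le_mul_of_nonneg_right hPk (by positivity)
  -- all boxes
  have hall : ∑ R ∈ S, ∏ p ∈ (prs FD.N0 P).filter (fun p => ¬ p ∣ DD m u * DD m u'),
      phi W P0 u u' p R ≤ ∑ i ∈ Finset.range M,
        ∑ R ∈ S.filter (fun R => 2 ^ i * G < (R.1 : ℝ) ∧ (R.1 : ℝ) ≤ 2 * (2 ^ i * G)),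
          ∏ p ∈ (prs FD.N0 P).filter (fun p => ¬ p ∣ DD m u * DD m u'), phi W P0 u u' p R := by
    have hnn : ∀ R, 0 ≤ ∏ p ∈ (prs FD.N0 P).filter (fun p => ¬ p ∣ DD m u * DD m u'),
        phi W P0 u u' p R := fun R =>
      Finset.prod_nonneg (fun p _ => (phi_mem W hW P0 u u' p R).1)
    simp only [Finset.sum_filter]
    rw [Finset.sum_comm]
    apply Finset.sum_le_sum
    intro R hR
    obtain ⟨i, hi, hi1⟩ := hcov R (hS R hR).1
    calc _ = (if 2 ^ i * G < (R.1 : ℝ) ∧ (R.1 : ℝ) ≤ 2 * (2 ^ i * G) then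
          ∏ p ∈ (prs FD.N0 P).filter (fun p => ¬ p ∣ DD m u * DD m u'), phi W P0 u u' p R else 0) := by
          rw [if_pos hi1]
      _ ≤ _ := by
          apply Finset.single_le_sum (f := fun i => if 2 ^ i * G < (R.1 : ℝ) ∧
            (R.1 : ℝ) ≤ 2 * (2 ^ i * G) then
            ∏ p ∈ (prs FD.N0 P).filter (fun p => ¬ p ∣ DD m u * DD m u'), phi W P0 u u' p R else 0)
          · intro j _
            split_ifs
            · exact hnn R
            · exact le_rfl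
          · exact Finset.mem_range.2 hi
  refine hall.trans ((Finset.sum_le_sum hbox).trans ?_)
  rw [Finset.sum_const, Finset.card_range, nsmul_eq_mul, mul_add]
  apply add_le_add
  · apply le_of_eq
    ring
  · calc (M : ℝ) * (x ^ (q.δ / 4) * x ^ (1 - q.δ)) ≤
          x ^ (q.δ / 4) * (x ^ (q.δ / 4) * x ^ (1 - q.δ)) :=
          mul_le_mul_of_nonneg_right (hx₄ x hxx₄) (by positivity)
      _ = x ^ (1 - q.δ / 2) := by
          rw [← Real.rpow_add hx0, ← Real.rpow_add hx0]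
          congr 1
          ring

theorem triples_u (hK : 5 ≤ K) : ∃ k : ℕ, ∀ (m : Fin K) (q : Par K) (_ : q.Ok) (W : Wts K) (_ : W.Ok)
    (_ : EQQ q.δ), ∃ C x₀ : ℝ, 0 ≤ C ∧ 1 ≤ x₀ ∧ ∀ x ≥ x₀, ∀ P0 P : ℕ, 2 ≤ P0 → 1 ≤ P →
      (P : ℝ) ≤ x ^ (q.δ / (4 * (k + 1))) → ∀ (S : Finset (Bas × PolyK K × PolyK K)),
      (∀ s ∈ S, IsPoly m q x P0 s.2.1 ∧ IsPoly m q x P0 s.2.2 ∧ Over m q x s.1 s.2.1 ∧
        Over m q x s.1 s.2.2) →
      ∑ s ∈ S, Wt m W P0 P s.2.1 s.2.2 s.1 ≤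
        C * x * ∑ s ∈ S.image (fun s => s.2), ThB m W P s.1 s.2 * VP m W P0 P s.1 s.2 +
          x ^ (1 - q.δ / 4) := by
  obtain ⟨k, hk⟩ := rsum_u (K := K) hK
  refine ⟨k, fun m q hq W hW hE => ?_⟩
  obtain ⟨C, x₀, hC, hx₀, H⟩ := hk m q hq W hW hE
  have hlim : ∀ᶠ x : ℝ in Filter.atTop, (9 : ℝ) ^ K ≤ x ^ (17 * q.δ / 200) :=
    (tendsto_rpow_atTop (by linarith [hq.δ0])).eventually_ge_atTop _
  obtain ⟨x₁, hx₁⟩ := Filter.eventually_atTop.1 hlim
  refine ⟨C, max x₀ x₁, hC, hx₀.trans (le_max_left _ _), ?_⟩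
  intro x hx P0 P hP0 hP1 hP S hS
  have hxx₀ : x₀ ≤ x := (le_max_left _ _).trans hx
  have hxx₁ : x₁ ≤ x := (le_max_right _ _).trans hx
  have hx1 : 1 ≤ x := hx₀.trans hxx₀
  have hx0 : 0 < x := by linarith
  set I := S.image (fun s => s.2) with hI
  -- the pairs
  have hpair : ∀ v ∈ I, ∑ s ∈ S.filter (fun s => s.2 = v), Wt m W P0 P s.2.1 s.2.2 s.1 ≤
      C * x * (ThB m W P v.1 v.2 * VP m W P0 P v.1 v.2) + x ^ (1 - q.δ / 2) := by
    rintro ⟨u, u'⟩ hv
    obtain ⟨s₀, hs₀, hs₀v⟩ := Finset.mem_image.1 hv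
    obtain ⟨h1, h2, h3, h4⟩ := hS s₀ hs₀
    have hs1 : s₀.2.1 = u := congrArg Prod.fst hs₀v
    have hs2 : s₀.2.2 = u' := congrArg Prod.snd hs₀v
    rw [hs1] at h1 h3
    rw [hs2] at h2 h4
    have ho : One4 m u := over_one4 hK h1 h3
    have ho' : One4 m u' := over_one4 hK h2 h4
    set A : Finset Bas := (S.filter (fun s => s.2 = (u, u'))).image (fun s => s.1) with hA
    have hAo : ∀ R ∈ A, Over m q x R u ∧ Over m q x R u' := by
      intro R hR
      obtain ⟨s, hs, rfl⟩ := Finset.mem_image.1 hR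
      obtain ⟨hs, hsv⟩ := Finset.mem_filter.1 hs
      obtain ⟨-, -, k3, k4⟩ := hS s hs
      have e1 : s.2.1 = u := congrArg Prod.fst hsv
      have e2 : s.2.2 = u' := congrArg Prod.snd hsv
      rw [e1] at k3
      rw [e2] at k4
      exact ⟨k3, k4⟩
    have hsum : ∑ s ∈ S.filter (fun s => s.2 = (u, u')), Wt m W P0 P s.2.1 s.2.2 s.1 =
        ∑ R ∈ A, Wt m W P0 P u u' R := by
      rw [hA, Finset.sum_image]
      · apply Finset.sum_congr rfl
        intro s hs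
        have hsv := (Finset.mem_filter.1 hs).2
        have e1 : s.2.1 = u := congrArg Prod.fst hsv
        have e2 : s.2.2 = u' := congrArg Prod.snd hsv
        rw [e1, e2]
      · intro s hs t ht hst
        have hsv := (Finset.mem_filter.1 hs).2
        have htv := (Finset.mem_filter.1 ht).2
        exact Prod.ext hst (hsv.trans htv.symm)
    set Θ := ∏ p ∈ (DD m u * DD m u').primeFactors, th m W P u u' p with hΘ
    have hΘ0 : 0 ≤ Θ := Finset.prod_nonneg fun p _ => (pr4_th W hW P u u' p).1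
    have hΘ1 : Θ ≤ 1 := Finset.prod_le_one (fun p _ => (pr4_th W hW P u u' p).1)
      fun p _ => (pr4_th W hW P u u' p).2
    rw [hsum, Finset.sum_congr rfl fun R _ => pr4_Wt W h1 h2 R, ← Finset.mul_sum]
    have hr := H x hxx₀ P0 P hP0 hP1 hP u u' h1 h2 ho ho' A hAo
    have hVP := pr4_VP (m := m) W hW P0 P u u'
    have hTH : Θ * pit m u u' ≤ ThB m W P u u' := by
      rw [← pr4_TH]
      exact TH_le_ThB hK W hW P h1 h2
    have hxδ : 0 ≤ x ^ (1 - q.δ / 2) := Real.rpow_nonneg hx0.le _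
    calc Θ * ∑ R ∈ A, ∏ p ∈ (prs FD.N0 P).filter (fun p => ¬ p ∣ DD m u * DD m u'), phi W P0 u u' p R
        ≤ Θ * (C * x * (pit m u u' * VP m W P0 P u u') + x ^ (1 - q.δ / 2)) :=
          mul_le_mul_of_nonneg_left hr hΘ0
      _ = C * x * ((Θ * pit m u u') * VP m W P0 P u u') + Θ * x ^ (1 - q.δ / 2) := by ring
      _ ≤ C * x * (ThB m W P u u' * VP m W P0 P u u') + 1 * x ^ (1 - q.δ / 2) := by
          apply add_le_add
          · apply mul_le_mul_of_nonneg_left _ (mul_nonneg hC hx0.le)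
            exact mul_le_mul_of_nonneg_right hTH hVP
          · exact mul_le_mul_of_nonneg_right hΘ1 hxδ
      _ = C * x * (ThB m W P u u' * VP m W P0 P u u') + x ^ (1 - q.δ / 2) := by rw [one_mul]
  -- the number of the pairs
  have hcard : (I.card : ℝ) ≤ x ^ (q.δ / 4) := by
    have k1 : I ⊆ (S.image (fun s => s.2.1)) ×ˢ (S.image (fun s => s.2.2)) := by
      intro v hv
      obtain ⟨s, hs, rfl⟩ := Finset.mem_image.1 hv
      rw [Finset.mem_product]
      exact ⟨Finset.mem_image.2 ⟨s, hs, rfl⟩, Finset.mem_image.2 ⟨s, hs, rfl⟩⟩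
    have k2 := Finset.card_le_card k1
    rw [Finset.card_product] at k2
    have k3 := pr4_count hq hx1 (hx₁ x hxx₁) (P0 := P0) (S.image (fun s => s.2.1)) (by
      intro u hu
      obtain ⟨s, hs, rfl⟩ := Finset.mem_image.1 hu
      exact (hS s hs).1)
    have k4 := pr4_count hq hx1 (hx₁ x hxx₁) (P0 := P0) (S.image (fun s => s.2.2)) (by
      intro u hu
      obtain ⟨s, hs, rfl⟩ := Finset.mem_image.1 hu
      exact (hS s hs).2.1)
    calc (I.card : ℝ) ≤ ((S.image (fun s => s.2.1)).card : ℝ) * (S.image (fun s => s.2.2)).card := by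
          exact_mod_cast k2
      _ ≤ x ^ (q.δ / 8) * x ^ (q.δ / 8) :=
          mul_le_mul k3 k4 (Nat.cast_nonneg _) (Real.rpow_nonneg hx0.le _)
      _ = x ^ (q.δ / 4) := by
          rw [← Real.rpow_add hx0]
          congr 1
          ring
  rw [← Finset.sum_fiberwise_of_maps_to (t := I) (g := fun s => s.2)
    (fun s hs => Finset.mem_image_of_mem _ hs)]
  calc ∑ v ∈ I, ∑ s ∈ S.filter (fun s => s.2 = v), Wt m W P0 P s.2.1 s.2.2 s.1
      ≤ ∑ v ∈ I, (C * x * (ThB m W P v.1 v.2 * VP m W P0 P v.1 v.2) + x ^ (1 - q.δ / 2)) :=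
        Finset.sum_le_sum hpair
    _ = C * x * ∑ v ∈ I, ThB m W P v.1 v.2 * VP m W P0 P v.1 v.2 + I.card * x ^ (1 - q.δ / 2) := by
        rw [Finset.sum_add_distrib, ← Finset.mul_sum, Finset.sum_const, nsmul_eq_mul]
    _ ≤ C * x * ∑ v ∈ I, ThB m W P v.1 v.2 * VP m W P0 P v.1 v.2 +
          x ^ (q.δ / 4) * x ^ (1 - q.δ / 2) := by
        gcongr
    _ = C * x * ∑ v ∈ I, ThB m W P v.1 v.2 * VP m W P0 P v.1 v.2 + x ^ (1 - q.δ / 4) := by
        rw [← Real.rpow_add hx0]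
        congr 2
        ring

end Pool.Agent.AQ.PENK
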