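import Pool.Agent.Lib_helper18.AQ.KF.U
import Pool.Agent.Lib_helper18.AQ.KF.QH10
import Pool.Agent.Lib_helper18.AQ.KF.PD6
import Pool.Agent.Lib_helper18.AQ.KF.QN2

/-!
# PENK, paths: the final statements with a uniform first sieve level `x ^ (δ / (4 (kU + 1)))`
(helper18; the proofs of `gen11`, `small11` are those of helper67)
-/

set_option autoImplicit false

namespace Pool.Agent.AQ.PENK

open Finset Pool.Agent.PENT Pool.Agent.PENK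

variable [FD]

/-- the constant of the first sieve -/
noncomputable def kU : ℕ := (triples_u (K := 11) (by norm_num)).choose

theorem kU_spec (m : Fin 11) (q : Par 11) (hq : q.Ok) (W : Wts 11) (hW : W.Ok) (hE : EQQ q.δ) :
    ∃ C x₀ : ℝ, 0 ≤ C ∧ 1 ≤ x₀ ∧ ∀ x ≥ x₀, ∀ P0 P : ℕ, 2 ≤ P0 → 1 ≤ P →
      (P : ℝ) ≤ x ^ (q.δ / (4 * (kU + 1))) → ∀ (S : Finset (Bas × PolyK 11 × PolyK 11)),
      (∀ s ∈ S, IsPoly m q x P0 s.2.1 ∧ IsPoly m q x P0 s.2.2 ∧ Over m q x s.1 s.2.1 ∧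
        Over m q x s.1 s.2.2) →
      ∑ s ∈ S, Wt m W P0 P s.2.1 s.2.2 s.1 ≤
        C * x * ∑ s ∈ S.image (fun s => s.2), ThB m W P s.1 s.2 * VP m W P0 P s.1 s.2 +
          x ^ (1 - q.δ / 4) :=
  (triples_u (K := 11) (by norm_num)).choose_spec m q hq W hW hE

theorem kU_exp {q : Par 11} (hq : q.Ok) :
    0 < q.δ / (4 * (kU + 1)) ∧ q.δ / (4 * (kU + 1)) ≤ 1 := by
  have h0 := hq.δ0
  have h1 := hq.δ1
  refine ⟨by positivity, ?_⟩
  rw [div_le_one (by positivity)]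
  have : (0 : ℝ) ≤ kU := Nat.cast_nonneg _
  nlinarith

/-- the sum over the triples -/
theorem tri_u (q : Par 11) (hq : q.Ok) {κ : ℝ} (m : Fin 11) (W : Wts 11) (hW : Bal m W)
    (hE : EQQ q.δ) :
    ∃ C x₀ : ℝ, 0 ≤ C ∧ 3 ≤ x₀ ∧ ∀ x ≥ x₀, ∀ P0 P : ℕ, 2 ≤ P0 → 1 ≤ P →
      (P : ℝ) ≤ x ^ (q.δ / (4 * (kU + 1))) → ∀ (S : Finset (Bas × PolyK 11 × PolyK 11)) (B : ℝ),
      (∀ s ∈ S, TripP q κ m x P0 s) →
      ((∀ s ∈ S.image (fun s => s.2), PairP q κ m x P0 s) →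
        ∑ s ∈ S.image (fun s => s.2), ThB m W P s.1 s.2 * VP m W P0 P s.1 s.2 ≤ B) →
      ∑ s ∈ S, Wt m W P0 P s.2.1 s.2.2 s.1 ≤ x * (C * B + x ^ (-(q.δ / 4))) := by
  obtain ⟨C, x₀, hC, hx₀, H⟩ := kU_spec m q hq W hW.ok hE
  refine ⟨C, max x₀ 3, hC, le_max_right _ _, ?_⟩
  intro x hx P0 P hP0 hP hPx S B hS hB
  have hx3 : 3 ≤ x := (le_max_right _ _).trans hx
  have hx0 : 0 < x := by linarith
  have h2 := H x ((le_max_left _ _).trans hx) P0 P hP0 hP hPx S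
    (fun s hs => ⟨(hS s hs).p1.poly, (hS s hs).p2.poly, (hS s hs).o1, (hS s hs).o2⟩)
  have h3 := hB (by
    intro s hs
    obtain ⟨t, ht, rfl⟩ := mem_image.mp hs
    exact qh10_pair hq hx0 hP0 (hS t ht))
  refine h2.trans ?_
  have e : x ^ (1 - q.δ / 4) = x * x ^ (-(q.δ / 4)) := by
    rw [sub_eq_add_neg, Real.rpow_add hx0, Real.rpow_one]
  rw [e]
  have : C * x * ∑ s ∈ S.image (fun s => s.2), ThB m W P s.1 s.2 * VP m W P0 P s.1 s.2 ≤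
      C * x * B := mul_le_mul_of_nonneg_left h3 (mul_nonneg hC hx0.le)
  nlinarith

/-- BLOCK QH10 (as PH11; uses PR4, PB4, PB5, QH7, QH9): the final statements for paths. -/
theorem gen11_u (q : Par 11) (hq : q.Ok) {κ : ℝ} (hκ : 0 < κ) (hκ1 : κ ≤ 1 / 10) (m : Fin 11)
    (W : Wts 11) (hW : Bal m W) (hE : EQQ q.δ) :
    ∀ τ : ℝ, 0 < τ → ∃ C x₀ : ℝ, 0 ≤ C ∧ 2 ≤ x₀ ∧ ∀ x ≥ x₀, ∀ P0 P : ℕ,
      Real.log x ^ 60 ≤ P0 → (P0 : ℝ) ≤ Real.exp (Real.log x ^ (1 / 2 : ℝ)) → x ^ τ ≤ P →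
      (P : ℝ) ≤ x ^ (q.δ / (4 * (kU + 1))) →
      ∀ S : Finset (Bas × PolyK 11 × PolyK 11), (∀ s ∈ S, TripP q κ m x P0 s ∧
        Gc m s.2.1 s.2.2 = 1) →
      ∑ s ∈ S, Wt m W P0 P s.2.1 s.2.2 s.1 ≤
        C * x * Real.log x ^ ((ncell m : ℝ) - eB3 m / 2 - eBP m W / 2) := by
  obtain ⟨C1, x1, hC1, hx1, H1⟩ := tri_u q hq (κ := κ) m W hW hE
  obtain ⟨hτ1, hτ1'⟩ := kU_exp hq
  obtain ⟨τ0, hτ0, H2⟩ := cls3_11 q hq hκ hκ1 m W hW
  intro τ hτ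
  set τ' : ℝ := min τ (τ0 / 2) with hτ'def
  have hτ' : 0 < τ' := lt_min hτ (by positivity)
  obtain ⟨C2, x2, hC2, hx2, H2⟩ := H2 τ' hτ'
  set e : ℝ := (ncell m : ℝ) - eB3 m / 2 - eBP m W / 2 with he
  obtain ⟨x3, hx3, H3⟩ := qh10_log (a := q.δ / 4) (b := -e) (by have := hq.δ0; positivity)
  rw [neg_neg] at H3
  obtain ⟨x4, hx4, H4⟩ := qh10_big 2
  obtain ⟨x5, hx5, H5⟩ := qh10_level hτ' hτ0
  refine ⟨C1 * C2 + 1, max (max (max x1 x2) (max x3 x4)) x5, by positivity, ?_, ?_⟩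
  · exact (by linarith : (2 : ℝ) ≤ x5).trans (le_max_right _ _)
  intro x hx P0 P hP0 hP0' hPx hPx' S hS
  have y5 : x5 ≤ x := (le_max_right _ _).trans hx
  have hx' := (le_max_left _ _).trans hx
  have y1 : x1 ≤ x := ((le_max_left _ _).trans (le_max_left _ _)).trans hx'
  have y2 : x2 ≤ x := ((le_max_right _ _).trans (le_max_left _ _)).trans hx'
  have y3 : x3 ≤ x := ((le_max_left _ _).trans (le_max_right _ _)).trans hx'
  have y4 : x4 ≤ x := ((le_max_right _ _).trans (le_max_right _ _)).trans hx'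
  have hx1' : 1 ≤ x := by linarith
  have P2 : 2 ≤ P0 := qh10_P0 (by norm_num) (H4 x y4) hP0
  obtain ⟨l1, l2⟩ := H5 x y5
  have hPle : (P : ℝ) ≤ x := by
    have := hPx'.trans (Real.rpow_le_rpow_of_exponent_le hx1' hτ1')
    rwa [Real.rpow_one] at this
  -- the level `P1`
  set P1 : ℕ := min P ⌊x ^ τ0⌋₊ with hP1
  have a1 : x ^ τ' ≤ (P1 : ℝ) := by
    rw [hP1]
    push_cast
    refine le_min ?_ ?_
    · exact (Real.rpow_le_rpow_of_exponent_le hx1' (min_le_left _ _)).trans hPx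
    · exact (Real.rpow_le_rpow_of_exponent_le hx1' (min_le_right _ _)).trans l2
  have a2 : (P1 : ℝ) ≤ x ^ τ0 := by
    have h1 : (P1 : ℝ) ≤ (⌊x ^ τ0⌋₊ : ℝ) := by exact_mod_cast min_le_right _ _
    exact h1.trans (Nat.floor_le (by positivity))
  have a3 : P1 ≤ P := min_le_left _ _
  have a4 : P0 ≤ P1 := by
    have : (P0 : ℝ) ≤ P1 := (hP0'.trans l1).trans a1
    exact_mod_cast this
  have a5 : 1 ≤ P := by omega
  have K := H1 x y1 P0 P P2 a5 hPx' S (C2 * Real.log x ^ e)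
    (fun s hs => (hS s hs).1) (fun hp => H2 x y2 P0 P1 P hP0 a4 a3 a1 a2 hPle _ (fun s hs => by
      refine ⟨hp s hs, ?_⟩
      obtain ⟨t, ht, rfl⟩ := mem_image.mp hs
      exact (hS t ht).2))
  refine K.trans ?_
  have := H3 x y3
  have hx0 : 0 ≤ x := by linarith
  calc x * (C1 * (C2 * Real.log x ^ e) + x ^ (-(q.δ / 4))) ≤
      x * (C1 * (C2 * Real.log x ^ e) + Real.log x ^ e) := by gcongr
    _ = (C1 * C2 + 1) * x * Real.log x ^ e := by ring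

theorem small11_u (q : Par 11) (hq : q.Ok) {κ : ℝ} (hκ : 0 < κ) (hκ1 : κ ≤ 1 / 10) (m : Fin 11)
    (W : Wts 11) (hW : Bal m W) (hE : EQQ q.δ) :
    ∀ τ : ℝ, 0 < τ → ∃ x₀ : ℝ, 2 ≤ x₀ ∧ ∀ x ≥ x₀, ∀ P0 P : ℕ,
      Real.log x ^ 200 ≤ P0 → P0 ≤ P → x ^ τ ≤ P → (P : ℝ) ≤ x ^ (q.δ / (4 * (kU + 1))) →
      ∀ S : Finset (Bas × PolyK 11 × PolyK 11), (∀ s ∈ S, TripP q κ m x P0 s ∧
        1 < Gc m s.2.1 s.2.2 ∧ (Gc m s.2.1 s.2.2 : ℝ) ≤ x ^ (κ / 8)) →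
      ∑ s ∈ S, Wt m W P0 P s.2.1 s.2.2 s.1 ≤ x * Real.log x ^ (-110 : ℝ) := by
  obtain ⟨C1, x1, hC1, hx1, H1⟩ := tri_u q hq (κ := κ) m W hW hE
  obtain ⟨hτ1, hτ1'⟩ := kU_exp hq
  intro τ hτ
  obtain ⟨x2, hx2, H2⟩ := cls2_11 q hq hκ hκ1 m W hW hτ
  obtain ⟨x3, hx3, H3⟩ := qh10_log (a := q.δ / 4) (b := 111) (by have := hq.δ0; positivity)
  obtain ⟨x4, hx4, H4⟩ := qh10_big (max 2 (2 * C1))
  refine ⟨max (max x1 x2) (max x3 x4), ?_, ?_⟩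
  · exact (by linarith : (2 : ℝ) ≤ x1).trans ((le_max_left _ _).trans (le_max_left _ _))
  intro x hx P0 P hP0 hP hPx hPx' S hS
  have y1 : x1 ≤ x := ((le_max_left _ _).trans (le_max_left _ _)).trans hx
  have y2 : x2 ≤ x := ((le_max_right _ _).trans (le_max_left _ _)).trans hx
  have y3 : x3 ≤ x := ((le_max_left _ _).trans (le_max_right _ _)).trans hx
  have y4 : x4 ≤ x := ((le_max_right _ _).trans (le_max_right _ _)).trans hx
  have hx1' : 1 ≤ x := by linarith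
  have L2 : 2 ≤ Real.log x := (le_max_left _ _).trans (H4 x y4)
  have L2' : 2 * C1 ≤ Real.log x := (le_max_right _ _).trans (H4 x y4)
  have P2 : 2 ≤ P0 := qh10_P0 (by norm_num) L2 hP0
  have q2 : (P : ℝ) ≤ x := by
    have := hPx'.trans (Real.rpow_le_rpow_of_exponent_le hx1' hτ1')
    rwa [Real.rpow_one] at this
  have K := H1 x y1 P0 P P2 (by omega) hPx' S (Real.log x ^ (-120 : ℝ))
    (fun s hs => (hS s hs).1) (fun hp => H2 x y2 P0 P hP0 hP hPx q2 _ (fun s hs => by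
      refine ⟨hp s hs, ?_⟩
      obtain ⟨t, ht, rfl⟩ := mem_image.mp hs
      exact (hS t ht).2))
  refine K.trans ?_
  have h3 := H3 x y3
  have hx0 : 0 ≤ x := by linarith
  have h5 := qh10_sum hC1 L2 L2'
  exact mul_le_mul_of_nonneg_left (by linarith) hx0

theorem negN_u (q : Par 11) (hq : q.Ok) {κ : ℝ} (hκ : 0 < κ) (hκ1 : κ ≤ 1 / 10) 
    (W : Wts 11) (hW : Bal 0 W) (hE : EQQ q.δ) :
    ∀ τ : ℝ, 0 < τ → ∃ x₀ : ℝ, 2 ≤ x₀ ∧ ∀ x ≥ x₀, ∀ P0 P : ℕ,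
      Real.log x ^ 200 ≤ P0 → P0 ≤ P → x ^ τ ≤ P → (P : ℝ) ≤ x ^ (q.δ / (4 * (kU + 1))) →
      ∀ S : Finset (Bas × PolyK 11 × PolyK 11), (∀ s ∈ S, TripP q κ 0 x P0 s ∧
        Gc 0 s.2.1 s.2.2 = 1 ∧ (1 < Nat.gcd (bad 0 s.2.1) (DD 0 s.2.2) ∨
          1 < Nat.gcd (DD 0 s.2.1) (bad 0 s.2.2))) →
      ∑ s ∈ S, Wt 0 W P0 P s.2.1 s.2.2 s.1 ≤ x * Real.log x ^ (-110 : ℝ) := by
  obtain ⟨C1, x1, hC1, hx1, H1⟩ := tri_u q hq (κ := κ) 0 W hW hE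
  obtain ⟨hτ1, hτ1'⟩ := kU_exp hq
  intro τ hτ
  obtain ⟨x2, hx2, H2⟩ := clsN_11 q hq hκ hκ1 W hW hτ
  obtain ⟨x3, hx3, H3⟩ := qh10_log (a := q.δ / 4) (b := 111) (by have := hq.δ0; positivity)
  obtain ⟨x4, hx4, H4⟩ := qh10_big (max 2 (2 * C1))
  refine ⟨max (max x1 x2) (max x3 x4), ?_, ?_⟩
  · exact (by linarith : (2 : ℝ) ≤ x1).trans ((le_max_left _ _).trans (le_max_left _ _))
  intro x hx P0 P hP0 hP hPx hPx' S hS
  have y1 : x1 ≤ x := ((le_max_left _ _).trans (le_max_left _ _)).trans hx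
  have y2 : x2 ≤ x := ((le_max_right _ _).trans (le_max_left _ _)).trans hx
  have y3 : x3 ≤ x := ((le_max_left _ _).trans (le_max_right _ _)).trans hx
  have y4 : x4 ≤ x := ((le_max_right _ _).trans (le_max_right _ _)).trans hx
  have hx1' : 1 ≤ x := by linarith
  have L2 : 2 ≤ Real.log x := (le_max_left _ _).trans (H4 x y4)
  have L2' : 2 * C1 ≤ Real.log x := (le_max_right _ _).trans (H4 x y4)
  have P2 : 2 ≤ P0 := qh10_P0 (by norm_num) L2 hP0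
  have q2 : (P : ℝ) ≤ x := by
    have := hPx'.trans (Real.rpow_le_rpow_of_exponent_le hx1' hτ1')
    rwa [Real.rpow_one] at this
  have K := H1 x y1 P0 P P2 (by omega) hPx' S (Real.log x ^ (-120 : ℝ))
    (fun s hs => (hS s hs).1) (fun hp => H2 x y2 P0 P hP0 hP hPx q2 _ (fun s hs => by
      refine ⟨hp s hs, ?_⟩
      obtain ⟨t, ht, rfl⟩ := mem_image.mp hs
      exact (hS t ht).2))
  refine K.trans ?_
  have h3 := H3 x y3
  have hx0 : 0 ≤ x := by linarith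
  have h5 := qh10_sum hC1 L2 L2'
  exact mul_le_mul_of_nonneg_left (by linarith) hx0

theorem VP_le_one11 {m : Fin 11} (W : Wts 11) (hW : W.Ok) (P0 P : ℕ) (u u' : PolyK 11) :
    VP m W P0 P u u' ≤ 1 := by
  unfold VP
  apply Finset.prod_le_one
  · intro p _
    linarith [pr4_vv_le W hW P0 u u' p]
  · intro p _
    have : 0 ≤ vv W P0 u u' p := by
      unfold vv mV
      apply div_nonneg _ (Nat.cast_nonneg _)
      exact Finset.sum_nonneg fun r _ => by linarith [(phi_mem W hW P0 u u' p r).2]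
    linarith

/-- the pairs with a bound for `Gc m gcd gcd / (D D')` -/
theorem large_u (q : Par 11) (hq : q.Ok) {κ : ℝ} (m : Fin 11) (W : Wts 11) (hW : Bal m W)
    (hE : EQQ q.δ) {c : ℝ} (hc : 0 < c) : ∃ x₀ : ℝ, 2 ≤ x₀ ∧ ∀ x ≥ x₀, ∀ P0 P : ℕ,
      2 ≤ P0 → 1 ≤ P → (P : ℝ) ≤ x ^ (q.δ / (4 * (kU + 1))) →
      ∀ S : Finset (Bas × PolyK 11 × PolyK 11), (∀ s ∈ S, TripP q κ m x P0 s) →
      ∑ s ∈ S.image (fun s => s.2), ((Gc m s.1 s.2 : ℝ) * Nat.gcd (dn m s.1 1) (dn m s.2 1) *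
        Nat.gcd (dn m s.1 (-1)) (dn m s.2 (-1)) / (DD m s.1 * DD m s.2)) ≤ x ^ (-c) →
      ∑ s ∈ S, Wt m W P0 P s.2.1 s.2.2 s.1 ≤ x * Real.log x ^ (-110 : ℝ) := by
  obtain ⟨C1, x1, hC1, hx1, H1⟩ := tri_u q hq (κ := κ) m W hW hE
  obtain ⟨x2, hx2, H2⟩ := ThB_crude (K := 11) (by norm_num) q hq W hW.ok (θ := c / 2) (by positivity)
  obtain ⟨x3, hx3, H3⟩ := qh10_log (a := q.δ / 4) (b := 111) (by have := hq.δ0; positivity)
  obtain ⟨x4, hx4, H4⟩ := qh10_big (max 2 (2 * C1))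
  obtain ⟨x5, hx5, H5⟩ := qh10_log (a := c / 2) (b := 120) (by positivity)
  refine ⟨max (max x1 x2) (max (max x3 x4) x5), ?_, ?_⟩
  · exact (by linarith : (2 : ℝ) ≤ x1).trans ((le_max_left _ _).trans (le_max_left _ _))
  intro x hx P0 P hP0 hP hPx S hS hB
  have y1 : x1 ≤ x := ((le_max_left _ _).trans (le_max_left _ _)).trans hx
  have y2 : x2 ≤ x := ((le_max_right _ _).trans (le_max_left _ _)).trans hx
  have y3 : x3 ≤ x := ((le_max_left _ _).trans ((le_max_left _ _).trans (le_max_right _ _))).trans hx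
  have y4 : x4 ≤ x := ((le_max_right _ _).trans ((le_max_left _ _).trans (le_max_right _ _))).trans hx
  have y5 : x5 ≤ x := ((le_max_right _ _).trans (le_max_right _ _)).trans hx
  have hx1' : 1 ≤ x := by linarith
  have hx0' : 0 < x := by linarith
  have L2 : 2 ≤ Real.log x := (le_max_left _ _).trans (H4 x y4)
  have L2' : 2 * C1 ≤ Real.log x := (le_max_right _ _).trans (H4 x y4)
  have K := H1 x y1 P0 P hP0 hP hPx S (Real.log x ^ (-120 : ℝ)) hS (fun hp => by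
    have a1 : ∀ s ∈ S.image (fun s => s.2), ThB m W P s.1 s.2 * VP m W P0 P s.1 s.2 ≤
        x ^ (c / 2) * ((Gc m s.1 s.2 : ℝ) * Nat.gcd (dn m s.1 1) (dn m s.2 1) *
        Nat.gcd (dn m s.1 (-1)) (dn m s.2 (-1)) / (DD m s.1 * DD m s.2)) := by
      intro s hs
      have b1 := H2 x y2 P0 P hP0 s.1 s.2 (hp s hs).p1.poly (hp s hs).p2.poly
      have b2 := pr4_VP (m := m) W hW.ok P0 P s.1 s.2
      have b3 : VP m W P0 P s.1 s.2 ≤ 1 := VP_le_one11 W hW.ok P0 P s.1 s.2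
      have b4 : 0 ≤ x ^ (c / 2) * ((Gc m s.1 s.2 : ℝ) * Nat.gcd (dn m s.1 1) (dn m s.2 1) *
        Nat.gcd (dn m s.1 (-1)) (dn m s.2 (-1)) / (DD m s.1 * DD m s.2)) :=
        mul_nonneg (Real.rpow_nonneg hx0'.le _) (div_nonneg (mul_nonneg (mul_nonneg
          (Nat.cast_nonneg _) (Nat.cast_nonneg _)) (Nat.cast_nonneg _))
          (mul_nonneg (Nat.cast_nonneg _) (Nat.cast_nonneg _)))
      calc _ ≤ _ * VP m W P0 P s.1 s.2 := mul_le_mul_of_nonneg_right b1 b2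
        _ ≤ _ * 1 := mul_le_mul_of_nonneg_left b3 b4
        _ = _ := mul_one _
    refine (Finset.sum_le_sum a1).trans ?_
    rw [← Finset.mul_sum]
    have a2 : x ^ (c / 2) * ∑ s ∈ S.image (fun s => s.2), ((Gc m s.1 s.2 : ℝ) *
        Nat.gcd (dn m s.1 1) (dn m s.2 1) * Nat.gcd (dn m s.1 (-1)) (dn m s.2 (-1)) /
        (DD m s.1 * DD m s.2)) ≤ x ^ (c / 2) * x ^ (-c) :=
      mul_le_mul_of_nonneg_left hB (Real.rpow_nonneg hx0'.le _)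
    refine a2.trans ?_
    rw [← Real.rpow_add hx0']
    have e : c / 2 + -c = -(c / 2) := by ring
    rw [e]
    exact H5 x y5)
  refine K.trans ?_
  have h3 := H3 x y3
  have h5 := qh10_sum hC1 L2 L2'
  exact mul_le_mul_of_nonneg_left (by linarith) hx0'.le

end Pool.Agent.AQ.PENK
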